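import Pool.Agent.HNNA.Defs

/-! MP_4b60bf_al.  Basic lemmas on `WD` and `UAS` (proved). -/

namespace Pool.Agent.HNNA

namespace WD

variable (D : WD)

@[simp] lemma ht_one : D.ht 1 = 0 := by
  have := D.ht_mul 1 1
  simp at this
  exact this

@[simp] lemma ht_inv (x : D.G) : D.ht x⁻¹ = - D.ht x := by
  have := D.ht_mul x x⁻¹
  simp at this
  linarith

lemma ht_pow (x : D.G) (k : ℕ) : D.ht (x ^ k) = k * D.ht x := by
  induction k with
  | zero => simp
  | succ k ih => rw [pow_succ, D.ht_mul, ih]; push_cast; ring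

@[simp] lemma u_one : D.u 1 = 0 := by
  have := D.u_mul 1 1
  simp at this
  exact this

lemma Apow_add (a b : ℤ) (x : V D.n) : (D.A ^ (a + b)) x = (D.A ^ a) ((D.A ^ b) x) := by
  rw [zpow_add]; rfl

lemma Apow_neg_cancel (a : ℤ) (x : V D.n) : (D.A ^ (-a)) ((D.A ^ a) x) = x := by
  rw [← D.Apow_add]; simp

lemma Apow_cancel_neg (a : ℤ) (x : V D.n) : (D.A ^ a) ((D.A ^ (-a)) x) = x := by
  rw [← D.Apow_add]; simp

lemma u_inv (x : D.G) : D.u x⁻¹ = - (D.A ^ (- D.ht x)) (D.u x) := by
  have h := D.u_mul x⁻¹ x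
  simp only [inv_mul_cancel, u_one, ht_inv] at h
  exact eq_neg_of_add_eq_zero_left h.symm

lemma u_mul_zero {x : D.G} (hx : D.ht x = 0) (y : D.G) : D.u (x * y) = D.u x + D.u y := by
  rw [D.u_mul, hx]; simp

lemma u_pow {x : D.G} (hx : D.ht x = 0) (k : ℕ) : D.u (x ^ k) = (k : ℂ) • D.u x := by
  induction k with
  | zero => simp
  | succ k ih =>
    rw [pow_succ, D.u_mul_zero (by rw [D.ht_pow, hx]; simp), ih]
    push_cast
    rw [add_smul, one_smul]

lemma u_tinv : D.u D.t⁻¹ = 0 := by
  rw [D.u_inv, D.u_t]; simp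

@[simp] lemma ht_tinv : D.ht D.t⁻¹ = -1 := by rw [D.ht_inv, D.ht_t]

lemma eig_zpow {D : WD} {ξ : V D.n →ₗ[ℂ] ℂ} {lam : ℂ} (h : D.Eig ξ lam) (hl : lam ≠ 0) (k : ℤ)
    (x : V D.n) : ξ ((D.A ^ k) x) = lam ^ k * ξ x := by
  induction k using Int.induction_on generalizing x with
  | zero => simp
  | succ k ih =>
    rw [D.Apow_add, ih]
    have h1 : (D.A ^ (1 : ℤ)) x = D.A x := by simp
    rw [h1, h, zpow_add₀ hl, zpow_one]; ring
  | pred k ih =>
    rw [sub_eq_add_neg, D.Apow_add, ih]
    have h2 := h ((D.A ^ (-1 : ℤ)) x)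
    have h3 : D.A ((D.A ^ (-1 : ℤ)) x) = x := by
      have := D.Apow_cancel_neg 1 x
      rwa [zpow_one] at this
    rw [h3] at h2
    rw [zpow_add₀ hl, h2, zpow_neg lam 1, zpow_one]
    field_simp

end WD

namespace UAS

variable {D : WD} (U : UAS D)

@[simp] lemma ev_nil : U.ev [] = 1 := rfl

@[simp] lemma ev_append (x y : U.W) : U.ev (x ++ y) = U.ev x * U.ev y := by
  simp [ev]

@[simp] lemma ev_singleton (i : Fin U.k) : U.ev [i] = U.gen i := by simp [ev]

lemma ev_cons (i : Fin U.k) (x : U.W) : U.ev (i :: x) = U.gen i * U.ev x := by simp [ev]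

@[simp] lemma go_nil (s : U.S) : U.go s [] = s := rfl

@[simp] lemma go_append (s : U.S) (x y : U.W) : U.go s (x ++ y) = U.go (U.go s x) y := by
  simp [go, DFA.evalFrom_of_append]

@[simp] lemma pos_zero (w : U.W) : U.pos w 0 = 1 := by simp [pos]

lemma pos_of_le {w : U.W} {m : ℕ} (h : w.length ≤ m) : U.pos w m = U.ev w := by
  simp [pos, List.take_of_length_le h]

@[simp] lemma pos_length (w : U.W) : U.pos w w.length = U.ev w := U.pos_of_le le_rfl

lemma pos_append_left {x y : U.W} {m : ℕ} (h : m ≤ x.length) :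
    U.pos (x ++ y) m = U.pos x m := by
  simp [pos, List.take_append_of_le_length h]

lemma pos_append_right (x y : U.W) (m : ℕ) :
    U.pos (x ++ y) (x.length + m) = U.ev x * U.pos y m := by
  have h : (x ++ y).take (x.length + m) = x ++ y.take m := by
    rw [List.take_append, List.take_of_length_le (by omega)]
    congr 2
    omega
  rw [pos, h, ev_append, pos]

lemma pos_succ {w : U.W} {m : ℕ} (h : m < w.length) :
    U.pos w (m + 1) = U.pos w m * U.gen w[m] := by
  unfold pos
  rw [List.take_add_one, List.getElem?_eq_getElem h, ev_append]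
  simp [ev]

lemma st_eq (w : U.W) (m : ℕ) : U.st w m = U.go U.M.start (w.take m) := rfl

@[simp] lemma st_zero (w : U.W) : U.st w 0 = U.M.start := by simp [st]

lemma st_of_le {w : U.W} {m : ℕ} (h : w.length ≤ m) : U.st w m = U.go U.M.start w := by
  simp [st, go, DFA.eval, List.take_of_length_le h]

lemma mem_accepts_iff (w : U.W) : w ∈ U.M.accepts ↔ U.go U.M.start w ∈ U.M.accept := Iff.rfl

/-- the piece of `w` between the times `a` and `b` leads from `st w a` to `st w b` -/
lemma go_piece (w : U.W) {a b : ℕ} (h : a ≤ b) :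
    U.go (U.st w a) ((w.take b).drop a) = U.st w b := by
  rw [st_eq, st_eq, ← go_append]
  congr 1
  have h2 : w.take a = (w.take b).take a := by simp [List.take_take, h]
  rw [h2, List.take_append_drop]

lemma ev_piece (w : U.W) {a b : ℕ} (h : a ≤ b) :
    U.ev ((w.take b).drop a) = (U.pos w a)⁻¹ * U.pos w b := by
  have h2 : w.take a = (w.take b).take a := by simp [List.take_take, h]
  have h3 : U.ev (w.take b) = U.ev (w.take a) * U.ev ((w.take b).drop a) := by
    rw [← ev_append]
    congr 1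
    rw [h2, List.take_append_drop]
  simp only [pos]
  rw [h3]; simp

lemma wd_mem (g : D.G) : U.wd g ∈ U.M.accepts := (U.surj g).choose_spec.1

@[simp] lemma ev_wd (g : D.G) : U.ev (U.wd g) = g := (U.surj g).choose_spec.2

lemma wd_ev {w : U.W} (hw : w ∈ U.M.accepts) : U.wd (U.ev w) = w :=
  U.uniq _ (U.wd_mem _) _ hw (U.ev_wd _)

/-- paths from the start to a coaccessible state are determined by their value -/
lemma path_uniq {s : U.S} (hs : U.coacc s) {α α' : U.W} (h : U.go U.M.start α = s)
    (h' : U.go U.M.start α' = s) (he : U.ev α = U.ev α') : α = α' := by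
  obtain ⟨ω, hω⟩ := hs
  have h1 : α ++ ω = α' ++ ω := by
    apply U.uniq
    · rw [mem_accepts_iff, go_append, h]; exact hω
    · rw [mem_accepts_iff, go_append, h']; exact hω
    · change U.ev (α ++ ω) = U.ev (α' ++ ω)
      simp [he]
  exact List.append_cancel_right h1

/-- paths between two states (accessible, coaccessible) are determined by their value -/
lemma path_uniq' {s s' : U.S} (hs : U.acc s) (hs' : U.coacc s') {x x' : U.W}
    (h : U.go s x = s') (h' : U.go s x' = s') (he : U.ev x = U.ev x') : x = x' := by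
  obtain ⟨α, hα⟩ := hs
  have h1 : α ++ x = α ++ x' := by
    apply U.path_uniq hs'
    · rw [go_append, hα, h]
    · rw [go_append, hα, h']
    · simp [he]
  exact List.append_cancel_left h1

/-- accepted continuations are determined by their value -/
lemma acc_uniq {s : U.S} (hs : U.acc s) {x x' : U.W} (h : U.go s x ∈ U.M.accept)
    (h' : U.go s x' ∈ U.M.accept) (he : U.ev x = U.ev x') : x = x' := by
  obtain ⟨α, hα⟩ := hs
  have h1 : α ++ x = α ++ x' := by
    apply U.uniq
    · rw [mem_accepts_iff, go_append, hα]; exact h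
    · rw [mem_accepts_iff, go_append, hα]; exact h'
    · change U.ev (α ++ x) = U.ev (α ++ x')
      simp [he]
  exact List.append_cancel_left h1

lemma acc_go {s : U.S} (h : U.acc s) (x : U.W) : U.acc (U.go s x) := by
  obtain ⟨α, hα⟩ := h
  exact ⟨α ++ x, by rw [go_append, hα]⟩

lemma coacc_of_go {s : U.S} {x : U.W} (h : U.coacc (U.go s x)) : U.coacc s := by
  obtain ⟨ω, hω⟩ := h
  exact ⟨x ++ ω, by rw [go_append]; exact hω⟩

lemma acc_start : U.acc U.M.start := ⟨[], rfl⟩

lemma st_live {w : U.W} (hw : w ∈ U.M.accepts) (m : ℕ) : U.live (U.st w m) := by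
  refine ⟨⟨w.take m, rfl⟩, ⟨w.drop m, ?_⟩⟩
  rw [st_eq, ← go_append, List.take_append_drop]
  exact hw

lemma Stay.nil_iff {r : D.G} : U.Stay r [] ↔ r ∈ D.br := by
  constructor
  · intro h; simpa using h 0
  · intro h m; simpa [pos] using h

lemma Stay.start {r : D.G} {x : U.W} (h : U.Stay r x) : r ∈ D.br := by simpa using h 0

lemma Stay.last {r : D.G} {x : U.W} (h : U.Stay r x) : r * U.ev x ∈ D.br := by
  simpa using h x.length

lemma stay_append {r : D.G} {x y : U.W} :
    U.Stay r (x ++ y) ↔ U.Stay r x ∧ U.Stay (r * U.ev x) y := by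
  constructor
  · intro h
    refine ⟨fun m => ?_, fun m => ?_⟩
    · rcases le_total m x.length with hm | hm
      · rw [← U.pos_append_left (y := y) hm]; exact h m
      · rw [U.pos_of_le hm, ← U.pos_length, ← U.pos_append_left (y := y) le_rfl]
        exact h _
    · rw [mul_assoc, ← U.pos_append_right]; exact h _
  · rintro ⟨h1, h2⟩ m
    rcases le_total m x.length with hm | hm
    · rw [U.pos_append_left hm]; exact h1 m
    · obtain ⟨c, rfl⟩ := Nat.exists_eq_add_of_le hm
      rw [U.pos_append_right, ← mul_assoc]; exact h2 c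

end UAS

end Pool.Agent.HNNA
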