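import Mathlib

/-! MP_4b60bf_al (frozen S01388): no HNN extension `G(A, L')` of `Z^n` with `A` of infinite
order is automatic.  DEFINITIONS.

`G = < L, t | t x t^-1 = A x  (x in P) >`, `L = Z^n`, `B = A P`.
The group acts on `C^n` by `x |-> A^(ht g) x + u g` and on the Bass-Serre tree.
`br` is the set of all `g` such that the vertex `g L` lies beyond the edge `(L, t L)`. -/

namespace Pool.Agent.HNNA

/-- `C^n` with the sup norm. -/
abbrev V (n : ℕ) : Type := Fin n → ℂ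

/-- Working data. -/
structure WD where
  n : ℕ
  G : Type
  [grp : Group G]
  /-- the vertex group `Z^n` -/
  L : Subgroup G
  /-- `P = L'`, conjugated into `B` by `t` -/
  P : Subgroup G
  B : Subgroup G
  t : G
  A : V n ≃ₗ[ℂ] V n
  /-- height, the exponent sum of `t` -/
  ht : G → ℤ
  /-- the translation part of the affine action on `C^n` -/
  u : G → V n
  /-- the up-branch beyond the edge `(L, t L)` -/
  br : Set G
  L_comm : ∀ x ∈ L, ∀ y ∈ L, x * y = y * x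
  P_le : P ≤ L
  B_le : B ≤ L
  conj_P : ∀ x ∈ P, t * x * t⁻¹ ∈ B
  conj_B : ∀ x ∈ B, t⁻¹ * x * t ∈ P
  ht_mul : ∀ x y, ht (x * y) = ht x + ht y
  ht_L : ∀ x ∈ L, ht x = 0
  ht_t : ht t = 1
  u_mul : ∀ x y, u (x * y) = u x + (A ^ ht x) (u y)
  u_t : u t = 0
  u_int : ∀ x ∈ L, ∃ z : Fin n → ℤ, u x = fun i => (z i : ℂ)
  u_surj : ∀ z : Fin n → ℤ, ∃ x ∈ L, u x = fun i => (z i : ℂ)
  u_inj : ∀ x ∈ L, u x = 0 → x = 1
  P_fin : ∃ F : Set G, F.Finite ∧ (∀ f ∈ F, f ∈ L) ∧ ∀ x ∈ L, ∃ f ∈ F, ∃ y ∈ P, x = y * f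
  B_fin : ∃ F : Set G, F.Finite ∧ (∀ f ∈ F, f ∈ L) ∧ ∀ x ∈ L, ∃ f ∈ F, ∃ y ∈ B, x = y * f
  /-- induction principle: `G` is generated by `L` and `t` -/
  ind : ∀ p : G → Prop, p 1 → (∀ x, ∀ y ∈ L, p x → p (x * y)) →
    (∀ x, p x → p (x * t)) → (∀ x, p x → p (x * t⁻¹)) → ∀ x, p x
  br_L : ∀ x, ∀ y ∈ L, (x * y ∈ br ↔ x ∈ br)
  br_t : ∀ x, x ∉ B → (x * t ∈ br ↔ x ∈ br)
  br_B : ∀ x ∈ B, x ∉ br ∧ x * t ∈ br

attribute [instance] WD.grp

namespace WD

variable (D : WD)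

/-- All powers of `A` are bounded. -/
def Bdd : Prop := ∃ C : ℝ, 0 < C ∧ ∀ (k : ℤ) (x : V D.n), ‖(D.A ^ k) x‖ ≤ C * ‖x‖

/-- `ξ` is an eigen-covector of `A` with eigenvalue `lam`. -/
def Eig (ξ : V D.n →ₗ[ℂ] ℂ) (lam : ℂ) : Prop := ∀ x, ξ (D.A x) = lam * ξ x

/-- `P` is tree-bounded: contained in finitely many right cosets of `L`
(equivalently in finitely many left cosets, i.e. bounded in the Bass-Serre tree). -/
def TB (P : Set D.G) : Prop :=
  ∃ F : Set D.G, F.Finite ∧ ∀ x ∈ P, ∃ y ∈ D.L, ∃ f ∈ F, x = y * f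

/-- elliptic: some positive power lies in `L`. -/
def Ell (x : D.G) : Prop := ∃ c : ℕ, 1 ≤ c ∧ x ^ c ∈ D.L

/-- `lv j = (t L)^j B`: representatives of the all-up branches of level `j`;
the branch of `y ∈ lv j` is `y · br`. -/
def lv : ℕ → Set D.G
  | 0 => {x | x ∈ D.B}
  | j + 1 => {x | ∃ l ∈ D.L, ∃ y ∈ lv j, x = D.t * l * y}

end WD

/-- A unique automatic structure: a DFA accepting exactly one word for each element, with the
fellow traveller property (differences in the finite symmetric set `K`). -/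
structure UAS (D : WD) where
  k : ℕ
  gen : Fin k → D.G
  S : Type
  [fin : Fintype S]
  M : DFA (Fin k) S
  K : Set D.G
  K_fin : K.Finite
  K_one : (1 : D.G) ∈ K
  K_inv : ∀ x ∈ K, x⁻¹ ∈ K
  surj : ∀ g : D.G, ∃ w ∈ M.accepts, (w.map gen).prod = g
  uniq : ∀ w ∈ M.accepts, ∀ w' ∈ M.accepts, (w.map gen).prod = (w'.map gen).prod → w = w'
  ft : ∀ w ∈ M.accepts, ∀ w' ∈ M.accepts, ∀ i, (w'.map gen).prod = (w.map gen).prod * gen i →
    ∀ m : ℕ, ((w.take m).map gen).prod⁻¹ * ((w'.take m).map gen).prod ∈ K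

attribute [instance] UAS.fin

namespace UAS

variable {D : WD} (U : UAS D)

/-- words of the structure -/
abbrev W : Type := List (Fin U.k)

/-- the value of a word -/
def ev (w : U.W) : D.G := (w.map U.gen).prod

/-- the element reached after `m` letters -/
def pos (w : U.W) (m : ℕ) : D.G := U.ev (w.take m)

/-- the state reached from the start after `m` letters -/
def st (w : U.W) (m : ℕ) : U.S := U.M.eval (w.take m)

/-- the state reached from `s` along `x` -/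
def go (s : U.S) (x : U.W) : U.S := U.M.evalFrom s x

def acc (s : U.S) : Prop := ∃ α : U.W, U.go U.M.start α = s

def coacc (s : U.S) : Prop := ∃ ω : U.W, U.go s ω ∈ U.M.accept

def live (s : U.S) : Prop := U.acc s ∧ U.coacc s

/-- the normal form of `g` -/
noncomputable def wd (g : D.G) : U.W := (U.surj g).choose

/-- `x`, read from the position `r`, stays in the branch `br`. -/
def Stay (r : D.G) (x : U.W) : Prop := ∀ m : ℕ, r * U.pos x m ∈ D.br

/-- The (single) type `(s, B r)` is realised at the branch `γ · br`. -/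
def Real (γ : D.G) (s : U.S) (r : D.G) : Prop :=
  ∃ π : U.W, U.go U.M.start π = s ∧ ∃ z ∈ D.B, U.ev π = γ * z * r

/-- tents from `(s, r)` are bounded. -/
def Tame1 (s : U.S) (r : D.G) : Prop :=
  ∀ P : Set D.G, D.TB P → ∃ P' : Set D.G, D.TB P' ∧ ∀ x : U.W, U.coacc (U.go s x) →
    U.Stay r x → r * U.ev x ∈ P → ∀ m, r * U.pos x m ∈ P'

/-- all elliptic loops reachable from `s` have a velocity of finite `A`-orbit. -/
def Tame2 (s : U.S) : Prop :=
  ∀ y : U.W, U.coacc (U.go s y) → ∀ e : U.W, e ≠ [] → U.go (U.go s y) e = U.go s y →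
    U.ev e ∈ D.L → ∃ k : ℕ, 1 ≤ k ∧ (D.A ^ k) (D.u (U.ev e)) = D.u (U.ev e)

/-- pair types `(s, s', d, r)`: state of the first word, state of the second word,
difference, relative position of the first word. -/
abbrev PT : Type := U.S × U.S × D.G × D.G

/-- Suffixes of pair type `Y` ending at level `j`. `b` is the fixed right multiplier. -/
def Suf (b : D.G) (Y : U.PT) (j : ℕ) : Set U.W :=
  {σ | U.go Y.1 σ ∈ U.M.accept ∧ U.Stay Y.2.2.2 σ ∧ Y.2.2.2 * U.ev σ ∈ D.lv j ∧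
    ∃ σ' : U.W, U.go Y.2.1 σ' ∈ U.M.accept ∧ U.ev σ * b = Y.2.2.1 * U.ev σ'}

/-- Prefixes of pair type `Y`, cut at the entry in a branch of level `k` above `γ`. -/
def Pre (γ : D.G) (k : ℕ) (Y : U.PT) : Set U.W :=
  {π | π ≠ [] ∧ U.go U.M.start π = Y.1 ∧ Y.2.2.2 ∈ D.br ∧
    (∃ y ∈ D.lv k, U.ev π = γ * y * Y.2.2.2 ∧ (γ * y)⁻¹ * U.ev π.dropLast ∉ D.br) ∧
    ∃ π' : U.W, π'.length = π.length ∧ U.go U.M.start π' = Y.2.1 ∧
      U.ev π' = U.ev π * Y.2.2.1}

/-- Middle pieces between pair types `Y` (level 0) and `Y'` (level 1). -/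
def Mid (Y Y' : U.PT) : Set U.W :=
  {x | U.go Y.1 x = Y'.1 ∧ U.Stay Y.2.2.2 x ∧ Y'.2.2.2 ∈ D.br ∧
    (∃ l ∈ D.L, Y.2.2.2 * U.ev x = D.t * l * Y'.2.2.2 ∧
      (x = [] ∨ (D.t * l)⁻¹ * (Y.2.2.2 * U.ev x.dropLast) ∉ D.br)) ∧
    ∃ x' : U.W, x'.length = x.length ∧ U.go Y.2.1 x' = Y'.2.1 ∧
      Y.2.2.1 * U.ev x' = U.ev x * Y'.2.2.1}

/-- `R` is a good finite set of entry positions. -/
structure EntrySet (R : Set D.G) : Prop where
  fin : R.Finite
  entry : ∀ x : D.G, x ∉ D.br → ∀ i, x * U.gen i ∈ D.br → ∃ b ∈ D.B, ∃ r ∈ R, x * U.gen i = b * r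
  inj : ∀ r ∈ R, ∀ r' ∈ R, ∀ b ∈ D.B, r' = b * r → r' = r
  src : ∀ r ∈ R, ∃ x : D.G, x ∉ D.br ∧ ∃ i, r = x * U.gen i
  mem : ∀ r ∈ R, r ∈ D.br

/-- The last entry position of `w` in the branch `γ · br` (junk value 1 when the end of `w`
is outside the branch). State of the fold: (current position, current entry position). -/
noncomputable def entStep (γ : D.G) (p : D.G × D.G) (i : Fin U.k) : D.G × D.G := by
  classical
  exact (p.1 * U.gen i,
    if γ⁻¹ * (p.1 * U.gen i) ∈ D.br then (if γ⁻¹ * p.1 ∈ D.br then p.2 else p.1 * U.gen i) else 1)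

/-- see `entStep` -/
noncomputable def Ent (γ : D.G) (w : U.W) : D.G := (w.foldl (U.entStep γ) (1, 1)).2

/-- growth series of a set of words -/
noncomputable def gs (X : Set U.W) (ρ : ℝ) : ℝ := ∑' w : X, ρ ^ (w : U.W).length

end UAS

/-- `w` repeated `m` times -/
def wpow {α : Type} (w : List α) : ℕ → List α
  | 0 => []
  | m + 1 => w ++ wpow w m

end Pool.Agent.HNNA
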