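import Mathlib
import Pool.Agent.HNNA.Defs

/-! MP_4b60bf_al.  The complexification `cA A` of a rational invertible matrix and the
compatibility condition of the frozen statement. -/

namespace Pool.Agent.HNNA

/-- the complexification of a rational invertible matrix -/
noncomputable def cA {n : ℕ} : Matrix.GeneralLinearGroup (Fin n) ℚ →* (V n ≃ₗ[ℂ] V n) :=
  (LinearMap.GeneralLinearGroup.generalLinearEquiv ℂ (V n)).toMonoidHom.comp
    ((Matrix.GeneralLinearGroup.toLin (R := ℂ) (n := Fin n)).toMonoidHom.comp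
      (Matrix.GeneralLinearGroup.map (algebraMap ℚ ℂ)))

theorem cA_apply {n : ℕ} (A : Matrix.GeneralLinearGroup (Fin n) ℚ) (x : V n) :
    cA A x = ((A : Matrix (Fin n) (Fin n) ℚ).map (algebraMap ℚ ℂ)).mulVec x := by
  rfl

/-- the frozen compatibility condition: `φ x = A x` -/
def Compat {n : ℕ} (A : Matrix.GeneralLinearGroup (Fin n) ℚ)
    {L' B : Subgroup (Multiplicative (Fin n → ℤ))} (φ : L' ≃* B) : Prop :=
  ∀ x : L', ∀ i : Fin n,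
    ((Multiplicative.toAdd ((φ x : Multiplicative (Fin n → ℤ))) i : ℤ) : ℚ) =
      (A : Matrix (Fin n) (Fin n) ℚ).mulVec
        (fun j => ((Multiplicative.toAdd ((x : Multiplicative (Fin n → ℤ))) j : ℤ) : ℚ)) i

/-- all powers are bounded -/
def PBdd {n : ℕ} (T : V n ≃ₗ[ℂ] V n) : Prop :=
  ∃ C : ℝ, 0 < C ∧ ∀ (k : ℤ) (x : V n), ‖(T ^ k) x‖ ≤ C * ‖x‖

/-- `lam` is an eigenvalue of `T` on covectors -/
def HasEig {n : ℕ} (T : V n ≃ₗ[ℂ] V n) (lam : ℂ) : Prop :=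
  ∃ ξ : V n →ₗ[ℂ] ℂ, ξ ≠ 0 ∧ ∀ x, ξ (T x) = lam * ξ x

/-- `T` has a Jordan block with eigenvalue `lam` on covectors -/
def HasJor {n : ℕ} (T : V n ≃ₗ[ℂ] V n) (lam : ℂ) : Prop :=
  ∃ ξ1 ξ2 : V n →ₗ[ℂ] ℂ, ξ1 ≠ 0 ∧ (∀ x, ξ1 (T x) = lam * ξ1 x) ∧
    ∀ x, ξ2 (T x) = lam * ξ2 x + ξ1 x

end Pool.Agent.HNNA
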