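import Mathlib

/-! MP_4b60bf_al.  Weighted sums over unambiguous concatenations. -/

namespace Pool.Agent.HNNA

section

variable {k : ℕ} {I : Type} [Fintype I]

/-- the weighted sum of `f` over the set `X` of words -/
noncomputable def wsum (X : Set (List (Fin k))) (ρ : ℝ) (f : List (Fin k) → ℂ) : ℂ :=
  ∑' w : X, ((ρ ^ (w : List (Fin k)).length : ℝ) : ℂ) * f w

/-- unambiguous decomposition -/
structure Unamb (W0 : Set (List (Fin k))) (X Z : I → Set (List (Fin k))) : Prop where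
  mem : ∀ i, ∀ x ∈ X i, ∀ z ∈ Z i, x ++ z ∈ W0
  ex : ∀ w ∈ W0, ∃ i, ∃ x ∈ X i, ∃ z ∈ Z i, w = x ++ z
  uniq : ∀ i i', ∀ x ∈ X i, ∀ z ∈ Z i, ∀ x' ∈ X i', ∀ z' ∈ Z i', x ++ z = x' ++ z' →
    i = i' ∧ x = x' ∧ z = z'

variable {W0 : Set (List (Fin k))} {X Z : I → Set (List (Fin k))}

/-- the concatenation map -/
def catMap (h : Unamb W0 X Z) (p : Σ i, X i × Z i) : W0 :=
  ⟨p.2.1.1 ++ p.2.2.1, h.mem p.1 _ p.2.1.2 _ p.2.2.2⟩

lemma catMap_bij (h : Unamb W0 X Z) : Function.Bijective (catMap h) := by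
  constructor
  · rintro ⟨i, ⟨x, hx⟩, ⟨z, hz⟩⟩ ⟨i', ⟨x', hx'⟩, ⟨z', hz'⟩⟩ he
    have he' : x ++ z = x' ++ z' := congrArg Subtype.val he
    obtain ⟨rfl, rfl, rfl⟩ := h.uniq i i' x hx z hz x' hx' z' hz' he'
    rfl
  · rintro ⟨w, hw⟩
    obtain ⟨i, x, hx, z, hz, rfl⟩ := h.ex w hw
    exact ⟨⟨i, ⟨x, hx⟩, ⟨z, hz⟩⟩, rfl⟩

lemma summable_left (h : Unamb W0 X Z) {ρ : ℝ} (h0 : 0 < ρ)
    (hs : Summable fun w : W0 => ρ ^ (w : List (Fin k)).length) (i : I) (hne : (Z i).Nonempty) :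
    Summable fun x : X i => ρ ^ (x : List (Fin k)).length := by
  obtain ⟨z, hz⟩ := hne
  have hinj : Function.Injective (fun x : X i => catMap h ⟨i, x, ⟨z, hz⟩⟩) := by
    intro x x' hxx
    have := (catMap_bij h).1 hxx
    simp only [Sigma.mk.injEq, heq_eq_eq, true_and, Prod.mk.injEq, and_true] at this
    exact this
  have h1 := hs.comp_injective hinj
  have h2 := h1.mul_right ((ρ ^ z.length)⁻¹)
  refine h2.congr fun x => ?_
  simp only [Function.comp_apply, catMap, List.length_append, pow_add]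
  field_simp

lemma summable_right (h : Unamb W0 X Z) {ρ : ℝ} (h0 : 0 < ρ)
    (hs : Summable fun w : W0 => ρ ^ (w : List (Fin k)).length) (i : I) (hne : (X i).Nonempty) :
    Summable fun z : Z i => ρ ^ (z : List (Fin k)).length := by
  obtain ⟨x, hx⟩ := hne
  have hinj : Function.Injective (fun z : Z i => catMap h ⟨i, ⟨x, hx⟩, z⟩) := by
    intro z z' hzz
    have := (catMap_bij h).1 hzz
    simp only [Sigma.mk.injEq, heq_eq_eq, true_and, Prod.mk.injEq] at this
    exact this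
  have h1 := hs.comp_injective hinj
  have h2 := h1.mul_left ((ρ ^ x.length)⁻¹)
  refine h2.congr fun z => ?_
  simp only [Function.comp_apply, catMap, List.length_append, pow_add]
  field_simp

theorem wsum_unamb (h : Unamb W0 X Z) {ρ : ℝ} (h0 : 0 < ρ)
    (hs : Summable fun w : W0 => ρ ^ (w : List (Fin k)).length)
    (g : List (Fin k) → ℂ) (f : I → List (Fin k) → ℂ) (C : ℝ)
    (hg : ∀ w ∈ W0, ‖g w‖ ≤ C)
    (hfg : ∀ i, ∀ x ∈ X i, ∀ z ∈ Z i, g (x ++ z) = f i x) :
    wsum W0 ρ g = ∑ i, wsum (X i) ρ (f i) * wsum (Z i) ρ (fun _ => 1) := by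
  classical
  have hsg : Summable fun w : W0 => ((ρ ^ (w : List (Fin k)).length : ℝ) : ℂ) * g w := by
    refine Summable.of_norm_bounded (g := fun w : W0 => ρ ^ (w : List (Fin k)).length * C)
      (hs.mul_right C) fun w => ?_
    rw [norm_mul, Complex.norm_real, Real.norm_of_nonneg (by positivity)]
    exact mul_le_mul_of_nonneg_left (hg w w.2) (by positivity)
  let e := Equiv.ofBijective _ (catMap_bij h)
  unfold wsum
  rw [← e.tsum_eq]
  have hse : Summable (fun p : Σ i, X i × Z i =>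
      ((ρ ^ ((e p : W0) : List (Fin k)).length : ℝ) : ℂ) * g (e p)) :=
    (e.summable_iff (f := fun w : W0 => ((ρ ^ (w : List (Fin k)).length : ℝ) : ℂ) * g w)).2 hsg
  rw [hse.tsum_sigma' fun i => hse.comp_injective sigma_mk_injective, tsum_fintype]
  refine Finset.sum_congr rfl fun i _ => ?_
  have hterm : ∀ p : X i × Z i, ((ρ ^ ((e ⟨i, p⟩ : W0) : List (Fin k)).length : ℝ) : ℂ) *
      g (e ⟨i, p⟩) = (((ρ ^ (p.1 : List (Fin k)).length : ℝ) : ℂ) * f i p.1) *
        (((ρ ^ (p.2 : List (Fin k)).length : ℝ) : ℂ) * 1) := by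
    rintro ⟨x, z⟩
    have h1 : ((e ⟨i, (x, z)⟩ : W0) : List (Fin k)) = x.1 ++ z.1 := rfl
    rw [h1, hfg i x.1 x.2 z.1 z.2, List.length_append, pow_add]
    push_cast
    ring
  rw [tsum_congr hterm]
  by_cases hX : (X i).Nonempty
  · by_cases hZ : (Z i).Nonempty
    · have s1 := summable_left h h0 hs i hZ
      have s2 := summable_right h h0 hs i hX
      have n1 : Summable fun x : X i => ‖((ρ ^ (x : List (Fin k)).length : ℝ) : ℂ) * f i x‖ := by
        refine Summable.of_nonneg_of_le (fun _ => norm_nonneg _) (fun x => ?_) (s1.mul_right C)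
        rw [norm_mul, Complex.norm_real, Real.norm_of_nonneg (by positivity)]
        refine mul_le_mul_of_nonneg_left ?_ (by positivity)
        obtain ⟨z, hz⟩ := hZ
        rw [← hfg i x.1 x.2 z hz]
        exact hg _ (h.mem i _ x.2 _ hz)
      have n2 : Summable fun z : Z i => ‖((ρ ^ (z : List (Fin k)).length : ℝ) : ℂ) * 1‖ := by
        refine s2.congr fun z => ?_
        rw [mul_one, Complex.norm_real, Real.norm_of_nonneg (by positivity)]
      rw [tsum_mul_tsum_of_summable_norm n1 n2]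
    · have : IsEmpty (Z i) := by
        rw [Set.not_nonempty_iff_eq_empty] at hZ
        rw [hZ]; infer_instance
      simp
  · have : IsEmpty (X i) := by
      rw [Set.not_nonempty_iff_eq_empty] at hX
      rw [hX]; infer_instance
    simp

/-- real growth series -/
noncomputable def gsr (X : Set (List (Fin k))) (ρ : ℝ) : ℝ :=
  ∑' w : X, ρ ^ (w : List (Fin k)).length

lemma wsum_one (X : Set (List (Fin k))) (ρ : ℝ) : wsum X ρ (fun _ => 1) = (gsr X ρ : ℂ) := by
  unfold wsum gsr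
  rw [Complex.ofReal_tsum]
  simp

lemma gsr_unamb (h : Unamb W0 X Z) {ρ : ℝ} (h0 : 0 < ρ)
    (hs : Summable fun w : W0 => ρ ^ (w : List (Fin k)).length) :
    gsr W0 ρ = ∑ i, gsr (X i) ρ * gsr (Z i) ρ := by
  have h1 := wsum_unamb h h0 hs (fun _ => 1) (fun _ _ => 1) 1 (by simp) (by simp)
  rw [wsum_one] at h1
  simp only [wsum_one] at h1
  exact_mod_cast h1

lemma gsr_nonneg (X : Set (List (Fin k))) {ρ : ℝ} (h0 : 0 ≤ ρ) : 0 ≤ gsr X ρ :=
  tsum_nonneg fun _ => by positivity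

end

end Pool.Agent.HNNA
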