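import Pool.Agent.HNNA.LA

/-! MP_4b60bf_al.  MODULE LA2 (about 250 lines, needs only LA): the limit `ρ → 1-`.

The functions `a j i ρ` have an integral order of growth as `ρ → 1-`; after rescaling by the maximal
order the transfer matrix has a limit, to which `LA` applies.

PROOF.  Write `ε = 1 - ρ`.  Let `ord j i` be the `r` of `hord` (when the first alternative fails).
Orders are at most `N` (`hbdN`: if `ε^r a → c > 0` and `ε^N a` is bounded then `r ≤ N`).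
By `hne` for every `i` there is `j` with `a j i` not identically zero; let `r_i` be the maximum over
such `j` of the orders, attained at `j_i`.  Then `ε^(r_i) a j i ρ → â j i` with `â j i ≥ 0` (0 if the
order is smaller or `a j i` vanishes), and `â (j_i) i > 0`.
Let `𝒰` be an ultrafilter `≤ 𝓝[<] 1` (`Ultrafilter.of`).
* `M i i' ρ ε^(r_i) / ε^(r_i')` is bounded for `ρ` near 1: it times `ε^(r_i') a (j_i') i'` is at most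
  `ε^(r_i) a (j_i' + 1) i` (one term of `hrec`), which converges, and
  `ε^(r_i') a (j_i') i' → â > 0`.  Let `M̂ i i' ≥ 0` be its limit along `𝒰`.
* `φ i ρ / (ε^(r_i) T 0 ρ)` is bounded: times `ε^(r_i) a (j_i) i` it is at most `T (j_i) ρ / T 0 ρ`,
  which converges to `p^(j_i)`.  Let `φ̂ i` be the limit along `𝒰`; similarly `v̂ i`, `‖v̂ i‖ ≤ C' φ̂ i`.
Passing to the limit: `â (j+1) i = Σ_i' M̂ i i' â j i'`; `Σ_i φ̂ i â j i = p^j`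
(`Σ_i φ a = T j`, `T j / T 0 → p^j`); `Σ_i v̂ i â j i = p^j lam^j κ`.
Apply `LA` with `B = M̂ / p`, `a j = â j / p^j`, `C = 1`. -/

open Filter Topology

namespace Pool.Agent.HNNA

namespace LA2aux

theorem ev01 : ∀ᶠ ρ in 𝓝[<] (1 : ℝ), 0 < ρ ∧ ρ < 1 := by
  have h1 : ∀ᶠ ρ in 𝓝[<] (1 : ℝ), ρ < 1 := eventually_mem_nhdsWithin
  have h2 : ∀ᶠ ρ in 𝓝[<] (1 : ℝ), 0 < ρ :=
    (eventually_gt_nhds (by norm_num)).filter_mono nhdsWithin_le_nhds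
  filter_upwards [h1, h2] with ρ a b using ⟨b, a⟩

theorem ev12 : ∀ᶠ ρ in 𝓝[<] (1 : ℝ), 1 / 2 < ρ :=
  (eventually_gt_nhds (by norm_num)).filter_mono nhdsWithin_le_nhds

theorem tend_eps : Tendsto (fun ρ : ℝ => 1 - ρ) (𝓝[<] 1) (𝓝 0) := by
  have h : Tendsto (fun ρ : ℝ => 1 - ρ) (𝓝 1) (𝓝 (1 - 1)) := by
    apply Continuous.tendsto
    fun_prop
  rw [sub_self] at h
  exact h.mono_left nhdsWithin_le_nhds

theorem tend_eps_pow {k : ℕ} (hk : 1 ≤ k) : Tendsto (fun ρ : ℝ => (1 - ρ) ^ k) (𝓝[<] 1) (𝓝 0) := by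
  have h := tend_eps.pow k
  rwa [zero_pow (by omega)] at h

theorem ord_le (f : ℝ → ℝ) (N r : ℕ) (C : ℝ)
    (hC : ∀ ρ, 1 / 2 < ρ → ρ < 1 → (1 - ρ) ^ N * f ρ ≤ C) (c : ℝ) (hc : 0 < c)
    (h : Tendsto (fun ρ => (1 - ρ) ^ r * f ρ) (𝓝[<] 1) (𝓝 c)) : r ≤ N := by
  by_contra hcon
  push Not at hcon
  have h1 : Tendsto (fun ρ : ℝ => (1 - ρ) ^ (r - N) * C) (𝓝[<] 1) (𝓝 (0 * C)) :=
    (tend_eps_pow (by omega)).mul_const C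
  rw [zero_mul] at h1
  have h2 : c ≤ 0 := by
    refine le_of_tendsto_of_tendsto h h1 ?_
    filter_upwards [ev01, ev12] with ρ hρ hρ2
    have e : (1 - ρ) ^ r = (1 - ρ) ^ (r - N) * (1 - ρ) ^ N := by
      rw [← pow_add]
      congr 1
      omega
    rw [e, mul_assoc]
    exact mul_le_mul_of_nonneg_left (hC ρ hρ2 hρ.2) (pow_nonneg (by linarith [hρ.2]) _)
  linarith

theorem lim_real (𝒰 : Ultrafilter ℝ) (f : ℝ → ℝ) (K : ℝ) (h : ∀ᶠ ρ in (𝒰 : Filter ℝ), 0 ≤ f ρ ∧ f ρ ≤ K) :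
    ∃ x, 0 ≤ x ∧ Tendsto f (𝒰 : Filter ℝ) (𝓝 x) := by
  obtain ⟨x, hx, hx'⟩ := (isCompact_Icc (a := (0 : ℝ)) (b := K)).ultrafilter_le_nhds (𝒰.map f) (by
    rw [le_principal_iff]
    exact h)
  exact ⟨x, hx.1, hx'⟩

theorem lim_complex (𝒰 : Ultrafilter ℝ) (f : ℝ → ℂ) (K : ℝ) (h : ∀ᶠ ρ in (𝒰 : Filter ℝ), ‖f ρ‖ ≤ K) :
    ∃ x, Tendsto f (𝒰 : Filter ℝ) (𝓝 x) := by
  obtain ⟨x, hx, hx'⟩ := (isCompact_closedBall (0 : ℂ) K).ultrafilter_le_nhds (𝒰.map f) (by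
    rw [le_principal_iff]
    change ∀ᶠ ρ in (𝒰 : Filter ℝ), f ρ ∈ Metric.closedBall (0 : ℂ) K
    filter_upwards [h] with ρ hρ
    simpa using hρ)
  exact ⟨x, hx'⟩

/-- rescaling to a common order -/
theorem scale (a : ℕ → ℝ → ℝ)
    (hord : ∀ j, (∀ ρ, 0 < ρ → ρ < 1 → a j ρ = 0) ∨ ∃ r : ℕ, ∃ c : ℝ, 0 < c ∧
      Tendsto (fun ρ => (1 - ρ) ^ r * a j ρ) (𝓝[<] 1) (𝓝 c))
    (N : ℕ) (hbdN : ∀ j, ∃ C : ℝ, ∀ ρ, 1 / 2 < ρ → ρ < 1 → (1 - ρ) ^ N * a j ρ ≤ C)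
    (hne : ∃ j, ∃ ρ, 0 < ρ ∧ ρ < 1 ∧ a j ρ ≠ 0) :
    ∃ (r : ℕ) (b : ℕ → ℝ) (J : ℕ), (∀ j, Tendsto (fun ρ => (1 - ρ) ^ r * a j ρ) (𝓝[<] 1) (𝓝 (b j)))
      ∧ (∀ j, 0 ≤ b j) ∧ 0 < b J := by
  classical
  set Q : ℕ → Prop := fun r => ∃ j, ∃ c : ℝ, 0 < c ∧
      Tendsto (fun ρ => (1 - ρ) ^ r * a j ρ) (𝓝[<] 1) (𝓝 c) with hQ
  have hQN : ∀ r, Q r → r ≤ N := by
    rintro r ⟨j, c, hc, h⟩
    obtain ⟨C, hC⟩ := hbdN j
    exact ord_le (a j) N r C hC c hc h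
  have hQex : ∃ r, Q r := by
    obtain ⟨j, ρ, h1, h2, h3⟩ := hne
    rcases hord j with h | ⟨r, c, hc, h⟩
    · exact absurd (h ρ h1 h2) h3
    · exact ⟨r, j, c, hc, h⟩
  obtain ⟨r0, hr0⟩ := hQex
  set r := Nat.findGreatest Q N with hr
  have hQr : Q r := Nat.findGreatest_spec (hQN r0 hr0) hr0
  have hmax : ∀ r', Q r' → r' ≤ r := fun r' h => Nat.le_findGreatest (hQN r' h) h
  have key : ∀ j, ∃ b, 0 ≤ b ∧ Tendsto (fun ρ => (1 - ρ) ^ r * a j ρ) (𝓝[<] 1) (𝓝 b) := by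
    intro j
    rcases hord j with h | ⟨r', c, hc, h⟩
    · refine ⟨0, le_refl _, ?_⟩
      apply tendsto_const_nhds.congr'
      filter_upwards [ev01] with ρ hρ
      rw [h ρ hρ.1 hρ.2, mul_zero]
    · rcases (hmax r' ⟨j, c, hc, h⟩).eq_or_lt with heq | hlt
      · rw [← heq]
        exact ⟨c, hc.le, h⟩
      · refine ⟨0, le_refl _, ?_⟩
        have h1 := (tend_eps_pow (k := r - r') (by omega)).mul h
        rw [zero_mul] at h1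
        refine h1.congr fun ρ => ?_
        rw [← mul_assoc, ← pow_add]
        congr 2
        omega
  choose b hb hbt using key
  obtain ⟨J, c, hc, hJ⟩ := hQr
  refine ⟨r, b, J, hbt, hb, ?_⟩
  rw [tendsto_nhds_unique (hbt J) hJ]
  exact hc

end LA2aux

open LA2aux in
theorem LA2 {I : Type} [Fintype I] (p : ℝ) (hp : 0 < p) (lam κ : ℂ) (hlam : ‖lam‖ = 1)
    (hκ : κ ≠ 0) (C' : ℝ) (φ : I → ℝ → ℝ) (v : I → ℝ → ℂ) (M : I → I → ℝ → ℝ)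
    (a : ℕ → I → ℝ → ℝ) (T : ℕ → ℝ → ℝ)
    (hφ : ∀ i ρ, 0 < ρ → ρ < 1 → 0 ≤ φ i ρ)
    (hv : ∀ i ρ, 0 < ρ → ρ < 1 → ‖v i ρ‖ ≤ C' * φ i ρ)
    (hM : ∀ i i' ρ, 0 < ρ → ρ < 1 → 0 ≤ M i i' ρ)
    (ha : ∀ j i ρ, 0 < ρ → ρ < 1 → 0 ≤ a j i ρ)
    (hrec : ∀ j i ρ, 0 < ρ → ρ < 1 → a (j + 1) i ρ = ∑ i', M i i' ρ * a j i' ρ)
    (hT : ∀ j ρ, 0 < ρ → ρ < 1 → ∑ i, φ i ρ * a j i ρ = T j ρ)
    (hT0 : ∀ j ρ, 0 < ρ → ρ < 1 → 0 < T j ρ)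
    (hTr : ∀ j, Tendsto (fun ρ => T (j + 1) ρ / T j ρ) (𝓝[<] 1) (𝓝 p))
    (hV : ∀ j, Tendsto (fun ρ => (∑ i, v i ρ * ((a j i ρ : ℝ) : ℂ)) / ((T j ρ : ℝ) : ℂ))
      (𝓝[<] 1) (𝓝 (lam ^ j * κ)))
    (hord : ∀ j i, (∀ ρ, 0 < ρ → ρ < 1 → a j i ρ = 0) ∨ ∃ r : ℕ, ∃ c : ℝ, 0 < c ∧
      Tendsto (fun ρ => (1 - ρ) ^ r * a j i ρ) (𝓝[<] 1) (𝓝 c))
    (N : ℕ) (hbdN : ∀ j i, ∃ C : ℝ, ∀ ρ, 1 / 2 < ρ → ρ < 1 → (1 - ρ) ^ N * a j i ρ ≤ C)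
    (hne : ∀ i, ∃ j, ∃ ρ, 0 < ρ ∧ ρ < 1 ∧ a j i ρ ≠ 0) :
    ∃ m : ℕ, 1 ≤ m ∧ lam ^ m = 1 := by
  have hsc : ∀ i, ∃ (r : ℕ) (b : ℕ → ℝ) (J : ℕ),
      (∀ j, Tendsto (fun ρ => (1 - ρ) ^ r * a j i ρ) (𝓝[<] 1) (𝓝 (b j)))
      ∧ (∀ j, 0 ≤ b j) ∧ 0 < b J := fun i =>
    scale (fun j => a j i) (fun j => hord j i) N (fun j => hbdN j i) (hne i)
  choose r b J hbt hb0 hbJ using hsc
  set 𝒰 : Ultrafilter ℝ := Ultrafilter.of (𝓝[<] 1) with h𝒰d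
  have h𝒰 : (𝒰 : Filter ℝ) ≤ 𝓝[<] 1 := Ultrafilter.of_le _
  have hev : ∀ᶠ ρ in (𝒰 : Filter ℝ), 0 < ρ ∧ ρ < 1 := h𝒰 ev01
  -- the quotient T j / T 0
  have hTj : ∀ j, Tendsto (fun ρ => T j ρ / T 0 ρ) (𝓝[<] 1) (𝓝 (p ^ j)) := by
    intro j
    induction j with
    | zero =>
      rw [pow_zero]
      apply tendsto_const_nhds.congr'
      filter_upwards [ev01] with ρ hρ
      rw [div_self (hT0 0 ρ hρ.1 hρ.2).ne']
    | succ j ih =>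
      rw [pow_succ, mul_comm]
      refine ((hTr j).mul ih).congr' ?_
      filter_upwards [ev01] with ρ hρ
      have := (hT0 j ρ hρ.1 hρ.2).ne'
      field_simp
  -- half bounds
  have hhalf : ∀ i, ∀ᶠ ρ in 𝓝[<] (1 : ℝ), b i (J i) / 2 < (1 - ρ) ^ r i * a (J i) i ρ := by
    intro i
    exact (hbt i (J i)).eventually (eventually_gt_nhds (by linarith [hbJ i]))
  have heps : ∀ ρ : ℝ, ρ < 1 → ∀ k : ℕ, 0 < (1 - ρ) ^ k := fun ρ hρ k => pow_pos (by linarith) k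
  -- the matrix
  have hMlim : ∀ i i', ∃ x, 0 ≤ x ∧
      Tendsto (fun ρ => M i i' ρ * (1 - ρ) ^ r i / (1 - ρ) ^ r i') (𝒰 : Filter ℝ) (𝓝 x) := by
    intro i i'
    apply lim_real 𝒰 _ ((b i (J i' + 1) + 1) / (b i' (J i') / 2))
    have h1 : ∀ᶠ ρ in 𝓝[<] (1 : ℝ), (1 - ρ) ^ r i * a (J i' + 1) i ρ < b i (J i' + 1) + 1 :=
      (hbt i (J i' + 1)).eventually (eventually_lt_nhds (by linarith))
    filter_upwards [hev, h𝒰 h1, h𝒰 (hhalf i')] with ρ hρ h2 h3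
    have hM0 := hM i i' ρ hρ.1 hρ.2
    have e1 := heps ρ hρ.2 (r i)
    have e2 := heps ρ hρ.2 (r i')
    refine ⟨by positivity, ?_⟩
    rw [le_div_iff₀ (by linarith [hbJ i'])]
    have h4 : M i i' ρ * a (J i') i' ρ ≤ a (J i' + 1) i ρ := by
      rw [hrec (J i') i ρ hρ.1 hρ.2]
      exact Finset.single_le_sum (f := fun m => M i m ρ * a (J i') m ρ) (fun m _ =>
        mul_nonneg (hM i m ρ hρ.1 hρ.2) (ha _ _ ρ hρ.1 hρ.2)) (Finset.mem_univ i')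
    calc M i i' ρ * (1 - ρ) ^ r i / (1 - ρ) ^ r i' * (b i' (J i') / 2)
        ≤ M i i' ρ * (1 - ρ) ^ r i / (1 - ρ) ^ r i' * ((1 - ρ) ^ r i' * a (J i') i' ρ) :=
          mul_le_mul_of_nonneg_left h3.le (by positivity)
      _ = (1 - ρ) ^ r i * (M i i' ρ * a (J i') i' ρ) := by
          field_simp
      _ ≤ (1 - ρ) ^ r i * a (J i' + 1) i ρ := mul_le_mul_of_nonneg_left h4 e1.le
      _ ≤ _ := h2.le
  choose Mh hMh0 hMh using hMlim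
  -- φ
  have hφb : ∀ i, ∀ᶠ ρ in (𝒰 : Filter ℝ), 0 ≤ φ i ρ / ((1 - ρ) ^ r i * T 0 ρ) ∧
      φ i ρ / ((1 - ρ) ^ r i * T 0 ρ) ≤ (p ^ J i + 1) / (b i (J i) / 2) := by
    intro i
    have h1 : ∀ᶠ ρ in 𝓝[<] (1 : ℝ), T (J i) ρ / T 0 ρ < p ^ J i + 1 :=
      (hTj (J i)).eventually (eventually_lt_nhds (by linarith))
    filter_upwards [hev, h𝒰 h1, h𝒰 (hhalf i)] with ρ hρ h2 h3
    have hφ0 := hφ i ρ hρ.1 hρ.2
    have e1 := heps ρ hρ.2 (r i)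
    have e2 := hT0 0 ρ hρ.1 hρ.2
    refine ⟨by positivity, ?_⟩
    rw [le_div_iff₀ (by linarith [hbJ i])]
    have h4 : φ i ρ * a (J i) i ρ ≤ T (J i) ρ := by
      rw [← hT (J i) ρ hρ.1 hρ.2]
      exact Finset.single_le_sum (f := fun m => φ m ρ * a (J i) m ρ) (fun m _ =>
        mul_nonneg (hφ m ρ hρ.1 hρ.2) (ha _ _ ρ hρ.1 hρ.2)) (Finset.mem_univ i)
    calc φ i ρ / ((1 - ρ) ^ r i * T 0 ρ) * (b i (J i) / 2)
        ≤ φ i ρ / ((1 - ρ) ^ r i * T 0 ρ) * ((1 - ρ) ^ r i * a (J i) i ρ) :=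
          mul_le_mul_of_nonneg_left h3.le (by positivity)
      _ = (φ i ρ * a (J i) i ρ) / T 0 ρ := by
          field_simp
      _ ≤ T (J i) ρ / T 0 ρ := div_le_div_of_nonneg_right h4 e2.le
      _ ≤ _ := h2.le
  have hφlim : ∀ i, ∃ x, 0 ≤ x ∧
      Tendsto (fun ρ => φ i ρ / ((1 - ρ) ^ r i * T 0 ρ)) (𝒰 : Filter ℝ) (𝓝 x) := fun i =>
    lim_real 𝒰 _ _ (hφb i)
  choose φh hφh0 hφh using hφlim
  -- v
  have hvb : ∀ i, ∀ᶠ ρ in (𝒰 : Filter ℝ), ‖v i ρ / (((1 - ρ) ^ r i * T 0 ρ : ℝ) : ℂ)‖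
      ≤ C' * (φ i ρ / ((1 - ρ) ^ r i * T 0 ρ)) := by
    intro i
    filter_upwards [hev] with ρ hρ
    have e1 := heps ρ hρ.2 (r i)
    have e2 := hT0 0 ρ hρ.1 hρ.2
    rw [norm_div, Complex.norm_real, Real.norm_of_nonneg (by positivity), ← mul_div_assoc]
    exact div_le_div_of_nonneg_right (hv i ρ hρ.1 hρ.2) (by positivity)
  have hvlim : ∀ i, ∃ x, Tendsto (fun ρ => v i ρ / (((1 - ρ) ^ r i * T 0 ρ : ℝ) : ℂ))
      (𝒰 : Filter ℝ) (𝓝 x) := by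
    intro i
    have h1 : ∀ᶠ ρ in (𝒰 : Filter ℝ), C' * (φ i ρ / ((1 - ρ) ^ r i * T 0 ρ)) < C' * φh i + 1 :=
      ((hφh i).const_mul C').eventually (eventually_lt_nhds (by linarith))
    apply lim_complex 𝒰 _ (C' * φh i + 1)
    filter_upwards [hvb i, h1] with ρ h2 h3 using h2.trans h3.le
  choose vh hvh using hvlim
  have hvn : ∀ i, ‖vh i‖ ≤ C' * φh i := fun i =>
    le_of_tendsto_of_tendsto (hvh i).norm ((hφh i).const_mul C') (hvb i)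
  -- passing to the limit
  have hbt' : ∀ i j, Tendsto (fun ρ => (1 - ρ) ^ r i * a j i ρ) (𝒰 : Filter ℝ) (𝓝 (b i j)) :=
    fun i j => (hbt i j).mono_left h𝒰
  have hL1 : ∀ j i, b i (j + 1) = ∑ i', Mh i i' * b i' j := by
    intro j i
    have h1 : Tendsto (fun ρ => ∑ i', (M i i' ρ * (1 - ρ) ^ r i / (1 - ρ) ^ r i') *
        ((1 - ρ) ^ r i' * a j i' ρ)) (𝒰 : Filter ℝ) (𝓝 (∑ i', Mh i i' * b i' j)) :=
      tendsto_finsetSum _ fun i' _ => (hMh i i').mul (hbt' i' j)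
    refine tendsto_nhds_unique (hbt' i (j + 1)) (h1.congr' ?_)
    filter_upwards [hev] with ρ hρ
    rw [hrec j i ρ hρ.1 hρ.2, Finset.mul_sum]
    apply Finset.sum_congr rfl
    intro i' _
    have e2 := (heps ρ hρ.2 (r i')).ne'
    field_simp
  have hL2 : ∀ j, ∑ i, φh i * b i j = p ^ j := by
    intro j
    have h1 : Tendsto (fun ρ => ∑ i, (φ i ρ / ((1 - ρ) ^ r i * T 0 ρ)) *
        ((1 - ρ) ^ r i * a j i ρ)) (𝒰 : Filter ℝ) (𝓝 (∑ i, φh i * b i j)) :=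
      tendsto_finsetSum _ fun i _ => (hφh i).mul (hbt' i j)
    refine tendsto_nhds_unique h1 (((hTj j).mono_left h𝒰).congr' ?_)
    filter_upwards [hev] with ρ hρ
    rw [← hT j ρ hρ.1 hρ.2, Finset.sum_div]
    apply Finset.sum_congr rfl
    intro i _
    have e1 := (heps ρ hρ.2 (r i)).ne'
    have e2 := (hT0 0 ρ hρ.1 hρ.2).ne'
    field_simp
  have hL3 : ∀ j, ∑ i, vh i * ((b i j : ℝ) : ℂ) = ((p ^ j : ℝ) : ℂ) * (lam ^ j * κ) := by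
    intro j
    have h1 : Tendsto (fun ρ => ∑ i, (v i ρ / (((1 - ρ) ^ r i * T 0 ρ : ℝ) : ℂ)) *
        (((1 - ρ) ^ r i * a j i ρ : ℝ) : ℂ)) (𝒰 : Filter ℝ) (𝓝 (∑ i, vh i * ((b i j : ℝ) : ℂ))) :=
      tendsto_finsetSum _ fun i _ => (hvh i).mul
        ((Complex.continuous_ofReal.tendsto _).comp (hbt' i j))
    have h2 : Tendsto (fun ρ => ((T j ρ / T 0 ρ : ℝ) : ℂ) *
        ((∑ i, v i ρ * ((a j i ρ : ℝ) : ℂ)) / ((T j ρ : ℝ) : ℂ))) (𝒰 : Filter ℝ)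
        (𝓝 (((p ^ j : ℝ) : ℂ) * (lam ^ j * κ))) :=
      ((Complex.continuous_ofReal.tendsto _).comp ((hTj j).mono_left h𝒰)).mul
        ((hV j).mono_left h𝒰)
    refine tendsto_nhds_unique h1 (h2.congr' ?_)
    filter_upwards [hev] with ρ hρ
    have e2 : ((T 0 ρ : ℝ) : ℂ) ≠ 0 := by exact_mod_cast (hT0 0 ρ hρ.1 hρ.2).ne'
    have e3 : ((T j ρ : ℝ) : ℂ) ≠ 0 := by exact_mod_cast (hT0 j ρ hρ.1 hρ.2).ne'
    have e4 : (((T j ρ / T 0 ρ : ℝ) : ℂ) * ((∑ i, v i ρ * ((a j i ρ : ℝ) : ℂ)) / ((T j ρ : ℝ) : ℂ)))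
        = (∑ i, v i ρ * ((a j i ρ : ℝ) : ℂ)) / ((T 0 ρ : ℝ) : ℂ) := by
      push_cast
      field_simp
    rw [e4, Finset.sum_div]
    apply Finset.sum_congr rfl
    intro i _
    have e1 : (((1 - ρ) ^ r i : ℝ) : ℂ) ≠ 0 := by exact_mod_cast (heps ρ hρ.2 (r i)).ne'
    rw [Complex.ofReal_mul, Complex.ofReal_mul]
    field_simp
  have hpj : ∀ j : ℕ, (0 : ℝ) < p ^ j := fun j => pow_pos hp j
  refine LA (fun i i' => Mh i i' / p) (fun i i' => div_nonneg (hMh0 i i') hp.le)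
    (fun j i => b i j / p ^ j) (fun j i => div_nonneg (hb0 i j) (hpj j).le) ?_ φh hφh0 1 ?_ vh C'
    hvn lam κ hlam hκ ?_
  · intro l i
    rw [hL1 l i, Finset.sum_div]
    apply Finset.sum_congr rfl
    intro i' _
    rw [pow_succ]
    have := (hpj l).ne'
    field_simp
  · intro l
    have h1 : ∑ i, φh i * (b i l / p ^ l) = (∑ i, φh i * b i l) / p ^ l := by
      rw [Finset.sum_div]
      exact Finset.sum_congr rfl fun i _ => by ring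
    rw [h1, hL2, div_self (hpj l).ne']
  · intro l
    have e0 : (((p ^ l : ℝ)) : ℂ) ≠ 0 := by exact_mod_cast (hpj l).ne'
    have h1 : ∑ i, vh i * (((b i l / p ^ l : ℝ)) : ℂ)
        = (∑ i, vh i * ((b i l : ℝ) : ℂ)) / ((p ^ l : ℝ) : ℂ) := by
      rw [Finset.sum_div]
      apply Finset.sum_congr rfl
      intro i _
      rw [Complex.ofReal_div]
      ring
    rw [h1, hL3, mul_div_cancel_left₀ _ e0]

end Pool.Agent.HNNA
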