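import Pool.Agent.HNNA.LenB

/-! MP_4b60bf_al.  MODULE SUMTB (about 150 lines): the weighted count of a tree-bounded set.

PROOF.  `P ⊆ F L` (`TB.cosets`), so it is enough to treat `P = f L` (a finite union of injective
images of `L`; `g = f y`).  By `norm_ev_le` applied to `wd g`: `‖u (f y)‖ ≤ C |wd (f y)|`, and
`‖u y‖ ≤ C_A (‖u (f y)‖ + ‖u f‖)`, so `|wd (f y)| ≥ c ‖u y‖ - C'` with `c > 0`.  `y ↦ z` with
`u y = z ∈ Z^n` is injective (`u_inj`), `‖z‖ ≥ (1/n) Σ |z_i|` (for `n ≥ 1`), so with `q = ρ^(c/n)`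
(real power; `0 < q < 1`): `Σ_y ρ^(|wd (f y)|) ≤ ρ^(-C') Π_i Σ_(z ∈ Z) q^|z| = ρ^(-C') ((1+q)/(1-q))^n`.
Near `ρ → 0` the factor `ρ^(-C')` is harmless: instead of `ρ^(-C')` use
`|wd (f y)| ≥ max(0, c‖u y‖ - C')`, or restrict to `1/2 ≤ ρ < 1` and use monotonicity in `ρ` for
`ρ < 1/2` (the sum is monotone in `ρ`, and `(1-ρ)^(-n) ≥ 1`).  And `1 - ρ^(c/n) ≥ c'' (1 - ρ)` on
`[1/2, 1)` (Bernoulli: choose a natural number `N ≥ n/c`; `ρ ≤ q'^N` with `q' = ρ^(1/N) ≥ q`, and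
`1 - ρ ≤ N (1 - q')`).  `n = 0` is trivial: then `L` is trivial.
A simpler route avoiding real powers: choose a natural number `N ≥ 1` with
`N |wd (f y)| + N ≥ Σ |z_i|` for all `y`; put `q = ρ^(1/N)`. -/

namespace Pool.Agent.HNNA

namespace UAS

variable {D : WD} (U : UAS D)

theorem tail_hasSum {ρ : ℝ} (h0 : 0 < ρ) (h1 : ρ < 1) (l : ℕ) :
    HasSum (fun m : ℕ => if l ≤ m then ρ ^ m else 0) (ρ ^ l / (1 - ρ)) := by
  have hinj : Function.Injective (fun m : ℕ => m + l) := fun a b h => Nat.add_right_cancel h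
  rw [← hinj.hasSum_iff]
  · have h2 : HasSum (fun m : ℕ => ρ ^ l * ρ ^ m) (ρ ^ l * (1 - ρ)⁻¹) :=
      (hasSum_geometric_of_lt_one h0.le h1).mul_left _
    have h3 : ((fun m : ℕ => if l ≤ m then ρ ^ m else 0) ∘ fun m : ℕ => m + l) =
        fun m : ℕ => ρ ^ l * ρ ^ m := by
      funext m
      simp only [Function.comp_apply, le_add_iff_nonneg_left, zero_le, if_true]
      rw [pow_add, mul_comm]
    rw [h3, div_eq_mul_inv]
    exact h2
  · intro m hm
    rw [if_neg]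
    intro h
    exact hm ⟨m - l, Nat.sub_add_cancel h⟩

theorem sum_TB (hb : D.Bdd) {P : Set D.G} (hP : D.TB P) : ∃ C : ℝ, ∀ ρ : ℝ, 0 < ρ → ρ < 1 →
    Summable (fun g : P => ρ ^ (U.wd (g : D.G)).length) ∧
    ∑' g : P, ρ ^ (U.wd (g : D.G)).length ≤ C / (1 - ρ) ^ D.n := by
  classical
  obtain ⟨C0, hC0⟩ := hP.count hb
  obtain ⟨C1, hC1, hn⟩ := U.norm_ev_le hb
  obtain ⟨N, hN⟩ := exists_nat_ge C1
  -- the number of short elements
  have hcount : ∀ (s : Finset P) (m : ℕ),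
      ((s.filter fun g : P => (U.wd (g : D.G)).length ≤ m).card : ℝ) ≤
        C0 * (N + 1) ^ D.n * (m + 1) ^ D.n := by
    intro s m
    obtain ⟨hfin, hle⟩ := hC0 (N * m)
    have h1 : (s.filter fun g : P => (U.wd (g : D.G)).length ≤ m).card ≤
        {x | x ∈ P ∧ ‖D.u x‖ ≤ ((N * m : ℕ) : ℝ)}.ncard := by
      rw [← Set.ncard_coe_finset, ← Set.ncard_image_of_injective _ Subtype.val_injective]
      refine Set.ncard_le_ncard ?_ hfin
      rintro x ⟨g, hg, rfl⟩
      rw [Finset.coe_filter] at hg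
      refine ⟨g.2, ?_⟩
      have h2 := hn (U.wd (g : D.G))
      rw [U.ev_wd] at h2
      refine h2.trans ?_
      have h3 : ((U.wd (g : D.G)).length : ℝ) ≤ m := by exact_mod_cast hg.2
      push_cast
      exact mul_le_mul hN h3 (Nat.cast_nonneg _) (Nat.cast_nonneg _)
    have h2 : (s.filter fun g : P => (U.wd (g : D.G)).length ≤ m).card ≤
        C0 * ((N + 1) ^ D.n * (m + 1) ^ D.n) := by
      refine (h1.trans hle).trans (Nat.mul_le_mul_left _ ?_)
      rw [← mul_pow]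
      refine Nat.pow_le_pow_left ?_ _
      nlinarith
    have h3 : ((s.filter fun g : P => (U.wd (g : D.G)).length ≤ m).card : ℝ) ≤
        ((C0 * ((N + 1) ^ D.n * (m + 1) ^ D.n) : ℕ) : ℝ) := by exact_mod_cast h2
    push_cast at h3
    rw [mul_assoc]
    exact h3
  set C2 : ℝ := C0 * (N + 1) ^ D.n with hC2
  have hC2' : 0 ≤ C2 := by positivity
  refine ⟨C2 * D.n.factorial, fun ρ h0 h1 => ?_⟩
  have h1' : 0 < 1 - ρ := by linarith
  have hnorm : ‖ρ‖ < 1 := by rw [Real.norm_of_nonneg h0.le]; exact h1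
  have hbound : ∀ s : Finset P, ∑ g ∈ s, ρ ^ (U.wd (g : D.G)).length ≤
      C2 * D.n.factorial / (1 - ρ) ^ D.n := by
    intro s
    have hS := summable_choose_mul_geometric_of_norm_lt_one D.n hnorm
    have e1 : ∀ g ∈ s, ρ ^ (U.wd (g : D.G)).length = (1 - ρ) *
        ∑' m : ℕ, (if (U.wd (g : D.G)).length ≤ m then ρ ^ m else 0) := by
      intro g _
      rw [(tail_hasSum h0 h1 _).tsum_eq]
      field_simp
    rw [Finset.sum_congr rfl e1, ← Finset.mul_sum,
      ← Summable.tsum_finsetSum (fun g _ => (tail_hasSum h0 h1 _).summable)]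
    have e2 : ∀ m : ℕ, ∑ g ∈ s, (if (U.wd (g : D.G)).length ≤ m then ρ ^ m else 0) ≤
        (C2 * D.n.factorial) * (((m + D.n).choose D.n : ℝ) * ρ ^ m) := by
      intro m
      rw [← Finset.sum_filter, Finset.sum_const, nsmul_eq_mul]
      have h2 := hcount s m
      have h3 : ((m + 1 : ℕ) : ℝ) ^ D.n ≤ D.n.factorial * ((m + D.n).choose D.n : ℝ) := by
        have h4 : (m + 1) ^ D.n ≤ D.n.factorial * (m + D.n).choose D.n := by
          rw [← Nat.ascFactorial_eq_factorial_mul_choose]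
          exact Nat.pow_succ_le_ascFactorial _ _
        exact_mod_cast h4
      push_cast at h3
      calc _ ≤ C2 * (m + 1) ^ D.n * ρ ^ m := mul_le_mul_of_nonneg_right h2 (by positivity)
        _ ≤ C2 * (D.n.factorial * ((m + D.n).choose D.n : ℝ)) * ρ ^ m := by
            refine mul_le_mul_of_nonneg_right ?_ (by positivity)
            exact mul_le_mul_of_nonneg_left h3 hC2'
        _ = _ := by ring
    have e3 : ∑' m : ℕ, ∑ g ∈ s, (if (U.wd (g : D.G)).length ≤ m then ρ ^ m else 0) ≤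
        (C2 * D.n.factorial) * (1 / (1 - ρ) ^ (D.n + 1)) := by
      rw [← tsum_choose_mul_geometric_of_norm_lt_one D.n hnorm, ← tsum_mul_left]
      refine Summable.tsum_le_tsum e2 ?_ (hS.mul_left _)
      exact summable_sum fun g _ => (tail_hasSum h0 h1 _).summable
    refine (mul_le_mul_of_nonneg_left e3 h1'.le).trans (le_of_eq ?_)
    rw [pow_succ]
    field_simp
  have hnn : ∀ g : P, 0 ≤ ρ ^ (U.wd (g : D.G)).length := fun g => by positivity
  exact ⟨summable_of_sum_le hnn hbound, Real.tsum_le_of_sum_le hnn hbound⟩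

end UAS

end Pool.Agent.HNNA
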