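import Pool.Agent.HNNA.Setup
import Pool.Agent.HNNA.SumTB

/-! MP_4b60bf_al.  MODULE RATIO (about 300 lines): asymptotics of the weighted level counts.

`Lev l = {g | γ⁻¹ g ∈ lv l}`, `T l ρ = Σ_(g ∈ Lev l) ρ^|wd g|`.

PROOFS.
* `lev_TB`: `TB_lv`, `TB.left`.  `T_summable`, `T_bound`: `sum_TB`.  `T_pos`: `Lev l` is nonempty.
* `T_ratio`: let `C` be a finite set of representatives `c ∈ L` of the right cosets `P \ L`
  (extract from `P_fin`: every `x ∈ L` is `y * c` with unique `c ∈ C`, `y ∈ P`), `p = card C ≥ 1`.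
  The map `Lev l × C → Lev (l+1)`, `(g, c) ↦ g t c` is a bijection:
  surjective: `γ⁻¹ g' ∈ lv (l+1) = lv l · t L` (`lv_split` with `lv 1 = t L B = t L`),
  `γ⁻¹ g' = y t l`, `l = a c`, `a ∈ P`, `t a = (t a t⁻¹) t`, `y (t a t⁻¹) ∈ lv l` (`lv_B_right`).
  injective: `y t c = y' t c'` gives `y' = y b` (`lv_inj`), so `t c = b t c' = t (t⁻¹ b t) c'`,
  `c = (t⁻¹ b t) c'` with `t⁻¹ b t ∈ P`, so `c = c'`, `b = 1`.
  By `len_lip_d` (for the finitely many `d = t c`) `| |wd (g t c)| - |wd g| | ≤ C0`, so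
  `ρ^C0 p T l ρ ≤ T (l+1) ρ ≤ ρ^(-C0) p T l ρ`, and `ρ^(±C0) → 1` as `ρ → 1`.
* `T_shift`: `g ↦ g b` is a bijection of `Lev l` (`lv_L_right`, `l ≥ 1`), so
  `Σ ρ^|wd g| (H (g b) - H g) = Σ H(g) (ρ^|wd (g b⁻¹)| - ρ^|wd g|)`, of absolute value at most
  `C Σ ρ^|wd g| (ρ^(-C0) - 1)`, `C0` from `len_lip_d b⁻¹`.  (`|ρ^a' - ρ^a| ≤ ρ^a (ρ^(-C0) - 1)` if
  `|a' - a| ≤ C0`.) -/

open Filter Topology

namespace Pool.Agent.HNNA

namespace WD

/-- a finite transversal of the right cosets of `P` in `L` -/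
theorem exists_transversal (D : WD) : ∃ C : Set D.G, C.Finite ∧ C.Nonempty ∧ (∀ c ∈ C, c ∈ D.L) ∧
    (∀ x ∈ D.L, ∃ c ∈ C, ∃ y ∈ D.P, x = y * c) ∧
    (∀ c ∈ C, ∀ c' ∈ C, ∀ y ∈ D.P, c' = y * c → c' = c) := by
  classical
  obtain ⟨F, hF, hFL, hFc⟩ := D.P_fin
  let q : D.G → Quotient (QuotientGroup.rightRel D.P) := fun x => Quotient.mk'' x
  have hq : ∀ x y : D.G, q x = q y ↔ y * x⁻¹ ∈ D.P := by
    intro x y
    rw [← QuotientGroup.rightRel_apply]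
    exact Quotient.eq''
  have hout : ∀ x : D.G, (q x).out * x⁻¹ ∈ D.P := by
    intro x
    rw [← hq]
    exact (Quotient.out_eq' (q x)).symm
  refine ⟨(fun f => (q f).out) '' F, hF.image _, ?_, ?_, ?_, ?_⟩
  · obtain ⟨f, hf, -⟩ := hFc 1 D.L.one_mem
    exact ⟨_, f, hf, rfl⟩
  · rintro _ ⟨f, hf, rfl⟩
    have h1 := D.L.mul_mem (D.P_le (hout f)) (hFL f hf)
    simpa using h1
  · intro x hx
    obtain ⟨f, hf, y, hy, rfl⟩ := hFc x hx
    refine ⟨_, ⟨f, hf, rfl⟩, y * ((q f).out * f⁻¹)⁻¹, D.P.mul_mem hy (D.P.inv_mem (hout f)), ?_⟩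
    group
  · rintro _ ⟨f, hf, rfl⟩ _ ⟨f', hf', rfl⟩ y hy h
    have h1 : q (q f).out = q (q f').out := by
      rw [hq]
      simp only at h
      rw [h]
      simpa using hy
    have h2 : q (q f).out = q f := Quotient.out_eq' (q f)
    have h3 : q (q f').out = q f' := Quotient.out_eq' (q f')
    simp only
    rw [← h3, ← h1, h2]

end WD

/-- comparison of two powers with close exponents -/
lemma pow_close {ρ : ℝ} (h0 : 0 < ρ) (h1 : ρ < 1) {a a' C : ℕ} (h : a' ≤ a + C)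
    (h' : a ≤ a' + C) : ρ ^ C * ρ ^ a ≤ ρ ^ a' ∧ ρ ^ a' ≤ (ρ ^ C)⁻¹ * ρ ^ a := by
  have hC : 0 < ρ ^ C := pow_pos h0 C
  constructor
  · rw [← pow_add]
    exact pow_le_pow_of_le_one h0.le h1.le (by omega)
  · rw [le_inv_mul_iff₀ hC, ← pow_add]
    exact pow_le_pow_of_le_one h0.le h1.le (by omega)

lemma pow_close_abs {ρ : ℝ} (h0 : 0 < ρ) (h1 : ρ < 1) {a a' C : ℕ} (h : a' ≤ a + C)
    (h' : a ≤ a' + C) : |ρ ^ a' - ρ ^ a| ≤ ((ρ ^ C)⁻¹ - 1) * ρ ^ a := by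
  obtain ⟨h2, h3⟩ := pow_close h0 h1 h h'
  have hC : 0 < ρ ^ C := pow_pos h0 C
  have ha : 0 < ρ ^ a := pow_pos h0 a
  have h4 : 2 ≤ (ρ ^ C)⁻¹ + ρ ^ C := by
    have h5 : (ρ ^ C)⁻¹ + ρ ^ C - 2 = (1 - ρ ^ C) ^ 2 / ρ ^ C := by
      field_simp
      ring
    have h6 : 0 ≤ (1 - ρ ^ C) ^ 2 / ρ ^ C := by positivity
    linarith
  rw [abs_le]
  constructor
  · nlinarith
  · nlinarith

lemma tendsto_pow_one (C : ℕ) : Tendsto (fun ρ : ℝ => ρ ^ C) (𝓝[<] 1) (𝓝 1) := by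
  have h : Tendsto (fun ρ : ℝ => ρ ^ C) (𝓝 1) (𝓝 (1 ^ C)) := (continuous_pow C).tendsto 1
  rw [one_pow] at h
  exact h.mono_left nhdsWithin_le_nhds

lemma eventually_01 : ∀ᶠ ρ : ℝ in 𝓝[<] 1, 0 < ρ ∧ ρ < 1 := by
  have h1 : ∀ᶠ ρ : ℝ in 𝓝[<] 1, 0 < ρ :=
    nhdsWithin_le_nhds (lt_mem_nhds (by norm_num : (0 : ℝ) < 1))
  filter_upwards [h1, self_mem_nhdsWithin] with ρ h h' using ⟨h, h'⟩

namespace Cfg

variable (c : Cfg)

theorem lev_TB (l : ℕ) : c.D.TB (c.Lev l) :=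
  (WD.TB_lv l).left c.γ⁻¹

theorem lev_L (l : ℕ) (hl : 1 ≤ l) {g y : c.D.G} (hy : y ∈ c.D.L) :
    g * y ∈ c.Lev l ↔ g ∈ c.Lev l := by
  obtain ⟨j, rfl⟩ := Nat.exists_eq_add_of_le' hl
  change c.γ⁻¹ * (g * y) ∈ c.D.lv (j + 1) ↔ c.γ⁻¹ * g ∈ c.D.lv (j + 1)
  rw [← mul_assoc]
  exact WD.lv_L_right hy _

theorem lev_b (l : ℕ) (hl : 1 ≤ l) {g : c.D.G} (hg : g ∈ c.Lev l) : g * c.b ∈ c.Lev l :=
  (c.lev_L l hl c.hbL).2 hg

theorem lev_nonempty (l : ℕ) : (c.Lev l).Nonempty := by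
  obtain ⟨y, hy⟩ := WD.lv_nonempty (D := c.D) l
  refine ⟨c.γ * y, ?_⟩
  change c.γ⁻¹ * (c.γ * y) ∈ c.D.lv l
  simpa using hy

theorem T_summable (l : ℕ) {ρ : ℝ} (h0 : 0 < ρ) (h1 : ρ < 1) :
    Summable (fun g : c.Lev l => ρ ^ (c.U.wd (g : c.D.G)).length) := by
  obtain ⟨C, hC⟩ := c.U.sum_TB c.hb (c.lev_TB l)
  exact (hC ρ h0 h1).1

theorem T_bound (l : ℕ) : ∃ C : ℝ, ∀ ρ : ℝ, 0 < ρ → ρ < 1 → c.T l ρ ≤ C / (1 - ρ) ^ c.D.n := by
  obtain ⟨C, hC⟩ := c.U.sum_TB c.hb (c.lev_TB l)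
  exact ⟨C, fun ρ h0 h1 => (hC ρ h0 h1).2⟩

theorem T_pos (l : ℕ) {ρ : ℝ} (h0 : 0 < ρ) (h1 : ρ < 1) : 0 < c.T l ρ := by
  obtain ⟨g, hg⟩ := c.lev_nonempty l
  exact (c.T_summable l h0 h1).tsum_pos (fun i => (pow_pos h0 _).le) ⟨g, hg⟩ (pow_pos h0 _)

/-- the bijection `Lev l × C → Lev (l+1)` -/
theorem lev_step (l : ℕ) {C : Set c.D.G} (hCL : ∀ x ∈ C, x ∈ c.D.L)
    (hCc : ∀ x ∈ c.D.L, ∃ z ∈ C, ∃ y ∈ c.D.P, x = y * z)
    (hCu : ∀ x ∈ C, ∀ x' ∈ C, ∀ y ∈ c.D.P, x' = y * x → x' = x) :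
    ∃ e : (c.Lev l × C) ≃ c.Lev (l + 1),
      ∀ q, (e q : c.D.G) = (q.1 : c.D.G) * (c.D.t * (q.2 : c.D.G)) := by
  have hmem : ∀ q : c.Lev l × C, (q.1 : c.D.G) * (c.D.t * (q.2 : c.D.G)) ∈ c.Lev (l + 1) := by
    intro q
    change c.γ⁻¹ * ((q.1 : c.D.G) * (c.D.t * (q.2 : c.D.G))) ∈ c.D.lv (l + 1)
    rw [← mul_assoc]
    exact WD.lv_mul_tl q.1.2 (hCL _ q.2.2)
  let f : (c.Lev l × C) → c.Lev (l + 1) := fun q => ⟨_, hmem q⟩
  have hf : Function.Bijective f := by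
    constructor
    · rintro ⟨⟨g, hg⟩, ⟨x, hx⟩⟩ ⟨⟨g', hg'⟩, ⟨x', hx'⟩⟩ h
      have h1 : g * (c.D.t * x) = g' * (c.D.t * x') := congrArg Subtype.val h
      have h2 : (c.γ⁻¹ * g) * c.D.t * x = (c.γ⁻¹ * g') * c.D.t * x' := by
        have := congrArg (fun z => c.γ⁻¹ * z) h1
        simpa [mul_assoc] using this
      obtain ⟨b, hb, hyb⟩ := WD.lv_inj (D := c.D) (j := l) hg hg' (hCL _ hx) (hCL _ hx') h2
      have h3 : g' = g * b := by
        have := congrArg (fun z => c.γ * z) hyb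
        simpa [mul_assoc] using this
      subst h3
      have h4 : c.D.t * x = b * (c.D.t * x') := by
        rw [mul_assoc] at h1
        exact mul_left_cancel h1
      have h5 : x = (c.D.t⁻¹ * b * c.D.t) * x' := by
        have := congrArg (fun z => c.D.t⁻¹ * z) h4
        simpa [mul_assoc] using this
      have h6 : x = x' := hCu _ hx' _ hx _ (c.D.conj_B b hb) h5
      subst h6
      have h7 : b = 1 := by
        have h8 : 1 * (c.D.t * x) = b * (c.D.t * x) := by rw [one_mul]; exact h4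
        exact (mul_right_cancel h8).symm
      subst h7
      simp
    · rintro ⟨g', hg'⟩
      obtain ⟨y, hy, y', hy', hyy⟩ := WD.lv_split (D := c.D) (i := l) (j := 1) hg'
      obtain ⟨a, ha, b, hb, hab⟩ := hy'
      have hb' : b ∈ c.D.B := hb
      obtain ⟨x, hx, z, hz, hxz⟩ := hCc (a * b) (c.D.L.mul_mem ha (c.D.B_le hb'))
      have hB : c.D.t * z * c.D.t⁻¹ ∈ c.D.B := c.D.conj_P z hz
      have hlv : c.γ⁻¹ * (c.γ * (y * (c.D.t * z * c.D.t⁻¹))) ∈ c.D.lv l := by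
        rw [inv_mul_cancel_left]
        exact (WD.lv_B_right hB y).2 hy
      refine ⟨⟨⟨c.γ * (y * (c.D.t * z * c.D.t⁻¹)), hlv⟩, ⟨x, hx⟩⟩, ?_⟩
      apply Subtype.ext
      change c.γ * (y * (c.D.t * z * c.D.t⁻¹)) * (c.D.t * x) = g'
      have h9 : g' = c.γ * (y * y') := by
        have := congrArg (fun w => c.γ * w) hyy
        simpa using this
      rw [h9, hab, mul_assoc c.D.t a b, hxz]
      group
  exact ⟨Equiv.ofBijective f hf, fun q => rfl⟩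

theorem T_ratio : ∃ p : ℝ, 0 < p ∧ ∀ l, Tendsto (fun ρ => c.T (l + 1) ρ / c.T l ρ)
    (𝓝[<] 1) (𝓝 p) := by
  classical
  obtain ⟨C, hCf, hCn, hCL, hCc, hCu⟩ := c.D.exists_transversal
  have : Fintype C := hCf.fintype
  -- a uniform Lipschitz constant
  have hlip : ∃ C0 : ℕ, ∀ x : C, ∀ g : c.D.G,
      (c.U.wd (g * (c.D.t * (x : c.D.G)))).length ≤ (c.U.wd g).length + C0 ∧
      (c.U.wd g).length ≤ (c.U.wd (g * (c.D.t * (x : c.D.G)))).length + C0 := by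
    choose K hK using fun x : C => c.U.len_lip_d (c.D.t * (x : c.D.G))
    refine ⟨∑ x : C, K x, fun x g => ?_⟩
    have h1 : K x ≤ ∑ x : C, K x := Finset.single_le_sum (fun _ _ => Nat.zero_le _) (Finset.mem_univ x)
    have h2 := hK x g
    omega
  obtain ⟨C0, hC0⟩ := hlip
  have hp : (0 : ℝ) < (Fintype.card C : ℝ) := by
    obtain ⟨x, hx⟩ := hCn
    have : Nonempty C := ⟨⟨x, hx⟩⟩
    exact_mod_cast Fintype.card_pos
  refine ⟨(Fintype.card C : ℝ), hp, fun l => ?_⟩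
  obtain ⟨e, he⟩ := c.lev_step l hCL hCc hCu
  have key : ∀ ρ : ℝ, 0 < ρ → ρ < 1 →
      ρ ^ C0 * (Fintype.card C : ℝ) ≤ c.T (l + 1) ρ / c.T l ρ ∧
      c.T (l + 1) ρ / c.T l ρ ≤ (ρ ^ C0)⁻¹ * (Fintype.card C : ℝ) := by
    intro ρ h0 h1
    have hT := c.T_pos l h0 h1
    have hs := c.T_summable l h0 h1
    have hs' := c.T_summable (l + 1) h0 h1
    have hse : Summable (fun q : c.Lev l × C => ρ ^ (c.U.wd (e q : c.D.G)).length) :=
      (Equiv.summable_iff e).2 hs'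
    have hTe : c.T (l + 1) ρ = ∑' q : c.Lev l × C, ρ ^ (c.U.wd (e q : c.D.G)).length :=
      (Equiv.tsum_eq e (fun g : c.Lev (l + 1) => ρ ^ (c.U.wd (g : c.D.G)).length)).symm
    have hone : Summable (fun _ : C => (1 : ℝ)) := (hasSum_fintype _).summable
    have hprod : Summable (fun q : c.Lev l × C =>
        ρ ^ (c.U.wd (q.1 : c.D.G)).length * (1 : ℝ)) :=
      hs.mul_of_nonneg hone (fun g => (pow_pos h0 _).le) (fun _ => zero_le_one)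
    have hval : ∑' q : c.Lev l × C, ρ ^ (c.U.wd (q.1 : c.D.G)).length * (1 : ℝ) =
        c.T l ρ * (Fintype.card C : ℝ) := by
      rw [← tsum_mul_tsum_of_summable_norm (f := fun g : c.Lev l =>
        ρ ^ (c.U.wd (g : c.D.G)).length) (g := fun _ : C => (1 : ℝ)) hs.norm hone.norm]
      congr 1
      rw [tsum_fintype]
      simp
    constructor
    · rw [le_div_iff₀ hT, hTe, mul_assoc, mul_comm (Fintype.card C : ℝ), ← hval, ← tsum_mul_left]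
      refine Summable.tsum_le_tsum (fun q => ?_) (hprod.mul_left _) hse
      rw [mul_one, he]
      exact (pow_close h0 h1 (hC0 q.2 _).1 (hC0 q.2 _).2).1
    · rw [div_le_iff₀ hT, hTe, mul_assoc, mul_comm (Fintype.card C : ℝ), ← hval, ← tsum_mul_left]
      refine Summable.tsum_le_tsum (fun q => ?_) hse (hprod.mul_left _)
      rw [mul_one, he]
      exact (pow_close h0 h1 (hC0 q.2 _).1 (hC0 q.2 _).2).2
  have hlow : Tendsto (fun ρ : ℝ => ρ ^ C0 * (Fintype.card C : ℝ)) (𝓝[<] 1)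
      (𝓝 (Fintype.card C : ℝ)) := by
    simpa using (tendsto_pow_one C0).mul_const (Fintype.card C : ℝ)
  have hup : Tendsto (fun ρ : ℝ => (ρ ^ C0)⁻¹ * (Fintype.card C : ℝ)) (𝓝[<] 1)
      (𝓝 (Fintype.card C : ℝ)) := by
    simpa using ((tendsto_pow_one C0).inv₀ one_ne_zero).mul_const (Fintype.card C : ℝ)
  refine tendsto_of_tendsto_of_tendsto_of_le_of_le' hlow hup ?_ ?_
  · filter_upwards [eventually_01] with ρ h using (key ρ h.1 h.2).1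
  · filter_upwards [eventually_01] with ρ h using (key ρ h.1 h.2).2

theorem T_shift (l : ℕ) (hl : 1 ≤ l) (H : c.D.G → ℂ) (hH : ∃ C : ℝ, ∀ g ∈ c.Lev l, ‖H g‖ ≤ C) :
    Tendsto (fun ρ : ℝ => (∑' g : c.Lev l, ((ρ ^ (c.U.wd (g : c.D.G)).length : ℝ) : ℂ) *
      (H ((g : c.D.G) * c.b) - H (g : c.D.G))) / ((c.T l ρ : ℝ) : ℂ)) (𝓝[<] 1) (𝓝 0) := by
  obtain ⟨C, hC⟩ := hH
  obtain ⟨C0, hC0⟩ := c.U.len_lip_d c.b⁻¹
  have hCpos : 0 ≤ C := by
    obtain ⟨g, hg⟩ := c.lev_nonempty l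
    exact (norm_nonneg _).trans (hC g hg)
  -- the bijection
  let e : c.Lev l ≃ c.Lev l :=
    { toFun := fun g => ⟨(g : c.D.G) * c.b, c.lev_b l hl g.2⟩
      invFun := fun g => ⟨(g : c.D.G) * c.b⁻¹, (c.lev_L l hl (c.D.L.inv_mem c.hbL)).2 g.2⟩
      left_inv := fun g => Subtype.ext (by simp)
      right_inv := fun g => Subtype.ext (by simp) }
  have key : ∀ ρ : ℝ, 0 < ρ → ρ < 1 →
      ‖(∑' g : c.Lev l, ((ρ ^ (c.U.wd (g : c.D.G)).length : ℝ) : ℂ) *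
      (H ((g : c.D.G) * c.b) - H (g : c.D.G))) / ((c.T l ρ : ℝ) : ℂ)‖ ≤
        C * ((ρ ^ C0)⁻¹ - 1) := by
    intro ρ h0 h1
    have hT := c.T_pos l h0 h1
    have hs := c.T_summable l h0 h1
    have hpc : ∀ g : c.Lev l, |ρ ^ (c.U.wd ((g : c.D.G) * c.b⁻¹)).length -
        ρ ^ (c.U.wd (g : c.D.G)).length| ≤ ((ρ ^ C0)⁻¹ - 1) * ρ ^ (c.U.wd (g : c.D.G)).length :=
      fun g => pow_close_abs h0 h1 (hC0 _).1 (hC0 _).2
    have hpc2 : ∀ g : c.Lev l, ρ ^ (c.U.wd ((g : c.D.G) * c.b⁻¹)).length ≤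
        (ρ ^ C0)⁻¹ * ρ ^ (c.U.wd (g : c.D.G)).length :=
      fun g => (pow_close h0 h1 (hC0 _).1 (hC0 _).2).2
    -- summability
    have hs1 : Summable (fun g : c.Lev l =>
        ((ρ ^ (c.U.wd (g : c.D.G)).length : ℝ) : ℂ) * H (g : c.D.G)) := by
      refine Summable.of_norm_bounded (hs.mul_right C) (fun g => ?_)
      rw [norm_mul, Complex.norm_real, Real.norm_of_nonneg (pow_pos h0 _).le]
      exact mul_le_mul_of_nonneg_left (hC _ g.2) (pow_pos h0 _).le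
    have hs2 : Summable (fun g : c.Lev l =>
        ((ρ ^ (c.U.wd (g : c.D.G)).length : ℝ) : ℂ) * H ((g : c.D.G) * c.b)) := by
      refine Summable.of_norm_bounded (hs.mul_right C) (fun g => ?_)
      rw [norm_mul, Complex.norm_real, Real.norm_of_nonneg (pow_pos h0 _).le]
      exact mul_le_mul_of_nonneg_left (hC _ (c.lev_b l hl g.2)) (pow_pos h0 _).le
    have hs3 : Summable (fun g : c.Lev l =>
        ((ρ ^ (c.U.wd ((g : c.D.G) * c.b⁻¹)).length : ℝ) : ℂ) * H (g : c.D.G)) := by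
      refine Summable.of_norm_bounded ((hs.mul_left (ρ ^ C0)⁻¹).mul_right C) (fun g => ?_)
      rw [norm_mul, Complex.norm_real, Real.norm_of_nonneg (pow_pos h0 _).le]
      exact mul_le_mul (hpc2 g) (hC _ g.2) (norm_nonneg _)
        (mul_nonneg (inv_nonneg.2 (pow_pos h0 _).le) (pow_pos h0 _).le)
    have hshift : ∑' g : c.Lev l, ((ρ ^ (c.U.wd (g : c.D.G)).length : ℝ) : ℂ) *
        H ((g : c.D.G) * c.b) = ∑' g : c.Lev l,
        ((ρ ^ (c.U.wd ((g : c.D.G) * c.b⁻¹)).length : ℝ) : ℂ) * H (g : c.D.G) := by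
      rw [← Equiv.tsum_eq e (fun g : c.Lev l =>
        ((ρ ^ (c.U.wd ((g : c.D.G) * c.b⁻¹)).length : ℝ) : ℂ) * H (g : c.D.G))]
      refine tsum_congr (fun g => ?_)
      change _ = ((ρ ^ (c.U.wd (((g : c.D.G) * c.b) * c.b⁻¹)).length : ℝ) : ℂ) *
        H ((g : c.D.G) * c.b)
      rw [mul_inv_cancel_right]
    have htot : ∑' g : c.Lev l, ((ρ ^ (c.U.wd (g : c.D.G)).length : ℝ) : ℂ) *
        (H ((g : c.D.G) * c.b) - H (g : c.D.G)) = ∑' g : c.Lev l,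
        (((ρ ^ (c.U.wd ((g : c.D.G) * c.b⁻¹)).length -
          ρ ^ (c.U.wd (g : c.D.G)).length : ℝ)) : ℂ) * H (g : c.D.G) := by
      simp only [mul_sub]
      rw [hs2.tsum_sub hs1, hshift, ← hs3.tsum_sub hs1]
      refine tsum_congr (fun g => ?_)
      push_cast
      ring
    have hbd : ∀ g : c.Lev l, ‖(((ρ ^ (c.U.wd ((g : c.D.G) * c.b⁻¹)).length -
          ρ ^ (c.U.wd (g : c.D.G)).length : ℝ)) : ℂ) * H (g : c.D.G)‖ ≤
          (C * ((ρ ^ C0)⁻¹ - 1)) * ρ ^ (c.U.wd (g : c.D.G)).length := by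
      intro g
      rw [norm_mul, Complex.norm_real, Real.norm_eq_abs]
      calc |ρ ^ (c.U.wd ((g : c.D.G) * c.b⁻¹)).length -
          ρ ^ (c.U.wd (g : c.D.G)).length| * ‖H (g : c.D.G)‖
          ≤ (((ρ ^ C0)⁻¹ - 1) * ρ ^ (c.U.wd (g : c.D.G)).length) * C :=
            mul_le_mul (hpc g) (hC _ g.2) (norm_nonneg _) ((abs_nonneg _).trans (hpc g))
        _ = _ := by ring
    have hsb : Summable (fun g : c.Lev l =>
        (C * ((ρ ^ C0)⁻¹ - 1)) * ρ ^ (c.U.wd (g : c.D.G)).length) := hs.mul_left _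
    rw [norm_div, Complex.norm_real, Real.norm_of_nonneg hT.le, div_le_iff₀ hT, htot]
    refine (norm_tsum_le_tsum_norm (hsb.of_nonneg_of_le (fun g => norm_nonneg _) hbd)).trans ?_
    refine (Summable.tsum_le_tsum hbd (hsb.of_nonneg_of_le (fun g => norm_nonneg _) hbd)
      hsb).trans ?_
    rw [tsum_mul_left]
    rfl
  have hlim : Tendsto (fun ρ : ℝ => C * ((ρ ^ C0)⁻¹ - 1)) (𝓝[<] 1) (𝓝 0) := by
    have h := (((tendsto_pow_one C0).inv₀ one_ne_zero).sub_const 1).const_mul C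
    simpa using h
  refine squeeze_zero_norm' ?_ hlim
  filter_upwards [eventually_01] with ρ h using key ρ h.1 h.2

end Cfg

end Pool.Agent.HNNA
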