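import Mathlib

/-! MP_4b60bf_al.  MODULE REGORDER: the growth series of a regular language has a pole of integral
order at 1. -/

open Filter Topology

namespace Pool.Agent.HNNA

namespace RegOrderAux

/-- Accepted words of length `m` starting at the state `s`. -/
def Wd {k : ℕ} {S : Type} (M : DFA (Fin k) S) (m : ℕ) (s : S) : Type :=
  {w : List (Fin k) // w.length = m ∧ M.evalFrom s w ∈ M.accept}

instance {k : ℕ} {S : Type} (M : DFA (Fin k) S) (m : ℕ) (s : S) : Finite (Wd M m s) := by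
  have h : {w : List (Fin k) | w.length = m ∧ M.evalFrom s w ∈ M.accept}.Finite :=
    (List.finite_length_eq (Fin k) m).subset (fun w hw => hw.1)
  exact h.to_subtype

/-- Number of accepted words. -/
noncomputable def cnt {k : ℕ} {S : Type} (M : DFA (Fin k) S) (m : ℕ) (s : S) : ℕ :=
  Nat.card (Wd M m s)

/-- Split off the first letter. -/
def splitE {k : ℕ} {S : Type} (M : DFA (Fin k) S) (m : ℕ) (s : S) :
    Wd M (m + 1) s ≃ (Σ a : Fin k, Wd M m (M.step s a)) where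
  toFun := fun ⟨w, hw⟩ => match w, hw with
    | [], hw => absurd hw.1 (by simp)
    | a :: w, hw => ⟨a, ⟨w, by simpa using hw.1, by simpa using hw.2⟩⟩
  invFun := fun ⟨a, ⟨w, hw⟩⟩ => ⟨a :: w, by simp [hw.1], by simpa using hw.2⟩
  left_inv := by
    rintro ⟨w, hw⟩
    cases w with
    | nil => exact absurd hw.1 (by simp)
    | cons a w => rfl
  right_inv := by
    rintro ⟨a, ⟨w, hw⟩⟩
    rfl

theorem cnt_succ {k : ℕ} {S : Type} (M : DFA (Fin k) S) (m : ℕ) (s : S) :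
    cnt M (m + 1) s = ∑ a : Fin k, cnt M m (M.step s a) := by
  unfold cnt
  rw [Nat.card_congr (splitE M m s), Nat.card_sigma]

/-- The transition matrix. -/
noncomputable def T {k : ℕ} {S : Type} [DecidableEq S] (M : DFA (Fin k) S) :
    Matrix S S ℝ := fun s t => ∑ a : Fin k, if M.step s a = t then 1 else 0

theorem cnt_mulVec {k : ℕ} {S : Type} [Fintype S] [DecidableEq S] (M : DFA (Fin k) S) (m : ℕ) :
    (fun s => (cnt M (m + 1) s : ℝ)) = (T M).mulVec (fun s => (cnt M m s : ℝ)) := by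
  funext s
  rw [cnt_succ]
  simp only [Matrix.mulVec, dotProduct, T]
  push_cast
  simp_rw [Finset.sum_mul]
  rw [Finset.sum_comm]
  refine Finset.sum_congr rfl (fun a _ => ?_)
  simp

theorem cnt_pow {k : ℕ} {S : Type} [Fintype S] [DecidableEq S] (M : DFA (Fin k) S) (m i : ℕ) :
    (fun s => (cnt M (m + i) s : ℝ)) = ((T M) ^ i).mulVec (fun s => (cnt M m s : ℝ)) := by
  induction i with
  | zero => simp
  | succ i ih =>
    rw [← add_assoc, cnt_mulVec, ih, pow_succ', Matrix.mulVec_mulVec]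

theorem rec_zero {k : ℕ} {S : Type} [Fintype S] [DecidableEq S] (M : DFA (Fin k) S) (m : ℕ)
    (s : S) :
    ∑ i ∈ Finset.range ((T M).charpoly.natDegree + 1),
      (T M).charpoly.coeff i * (cnt M (m + i) s : ℝ) = 0 := by
  have h := Matrix.aeval_self_charpoly (T M)
  rw [Polynomial.aeval_eq_sum_range] at h
  have h2 := congrArg (fun A : Matrix S S ℝ => A.mulVec (fun s => (cnt M m s : ℝ)) s) h
  simp only [Matrix.zero_mulVec, Pi.zero_apply] at h2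
  rw [Matrix.sum_mulVec] at h2
  rw [Finset.sum_apply] at h2
  rw [← h2]
  refine Finset.sum_congr rfl (fun i _ => ?_)
  rw [Matrix.smul_mulVec, Pi.smul_apply, smul_eq_mul, ← cnt_pow]

theorem gf_order (cf : ℕ → ℝ) (h0 : ∀ m, 0 ≤ cf m) (m0 : ℕ) (hm0 : 0 < cf m0)
    (hs : ∀ ρ : ℝ, 0 < ρ → ρ < 1 → Summable (fun m => cf m * ρ ^ m)) (d : ℕ) (q : ℕ → ℝ)
    (hq : q d = 1) (hrec : ∀ m, ∑ i ∈ Finset.range (d + 1), q i * cf (m + i) = 0) :
    ∃ r : ℕ, ∃ c : ℝ, 0 < c ∧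
      Tendsto (fun ρ : ℝ => (1 - ρ) ^ r * ∑' m, cf m * ρ ^ m) (𝓝[<] 1) (𝓝 c) := by
  classical
  set f : ℝ → ℝ := fun ρ => ∑' m, cf m * ρ ^ m with hf
  let Q : Polynomial ℝ := ∑ i ∈ Finset.range (d + 1), Polynomial.C (q i) * Polynomial.X ^ (d - i)
  let P : Polynomial ℝ := ∑ i ∈ Finset.range (d + 1), Polynomial.C (q i) *
    Polynomial.X ^ (d - i) * ∑ m ∈ Finset.range i, Polynomial.C (cf m) * Polynomial.X ^ m
  have hQe : ∀ ρ : ℝ, Q.eval ρ = ∑ i ∈ Finset.range (d + 1), q i * ρ ^ (d - i) := by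
    intro ρ
    simp only [Q, Polynomial.eval_finsetSum, Polynomial.eval_mul, Polynomial.eval_C,
      Polynomial.eval_pow, Polynomial.eval_X]
  have hPe : ∀ ρ : ℝ, P.eval ρ = ∑ i ∈ Finset.range (d + 1), q i * ρ ^ (d - i) *
      ∑ m ∈ Finset.range i, cf m * ρ ^ m := by
    intro ρ
    simp only [P, Polynomial.eval_finsetSum, Polynomial.eval_mul, Polynomial.eval_C,
      Polynomial.eval_pow, Polynomial.eval_X]
  have hQ0 : Q ≠ 0 := by
    intro h
    have h1 := hQe 0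
    rw [h, Polynomial.eval_zero, Finset.sum_range_succ] at h1
    rw [Finset.sum_eq_zero] at h1
    · simp [hq] at h1
    · intro i hi
      have : d - i ≠ 0 := by
        have := Finset.mem_range.1 hi
        omega
      rw [zero_pow this, mul_zero]
  have hfPQ : ∀ ρ : ℝ, 0 < ρ → ρ < 1 → f ρ * Q.eval ρ = P.eval ρ := by
    intro ρ hρ0 hρ1
    have hsum := hs ρ hρ0 hρ1
    have hi : ∀ i, f ρ = ∑ m ∈ Finset.range i, cf m * ρ ^ m + ∑' m, cf (m + i) * ρ ^ (m + i) := by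
      intro i
      exact (hsum.sum_add_tsum_nat_add i).symm
    rw [hQe, hPe, Finset.mul_sum]
    have hz : ∑ i ∈ Finset.range (d + 1), q i * ρ ^ (d - i) * ∑' m, cf (m + i) * ρ ^ (m + i) = 0 := by
      have h1 : ∀ i ∈ Finset.range (d + 1), q i * ρ ^ (d - i) * ∑' m, cf (m + i) * ρ ^ (m + i) =
          ∑' m, q i * ρ ^ (d - i) * (cf (m + i) * ρ ^ (m + i)) := fun i _ => tsum_mul_left.symm
      rw [Finset.sum_congr rfl h1, ← Summable.tsum_finsetSum]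
      · have h2 : ∀ m, ∑ i ∈ Finset.range (d + 1), q i * ρ ^ (d - i) * (cf (m + i) * ρ ^ (m + i))
            = 0 := by
          intro m
          have h3 : ∑ i ∈ Finset.range (d + 1), q i * ρ ^ (d - i) * (cf (m + i) * ρ ^ (m + i)) =
              ρ ^ (m + d) * ∑ i ∈ Finset.range (d + 1), q i * cf (m + i) := by
            rw [Finset.mul_sum]
            refine Finset.sum_congr rfl (fun i hi => ?_)
            have hid : i ≤ d := Nat.lt_succ_iff.1 (Finset.mem_range.1 hi)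
            have h4 : ρ ^ (m + d) = ρ ^ (d - i) * ρ ^ (m + i) := by
              rw [← pow_add]; congr 1; omega
            rw [h4]; ring
          rw [h3, hrec, mul_zero]
        simp only [h2, tsum_zero]
      · intro i _
        exact ((summable_nat_add_iff i).2 hsum).mul_left _
    have h5 : ∑ i ∈ Finset.range (d + 1), f ρ * (q i * ρ ^ (d - i)) =
        ∑ i ∈ Finset.range (d + 1), q i * ρ ^ (d - i) * ∑ m ∈ Finset.range i, cf m * ρ ^ m +
        ∑ i ∈ Finset.range (d + 1), q i * ρ ^ (d - i) * ∑' m, cf (m + i) * ρ ^ (m + i) := by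
      rw [← Finset.sum_add_distrib]
      refine Finset.sum_congr rfl (fun i _ => ?_)
      rw [← mul_add, ← hi i, mul_comm]
    rw [h5, hz, add_zero]
  have hge : ∀ ρ : ℝ, 0 < ρ → ρ < 1 → cf m0 * ρ ^ m0 ≤ f ρ := by
    intro ρ hρ0 hρ1
    exact (hs ρ hρ0 hρ1).le_tsum m0 (fun j _ => mul_nonneg (h0 j) (pow_nonneg hρ0.le j))
  have hpos : ∀ ρ : ℝ, 0 < ρ → ρ < 1 → 0 < f ρ := fun ρ hρ0 hρ1 =>
    lt_of_lt_of_le (mul_pos hm0 (pow_pos hρ0 _)) (hge ρ hρ0 hρ1)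
  have hP0 : P ≠ 0 := by
    intro h
    apply hQ0
    apply Polynomial.eq_zero_of_infinite_isRoot
    refine Set.Infinite.mono ?_ (Set.Ioo_infinite (show (0 : ℝ) < 1 by norm_num))
    intro ρ hρ
    have h1 := hfPQ ρ hρ.1 hρ.2
    rw [h, Polynomial.eval_zero] at h1
    rcases mul_eq_zero.1 h1 with h2 | h2
    · exact absurd h2 (hpos ρ hρ.1 hρ.2).ne'
    · exact h2
  obtain ⟨P1, hP1, hP1d⟩ := Polynomial.exists_eq_pow_rootMultiplicity_mul_and_not_dvd P hP0 1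
  obtain ⟨Q1, hQ1, hQ1d⟩ := Polynomial.exists_eq_pow_rootMultiplicity_mul_and_not_dvd Q hQ0 1
  rw [Polynomial.dvd_iff_isRoot] at hP1d hQ1d
  generalize P.rootMultiplicity 1 = a at hP1
  generalize Q.rootMultiplicity 1 = b at hQ1
  have hP1e : P1.eval 1 ≠ 0 := hP1d
  have hQ1e : Q1.eval 1 ≠ 0 := hQ1d
  have hPt : Tendsto (fun ρ : ℝ => P1.eval ρ) (𝓝[<] 1) (𝓝 (P1.eval 1)) :=
    (P1.continuous.tendsto 1).mono_left nhdsWithin_le_nhds
  have hQt : Tendsto (fun ρ : ℝ => Q1.eval ρ) (𝓝[<] 1) (𝓝 (Q1.eval 1)) :=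
    (Q1.continuous.tendsto 1).mono_left nhdsWithin_le_nhds
  have hdt : Tendsto (fun ρ : ℝ => P1.eval ρ / Q1.eval ρ) (𝓝[<] 1)
      (𝓝 (P1.eval 1 / Q1.eval 1)) := hPt.div hQt hQ1e
  have hIoo : ∀ᶠ ρ : ℝ in 𝓝[<] 1, ρ ∈ Set.Ioo (0 : ℝ) 1 :=
    Ioo_mem_nhdsLT (show (0 : ℝ) < 1 by norm_num)
  have hQne : ∀ᶠ ρ : ℝ in 𝓝[<] 1, Q1.eval ρ ≠ 0 := hQt.eventually_ne hQ1e
  have hkey : ∀ᶠ ρ : ℝ in 𝓝[<] 1, f ρ * (ρ - 1) ^ b = (ρ - 1) ^ a * (P1.eval ρ / Q1.eval ρ) := by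
    filter_upwards [hIoo, hQne] with ρ hρ hne
    have h1 := hfPQ ρ hρ.1 hρ.2
    rw [hP1, hQ1] at h1
    simp only [Polynomial.eval_mul, Polynomial.eval_pow, Polynomial.eval_sub, Polynomial.eval_X,
      Polynomial.eval_C] at h1
    field_simp
    linarith
  have hsub : Tendsto (fun ρ : ℝ => ρ - 1) (𝓝[<] 1) (𝓝 0) := by
    have : Tendsto (fun ρ : ℝ => ρ - 1) (𝓝 1) (𝓝 (1 - 1)) :=
      (continuous_id.sub continuous_const).tendsto 1
    rw [sub_self] at this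
    exact this.mono_left nhdsWithin_le_nhds
  rcases lt_or_ge b a with hba | hab
  · exfalso
    obtain ⟨n, rfl⟩ : ∃ n, a = b + (n + 1) := ⟨a - b - 1, by omega⟩
    have h1 : ∀ᶠ ρ : ℝ in 𝓝[<] 1, (ρ - 1) ^ (n + 1) * (P1.eval ρ / Q1.eval ρ) = f ρ := by
      filter_upwards [hkey, hIoo] with ρ h hρ
      have hne : (ρ - 1) ^ b ≠ 0 := pow_ne_zero _ (by linarith [hρ.2] : (ρ - 1) < 0).ne
      have h2 : (ρ - 1) ^ b * ((ρ - 1) ^ (n + 1) * (P1.eval ρ / Q1.eval ρ)) =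
          (ρ - 1) ^ b * f ρ := by
        rw [← mul_assoc, ← pow_add, ← h, mul_comm]
      exact mul_left_cancel₀ hne h2
    have h2 : Tendsto (fun ρ : ℝ => (ρ - 1) ^ (n + 1) * (P1.eval ρ / Q1.eval ρ)) (𝓝[<] 1)
        (𝓝 (0 ^ (n + 1) * (P1.eval 1 / Q1.eval 1))) := (hsub.pow (n + 1)).mul hdt
    rw [zero_pow (Nat.succ_ne_zero n), zero_mul] at h2
    have h3 : Tendsto f (𝓝[<] 1) (𝓝 0) := h2.congr' h1
    have h4 : Tendsto (fun ρ : ℝ => cf m0 * ρ ^ m0) (𝓝[<] 1) (𝓝 (cf m0 * 1 ^ m0)) :=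
      ((continuous_const.mul (continuous_id.pow m0)).tendsto 1).mono_left nhdsWithin_le_nhds
    rw [one_pow, mul_one] at h4
    have h5 : cf m0 ≤ 0 := le_of_tendsto_of_tendsto h4 h3
      (by filter_upwards [hIoo] with ρ hρ using hge ρ hρ.1 hρ.2)
    linarith
  · obtain ⟨r, rfl⟩ : ∃ r, b = a + r := ⟨b - a, by omega⟩
    have h1 : ∀ᶠ ρ : ℝ in 𝓝[<] 1, (-1) ^ r * (P1.eval ρ / Q1.eval ρ) = (1 - ρ) ^ r * f ρ := by
      filter_upwards [hkey, hIoo] with ρ h hρ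
      have hne : (ρ - 1) ^ a ≠ 0 := pow_ne_zero _ (by linarith [hρ.2] : (ρ - 1) < 0).ne
      have h2 : (ρ - 1) ^ a * ((ρ - 1) ^ r * f ρ) = (ρ - 1) ^ a * (P1.eval ρ / Q1.eval ρ) := by
        rw [← h, pow_add]; ring
      have h3 := mul_left_cancel₀ hne h2
      rw [← h3, ← mul_assoc, ← mul_pow]
      congr 2
      ring
    have h2 : Tendsto (fun ρ : ℝ => (-1) ^ r * (P1.eval ρ / Q1.eval ρ)) (𝓝[<] 1)
        (𝓝 ((-1) ^ r * (P1.eval 1 / Q1.eval 1))) := hdt.const_mul _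
    have h3 := h2.congr' h1
    refine ⟨r, (-1) ^ r * (P1.eval 1 / Q1.eval 1), ?_, h3⟩
    have h4 : 0 ≤ (-1) ^ r * (P1.eval 1 / Q1.eval 1) := by
      refine ge_of_tendsto h3 ?_
      filter_upwards [hIoo] with ρ hρ
      exact mul_nonneg (pow_nonneg (by linarith [hρ.2]) _) (hpos ρ hρ.1 hρ.2).le
    have h5 : (-1 : ℝ) ^ r * (P1.eval 1 / Q1.eval 1) ≠ 0 :=
      mul_ne_zero (pow_ne_zero _ (by norm_num)) (div_ne_zero hP1e hQ1e)
    exact lt_of_le_of_ne h4 (Ne.symm h5)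

end RegOrderAux

theorem reg_order {k : ℕ} (𝓛 : Language (Fin k)) (hreg : 𝓛.IsRegular) (hne : ∃ w, w ∈ 𝓛)
    (hsum : ∀ ρ : ℝ, 0 < ρ → ρ < 1 →
      Summable (fun w : {w : List (Fin k) // w ∈ 𝓛} => ρ ^ w.1.length)) :
    ∃ r : ℕ, ∃ c : ℝ, 0 < c ∧
      Tendsto (fun ρ : ℝ => (1 - ρ) ^ r * ∑' w : {w : List (Fin k) // w ∈ 𝓛}, ρ ^ w.1.length)
        (𝓝[<] 1) (𝓝 c) := by
  classical
  obtain ⟨S, hS, M, rfl⟩ := hreg
  -- fibres over the length
  let E : (Σ m : ℕ, RegOrderAux.Wd M m M.start) ≃ {w : List (Fin k) // w ∈ M.accepts} :=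
    { toFun := fun x => ⟨x.2.1, x.2.2.2⟩
      invFun := fun w => ⟨w.1.length, ⟨w.1, rfl, w.2⟩⟩
      left_inv := by
        rintro ⟨m, ⟨w, hw, hw2⟩⟩
        subst hw
        rfl
      right_inv := by
        rintro ⟨w, hw⟩
        rfl }
  have hlen : ∀ x : (Σ m : ℕ, RegOrderAux.Wd M m M.start), (E x).1.length = x.1 := by
    rintro ⟨m, ⟨w, hw, hw2⟩⟩
    exact hw
  have hsig : ∀ ρ : ℝ, 0 < ρ → ρ < 1 →
      Summable (fun x : (Σ m : ℕ, RegOrderAux.Wd M m M.start) => ρ ^ x.1) := by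
    intro ρ h0 h1
    have := (E.summable_iff.2 (hsum ρ h0 h1))
    refine this.congr (fun x => ?_)
    simp only [Function.comp, hlen]
  have hfib : ∀ (ρ : ℝ) (m : ℕ), ∑' _ : RegOrderAux.Wd M m M.start, ρ ^ m =
      (RegOrderAux.cnt M m M.start : ℝ) * ρ ^ m := by
    intro ρ m
    rw [tsum_const, nsmul_eq_mul]
    rfl
  have hts : ∀ ρ : ℝ, 0 < ρ → ρ < 1 →
      ∑' w : {w : List (Fin k) // w ∈ M.accepts}, ρ ^ w.1.length =
      ∑' m : ℕ, (RegOrderAux.cnt M m M.start : ℝ) * ρ ^ m := by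
    intro ρ h0 h1
    rw [← E.tsum_eq]
    simp only [hlen]
    rw [(hsig ρ h0 h1).tsum_sigma]
    simp only [hfib]
  obtain ⟨w0, hw0⟩ := hne
  obtain ⟨r, c, hc, ht⟩ := RegOrderAux.gf_order
    (fun m => (RegOrderAux.cnt M m M.start : ℝ)) (fun m => Nat.cast_nonneg _) w0.length
    (by
      have : Nonempty (RegOrderAux.Wd M w0.length M.start) := ⟨⟨w0, rfl, hw0⟩⟩
      exact_mod_cast Nat.card_pos)
    (by
      intro ρ h0 h1
      have := (hsig ρ h0 h1).sigma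
      simpa only [hfib] using this)
    (RegOrderAux.T M).charpoly.natDegree (RegOrderAux.T M).charpoly.coeff
    (by
      have := (Matrix.charpoly_monic (RegOrderAux.T M))
      exact this)
    (fun m => RegOrderAux.rec_zero M m M.start)
  refine ⟨r, c, hc, ht.congr' ?_⟩
  filter_upwards [Ioo_mem_nhdsLT (show (0 : ℝ) < 1 by norm_num)] with ρ hρ
  rw [hts ρ hρ.1 hρ.2]

end Pool.Agent.HNNA
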