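import Pool.Agent.HNNA.Setup

/-! MP_4b60bf_al.  MODULE SPLITA (about 200 lines): unambiguous decompositions `Pre · Suf`.

Notation for a pair type `Y = (s, s', d, r)`.
PROOFS.
* `pre_suf_mem`: `w = π ++ σ` is accepted, `γ⁻¹ ev w = y (r ev σ) ∈ lv k · lv j` (`lv_mul`).
* `pre_suf_exists`: `l0 ≥ 1` and `l0 > max |ht| over Kb + max |ht| over R`.  Let `w` be accepted,
  `γ⁻¹ ev w = y y'`, `y ∈ lv k`, `y' ∈ lv j` (`lv_split`), `y' ∈ br` (`j ≥ 1`).  `cut_entry` with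
  `r = 1` and the branch `γ y`: `w = π ++ σ`, `π ≠ []` (`(γ y)⁻¹ ∉ br` by `inv_not_br`, `lv_mul`),
  `(γ y)⁻¹ ev π = z r` (`entry_pos`), so `ev π = γ (y z) r`, `y z ∈ lv k`.  Let `w' = wd (ev w * b)`.
  If `|w'| < |π|`: `κ = (pos w |π|)⁻¹ pos w' |π| = (ev π)⁻¹ ev w b = ev σ b ∈ Kb` has height
  `ht (ev σ) = ht (γ⁻¹ ev w) - ht (y z r) = j - ht r > max |ht| over Kb`: contradiction.  So
  `π' = w'.take |π|`, `σ' = w'.drop |π|`, `s' = go start π'`, `d = (ev π)⁻¹ ev π' ∈ Kb`.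
* `pre_suf_uniq`: `ev (π ++ σ)` is in the branches of `γ y` and `γ y2`; by `lv_disj` `y2 = y b'`, so
  the branches are equal (`br_Binv`) and `cut_unique` gives `π = π2`, `σ = σ2`; `γ y r = γ y2 r2`
  gives `r = b' r2`, so `r = r2` (`EntrySet.inj`).  `s = go start π`.  The words `π'_i ++ σ'_i` are
  accepted with the same value `ev (π ++ σ) * b`, so equal, and `|π'_1| = |π| = |π'_2|`, so
  `π'_1 = π'_2`, which gives `s'` and `d`. -/

namespace Pool.Agent.HNNA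

lemma UAS.stay_B_splitA {D : WD} (U : UAS D) {z r : D.G} (hz : z ∈ D.B) {σ : U.W} :
    U.Stay (z * r) σ ↔ U.Stay r σ := by
  unfold UAS.Stay
  refine forall_congr' fun m => ?_
  rw [mul_assoc]
  exact WD.br_Binv hz _

lemma WD.exists_ht_bound_splitA {D : WD} {K : Set D.G} (hK : K.Finite) :
    ∃ M : ℕ, ∀ x ∈ K, |D.ht x| ≤ M := by
  obtain ⟨M, hM⟩ := (hK.image fun x => (D.ht x).natAbs).bddAbove
  refine ⟨M, fun x hx => ?_⟩
  have := hM (Set.mem_image_of_mem _ hx)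
  rw [Int.abs_eq_natAbs]
  exact_mod_cast this

namespace Cfg

variable (c : Cfg)

theorem pre_suf_mem {k j : ℕ} {Y : c.U.PT} {π σ : c.U.W} (hπ : π ∈ c.U.Pre c.γ k Y)
    (hσ : σ ∈ c.U.Suf c.b Y j) :
    π ++ σ ∈ c.U.M.accepts ∧ c.U.ev (π ++ σ) ∈ c.Lev (k + j) := by
  obtain ⟨hne, hst, hr, ⟨y, hy, hev, hd⟩, hπ'⟩ := hπ
  obtain ⟨hacc, hstay, hlv, hσ'⟩ := hσ
  refine ⟨?_, ?_⟩
  · rw [c.U.mem_accepts_iff, c.U.go_append, hst]
    exact hacc
  · change c.γ⁻¹ * c.U.ev (π ++ σ) ∈ c.D.lv (k + j)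
    have h1 : c.γ⁻¹ * c.U.ev (π ++ σ) = y * (Y.2.2.2 * c.U.ev σ) := by
      rw [c.U.ev_append, hev]
      group
    rw [h1]
    exact WD.lv_mul hy hlv

theorem pre_suf_exists : ∃ l0 : ℕ, ∀ k j, l0 ≤ j → ∀ w ∈ c.U.M.accepts,
    c.U.ev w ∈ c.Lev (k + j) → ∃ Y ∈ c.PTs, ∃ π ∈ c.U.Pre c.γ k Y, ∃ σ ∈ c.U.Suf c.b Y j,
      w = π ++ σ := by
  obtain ⟨M1, hM1⟩ := WD.exists_ht_bound_splitA c.hKb
  obtain ⟨M2, hM2⟩ := WD.exists_ht_bound_splitA c.hR.fin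
  refine ⟨M1 + M2 + 1, fun k j hj w hw hlev => ?_⟩
  change c.γ⁻¹ * c.U.ev w ∈ c.D.lv (k + j) at hlev
  obtain ⟨y, hy, y', hy', hyy⟩ := WD.lv_split hlev
  have hy'br : y' ∈ c.D.br := by
    obtain ⟨j', rfl⟩ : ∃ j', j = j' + 1 := ⟨j - 1, by omega⟩
    exact WD.lv_succ_mem_br hy'
  have hend : (c.γ * y)⁻¹ * (1 * c.U.ev w) ∈ c.D.br := by
    have h1 : (c.γ * y)⁻¹ * (1 * c.U.ev w) = y' := by
      have h2 : c.U.ev w = c.γ * (y * y') := by rw [← hyy]; group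
      rw [h2]; group
    rw [h1]
    exact hy'br
  obtain ⟨x, σ1, hw', hstay, hx⟩ := c.U.cut_entry 1 (c.γ * y) w hend
  rw [one_mul] at hstay
  have hγy : c.γ * y ∈ c.D.lv (c.j0 + k) := WD.lv_mul c.hγ hy
  have hxne : x ≠ [] := by
    intro h0
    rw [h0, c.U.ev_nil, mul_one] at hstay
    exact WD.inv_not_br hγy (UAS.Stay.start _ hstay)
  have hx' : (c.γ * y)⁻¹ * c.U.ev x.dropLast ∉ c.D.br := by
    rcases hx with h | h
    · exact absurd h hxne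
    · rwa [one_mul] at h
  obtain ⟨z, hz, r, hr, hzr⟩ := c.U.entry_pos c.hR hxne (UAS.Stay.start _ hstay) hx'
  have hevx : c.U.ev x = c.γ * (y * z) * r := by
    have h1 : c.U.ev x = (c.γ * y) * ((c.γ * y)⁻¹ * c.U.ev x) := by group
    rw [h1, hzr]; group
  have hyz : y * z ∈ c.D.lv k := (WD.lv_B_right hz y).2 hy
  have hevw : c.U.ev w = c.U.ev x * c.U.ev σ1 := by rw [hw', c.U.ev_append]
  -- the second word
  have hwd : c.U.wd (c.U.ev w) = w := c.U.wd_ev hw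
  have hposw : c.U.pos w x.length = c.U.ev x := by
    rw [hw', c.U.pos_append_left le_rfl, c.U.pos_length]
  have hft := c.ftb (c.U.ev w) x.length
  rw [hwd, hposw] at hft
  -- heights
  have ht1 : c.D.ht (c.U.ev σ1) = j - c.D.ht r := by
    have e1 : c.D.ht (c.γ⁻¹ * c.U.ev w) = k + j := by
      rw [hyy, c.D.ht_mul, WD.lv_ht hy, WD.lv_ht hy']
    have e2 : c.D.ht (c.U.ev w) = c.D.ht (c.U.ev x) + c.D.ht (c.U.ev σ1) := by
      rw [hevw, c.D.ht_mul]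
    have e3 : c.D.ht (c.U.ev x) = c.D.ht c.γ + k + c.D.ht r := by
      rw [hevx, c.D.ht_mul, c.D.ht_mul, WD.lv_ht hyz]
    rw [c.D.ht_mul, c.D.ht_inv] at e1
    omega
  have hlen : x.length ≤ (c.U.wd (c.U.ev w * c.b)).length := by
    by_contra h0
    push Not at h0
    rw [c.U.pos_of_le h0.le, c.U.ev_wd] at hft
    have h1 : (c.U.ev x)⁻¹ * (c.U.ev w * c.b) = c.U.ev σ1 * c.b := by
      rw [hevw]; group
    rw [h1] at hft
    have h2 := hM1 _ hft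
    rw [c.D.ht_mul, c.D.ht_L _ c.hbL, ht1, abs_le] at h2
    have h3 := hM2 _ hr
    rw [abs_le] at h3
    omega
  set w' := c.U.wd (c.U.ev w * c.b) with hw'def
  have hw'acc : w' ∈ c.U.M.accepts := c.U.wd_mem _
  have hw'ev : c.U.ev w' = c.U.ev w * c.b := c.U.ev_wd _
  have htd : c.U.ev (w'.take x.length) * c.U.ev (w'.drop x.length) = c.U.ev w * c.b := by
    rw [← c.U.ev_append, List.take_append_drop, hw'ev]
  have hfinal : c.U.ev σ1 * c.b = (c.U.ev x)⁻¹ * c.U.ev (w'.take x.length) *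
      c.U.ev (w'.drop x.length) := by
    rw [mul_assoc, htd, hevw]; group
  refine ⟨(c.U.go c.U.M.start x, c.U.go c.U.M.start (w'.take x.length),
    (c.U.ev x)⁻¹ * c.U.ev (w'.take x.length), r), ⟨hft, hr⟩, x, ?_, σ1, ?_, hw'⟩
  · refine ⟨hxne, rfl, c.hR.mem r hr, ⟨y * z, hyz, hevx, ?_⟩, w'.take x.length, ?_, rfl, ?_⟩
    · have h1 : (c.γ * (y * z))⁻¹ * c.U.ev x.dropLast =
          z⁻¹ * ((c.γ * y)⁻¹ * c.U.ev x.dropLast) := by group
      rw [h1, WD.br_Binv (inv_mem hz)]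
      exact hx'
    · rw [List.length_take, min_eq_left hlen]
    · change _ = c.U.ev x * ((c.U.ev x)⁻¹ * c.U.ev (w'.take x.length))
      group
  · refine ⟨?_, ?_, ?_, w'.drop x.length, ?_, hfinal⟩
    · change c.U.go (c.U.go c.U.M.start x) σ1 ∈ _
      rw [← c.U.go_append, ← hw']
      exact hw
    · change c.U.Stay r σ1
      rw [hzr] at hstay
      exact (c.U.stay_B_splitA hz).1 hstay
    · change r * c.U.ev σ1 ∈ c.D.lv j
      rw [← WD.lv_B_left hz]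
      have h1 : z * (r * c.U.ev σ1) = y' := by
        rw [← mul_assoc, ← hzr]
        have h2 : c.U.ev w = c.γ * (y * y') := by rw [← hyy]; group
        have h3 : (c.γ * y)⁻¹ * c.U.ev x * c.U.ev σ1 = (c.γ * y)⁻¹ * c.U.ev w := by
          rw [hevw]; group
        rw [h3, h2]; group
      rw [h1]
      exact hy'
    · change c.U.go (c.U.go c.U.M.start (w'.take x.length)) (w'.drop x.length) ∈ _
      rw [← c.U.go_append, List.take_append_drop]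
      exact hw'acc

theorem pre_suf_uniq {k j : ℕ} {Y Y2 : c.U.PT} (hY : Y ∈ c.PTs) (hY2 : Y2 ∈ c.PTs)
    {π σ π2 σ2 : c.U.W} (hπ : π ∈ c.U.Pre c.γ k Y) (hσ : σ ∈ c.U.Suf c.b Y j)
    (hπ2 : π2 ∈ c.U.Pre c.γ k Y2) (hσ2 : σ2 ∈ c.U.Suf c.b Y2 j) (h : π ++ σ = π2 ++ σ2) :
    Y = Y2 ∧ π = π2 ∧ σ = σ2 := by
  obtain ⟨s, s', d, r⟩ := Y
  obtain ⟨t, t', e, q⟩ := Y2
  obtain ⟨-, hr⟩ := hY
  obtain ⟨-, hq⟩ := hY2
  obtain ⟨hne, hst, hrbr, ⟨y, hy, hev, hd⟩, π', hlen, hgo, hevp⟩ := hπ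
  obtain ⟨hacc, hstay, hlv, σ', hacc', hevs⟩ := hσ
  obtain ⟨hne2, hst2, hrbr2, ⟨y2, hy2, hev2, hd2⟩, π2', hlen2, hgo2, hevp2⟩ := hπ2
  obtain ⟨hacc2, hstay2, hlv2, σ2', hacc2', hevs2⟩ := hσ2
  simp only at *
  have hev' : c.U.ev (π ++ σ) = c.U.ev (π2 ++ σ2) := by rw [h]
  have h1 : y⁻¹ * (c.γ⁻¹ * c.U.ev (π ++ σ)) = r * c.U.ev σ := by
    rw [c.U.ev_append, hev]; group
  have h2 : y2⁻¹ * (c.γ⁻¹ * c.U.ev (π ++ σ)) = q * c.U.ev σ2 := by
    rw [hev', c.U.ev_append, hev2]; group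
  obtain ⟨b', hb', hyb⟩ := WD.lv_disj hy hy2 (x := c.γ⁻¹ * c.U.ev (π ++ σ))
    (by rw [h1]; exact UAS.Stay.last _ hstay) (by rw [h2]; exact UAS.Stay.last _ hstay2)
  have hcut := c.U.cut_unique (r := 1) (y := c.γ * y) h
    (by
      have e1 : (c.γ * y)⁻¹ * (1 * c.U.ev π) = r := by rw [hev]; group
      rw [e1]; exact hstay)
    (Or.inr (by rw [one_mul]; exact hd))
    (by
      have e1 : (c.γ * y)⁻¹ * (1 * c.U.ev π2) = b' * q := by rw [hev2, hyb]; group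
      rw [e1]; exact (c.U.stay_B_splitA hb').2 hstay2)
    (Or.inr (by
      have e1 : (c.γ * y)⁻¹ * (1 * c.U.ev π2.dropLast) =
          b' * ((c.γ * y2)⁻¹ * c.U.ev π2.dropLast) := by rw [hyb]; group
      rw [e1, WD.br_Binv hb']; exact hd2))
  obtain ⟨rfl, rfl⟩ := hcut
  have hrq : r = q := by
    apply c.hR.inj q hq r hr b' hb'
    have e1 : c.γ * y * r = c.γ * (y * b') * q := by rw [← hev, ← hyb, ← hev2]
    have e2 : c.γ * (y * b') * q = c.γ * y * (b' * q) := by group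
    rw [e2] at e1
    exact mul_left_cancel e1
  have hwords : π' ++ σ' = π2' ++ σ2' := by
    apply c.U.uniq
    · rw [c.U.mem_accepts_iff, c.U.go_append, hgo]; exact hacc'
    · rw [c.U.mem_accepts_iff, c.U.go_append, hgo2]; exact hacc2'
    · change c.U.ev (π' ++ σ') = c.U.ev (π2' ++ σ2')
      rw [c.U.ev_append, c.U.ev_append, hevp, hevp2, mul_assoc, ← hevs, mul_assoc, ← hevs2]
  have hπ' : π' = π2' := List.append_inj_left hwords (by rw [hlen, hlen2])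
  subst hπ'
  have hde : d = e := by
    rw [hevp] at hevp2
    exact mul_left_cancel hevp2
  refine ⟨?_, rfl, rfl⟩
  rw [← hst, ← hst2, ← hgo, ← hgo2, hde, hrq]

end Cfg

end Pool.Agent.HNNA
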