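import Pool.Agent.HNNA.Setup

/-! MP_4b60bf_al.  MODULE SPLITB (about 250 lines): unambiguous decompositions `Mid · Suf`.

Notation for a pair type `Y = (s, s', d, r)`.
PROOFS.
* `mid_suf_mem`: direct (`Stay`: `r ev x pos σ1 m = t l (r1 pos σ1 m) ∈ br` by `nest`).
* `mid_suf_exists` (`Y` occurs, `j ≥ l0`; `l0 ≥ 1` and `l0 > max |ht| over Kb + max |ht| over R`): let
  `π ∈ Pre γ k Y`, `π'`; `σ ∈ Suf b Y (j+1)`, `σ'`.
  `w = π ++ σ`, `w' = π' ++ σ'` are accepted with `ev w' = ev w * b`.  `r ev σ = t l y'`, `l ∈ L`,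
  `y' ∈ lv j ⊆ br`.  `cut_entry r (t l) σ`: `σ = x ++ σ1`.  `(t l)⁻¹ (r ev x) ∈ B R`: if `x ≠ []` by
  `entry_pos` (with `g = (t l)⁻¹ r`); if `x = []`: by `EntrySet.src`, `r = x0 * gen i`, `x0 ∉ br`, so
  `(t l)⁻¹ x0 ∉ br` (`nest`), and `(t l)⁻¹ r ∈ br`, use `EntrySet.entry`.  So
  `r ev x = t (l z) r1`.  `|σ'| ≥ |x|`: otherwise at time `|π| + |x|` the difference
  `κ = (ev π ev x)⁻¹ ev w b = ev σ1 b ∈ Kb` (`ftb`, `wd_ev`) has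
  height `(j + 1) - (1 + ht r1) = j - ht r1`, too large.  Put `x' = σ'.take |x|`,
  `σ1' = σ'.drop |x|`, `s1' = go s' x'`, `d1 = (ev x)⁻¹ d ev x' ∈ Kb` (`ftb` at time `|π| + |x|`).
* `mid_suf_uniq`: the value `r ev (x ++ σ)` is in the branches of `t l1` and of `t l2`; by
  `lv_disj` (`j = 1`) or `disj`, `l2 = l1 b'`, the branches are equal, `cut_unique` gives `x = x2`,
  `σ = σ2`; `t l1 r1 = t l2 r2` and `EntrySet.inj` give `r1 = r2`.  The words `x'_i ++ σ'_i` are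
  accepted from `s'` (accessible, since `Y` occurs) with the same value
  (`d ev (x'_i σ'_i) = ev (x ++ σ) b`), so equal (`acc_uniq`); `|x'_i| = |x|`, so `x'_1 = x'_2`.
* `occ_mid`: `π ++ x ∈ Pre γ (k+1) Y'` for `π ∈ Pre γ k Y`, `x ∈ Mid Y Y'`: `ev = γ y (t l) r1`,
  `y (t l) ∈ lv (k+1)` (`lv_mul_tl`); the entry condition for `x = []` holds because
  `(γ y)⁻¹ ev π.dropLast ∉ br` implies `(t l)⁻¹ (γ y)⁻¹ ev π.dropLast ∉ br` (`nest`). -/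

namespace Pool.Agent.HNNA

namespace Cfg

variable (c : Cfg)

theorem mid_suf_mem {j : ℕ} {Y Y' : c.U.PT} {x σ : c.U.W} (hx : x ∈ c.U.Mid Y Y')
    (hσ : σ ∈ c.U.Suf c.b Y' j) : x ++ σ ∈ c.U.Suf c.b Y (j + 1) := by
  obtain ⟨hx1, hx2, hx3, ⟨l, hl, hxl, hxe⟩, x', hx'l, hx'g, hx'd⟩ := hx
  obtain ⟨hσ1, hσ2, hσ3, σ', hσ'g, hσ'd⟩ := hσ
  refine ⟨?_, ?_, ?_, x' ++ σ', ?_, ?_⟩
  · rw [UAS.go_append, hx1]
    exact hσ1
  · rw [UAS.stay_append]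
    refine ⟨hx2, fun m => ?_⟩
    rw [hxl, mul_assoc]
    exact WD.nest hl (hσ2 m)
  · refine ⟨l, hl, _, hσ3, ?_⟩
    rw [UAS.ev_append, ← mul_assoc, hxl]
    group
  · rw [UAS.go_append, hx'g]
    exact hσ'g
  · rw [UAS.ev_append, UAS.ev_append, mul_assoc, hσ'd, ← mul_assoc, ← hx'd, mul_assoc]

theorem ht_bound {S : Set c.D.G} (hS : S.Finite) : ∃ H : ℕ, ∀ x ∈ S, c.D.ht x ≤ H := by
  obtain ⟨M, hM⟩ := (hS.image c.D.ht).bddAbove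
  refine ⟨M.toNat, fun x hx => ?_⟩
  exact (hM ⟨x, hx, rfl⟩).trans (Int.self_le_toNat M)

theorem mid_suf_exists : ∃ l0 : ℕ, ∀ j, l0 ≤ j → ∀ Y ∈ c.PTs, c.Occ Y →
    ∀ σ ∈ c.U.Suf c.b Y (j + 1), ∃ Y' ∈ c.PTs, ∃ x ∈ c.U.Mid Y Y', ∃ σ1 ∈ c.U.Suf c.b Y' j,
      σ = x ++ σ1 := by
  obtain ⟨H1, hH1⟩ := c.ht_bound c.hKb
  obtain ⟨H2, hH2⟩ := c.ht_bound c.hR.fin
  refine ⟨H1 + H2 + 1, ?_⟩
  rintro j hj ⟨s, s', d, r⟩ ⟨hYd, hYr⟩ ⟨k, π, hπ0, hπs, hrbr, ⟨y, hy, hπy, hπe⟩, π', hπ'l, hπ's,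
    hπ'd⟩ σ ⟨hσ1, hσ2, hσ3, σ', hσ'g, hσ'd⟩
  simp only at hYd hYr hπs hrbr hπy hπ's hπ'd hσ1 hσ2 hσ3 hσ'g hσ'd
  -- the accepted words
  have hw : π ++ σ ∈ c.U.M.accepts := by
    rw [UAS.mem_accepts_iff, UAS.go_append, hπs]
    exact hσ1
  have hw' : π' ++ σ' ∈ c.U.M.accepts := by
    rw [UAS.mem_accepts_iff, UAS.go_append, hπ's]
    exact hσ'g
  have hevw : c.U.ev (π' ++ σ') = c.U.ev (π ++ σ) * c.b := by
    rw [UAS.ev_append, UAS.ev_append, hπ'd, mul_assoc, ← hσ'd, mul_assoc]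
  have hwd : c.U.wd (c.U.ev (π ++ σ)) = π ++ σ := c.U.wd_ev hw
  have hwd' : c.U.wd (c.U.ev (π ++ σ) * c.b) = π' ++ σ' := by
    rw [← hevw]
    exact c.U.wd_ev hw'
  obtain ⟨l, hl, y1, hy1, hly⟩ := hσ3
  have hy1br : y1 ∈ c.D.br := by
    obtain ⟨j', rfl⟩ : ∃ j', j = j' + 1 := ⟨j - 1, by omega⟩
    exact WD.lv_succ_mem_br hy1
  have hyl : (c.D.t * l)⁻¹ * (r * c.U.ev σ) = y1 := by
    rw [hly]
    group
  obtain ⟨x, σ1, hxσ, hst, hxe⟩ := c.U.cut_entry r (c.D.t * l) σ (by rw [hyl]; exact hy1br)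
  have hst0 := UAS.Stay.start (U := c.U) hst
  have hentry : ∃ b' ∈ c.D.B, ∃ r1 ∈ c.R, (c.D.t * l)⁻¹ * (r * c.U.ev x) = b' * r1 := by
    rcases eq_or_ne x [] with hx0 | hx0
    · subst hx0
      rw [UAS.ev_nil, mul_one] at hst0 ⊢
      obtain ⟨x0, hx0, i, hi⟩ := c.hR.src r hYr
      have h1 : (c.D.t * l)⁻¹ * x0 ∉ c.D.br := by
        intro h
        apply hx0
        have := WD.nest hl h
        rwa [mul_inv_cancel_left] at this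
      have h2 : (c.D.t * l)⁻¹ * x0 * c.U.gen i = (c.D.t * l)⁻¹ * r := by
        rw [mul_assoc, hi]
      obtain ⟨b', hb', r1, hr1, h3⟩ := c.hR.entry _ h1 i (by rw [h2]; exact hst0)
      exact ⟨b', hb', r1, hr1, by rw [← h2, h3]⟩
    · have h2 := hxe.resolve_left hx0
      obtain ⟨b', hb', r1, hr1, h3⟩ := c.U.entry_pos c.hR (g := (c.D.t * l)⁻¹ * r) hx0
        (by rw [mul_assoc]; exact hst0) (by rw [mul_assoc]; exact h2)
      exact ⟨b', hb', r1, hr1, by rw [← h3, mul_assoc]⟩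
  obtain ⟨b', hb', r1, hr1, hbr⟩ := hentry
  have hrx : r * c.U.ev x = c.D.t * (l * b') * r1 := by
    have : r * c.U.ev x = c.D.t * l * ((c.D.t * l)⁻¹ * (r * c.U.ev x)) := by group
    rw [this, hbr]
    group
  have hlb : l * b' ∈ c.D.L := c.D.L.mul_mem hl (c.D.B_le hb')
  -- position of w at time m
  have hposw : c.U.pos (π ++ σ) (π.length + x.length) = c.U.ev π * c.U.ev x := by
    rw [UAS.pos_append_right, hxσ, c.U.pos_append_left le_rfl, UAS.pos_length]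
  have hevσ : c.U.ev σ = c.U.ev x * c.U.ev σ1 := by rw [hxσ, UAS.ev_append]
  have hftb := c.ftb (c.U.ev (π ++ σ)) (π.length + x.length)
  rw [hwd, hwd', hposw] at hftb
  -- length
  have hlen : x.length ≤ σ'.length := by
    by_contra hcon
    push Not at hcon
    have hpos' : c.U.pos (π' ++ σ') (π.length + x.length) = c.U.ev (π ++ σ) * c.b := by
      rw [c.U.pos_of_le, hevw]
      rw [List.length_append, hπ'l]
      omega
    rw [hpos'] at hftb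
    have hκ : (c.U.ev π * c.U.ev x)⁻¹ * (c.U.ev (π ++ σ) * c.b) = c.U.ev σ1 * c.b := by
      rw [UAS.ev_append, hevσ]
      group
    rw [hκ] at hftb
    have h1 := hH1 _ hftb
    rw [c.D.ht_mul, c.D.ht_L _ c.hbL, add_zero] at h1
    have h2 : c.D.ht (r * c.U.ev σ) = (j + 1 : ℕ) :=
      WD.lv_ht (D := c.D) (j := j + 1) ⟨l, hl, y1, hy1, hly⟩
    have h3 : c.D.ht (r * c.U.ev x) = 1 + c.D.ht r1 := by
      rw [hrx, c.D.ht_mul, c.D.ht_mul, c.D.ht_t, c.D.ht_L _ hlb]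
      ring
    have h4 : c.D.ht (r * c.U.ev σ) = c.D.ht (r * c.U.ev x) + c.D.ht (c.U.ev σ1) := by
      rw [hevσ, ← mul_assoc, c.D.ht_mul]
    have h5 := hH2 r1 hr1
    push_cast at h2
    have h6 : ((H1 + H2 + 1 : ℕ) : ℤ) ≤ (j : ℤ) := by exact_mod_cast hj
    push_cast at h6
    linarith
  have htake : (σ'.take x.length).length = x.length := by
    rw [List.length_take]
    omega
  have hσ's : σ' = σ'.take x.length ++ σ'.drop x.length := (List.take_append_drop _ _).symm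
  have hpos' : c.U.pos (π' ++ σ') (π.length + x.length)
      = c.U.ev π' * c.U.ev (σ'.take x.length) := by
    rw [← hπ'l, UAS.pos_append_right, UAS.pos]
  rw [hpos'] at hftb
  have hd1 : (c.U.ev π * c.U.ev x)⁻¹ * (c.U.ev π' * c.U.ev (σ'.take x.length))
      = (c.U.ev x)⁻¹ * d * c.U.ev (σ'.take x.length) := by
    rw [hπ'd]
    group
  rw [hd1] at hftb
  refine ⟨(c.U.go s x, c.U.go s' (σ'.take x.length), (c.U.ev x)⁻¹ * d * c.U.ev (σ'.take x.length),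
    r1), ⟨hftb, hr1⟩, x, ⟨rfl, ?_, c.hR.mem r1 hr1, ⟨l * b', hlb, hrx, ?_⟩,
    σ'.take x.length, htake, rfl, ?_⟩, σ1, ⟨?_, ?_, ?_, σ'.drop x.length, ?_, ?_⟩, hxσ⟩
  · rw [hxσ, UAS.stay_append] at hσ2
    exact hσ2.1
  · refine hxe.imp id fun h h' => h ?_
    rw [← WD.br_Binv (c.D.B.inv_mem hb')]
    have : b'⁻¹ * ((c.D.t * l)⁻¹ * (r * c.U.ev x.dropLast))
        = (c.D.t * (l * b'))⁻¹ * (r * c.U.ev x.dropLast) := by group
    rw [this]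
    exact h'
  · simp only
    group
  · simp only
    rw [← UAS.go_append, ← hxσ]
    exact hσ1
  · intro m
    have h1 := hst m
    rw [hbr, mul_assoc, WD.br_Binv hb'] at h1
    exact h1
  · simp only
    rw [← WD.lv_B_left hb']
    have : b' * (r1 * c.U.ev σ1) = y1 := by
      rw [← mul_assoc, ← hbr, ← hyl, hevσ]
      group
    rw [this]
    exact hy1
  · simp only
    rw [← UAS.go_append, ← hσ's]
    exact hσ'g
  · simp only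
    have h1 : c.U.ev σ' = c.U.ev (σ'.take x.length) * c.U.ev (σ'.drop x.length) := by
      rw [← UAS.ev_append, ← hσ's]
    have h2 : (c.U.ev x)⁻¹ * (c.U.ev σ * c.b) = c.U.ev σ1 * c.b := by
      rw [hevσ]
      group
    rw [← h2, hσ'd, h1]
    group

theorem mid_suf_uniq {j : ℕ} {Y Y1 Y2 : c.U.PT} (hocc : c.Occ Y)
    (hY1 : Y1 ∈ c.PTs) (hY2 : Y2 ∈ c.PTs)
    {x σ x2 σ2 : c.U.W} (hx : x ∈ c.U.Mid Y Y1) (hσ : σ ∈ c.U.Suf c.b Y1 j)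
    (hx2 : x2 ∈ c.U.Mid Y Y2) (hσ2 : σ2 ∈ c.U.Suf c.b Y2 j) (h : x ++ σ = x2 ++ σ2) :
    Y1 = Y2 ∧ x = x2 ∧ σ = σ2 := by
  obtain ⟨k, π, hπ0, hπs, hrbr, ⟨y, hy, hπy, hπe⟩, π', hπ'l, hπ's, hπ'd⟩ := hocc
  obtain ⟨hx_1, hx_2, hx_3, ⟨l, hl, hxl, hxe⟩, x', hx'l, hx'g, hx'd⟩ := hx
  obtain ⟨hσ_1, hσ_2, hσ_3, σ', hσ'g, hσ'd⟩ := hσ
  obtain ⟨hx2_1, hx2_2, hx2_3, ⟨l2, hl2, hx2l, hx2e⟩, x2', hx2'l, hx2'g, hx2'd⟩ := hx2
  obtain ⟨hσ2_1, hσ2_2, hσ2_3, σ2', hσ2'g, hσ2'd⟩ := hσ2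
  have hlv : ∀ z ∈ c.D.L, c.D.t * z ∈ c.D.lv 1 := fun z hz => ⟨z, hz, 1, c.D.B.one_mem, by simp⟩
  have e1 : (c.D.t * l)⁻¹ * (Y.2.2.2 * c.U.ev (x ++ σ)) = Y1.2.2.2 * c.U.ev σ := by
    rw [UAS.ev_append, ← mul_assoc Y.2.2.2, hxl]
    group
  have e2 : (c.D.t * l2)⁻¹ * (Y.2.2.2 * c.U.ev (x ++ σ)) = Y2.2.2.2 * c.U.ev σ2 := by
    rw [h, UAS.ev_append, ← mul_assoc Y.2.2.2, hx2l]
    group
  obtain ⟨b', hb', hbl⟩ := WD.lv_disj (hlv l hl) (hlv l2 hl2)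
    (x := Y.2.2.2 * c.U.ev (x ++ σ)) (by rw [e1]; exact UAS.Stay.last (U := c.U) hσ_2)
    (by rw [e2]; exact UAS.Stay.last (U := c.U) hσ2_2)
  have hst1 : (c.D.t * l)⁻¹ * (Y.2.2.2 * c.U.ev x) = Y1.2.2.2 := by
    rw [hxl]
    group
  have hst2 : (c.D.t * l)⁻¹ * (Y.2.2.2 * c.U.ev x2) = b' * Y2.2.2.2 := by
    rw [hx2l, hbl]
    group
  obtain ⟨hxx, hσσ⟩ := c.U.cut_unique (r := Y.2.2.2) (y := c.D.t * l) h
    (by rw [hst1]; exact hσ_2) hxe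
    (by
      rw [hst2]
      intro m
      rw [mul_assoc, WD.br_Binv hb']
      exact hσ2_2 m)
    (by
      refine hx2e.imp id fun h1 h2 => h1 ?_
      rw [← WD.br_Binv hb']
      have : b' * ((c.D.t * l2)⁻¹ * (Y.2.2.2 * c.U.ev x2.dropLast))
          = (c.D.t * l)⁻¹ * (Y.2.2.2 * c.U.ev x2.dropLast) := by
        rw [hbl]
        group
      rw [this]
      exact h2)
  subst hxx hσσ
  have hr12 : Y1.2.2.2 = b' * Y2.2.2.2 := hst1.symm.trans hst2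
  have hr : Y1.2.2.2 = Y2.2.2.2 := c.hR.inj _ hY2.2 _ hY1.2 b' hb' hr12
  have hs : Y1.1 = Y2.1 := hx_1.symm.trans hx2_1
  have hacc : c.U.acc Y.2.1 := ⟨π', hπ's⟩
  have hval : c.U.ev (x' ++ σ') = c.U.ev (x2' ++ σ2') := by
    have h1 : Y.2.2.1 * c.U.ev (x' ++ σ') = c.U.ev x * (c.U.ev σ * c.b) := by
      rw [UAS.ev_append, ← mul_assoc, hx'd, mul_assoc, ← hσ'd]
    have h2 : Y.2.2.1 * c.U.ev (x2' ++ σ2') = c.U.ev x * (c.U.ev σ * c.b) := by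
      rw [UAS.ev_append, ← mul_assoc, hx2'd, mul_assoc, ← hσ2'd]
    exact mul_left_cancel (h1.trans h2.symm)
  have hw : x' ++ σ' = x2' ++ σ2' := c.U.acc_uniq hacc
    (by rw [UAS.go_append, hx'g]; exact hσ'g) (by rw [UAS.go_append, hx2'g]; exact hσ2'g) hval
  have hxx' : x' = x2' := List.append_inj_left hw (by rw [hx'l, hx2'l])
  subst hxx'
  have hs' : Y1.2.1 = Y2.2.1 := hx'g.symm.trans hx2'g
  have hd : Y1.2.2.1 = Y2.2.2.1 := mul_left_cancel (hx'd.symm.trans hx2'd)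
  exact ⟨Prod.ext hs (Prod.ext hs' (Prod.ext hd hr)), rfl, rfl⟩

theorem occ_mid {Y Y' : c.U.PT} (hocc : c.Occ Y) {x : c.U.W} (hx : x ∈ c.U.Mid Y Y') :
    c.Occ Y' := by
  obtain ⟨k, π, hπ0, hπs, hrbr, ⟨y, hy, hπy, hπe⟩, π', hπ'l, hπ's, hπ'd⟩ := hocc
  obtain ⟨hx_1, hx_2, hx_3, ⟨l, hl, hxl, hxe⟩, x', hx'l, hx'g, hx'd⟩ := hx
  refine ⟨k + 1, π ++ x, ?_, ?_, hx_3, ⟨y * (c.D.t * l), WD.lv_mul_tl hy hl, ?_, ?_⟩, π' ++ x', ?_,
    ?_, ?_⟩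
  · simp [hπ0]
  · rw [UAS.go_append, hπs, hx_1]
  · rw [UAS.ev_append, hπy, mul_assoc _ Y.2.2.2, hxl]
    group
  · rcases eq_or_ne x [] with h0 | h0
    · subst h0
      rw [List.append_nil]
      intro h
      apply hπe
      have := WD.nest hl h
      have e : c.D.t * l * ((c.γ * (y * (c.D.t * l)))⁻¹ * c.U.ev π.dropLast)
          = (c.γ * y)⁻¹ * c.U.ev π.dropLast := by group
      rwa [e] at this
    · rw [List.dropLast_append_of_ne_nil h0, UAS.ev_append, hπy]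
      have e : (c.γ * (y * (c.D.t * l)))⁻¹ * (c.γ * y * Y.2.2.2 * c.U.ev x.dropLast)
          = (c.D.t * l)⁻¹ * (Y.2.2.2 * c.U.ev x.dropLast) := by group
      rw [e]
      exact hxe.resolve_left h0
  · rw [List.length_append, List.length_append, hπ'l, hx'l]
  · rw [UAS.go_append, hπ's, hx'g]
  · rw [UAS.ev_append, UAS.ev_append, hπ'd, mul_assoc, hx'd, mul_assoc]

end Cfg

end Pool.Agent.HNNA
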