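import Pool.Agent.HNNA.SufReg
import Pool.Agent.HNNA.SplitA
import Pool.Agent.HNNA.SplitB
import Pool.Agent.HNNA.Ratio
import Pool.Agent.HNNA.LA2
import Pool.Agent.HNNA.RegOrder
import Pool.Agent.HNNA.Decomp

/-! MP_4b60bf_al.  Assembly of the bounded case. -/

open Filter Topology

namespace Pool.Agent.HNNA

namespace Cfg

variable (c : Cfg)

/-- the accepted words of level `l` -/
def Acc (l : ℕ) : Set (List (Fin c.U.k)) :=
  {w | w ∈ c.U.M.accepts ∧ c.U.ev w ∈ c.Lev l}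

/-- accepted words of level `l` and elements of level `l` -/
noncomputable def accEquiv (l : ℕ) : c.Acc l ≃ c.Lev l where
  toFun w := ⟨c.U.ev w.1, w.2.2⟩
  invFun g := ⟨c.U.wd g.1, c.U.wd_mem g.1, by rw [c.U.ev_wd]; exact g.2⟩
  left_inv w := Subtype.ext (c.U.wd_ev w.2.1)
  right_inv g := Subtype.ext (c.U.ev_wd g.1)

lemma accEquiv_coe (l : ℕ) (w : c.Acc l) : ((c.accEquiv l w : c.Lev l) : c.D.G) = c.U.ev w.1 := rfl

lemma wd_accEquiv (l : ℕ) (w : c.Acc l) : c.U.wd ((c.accEquiv l w : c.Lev l) : c.D.G) = w.1 :=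
  c.U.wd_ev w.2.1

lemma acc_summable (l : ℕ) {ρ : ℝ} (h0 : 0 < ρ) (h1 : ρ < 1) :
    Summable (fun w : c.Acc l => ρ ^ (w : List (Fin c.U.k)).length) := by
  have h := (Equiv.summable_iff (c.accEquiv l)).2 (c.T_summable l h0 h1)
  refine h.congr fun w => ?_
  simp only [Function.comp_apply]
  rw [c.wd_accEquiv l w]

lemma gsr_acc (l : ℕ) (ρ : ℝ) : gsr (c.Acc l) ρ = c.T l ρ := by
  unfold gsr T
  rw [← Equiv.tsum_eq (c.accEquiv l)]
  refine tsum_congr fun w => ?_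
  rw [c.wd_accEquiv l w]

lemma wsum_acc (l : ℕ) (ρ : ℝ) (f : c.D.G → ℂ) :
    wsum (c.Acc l) ρ (fun w => f (c.U.ev w)) =
      ∑' g : c.Lev l, ((ρ ^ (c.U.wd (g : c.D.G)).length : ℝ) : ℂ) * f g := by
  unfold wsum
  rw [← Equiv.tsum_eq (c.accEquiv l)]
  refine tsum_congr fun w => ?_
  rw [c.wd_accEquiv l w, c.accEquiv_coe l w]

/-- the index type: the pair types which matter -/
def Idx (l0 : ℕ) : Type :=
  {Y : c.U.PT // Y ∈ c.PTs ∧ c.Occ Y ∧ ∃ j, l0 ≤ j ∧ (c.U.Suf c.b Y j).Nonempty}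

lemma PTs_finite : c.PTs.Finite := by
  have h : c.PTs ⊆ (Set.univ : Set c.U.S) ×ˢ ((Set.univ : Set c.U.S) ×ˢ (c.Kb ×ˢ c.R)) := by
    rintro ⟨s, s', d, r⟩ ⟨h1, h2⟩
    exact ⟨trivial, trivial, h1, h2⟩
  exact (Set.finite_univ.prod (Set.finite_univ.prod (c.hKb.prod c.hR.fin))).subset h

instance (l0 : ℕ) : Finite (c.Idx l0) := by
  have h : {Y : c.U.PT | Y ∈ c.PTs ∧ c.Occ Y ∧
      ∃ j, l0 ≤ j ∧ (c.U.Suf c.b Y j).Nonempty}.Finite :=
    c.PTs_finite.subset fun Y hY => hY.1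
  exact h.to_subtype

lemma unamb_acc {l0 : ℕ} (h0 : ∀ k j, l0 ≤ j → ∀ w ∈ c.U.M.accepts,
    c.U.ev w ∈ c.Lev (k + j) → ∃ Y ∈ c.PTs, ∃ π ∈ c.U.Pre c.γ k Y, ∃ σ ∈ c.U.Suf c.b Y j,
      w = π ++ σ) (k j : ℕ) (hj : l0 ≤ j) :
    Unamb (c.Acc (k + j)) (fun i : c.Idx l0 => c.U.Pre c.γ k i.1)
      (fun i : c.Idx l0 => c.U.Suf c.b i.1 j) where
  mem := fun i x hx z hz => c.pre_suf_mem hx hz
  ex := by
    rintro w ⟨hw, hl⟩
    obtain ⟨Y, hY, π, hπ, σ, hσ, rfl⟩ := h0 k j hj w hw hl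
    exact ⟨⟨Y, hY, ⟨k, π, hπ⟩, ⟨j, hj, σ, hσ⟩⟩, π, hπ, σ, hσ, rfl⟩
  uniq := by
    rintro ⟨Y, hY, h1⟩ ⟨Y', hY', h1'⟩ x hx z hz x' hx' z' hz' he
    obtain ⟨e1, e2, e3⟩ := c.pre_suf_uniq hY hY' hx hz hx' hz' he
    exact ⟨Subtype.ext e1, e2, e3⟩

lemma unamb_suf {l0 : ℕ} (h0 : ∀ j, l0 ≤ j → ∀ Y ∈ c.PTs, c.Occ Y →
    ∀ σ ∈ c.U.Suf c.b Y (j + 1), ∃ Y' ∈ c.PTs, ∃ x ∈ c.U.Mid Y Y', ∃ σ1 ∈ c.U.Suf c.b Y' j,
      σ = x ++ σ1) (i : c.Idx l0) (j : ℕ) (hj : l0 ≤ j) :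
    Unamb (c.U.Suf c.b i.1 (j + 1)) (fun i' : c.Idx l0 => c.U.Mid i.1 i'.1)
      (fun i' : c.Idx l0 => c.U.Suf c.b i'.1 j) where
  mem := fun i' x hx z hz => c.mid_suf_mem hx hz
  ex := by
    intro w hw
    obtain ⟨Y, hY, x, hx, σ, hσ, rfl⟩ := h0 j hj i.1 i.2.1 i.2.2.1 w hw
    exact ⟨⟨Y, hY, c.occ_mid i.2.2.1 hx, ⟨j, hj, σ, hσ⟩⟩, x, hx, σ, hσ, rfl⟩
  uniq := by
    rintro ⟨Y, hY, h1⟩ ⟨Y', hY', h1'⟩ x hx z hz x' hx' z' hz' he
    obtain ⟨e1, e2, e3⟩ := c.mid_suf_uniq i.2.2.1 hY hY' hx hz hx' hz' he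
    exact ⟨Subtype.ext e1, e2, e3⟩

theorem false_of_cfg (hb0 : c.ξ (c.D.u c.b) ≠ 0) : False := by
  classical
  obtain ⟨k0, hk0⟩ := c.theta_local
  obtain ⟨l1, hl1⟩ := c.pre_suf_exists
  obtain ⟨l2, hl2⟩ := c.mid_suf_exists
  obtain ⟨CF, hCF⟩ := c.theta_bdd
  obtain ⟨p, hp, hpT⟩ := c.T_ratio
  set l0 : ℕ := max (max l1 l2) 1 with hl0
  have hl01 : l1 ≤ l0 := (le_max_left _ _).trans (le_max_left _ _)
  have hl02 : l2 ≤ l0 := (le_max_right _ _).trans (le_max_left _ _)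
  have hl03 : 1 ≤ l0 := le_max_right _ _
  have hA : ∀ k j, l0 ≤ j → Unamb (c.Acc (k + j)) (fun i : c.Idx l0 => c.U.Pre c.γ k i.1)
      (fun i : c.Idx l0 => c.U.Suf c.b i.1 j) := fun k j hj =>
    c.unamb_acc (l0 := l0) (fun k j hj => hl1 k j (hl01.trans hj)) k j hj
  have hS : ∀ (i : c.Idx l0) (j : ℕ), l0 ≤ j →
      Unamb (c.U.Suf c.b i.1 (j + 1)) (fun i' : c.Idx l0 => c.U.Mid i.1 i'.1)
        (fun i' : c.Idx l0 => c.U.Suf c.b i'.1 j) := fun i j hj =>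
    c.unamb_suf (l0 := l0) (fun j hj => hl2 j (hl02.trans hj)) i j hj
  have : Fintype (c.Idx l0) := Fintype.ofFinite _
  -- summability of the suffix sets
  have hsS : ∀ (i : c.Idx l0) (j : ℕ), l0 ≤ j → ∀ ρ : ℝ, 0 < ρ → ρ < 1 →
      Summable (fun z : c.U.Suf c.b i.1 j => ρ ^ (z : List (Fin c.U.k)).length) := by
    intro i j hj ρ h0 h1
    obtain ⟨k, hk⟩ := i.2.2.1
    exact summable_right (hA k j hj) h0 (c.acc_summable (k + j) h0 h1) i hk
  -- the functions Θ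
  choose! Θ hΘ using hk0 k0 le_rfl
  -- the data for LA2
  have hΘb : ∀ (i : c.Idx l0), ∀ π ∈ c.U.Pre c.γ k0 i.1, ‖Θ i.1 π‖ ≤ CF := by
    intro i π hπ
    obtain ⟨j, hj, σ, hσ⟩ := i.2.2.2
    rw [← hΘ i.1 i.2.1 π hπ j σ hσ]
    exact hCF (k0 + j) (by omega) _ (c.pre_suf_mem hπ hσ).2
  -- the bounded function on level `l`
  let g : c.D.G → ℂ := fun x => c.F (x * c.b) - c.F x
  have key : ∀ j ρ, 0 < ρ → ρ < 1 →
      ∑ i : c.Idx l0, wsum (c.U.Pre c.γ k0 i.1) ρ (Θ i.1) *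
        ((gsr (c.U.Suf c.b i.1 (l0 + j)) ρ : ℝ) : ℂ) =
      ∑' x : c.Lev (k0 + (l0 + j)), ((ρ ^ (c.U.wd (x : c.D.G)).length : ℝ) : ℂ) * g x := by
    intro j ρ h0 h1
    rw [← c.wsum_acc]
    rw [wsum_unamb (hA k0 (l0 + j) (by omega)) h0 (c.acc_summable _ h0 h1)
      (fun w => g (c.U.ev w)) (fun i => Θ i.1) CF
      (fun w hw => hCF (k0 + (l0 + j)) (by omega) _ hw.2)
      (fun i x hx z hz => hΘ i.1 i.2.1 x hx (l0 + j) z hz)]
    refine Finset.sum_congr rfl fun i _ => ?_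
    rw [wsum_one]
  -- the limit of the weighted mean of `g`
  have hlim : ∀ l, 1 ≤ l → Tendsto (fun ρ : ℝ =>
      (∑' x : c.Lev l, ((ρ ^ (c.U.wd (x : c.D.G)).length : ℝ) : ℂ) * g x) /
        ((c.T l ρ : ℝ) : ℂ)) (𝓝[<] 1) (𝓝 (c.lam ^ l * c.ξ (c.D.u c.b))) := by
    intro l hl
    let H : c.D.G → ℂ := fun x => c.ξ (c.D.u (c.γ⁻¹ * x)) - c.F x
    have hsh := c.T_shift l hl H (c.theta_H l hl)
    have hg : ∀ x ∈ c.Lev l, g x = c.lam ^ l * c.ξ (c.D.u c.b) - (H (x * c.b) - H x) := by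
      intro x hx
      have h1 : c.ξ (c.D.u (c.γ⁻¹ * (x * c.b))) =
          c.ξ (c.D.u (c.γ⁻¹ * x)) + c.lam ^ l * c.ξ (c.D.u c.b) := by
        rw [← mul_assoc, c.D.u_mul, map_add]
        have h2 : c.D.ht (c.γ⁻¹ * x) = (l : ℤ) := WD.lv_ht hx
        have h3 : c.lam ≠ 0 := by
          intro h
          have := c.hlam
          rw [h] at this
          simp at this
        rw [h2, WD.eig_zpow c.hξ h3, zpow_natCast]
      simp only [g, H]
      rw [h1]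
      ring
    have hev : ∀ᶠ ρ : ℝ in 𝓝[<] 1,
        c.lam ^ l * c.ξ (c.D.u c.b) - (∑' g : c.Lev l,
          ((ρ ^ (c.U.wd (g : c.D.G)).length : ℝ) : ℂ) *
          (H ((g : c.D.G) * c.b) - H (g : c.D.G))) / ((c.T l ρ : ℝ) : ℂ) =
        (∑' x : c.Lev l, ((ρ ^ (c.U.wd (x : c.D.G)).length : ℝ) : ℂ) * g x) /
        ((c.T l ρ : ℝ) : ℂ) := by
      filter_upwards [eventually_01] with ρ h
      have hT0 : ((c.T l ρ : ℝ) : ℂ) ≠ 0 := by
        exact_mod_cast (c.T_pos l h.1 h.2).ne'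
      have hs := c.T_summable l h.1 h.2
      obtain ⟨CH, hCH⟩ := c.theta_H l hl
      have hs1 : Summable (fun x : c.Lev l => ((ρ ^ (c.U.wd (x : c.D.G)).length : ℝ) : ℂ) *
          (c.lam ^ l * c.ξ (c.D.u c.b))) := by
        refine Summable.mul_right _ ?_
        exact Complex.ofRealCLM.summable hs
      have hs2 : Summable (fun x : c.Lev l => ((ρ ^ (c.U.wd (x : c.D.G)).length : ℝ) : ℂ) *
          (H ((x : c.D.G) * c.b) - H (x : c.D.G))) := by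
        refine Summable.of_norm_bounded (g := fun x : c.Lev l =>
          ρ ^ (c.U.wd (x : c.D.G)).length * (CH + CH)) (hs.mul_right _) fun x => ?_
        rw [norm_mul, Complex.norm_real, Real.norm_of_nonneg (pow_pos h.1 _).le]
        refine mul_le_mul_of_nonneg_left ?_ (pow_pos h.1 _).le
        exact (norm_sub_le _ _).trans (add_le_add (hCH _ (c.lev_b l hl x.2)) (hCH _ x.2))
      have h4 : (∑' x : c.Lev l, ((ρ ^ (c.U.wd (x : c.D.G)).length : ℝ) : ℂ) * g x) =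
          ((c.T l ρ : ℝ) : ℂ) * (c.lam ^ l * c.ξ (c.D.u c.b)) -
          ∑' x : c.Lev l, ((ρ ^ (c.U.wd (x : c.D.G)).length : ℝ) : ℂ) *
          (H ((x : c.D.G) * c.b) - H (x : c.D.G)) := by
        have h5 : ((c.T l ρ : ℝ) : ℂ) * (c.lam ^ l * c.ξ (c.D.u c.b)) =
            ∑' x : c.Lev l, ((ρ ^ (c.U.wd (x : c.D.G)).length : ℝ) : ℂ) *
              (c.lam ^ l * c.ξ (c.D.u c.b)) := by
          rw [tsum_mul_right, T, Complex.ofReal_tsum]
        rw [h5, ← hs1.tsum_sub hs2]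
        refine tsum_congr fun x => ?_
        rw [hg x x.2]
        ring
      rw [h4, sub_div, mul_div_cancel_left₀ _ hT0]
    have := (tendsto_const_nhds (x := c.lam ^ l * c.ξ (c.D.u c.b))).sub hsh
    rw [sub_zero] at this
    exact this.congr' hev
  -- apply LA2
  have hlam0 : c.lam ≠ 0 := by
    intro h
    have := c.hlam
    rw [h] at this
    simp at this
  obtain ⟨m, hm, hm1⟩ := LA2 (I := c.Idx l0) p hp c.lam
    (c.lam ^ (k0 + l0) * c.ξ (c.D.u c.b)) c.hlam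
    (mul_ne_zero (pow_ne_zero _ hlam0) hb0) CF
    (fun i ρ => gsr (c.U.Pre c.γ k0 i.1) ρ)
    (fun i ρ => wsum (c.U.Pre c.γ k0 i.1) ρ (Θ i.1))
    (fun i i' ρ => gsr (c.U.Mid i.1 i'.1) ρ)
    (fun j i ρ => gsr (c.U.Suf c.b i.1 (l0 + j)) ρ)
    (fun j ρ => c.T (k0 + (l0 + j)) ρ)
    (fun i ρ h0 _ => gsr_nonneg _ h0.le)
    (by
      intro i ρ h0 h1
      obtain ⟨j, hj, hz⟩ := i.2.2.2
      have hs := summable_left (hA k0 j hj) h0 (c.acc_summable (k0 + j) h0 h1) i hz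
      have hs2 : Summable (fun x : c.U.Pre c.γ k0 i.1 =>
          ‖((ρ ^ (x : List (Fin c.U.k)).length : ℝ) : ℂ) * Θ i.1 x‖) := by
        refine Summable.of_nonneg_of_le (fun _ => norm_nonneg _) (fun x => ?_) (hs.mul_right CF)
        rw [norm_mul, Complex.norm_real, Real.norm_of_nonneg (pow_pos h0 _).le]
        exact mul_le_mul_of_nonneg_left (hΘb i x x.2) (pow_pos h0 _).le
      show ‖∑' x : c.U.Pre c.γ k0 i.1, ((ρ ^ (x : List (Fin c.U.k)).length : ℝ) : ℂ) *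
        Θ i.1 x‖ ≤ CF * ∑' x : c.U.Pre c.γ k0 i.1, ρ ^ (x : List (Fin c.U.k)).length
      refine (norm_tsum_le_tsum_norm hs2).trans ?_
      rw [← tsum_mul_left]
      refine Summable.tsum_le_tsum (fun x => ?_) hs2 (hs.mul_left CF)
      rw [norm_mul, Complex.norm_real, Real.norm_of_nonneg (pow_pos h0 _).le, mul_comm]
      exact mul_le_mul_of_nonneg_right (hΘb i x x.2) (pow_pos h0 _).le)
    (fun i i' ρ h0 _ => gsr_nonneg _ h0.le)
    (fun j i ρ h0 _ => gsr_nonneg _ h0.le)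
    (fun j i ρ h0 h1 => gsr_unamb (hS i (l0 + j) (by omega)) h0
      (hsS i (l0 + (j + 1)) (by omega) ρ h0 h1))
    (by
      intro j ρ h0 h1
      have h := gsr_unamb (hA k0 (l0 + j) (by omega)) h0 (c.acc_summable _ h0 h1)
      rw [c.gsr_acc] at h
      exact h.symm)
    (fun j ρ h0 h1 => c.T_pos _ h0 h1)
    (fun j => hpT (k0 + (l0 + j)))
    (by
      intro j
      have h := hlim (k0 + (l0 + j)) (by omega)
      have e : c.lam ^ (k0 + (l0 + j)) * c.ξ (c.D.u c.b) =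
          c.lam ^ j * (c.lam ^ (k0 + l0) * c.ξ (c.D.u c.b)) := by
        rw [← mul_assoc, ← pow_add]
        congr 2
        omega
      rw [e] at h
      refine h.congr' ?_
      filter_upwards [eventually_01] with ρ hρ
      rw [key j ρ hρ.1 hρ.2])
    (by
      intro j i
      by_cases hne : (c.U.Suf c.b i.1 (l0 + j)).Nonempty
      · right
        obtain ⟨𝓛, hreg, hmem⟩ := c.suf_regular i.2.1 i.2.2.1 (l0 + j)
        have hset : c.U.Suf c.b i.1 (l0 + j) = {w | w ∈ 𝓛} := by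
          ext w
          exact (hmem w).symm
        have hsum : ∀ ρ : ℝ, 0 < ρ → ρ < 1 →
            Summable (fun w : {w : List (Fin c.U.k) // w ∈ 𝓛} => ρ ^ w.1.length) := by
          intro ρ h0 h1
          have h := hsS i (l0 + j) (by omega) ρ h0 h1
          rw [hset] at h
          exact h
        obtain ⟨w, hw⟩ := hne
        obtain ⟨r, cc, hcc, hlim⟩ := reg_order 𝓛 hreg ⟨w, (hmem w).2 hw⟩ hsum
        refine ⟨r, cc, hcc, ?_⟩
        have h2 : (fun ρ : ℝ => (1 - ρ) ^ r * gsr (c.U.Suf c.b i.1 (l0 + j)) ρ) =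
            fun ρ : ℝ => (1 - ρ) ^ r * ∑' w : {w : List (Fin c.U.k) // w ∈ 𝓛},
              ρ ^ w.1.length := by
          funext ρ
          rw [hset]
          rfl
        rw [h2]
        exact hlim
      · left
        intro ρ _ _
        rw [Set.not_nonempty_iff_eq_empty] at hne
        rw [hne]
        simp [gsr])
    c.D.n
    (by
      intro j i
      obtain ⟨k, π, hπ⟩ := i.2.2.1
      obtain ⟨C, hC⟩ := c.T_bound (k + (l0 + j))
      have hC0 : 0 ≤ C := by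
        have h1 := hC (1 / 2) (by norm_num) (by norm_num)
        have h2 := c.T_pos (k + (l0 + j)) (ρ := 1 / 2) (by norm_num) (by norm_num)
        have h3 : (0 : ℝ) < (1 - 1 / 2) ^ c.D.n := by positivity
        have h4 : 0 < C / (1 - 1 / 2) ^ c.D.n := h2.trans_le h1
        exact ((div_pos_iff_of_pos_right h3).1 h4).le
      refine ⟨2 ^ π.length * C, fun ρ h0' h1 => ?_⟩
      have h0 : 0 < ρ := by linarith
      have h := gsr_unamb (hA k (l0 + j) (by omega)) h0 (c.acc_summable _ h0 h1)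
      rw [c.gsr_acc] at h
      have hT := hC ρ h0 h1
      have hpos : 0 < (1 - ρ) ^ c.D.n := pow_pos (by linarith) _
      rw [le_div_iff₀ hpos] at hT
      -- one term of the sum
      have h2 : gsr (c.U.Pre c.γ k i.1) ρ * gsr (c.U.Suf c.b i.1 (l0 + j)) ρ ≤
          c.T (k + (l0 + j)) ρ := by
        rw [h]
        exact Finset.single_le_sum (f := fun i : c.Idx l0 => gsr (c.U.Pre c.γ k i.1) ρ *
          gsr (c.U.Suf c.b i.1 (l0 + j)) ρ)
          (fun i _ => mul_nonneg (gsr_nonneg _ h0.le) (gsr_nonneg _ h0.le)) (Finset.mem_univ i)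
      by_cases hne : (c.U.Suf c.b i.1 (l0 + j)).Nonempty
      · have hs := summable_left (hA k (l0 + j) (by omega)) h0 (c.acc_summable _ h0 h1) i hne
        have h3 : ρ ^ π.length ≤ gsr (c.U.Pre c.γ k i.1) ρ :=
          hs.le_tsum (⟨π, hπ⟩ : c.U.Pre c.γ k i.1) (fun _ _ => (pow_pos h0 _).le)
        have h4 : (1 : ℝ) ≤ 2 ^ π.length * ρ ^ π.length := by
          rw [← mul_pow]
          exact one_le_pow₀ (by linarith)
        have h5 := gsr_nonneg (c.U.Suf c.b i.1 (l0 + j)) h0.le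
        have h6 : ρ ^ π.length * gsr (c.U.Suf c.b i.1 (l0 + j)) ρ ≤ c.T (k + (l0 + j)) ρ :=
          (mul_le_mul_of_nonneg_right h3 h5).trans h2
        have h7 : (1 - ρ) ^ c.D.n * (ρ ^ π.length * gsr (c.U.Suf c.b i.1 (l0 + j)) ρ) ≤ C := by
          refine le_trans ?_ hT
          rw [mul_comm (c.T _ _)]
          exact mul_le_mul_of_nonneg_left h6 hpos.le
        have h8 : (1 - ρ) ^ c.D.n * gsr (c.U.Suf c.b i.1 (l0 + j)) ρ * 1 ≤
            (1 - ρ) ^ c.D.n * gsr (c.U.Suf c.b i.1 (l0 + j)) ρ *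
              (2 ^ π.length * ρ ^ π.length) :=
          mul_le_mul_of_nonneg_left h4 (mul_nonneg hpos.le h5)
        have h9 : 2 ^ π.length * ((1 - ρ) ^ c.D.n * (ρ ^ π.length *
            gsr (c.U.Suf c.b i.1 (l0 + j)) ρ)) ≤ 2 ^ π.length * C :=
          mul_le_mul_of_nonneg_left h7 (by positivity)
        calc (1 - ρ) ^ c.D.n * gsr (c.U.Suf c.b i.1 (l0 + j)) ρ
            = (1 - ρ) ^ c.D.n * gsr (c.U.Suf c.b i.1 (l0 + j)) ρ * 1 := by ring
          _ ≤ _ := h8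
          _ = 2 ^ π.length * ((1 - ρ) ^ c.D.n * (ρ ^ π.length *
              gsr (c.U.Suf c.b i.1 (l0 + j)) ρ)) := by ring
          _ ≤ _ := h9
      · rw [Set.not_nonempty_iff_eq_empty] at hne
        have h3 : gsr (c.U.Suf c.b i.1 (l0 + j)) ρ = 0 := by rw [hne]; simp [gsr]
        rw [h3, mul_zero]
        positivity)
    (by
      intro i
      obtain ⟨j, hj, z, hz⟩ := i.2.2.2
      obtain ⟨j', rfl⟩ := Nat.exists_eq_add_of_le hj
      refine ⟨j', 1 / 2, by norm_num, by norm_num, ?_⟩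
      have hs := hsS i (l0 + j') hj (1 / 2) (by norm_num) (by norm_num)
      exact (hs.tsum_pos (fun _ => by positivity) (⟨z, hz⟩ : c.U.Suf c.b i.1 (l0 + j'))
        (by positivity)).ne')
  exact c.hroot m hm hm1

end Cfg

theorem caseB (D : WD) (U : UAS D) (hb : D.Bdd) (hB : ∃ l ∈ D.L, l ∉ D.B)
    (ξ : V D.n →ₗ[ℂ] ℂ) (hξ0 : ξ ≠ 0) (lam : ℂ) (hξ : D.Eig ξ lam) (hlam : ‖lam‖ = 1)
    (hroot : ∀ k : ℕ, 1 ≤ k → lam ^ k ≠ 1) : False := by
  classical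
  -- a basis vector with nonzero value
  have hz : ∃ z : Fin D.n → ℤ, ξ (fun i => (z i : ℂ)) ≠ 0 := by
    by_contra hcon
    push Not at hcon
    apply hξ0
    refine LinearMap.pi_ext' fun i => ?_
    refine LinearMap.ext fun x => ?_
    have h1 := hcon (Pi.single i 1)
    have h2 : (fun j => (((Pi.single i 1 : Fin D.n → ℤ) j : ℤ) : ℂ)) =
        (Pi.single i 1 : Fin D.n → ℂ) := by
      funext j
      by_cases h : j = i
      · subst h; simp
      · simp [Pi.single_eq_of_ne h]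
    rw [h2] at h1
    have h3 : (Pi.single i x : Fin D.n → ℂ) = x • (Pi.single i 1 : Fin D.n → ℂ) := by
      rw [← Pi.single_smul]
      simp
    simp only [LinearMap.comp_apply, LinearMap.single_apply, LinearMap.zero_apply]
    rw [h3, map_smul, h1, smul_zero]
  obtain ⟨z, hz⟩ := hz
  obtain ⟨b, hbL, hub⟩ := D.u_surj z
  obtain ⟨R, hR⟩ := U.exists_entrySet
  obtain ⟨Kb, hKb, hft⟩ := U.ft_d {b} (Set.finite_singleton b)
  obtain ⟨j1, hj1⟩ := U.tame2 hb hR.fin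
  obtain ⟨j, hj, γ, hγ, hgood⟩ := U.good_branch hb hB hR.fin j1
  let c : Cfg :=
    { D := D, U := U, hb := hb, ξ := ξ, lam := lam, hξ := hξ, hlam := hlam, hroot := hroot
      b := b, hbL := hbL, R := R, hR := hR, Kb := Kb, hKb := hKb
      ftb := fun g m => hft b rfl g m
      j0 := j, γ := γ, hγ := hγ
      tame := fun s r hr h => ⟨hgood s r hr h, hj1 j hj γ hγ s r hr h⟩ }
  refine c.false_of_cfg ?_
  change ξ (D.u b) ≠ 0
  rw [hub]
  exact hz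

end Pool.Agent.HNNA
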