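import Pool.Agent.HNNA.Window

/-! MP_4b60bf_al.  MODULE CHAIN (about 120 lines).

A chain of accepted words, consecutive values differing by a generator.  If all windows
`[i κ, (i+1) κ]`, `i0 ≤ i < i1`, are good for the first word and none is good for the last word,
then the number of windows is at most `J * card S`.

PROOF.  For fixed `j < J` let `Z_j` be the set of `i ∈ [i0, i1)` such that window `i` is good for
`w j` and not for `w (j+1)`.  Every `i ∈ [i0, i1)` lies in some `Z_j` (first `j` where it stops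
being good).  So it is enough that `Z_j` has at most `card S` elements.  By `window` (with
`U.ft` for the pair), for `i ∈ Z_j` the state `st (w j) (i κ)` is NOT reachable from
`st (w j) ((i+1) κ)`.  If `i < i'` are both in `Z_j` and `st (w j) (i κ) = st (w j) (i' κ)`, then,
as `(i+1) κ ≤ i' κ`, the piece from `(i+1)κ` to `i'κ` leads from `st ((i+1)κ)` to
`st (i'κ) = st (iκ)`: contradiction.  So `i ↦ st (w j) (i κ)` is injective on `Z_j`. -/

namespace Pool.Agent.HNNA

namespace UAS

variable {D : WD} (U : UAS D)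

theorem chain (hb : D.Bdd) (κ : ℕ)
    (hκ : Fintype.card U.S * Fintype.card U.S * U.K.ncard < κ + 1) (J : ℕ) (w : ℕ → U.W)
    (hacc : ∀ j ≤ J, w j ∈ U.M.accepts)
    (hstep : ∀ j < J, ∃ i, U.ev (w (j + 1)) = U.ev (w j) * U.gen i)
    (i0 i1 : ℕ) (hlen : ∀ j ≤ J, i1 * κ ≤ (w j).length) (β : V D.n)
    (h0 : ∀ i, i0 ≤ i → i < i1 → U.Good (w 0) (i * κ) ((i + 1) * κ) β)
    (hJ : ∀ i, i0 ≤ i → i < i1 → ¬ U.Good (w J) (i * κ) ((i + 1) * κ) β) :
    i1 ≤ i0 + J * Fintype.card U.S := by
  classical
  let Z : ℕ → Finset ℕ := fun j => (Finset.Ico i0 i1).filter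
    (fun i => U.Good (w j) (i * κ) ((i + 1) * κ) β ∧ ¬ U.Good (w (j + 1)) (i * κ) ((i + 1) * κ) β)
  -- the key injectivity
  have key : ∀ j < J, ∀ i ∈ Z j, ∀ i' ∈ Z j, i < i' →
      U.st (w j) (i * κ) ≠ U.st (w j) (i' * κ) := by
    intro j hj i hi i' hi' hlt heq
    simp only [Z, Finset.mem_filter, Finset.mem_Ico] at hi hi'
    apply hi.2.2
    obtain ⟨g, hg⟩ := hstep j hj
    have hle : (i + 1) * κ ≤ i1 * κ := Nat.mul_le_mul_right _ (by omega)
    have hle2 : (i + 1) * κ ≤ i' * κ := Nat.mul_le_mul_right _ (by omega)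
    have hsub : (i + 1) * κ + 1 - i * κ = κ + 1 := by
      have : (i + 1) * κ = i * κ + κ := by ring
      omega
    refine U.window hb (hacc j hj.le) (hacc (j + 1) hj) (Nat.mul_le_mul_right _ (by omega))
      (hle.trans (hlen j hj.le)) (hle.trans (hlen (j + 1) hj)) (by rw [hsub]; exact hκ)
      (fun m _ _ => U.ft _ (hacc j hj.le) _ (hacc (j + 1) hj) g hg m) ?_ hi.2.1
    refine ⟨((w j).take (i' * κ)).drop ((i + 1) * κ), ?_⟩
    rw [U.go_piece (w j) hle2, ← heq]
  have hcard : ∀ j < J, (Z j).card ≤ Fintype.card U.S := by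
    intro j hj
    rw [← Finset.card_univ]
    apply Finset.card_le_card_of_injOn (fun i => U.st (w j) (i * κ)) (fun _ _ => Finset.mem_coe.2 (Finset.mem_univ _))
    intro i hi i' hi' heq
    by_contra hne
    rcases lt_or_gt_of_ne hne with h | h
    · exact key j hj i hi i' hi' h heq
    · exact key j hj i' hi' i hi h heq.symm
  have hcover : Finset.Ico i0 i1 ⊆ (Finset.range J).biUnion Z := by
    intro i hi
    rw [Finset.mem_Ico] at hi
    by_contra hno
    have hall : ∀ j, j ≤ J → U.Good (w j) (i * κ) ((i + 1) * κ) β := by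
      intro j
      induction j with
      | zero => intro _; exact h0 i hi.1 hi.2
      | succ j ih =>
        intro hj
        by_contra hbad
        apply hno
        rw [Finset.mem_biUnion]
        refine ⟨j, Finset.mem_range.2 (by omega), ?_⟩
        simp only [Z, Finset.mem_filter, Finset.mem_Ico]
        exact ⟨hi, ih (by omega), hbad⟩
    exact hJ i hi.1 hi.2 (hall J le_rfl)
  have h1 : i1 - i0 ≤ J * Fintype.card U.S := by
    calc i1 - i0 = (Finset.Ico i0 i1).card := (Nat.card_Ico _ _).symm
      _ ≤ ((Finset.range J).biUnion Z).card := Finset.card_le_card hcover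
      _ ≤ ∑ j ∈ Finset.range J, (Z j).card := Finset.card_biUnion_le
      _ ≤ ∑ j ∈ Finset.range J, Fintype.card U.S :=
          Finset.sum_le_sum (fun j hj => hcard j (Finset.mem_range.1 hj))
      _ = J * Fintype.card U.S := by simp
  omega

end UAS

end Pool.Agent.HNNA
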