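import Pool.Agent.HNNA.LenB

/-! MP_4b60bf_al.  MODULE FILL (about 250 lines): quadratic filling for almost additive functions.

`lint Ψ g [d1, d2, ...] = Ψ g d1 + Ψ (g d1) d2 + ...`.

PROOF of `filling`.  For every `d ∈ F` and every `κ ∈ K` fix a word with this value; let `ℓ` be larger
than all their lengths plus 1, and let `E` be the finite set of all values of words of length at most
`2ℓ` (in particular `1 ∈ E`, `gen i ∈ E`, `F ⊆ E`).  Let `Ψ`, `c` be given.  With `d = d' = 1`: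
`‖Ψ g 1‖ ≤ c`.
(a) For a word `x` (in `gen`) with `|x| ≤ 2ℓ`: `‖lint Ψ g (x.map gen) - Ψ g (ev x)‖ ≤ (|x| + 1) c`
(induction, last letter; all values are in `E`).  So two words of length `≤ 2ℓ` with equal value give
`lint`'s differing by at most `C1 c`.
(b) For `w1 : List G` with letters in `F`: replacing each letter by its word changes `lint Ψ 1 w1` by
at most `C1 c |w1|`, and gives a word in `gen` of length at most `ℓ |w1|` with the same product.  So it
suffices to prove the claim for words in `gen`: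
`‖lint Ψ 1 (w1.map gen) - lint Ψ 1 (w2.map gen)‖ ≤ C2 c (|w1| + |w2| + 1)^2` if `ev w1 = ev w2`.
(c) Let `J w = lint Ψ 1 (w.map gen)`.  Claim: `‖J (w ++ [i]) - J (wd (ev w * gen i)) - (J w - J (wd (ev w)))‖
≤ C3 c (|w| + 1)`.  Indeed `J (w ++ [i]) = J w + Ψ (ev w) (gen i)`; let `x = wd (ev w)`,
`y = wd (ev w * gen i)` and for each time `m` let `κ_m` be the chosen word for
`(pos x m)⁻¹ pos y m ∈ K` (`U.ft`).  Put
`Q m = J (x.take m) + lint Ψ (pos x m) κ_m - J (y.take m)`.  `Q 0` is small (`≤ C c`), `Q (m+1) - Q m` is a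
difference of `lint`'s of two words of length `≤ 2ℓ` with the same start `pos x m` and the same value
(`[x_m] ++ κ_(m+1)` and `κ_m ++ [y_m]`; beyond the end of `x` or `y` the letter is missing), so
`‖Q (m+1) - Q m‖ ≤ C1 c`.  For `m ≥ max |x| |y|`: `Q m = J x + lint Ψ (ev w) κ - J y` with
`ev κ = gen i`, and `lint Ψ (ev w) κ` differs from `Ψ (ev w) (gen i)` by `≤ C1 c`.  Hence
`‖J x + Ψ (ev w) (gen i) - J y‖ ≤ C1 c (max |x| |y| + 2)`, and `|x|, |y| ≤ C4 (|w| + 1)` by `len_lip_d`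
or `len_lip` (going along `w`; start with `wd 1`).
(d) Summing (c) over the prefixes of `w`: `‖J w - J (wd (ev w))‖ ≤ C5 c (|w| + 1)^2` (the start
`J [] - J (wd 1)`: `J (wd 1)` is a sum of `|wd 1|` terms, replace it by (a) for short words or enlarge
`ℓ` to be at least `|wd 1|`).  Apply this to `w1` and `w2`. -/

namespace Pool.Agent.HNNA

/-- sum of `Ψ` along a path -/
noncomputable def lint {G : Type} [Group G] (Ψ : G → G → ℂ) (g : G) : List G → ℂ
  | [] => 0
  | d :: w => Ψ g d + lint Ψ (g * d) w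

theorem lint_append {G : Type} [Group G] (Ψ : G → G → ℂ) (g : G) (x y : List G) :
    lint Ψ g (x ++ y) = lint Ψ g x + lint Ψ (g * x.prod) y := by
  induction x generalizing g with
  | nil => simp [lint]
  | cons d x ih => rw [List.cons_append, lint, lint, ih, List.prod_cons, mul_assoc, add_assoc]

namespace UAS

variable {D : WD} (U : UAS D)

/-- values of the words of length at most `N` -/
def vals (N : ℕ) : Set D.G := U.ev '' {x : U.W | x.length ≤ N}

theorem vals_finite (N : ℕ) : (U.vals N).Finite :=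
  (List.finite_length_le (Fin U.k) N).image _

theorem mem_vals {N : ℕ} {x : U.W} (h : x.length ≤ N) : U.ev x ∈ U.vals N := ⟨x, h, rfl⟩

/-- the defect hypothesis -/
def AlmAdd (E : Set D.G) (Ψ : D.G → D.G → ℂ) (c : ℝ) : Prop :=
  ∀ g, ∀ d ∈ E, ∀ d' ∈ E, ‖Ψ g (d * d') - Ψ g d - Ψ (g * d) d'‖ ≤ c

/-- integral along a word in the generators -/
noncomputable def li (Ψ : D.G → D.G → ℂ) (g : D.G) (x : U.W) : ℂ := lint Ψ g (x.map U.gen)

theorem li_nil (Ψ : D.G → D.G → ℂ) (g : D.G) : U.li Ψ g [] = 0 := rfl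

theorem li_append (Ψ : D.G → D.G → ℂ) (g : D.G) (x y : U.W) :
    U.li Ψ g (x ++ y) = U.li Ψ g x + U.li Ψ (g * U.ev x) y := by
  unfold li
  rw [List.map_append, lint_append]
  rfl

theorem li_singleton (Ψ : D.G → D.G → ℂ) (g : D.G) (i : Fin U.k) :
    U.li Ψ g [i] = Ψ g (U.gen i) := by
  simp [li, lint]

theorem fill_one {N : ℕ} {Ψ : D.G → D.G → ℂ} {c : ℝ} (h : AlmAdd (U.vals N) Ψ c) (g : D.G) :
    ‖Ψ g 1‖ ≤ c := by
  have h1 : (1 : D.G) ∈ U.vals N := ⟨[], by simp, rfl⟩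
  have h2 := h g 1 h1 1 h1
  rw [mul_one, mul_one, sub_self, zero_sub, norm_neg] at h2
  exact h2

theorem fill_word {N : ℕ} (hN : 1 ≤ N) {Ψ : D.G → D.G → ℂ} {c : ℝ}
    (h : AlmAdd (U.vals N) Ψ c) (x : U.W) :
    ∀ g : D.G, x.length ≤ N → ‖U.li Ψ g x - Ψ g (U.ev x)‖ ≤ (x.length + 1) * c := by
  induction x with
  | nil =>
    intro g _
    rw [li_nil, zero_sub, norm_neg]
    simpa using U.fill_one h g
  | cons i x ih =>
    intro g hx
    rw [List.length_cons] at hx
    have h1 := ih (g * U.gen i) (by omega)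
    have h2 := h g (U.gen i) (by simpa using U.mem_vals (N := N) (x := [i]) (by simpa using hN))
      (U.ev x) (U.mem_vals (by omega))
    have h3 : U.li Ψ g (i :: x) = Ψ g (U.gen i) + U.li Ψ (g * U.gen i) x := by
      have := U.li_append Ψ g [i] x
      rw [U.li_singleton, ev_singleton] at this
      exact this
    rw [h3, ev_cons]
    have h4 : Ψ g (U.gen i) + U.li Ψ (g * U.gen i) x - Ψ g (U.gen i * U.ev x) =
        (U.li Ψ (g * U.gen i) x - Ψ (g * U.gen i) (U.ev x)) -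
        (Ψ g (U.gen i * U.ev x) - Ψ g (U.gen i) - Ψ (g * U.gen i) (U.ev x)) := by ring
    rw [h4]
    refine (norm_sub_le _ _).trans ?_
    rw [List.length_cons]
    push_cast
    linarith

theorem fill_two {N : ℕ} (hN : 1 ≤ N) {Ψ : D.G → D.G → ℂ} {c : ℝ} (hc : 0 ≤ c)
    (h : AlmAdd (U.vals N) Ψ c) (g : D.G) (x y : U.W) (hx : x.length ≤ N) (hy : y.length ≤ N)
    (he : U.ev x = U.ev y) : ‖U.li Ψ g x - U.li Ψ g y‖ ≤ (2 * N + 2) * c := by
  have h1 := U.fill_word hN h x g hx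
  have h2 := U.fill_word hN h y g hy
  have h3 : U.li Ψ g x - U.li Ψ g y =
      (U.li Ψ g x - Ψ g (U.ev x)) - (U.li Ψ g y - Ψ g (U.ev y)) := by rw [he]; ring
  rw [h3]
  refine (norm_sub_le _ _).trans ((add_le_add h1 h2).trans ?_)
  have h4 : (x.length : ℝ) ≤ N := by exact_mod_cast hx
  have h5 : (y.length : ℝ) ≤ N := by exact_mod_cast hy
  nlinarith

theorem fill_edge {N l : ℕ} (hl : l + 1 ≤ N) (hK : ∀ κ ∈ U.K, (U.wd κ).length ≤ l)
    {Ψ : D.G → D.G → ℂ} {c : ℝ} (hc : 0 ≤ c) (h : AlmAdd (U.vals N) Ψ c) (g : D.G)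
    (i : Fin U.k) :
    ‖U.li Ψ 1 (U.wd g) + Ψ g (U.gen i) - U.li Ψ 1 (U.wd (g * U.gen i))‖ ≤
      (2 * N + 2) * c * ((U.wd g).length + (U.wd (g * U.gen i)).length + 2) := by
  have hN : 1 ≤ N := by omega
  set x := U.wd g with hx
  set y := U.wd (g * U.gen i) with hy
  have hxy : ∀ m, (U.pos x m)⁻¹ * U.pos y m ∈ U.K := by
    refine U.ft x (U.wd_mem _) y (U.wd_mem _) i ?_
    change U.ev y = U.ev x * U.gen i
    rw [hx, hy, ev_wd, ev_wd]
  let κ : ℕ → U.W := fun m => U.wd ((U.pos x m)⁻¹ * U.pos y m)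
  have hκl : ∀ m, (κ m).length ≤ l := fun m => hK _ (hxy m)
  have hκe : ∀ m, U.ev (κ m) = (U.pos x m)⁻¹ * U.pos y m := fun m => U.ev_wd _
  let Q : ℕ → ℂ := fun m => U.li Ψ 1 (x.take m) + U.li Ψ (U.pos x m) (κ m) - U.li Ψ 1 (y.take m)
  have hsplit : ∀ (z : U.W) (m : ℕ), ∃ a : U.W, a.length ≤ 1 ∧ z.take (m + 1) = z.take m ++ a := by
    intro z m
    refine ⟨(z[m]?).toList, ?_, List.take_add_one⟩
    cases z[m]? <;> simp
  have hQ : ∀ m, ‖Q m‖ ≤ (2 * N + 2) * c * (m + 1) := by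
    intro m
    induction m with
    | zero =>
      have h1 : Q 0 = U.li Ψ 1 (κ 0) - U.li Ψ 1 [] := by
        simp only [Q, List.take_zero, pos_zero, li_nil]
        ring
      rw [h1]
      have h2 := U.fill_two hN hc h 1 (κ 0) [] ((hκl 0).trans (by omega)) (by simp)
        (by rw [hκe]; simp)
      simpa using h2
    | succ m ih =>
      obtain ⟨a, ha, hxa⟩ := hsplit x m
      obtain ⟨b, hb, hyb⟩ := hsplit y m
      have hpx : U.pos x (m + 1) = U.pos x m * U.ev a := by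
        unfold pos
        rw [hxa, ev_append]
      have hpy : U.pos y (m + 1) = U.pos y m * U.ev b := by
        unfold pos
        rw [hyb, ev_append]
      have h1 : Q (m + 1) = Q m + (U.li Ψ (U.pos x m) (a ++ κ (m + 1)) -
          U.li Ψ (U.pos x m) (κ m ++ b)) := by
        simp only [Q]
        rw [hxa, hyb, li_append, li_append, li_append, li_append, hpx, hκe m]
        have h2 : (1 : D.G) * U.ev (List.take m x) = U.pos x m := by rw [one_mul]; rfl
        have h3 : (1 : D.G) * U.ev (List.take m y) = U.pos y m := by rw [one_mul]; rfl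
        rw [h2, h3, mul_inv_cancel_left]
        ring
      rw [h1]
      have h2 := U.fill_two hN hc h (U.pos x m) (a ++ κ (m + 1)) (κ m ++ b)
        (by rw [List.length_append]; have := hκl (m + 1); omega)
        (by rw [List.length_append]; have := hκl m; omega)
        (by rw [ev_append, ev_append, hκe, hκe, hpx, hpy]; group)
      refine (norm_add_le _ _).trans ((add_le_add ih h2).trans ?_)
      push_cast
      linarith
  set m := x.length + y.length with hm
  have h1 := hQ m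
  have h2 : Q m = U.li Ψ 1 x + U.li Ψ g (κ m) - U.li Ψ 1 y := by
    simp only [Q]
    rw [List.take_of_length_le (by omega), List.take_of_length_le (by omega),
      U.pos_of_le (by omega), hx, ev_wd]
  have h3 : U.ev (κ m) = U.gen i := by
    rw [hκe, U.pos_of_le (by omega), U.pos_of_le (by omega), hx, hy, ev_wd, ev_wd]
    group
  have h4 := U.fill_word hN h (κ m) g ((hκl m).trans (by omega))
  rw [h3] at h4
  have h5 : U.li Ψ 1 x + Ψ g (U.gen i) - U.li Ψ 1 y =
      Q m - (U.li Ψ g (κ m) - Ψ g (U.gen i)) := by rw [h2]; ring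
  rw [h5]
  refine (norm_sub_le _ _).trans ((add_le_add h1 h4).trans ?_)
  have h6 : ((κ m).length : ℝ) ≤ l := by exact_mod_cast hκl m
  have h7 : (l : ℝ) + 1 ≤ N := by exact_mod_cast hl
  rw [hm]
  push_cast
  have h8 : (((κ m).length : ℝ) + 1) * c ≤ (2 * N + 2) * c := by
    apply mul_le_mul_of_nonneg_right _ hc
    have : (0 : ℝ) ≤ N := Nat.cast_nonneg N
    linarith
  linarith

theorem fill_main {N l C : ℕ} (hl : l + 1 ≤ N) (hK : ∀ κ ∈ U.K, (U.wd κ).length ≤ l)
    (hC : ∀ (g : D.G) (i : Fin U.k), (U.wd (g * U.gen i)).length ≤ (U.wd g).length + C)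
    {Ψ : D.G → D.G → ℂ} {c : ℝ} (hc : 0 ≤ c) (h : AlmAdd (U.vals N) Ψ c) (w : U.W) :
    (U.wd (U.ev w)).length ≤ l + C * w.length ∧
    ‖U.li Ψ 1 w - U.li Ψ 1 (U.wd (U.ev w))‖ ≤
      (2 * N + 2) * c * (2 * l + 2 * C + 2) * ((w.length : ℝ) + 1) ^ 2 := by
  have hN : 1 ≤ N := by omega
  have hw1 : (U.wd 1).length ≤ l := hK 1 U.K_one
  have hc1 : (0 : ℝ) ≤ (2 * N + 2) * c := by positivity
  induction w using List.reverseRecOn with
  | nil =>
    refine ⟨by simpa using hw1, ?_⟩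
    have h1 := U.fill_two hN hc h 1 [] (U.wd 1) (by simp) (by omega) (by simp)
    rw [ev_nil]
    refine h1.trans ?_
    simp only [List.length_nil, Nat.cast_zero, zero_add, one_pow, mul_one]
    have h2 : (1 : ℝ) ≤ 2 * l + 2 * C + 2 := by
      have : (0 : ℝ) ≤ l := Nat.cast_nonneg l
      have : (0 : ℝ) ≤ C := Nat.cast_nonneg C
      linarith
    exact le_mul_of_one_le_right hc1 h2
  | append_singleton w i ih =>
    obtain ⟨ih1, ih2⟩ := ih
    have hlen := hC (U.ev w) i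
    refine ⟨?_, ?_⟩
    · rw [ev_append, ev_singleton, List.length_append, List.length_singleton]
      calc _ ≤ _ := hlen
        _ ≤ l + C * w.length + C := by omega
        _ = _ := by ring
    · have h1 := U.fill_edge hl hK hc h (U.ev w) i
      rw [ev_append, ev_singleton, li_append, one_mul, li_singleton]
      have h2 : U.li Ψ 1 w + Ψ (U.ev w) (U.gen i) - U.li Ψ 1 (U.wd (U.ev w * U.gen i)) =
          (U.li Ψ 1 w - U.li Ψ 1 (U.wd (U.ev w))) +
          (U.li Ψ 1 (U.wd (U.ev w)) + Ψ (U.ev w) (U.gen i) -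
            U.li Ψ 1 (U.wd (U.ev w * U.gen i))) := by ring
      rw [h2]
      refine (norm_add_le _ _).trans ((add_le_add ih2 h1).trans ?_)
      rw [List.length_append, List.length_singleton]
      have e1 : ((U.wd (U.ev w)).length : ℝ) ≤ l + C * w.length := by exact_mod_cast ih1
      have e2 : ((U.wd (U.ev w * U.gen i)).length : ℝ) ≤ l + C * w.length + C := by
        have : (U.wd (U.ev w * U.gen i)).length ≤ l + C * w.length + C := by omega
        exact_mod_cast this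
      have e3 : ((U.wd (U.ev w)).length : ℝ) + (U.wd (U.ev w * U.gen i)).length + 2 ≤
          (2 * l + 2 * C + 2) * ((w.length : ℝ) + 1) := by
        have a1 : (0 : ℝ) ≤ l := Nat.cast_nonneg l
        have a2 : (0 : ℝ) ≤ C := Nat.cast_nonneg C
        have a3 : (0 : ℝ) ≤ w.length := Nat.cast_nonneg _
        nlinarith [mul_nonneg a1 a3, mul_nonneg a2 a3]
      have e4 := mul_le_mul_of_nonneg_left e3 hc1
      refine (add_le_add le_rfl e4).trans ?_
      push_cast
      have a0 : (0 : ℝ) ≤ (2 * N + 2) * c * (2 * l + 2 * C + 2) := by positivity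
      have a3 : (0 : ℝ) ≤ w.length := Nat.cast_nonneg _
      have e5 : ((w.length : ℝ) + 1) ^ 2 + ((w.length : ℝ) + 1) ≤ ((w.length : ℝ) + 1 + 1) ^ 2 := by
        nlinarith
      calc _ = (2 * N + 2) * c * (2 * l + 2 * C + 2) *
            (((w.length : ℝ) + 1) ^ 2 + ((w.length : ℝ) + 1)) := by ring
        _ ≤ _ := mul_le_mul_of_nonneg_left e5 a0

theorem fill_expand {N l : ℕ} (hl : l + 1 ≤ N) {F : Set D.G}
    (hF : ∀ d ∈ F, (U.wd d).length ≤ l)
    {Ψ : D.G → D.G → ℂ} {c : ℝ} (hc : 0 ≤ c) (h : AlmAdd (U.vals N) Ψ c) (w : List D.G) :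
    (∀ d ∈ w, d ∈ F) → ∀ g : D.G,
    U.ev (w.flatMap U.wd) = w.prod ∧ (w.flatMap U.wd).length ≤ l * w.length ∧
    ‖lint Ψ g w - U.li Ψ g (w.flatMap U.wd)‖ ≤ (2 * N + 2) * c * w.length := by
  have hN : 1 ≤ N := by omega
  induction w with
  | nil =>
    intro _ g
    refine ⟨by simp, by simp, ?_⟩
    simp [lint, li]
  | cons d w ih =>
    intro hw g
    have hd : (U.wd d).length ≤ l := hF d (hw d (by simp))
    obtain ⟨h1, h2, h3⟩ := ih (fun e he => hw e (by simp [he])) (g * d)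
    refine ⟨?_, ?_, ?_⟩
    · rw [List.flatMap_cons, ev_append, ev_wd, h1, List.prod_cons]
    · rw [List.flatMap_cons, List.length_append, List.length_cons]
      calc _ ≤ l + l * w.length := by omega
        _ = _ := by ring
    · rw [List.flatMap_cons, li_append, ev_wd, lint]
      have h4 := U.fill_word hN h (U.wd d) g (by omega)
      rw [ev_wd] at h4
      have h5 : Ψ g d + lint Ψ (g * d) w -
          (U.li Ψ g (U.wd d) + U.li Ψ (g * d) (w.flatMap U.wd)) =
          (lint Ψ (g * d) w - U.li Ψ (g * d) (w.flatMap U.wd)) -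
          (U.li Ψ g (U.wd d) - Ψ g d) := by ring
      rw [h5]
      refine (norm_sub_le _ _).trans ((add_le_add h3 h4).trans ?_)
      rw [List.length_cons]
      push_cast
      have h6 : ((U.wd d).length : ℝ) ≤ l := by exact_mod_cast hd
      have h7 : (l : ℝ) + 1 ≤ N := by exact_mod_cast hl
      have h8 : (((U.wd d).length : ℝ) + 1) * c ≤ (2 * N + 2) * c := by
        apply mul_le_mul_of_nonneg_right _ hc
        have : (0 : ℝ) ≤ N := Nat.cast_nonneg N
        linarith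
      linarith

include U in
theorem filling (F : Set D.G) (hF : F.Finite) : ∃ (E : Set D.G) (C : ℝ), E.Finite ∧
    ∀ (Ψ : D.G → D.G → ℂ) (c : ℝ), 0 ≤ c →
    (∀ g, ∀ d ∈ E, ∀ d' ∈ E, ‖Ψ g (d * d') - Ψ g d - Ψ (g * d) d'‖ ≤ c) →
    ∀ w1 w2 : List D.G, (∀ d ∈ w1, d ∈ F) → (∀ d ∈ w2, d ∈ F) → w1.prod = w2.prod →
    ‖lint Ψ 1 w1 - lint Ψ 1 w2‖ ≤ C * c * ((w1.length : ℝ) + w2.length + 1) ^ 2 := by
  obtain ⟨C0, hC0⟩ := U.len_lip
  obtain ⟨l, hl⟩ : ∃ l : ℕ, ∀ d ∈ F ∪ U.K, (U.wd d).length ≤ l := by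
    have hfin : ((fun d => (U.wd d).length) '' (F ∪ U.K)).Finite := (hF.union U.K_fin).image _
    obtain ⟨l, hl⟩ := hfin.bddAbove
    exact ⟨l, fun d hd => hl ⟨d, hd, rfl⟩⟩
  have hlF : ∀ d ∈ F, (U.wd d).length ≤ l := fun d hd => hl d (Or.inl hd)
  have hlK : ∀ d ∈ U.K, (U.wd d).length ≤ l := fun d hd => hl d (Or.inr hd)
  have hC : ∀ (g : D.G) (i : Fin U.k), (U.wd (g * U.gen i)).length ≤ (U.wd g).length + C0 := by
    intro g i
    exact (hC0 (U.wd g) (U.wd_mem _) (U.wd (g * U.gen i)) (U.wd_mem _) i (by simp)).1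
  set N := l + 1 with hN
  set a : ℝ := (2 * N + 2 : ℝ) with ha
  set b : ℝ := (2 * l + 2 * C0 + 2 : ℝ) with hb
  have ha0 : 0 ≤ a := by positivity
  have hb0 : 0 ≤ b := by positivity
  refine ⟨U.vals N, a + 2 * a * b * ((l : ℝ) + 1) ^ 2, U.vals_finite N, ?_⟩
  intro Ψ c hc h w1 w2 hw1 hw2 he
  have h' : AlmAdd (U.vals N) Ψ c := h
  obtain ⟨p1, p2, p3⟩ := U.fill_expand (le_refl N) hlF hc h' w1 hw1 1
  obtain ⟨q1, q2, q3⟩ := U.fill_expand (le_refl N) hlF hc h' w2 hw2 1
  have r1 := (U.fill_main (le_refl N) hlK hC hc h' (w1.flatMap U.wd)).2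
  have r2 := (U.fill_main (le_refl N) hlK hC hc h' (w2.flatMap U.wd)).2
  rw [p1, he] at r1
  rw [q1] at r2
  rw [← ha] at p3 q3
  rw [← ha, ← hb] at r1 r2
  set v1 := w1.flatMap U.wd with hv1
  set v2 := w2.flatMap U.wd with hv2
  set S : ℝ := (w1.length : ℝ) + w2.length + 1 with hS
  have s1 : (0 : ℝ) ≤ w1.length := Nat.cast_nonneg _
  have s2 : (0 : ℝ) ≤ w2.length := Nat.cast_nonneg _
  have s3 : (0 : ℝ) ≤ l := Nat.cast_nonneg _
  have t1 : (v1.length : ℝ) + 1 ≤ ((l : ℝ) + 1) * S := by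
    have : (v1.length : ℝ) ≤ l * w1.length := by exact_mod_cast p2
    rw [hS]
    nlinarith [mul_nonneg s3 s2]
  have t2 : (v2.length : ℝ) + 1 ≤ ((l : ℝ) + 1) * S := by
    have : (v2.length : ℝ) ≤ l * w2.length := by exact_mod_cast q2
    rw [hS]
    nlinarith [mul_nonneg s3 s1]
  have u1 : ((v1.length : ℝ) + 1) ^ 2 ≤ (((l : ℝ) + 1) * S) ^ 2 :=
    pow_le_pow_left₀ (by positivity) t1 2
  have u2 : ((v2.length : ℝ) + 1) ^ 2 ≤ (((l : ℝ) + 1) * S) ^ 2 :=
    pow_le_pow_left₀ (by positivity) t2 2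
  have hacb : 0 ≤ a * c * b := by positivity
  have r1' := r1.trans (mul_le_mul_of_nonneg_left u1 hacb)
  have r2' := r2.trans (mul_le_mul_of_nonneg_left u2 hacb)
  have hS1 : 1 ≤ S := by rw [hS]; linarith
  have key : lint Ψ 1 w1 - lint Ψ 1 w2 =
      (lint Ψ 1 w1 - U.li Ψ 1 v1) - (lint Ψ 1 w2 - U.li Ψ 1 v2) +
      ((U.li Ψ 1 v1 - U.li Ψ 1 (U.wd w2.prod)) - (U.li Ψ 1 v2 - U.li Ψ 1 (U.wd w2.prod))) := by
    ring
  rw [key]
  refine (norm_add_le _ _).trans ((add_le_add ((norm_sub_le _ _).trans (add_le_add p3 q3))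
    ((norm_sub_le _ _).trans (add_le_add r1' r2'))).trans ?_)
  have v1' : a * c * w1.length + a * c * w2.length ≤ a * c * S ^ 2 := by
    have hac : 0 ≤ a * c := by positivity
    have : (w1.length : ℝ) + w2.length ≤ S ^ 2 := by nlinarith
    calc _ = a * c * ((w1.length : ℝ) + w2.length) := by ring
      _ ≤ _ := mul_le_mul_of_nonneg_left this hac
  calc _ ≤ a * c * S ^ 2 + (a * c * b * (((l : ℝ) + 1) * S) ^ 2 +
        a * c * b * (((l : ℝ) + 1) * S) ^ 2) := add_le_add v1' le_rfl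
    _ = _ := by ring

end UAS

end Pool.Agent.HNNA
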