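import Pool.Agent.HNNA.Tree2
import Pool.Agent.HNNA.Fill

/-! MP_4b60bf_al.  MODULE CLIMB (about 250 lines): the test words for the unbounded case.

Let `φ : G → (V n → ℂ)` (a covector for each group element) be constant on cosets `g L`.  We use
`Ψ g d = φ g (A^(ht g) (u d))`.  Note `Ψ g t = Ψ g t⁻¹ = 0` (`u_t`, `u_tinv`).

`phi_almost`: if `φ (x y) = φ x` for `y ∈ L` and `‖φ (x t) (A^(ht x) v) - φ x (A^(ht x) v)‖ ≤ c ‖v‖`
for all `x, v`, then for every finite `E` there is `C` (depending on `E, D` only) with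
`‖Ψ g (d d') - Ψ g d - Ψ (g d) d'‖ ≤ C c` for all `g`, `d, d' ∈ E`.
PROOF: the left side is `‖(φ g - φ (g d)) (A^(ht g + ht d) (u d'))‖`.  By induction over `d` (`D.ind`):
for every `d` there is `C_d` with `‖(φ (g d) - φ g) (A^(ht g) v)‖ ≤ C_d c ‖v‖` for all `g, v`
(`C_1 = 0`; `y ∈ L`: same; step `d t`: `(φ (g d t) - φ (g d)) (A^(ht g) v)` with
`v = A^(ht d) v'`, `ht (g d) = ht g + ht d`, `‖A^(-ht d) v‖ ≤ ‖..‖ ‖v‖`; step `d t⁻¹`: put `x = g d t⁻¹`,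
`φ (x t) - φ x`).  Norms of the fixed operators `A^k` are finite (finite dimension:
`LinearMap.toContinuousLinearMap`).

`climb` (the element `X` and its path): for `z0 ∈ P` and `k ≥ 1` there are `d_1, ..., d_k` in the finite
set `F_P` of `P_fin` (possibly inverted) such that `X = t^k z0 t⁻¹ d_1 t⁻¹ d_2 ... t⁻¹ d_k ∈ L`, all partial
products `t^k z0 t⁻¹ d_1 ... t⁻¹ d_j` lie in `t^(k-j) L`.
PROOF: `z_0 ∈ P`, `t z_j t⁻¹ = b_j ∈ B ⊆ L`; choose `d_(j+1) ∈ L` from the finite set with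
`z_(j+1) := b_j d_(j+1) ∈ P` (`b_j = y f` with `y ∈ P`, `f ∈ F`; take `d = f⁻¹`, and `L` is abelian); then
`t^(k-j) z_j t⁻¹ d_(j+1) = t^(k-j-1) b_j d_(j+1) = t^(k-j-1) z_(j+1)`.  (For the last step no condition
on `d_k` is needed, but it does not hurt.)
We package the result as: a function `d : ℕ → G` with values in the finite set `Fd`, a function
`z : ℕ → G`, `z 0 = z0`, `z j ∈ P`, `t z_j t⁻¹ d_(j+1) = z_(j+1)`. -/

namespace Pool.Agent.HNNA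

namespace WD

variable (D : WD)

lemma Apow_bound (k : ℤ) : ∃ M : ℝ, 0 ≤ M ∧ ∀ v : V D.n, ‖(D.A ^ k) v‖ ≤ M * ‖v‖ := by
  let f : V D.n →L[ℂ] V D.n :=
    LinearMap.toContinuousLinearMap ((D.A ^ k : V D.n ≃ₗ[ℂ] V D.n) : V D.n →ₗ[ℂ] V D.n)
  exact ⟨‖f‖, norm_nonneg _, fun v => f.le_opNorm v⟩

/-- the hypothesis on `φ` -/
def PhiHyp (φ : D.G → V D.n →ₗ[ℂ] ℂ) (c : ℝ) : Prop :=
  (∀ x, ∀ y ∈ D.L, φ (x * y) = φ x) ∧
    ∀ x v, ‖φ (x * D.t) ((D.A ^ D.ht x) v) - φ x ((D.A ^ D.ht x) v)‖ ≤ c * ‖v‖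

lemma phi_step (d : D.G) : ∃ C : ℝ, 0 ≤ C ∧ ∀ (φ : D.G → V D.n →ₗ[ℂ] ℂ) (c : ℝ), 0 ≤ c →
    D.PhiHyp φ c → ∀ g v, ‖φ (g * d) ((D.A ^ D.ht g) v) - φ g ((D.A ^ D.ht g) v)‖ ≤
      C * c * ‖v‖ := by
  refine D.ind (fun d => ∃ C : ℝ, 0 ≤ C ∧ ∀ (φ : D.G → V D.n →ₗ[ℂ] ℂ) (c : ℝ), 0 ≤ c →
    D.PhiHyp φ c → ∀ g v, ‖φ (g * d) ((D.A ^ D.ht g) v) - φ g ((D.A ^ D.ht g) v)‖ ≤
      C * c * ‖v‖) ?_ ?_ ?_ ?_ d
  · refine ⟨0, le_rfl, ?_⟩
    intro φ c _ _ g v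
    simp
  · rintro x y hy ⟨C, hC, h⟩
    refine ⟨C, hC, ?_⟩
    intro φ c hc hφ g v
    rw [← mul_assoc, hφ.1 _ _ hy]
    exact h φ c hc hφ g v
  · rintro x ⟨C, hC, h⟩
    obtain ⟨M, hM, hMv⟩ := D.Apow_bound (-(D.ht x))
    refine ⟨M + C, by positivity, ?_⟩
    intro φ c hc hφ g v
    have h1 := hφ.2 (g * x) ((D.A ^ (-(D.ht x))) v)
    have h2 : (D.A ^ D.ht (g * x)) ((D.A ^ (-(D.ht x))) v) = (D.A ^ D.ht g) v := by
      rw [← D.Apow_add, D.ht_mul, add_neg_cancel_right]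
    rw [h2] at h1
    have h3 := h φ c hc hφ g v
    have h4 : φ (g * (x * D.t)) ((D.A ^ D.ht g) v) - φ g ((D.A ^ D.ht g) v) =
        (φ (g * x * D.t) ((D.A ^ D.ht g) v) - φ (g * x) ((D.A ^ D.ht g) v)) +
        (φ (g * x) ((D.A ^ D.ht g) v) - φ g ((D.A ^ D.ht g) v)) := by
      rw [mul_assoc]; ring
    rw [h4]
    refine (norm_add_le _ _).trans ((add_le_add h1 h3).trans ?_)
    have h5 := mul_le_mul_of_nonneg_left (hMv v) hc
    linarith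
  · rintro x ⟨C, hC, h⟩
    obtain ⟨M, hM, hMv⟩ := D.Apow_bound (-(D.ht (x * D.t⁻¹)))
    refine ⟨M + C, by positivity, ?_⟩
    intro φ c hc hφ g v
    have h1 := hφ.2 (g * (x * D.t⁻¹)) ((D.A ^ (-(D.ht (x * D.t⁻¹)))) v)
    have h2 : (D.A ^ D.ht (g * (x * D.t⁻¹))) ((D.A ^ (-(D.ht (x * D.t⁻¹)))) v) =
        (D.A ^ D.ht g) v := by
      rw [← D.Apow_add, D.ht_mul g, add_neg_cancel_right]
    rw [h2] at h1
    have h6 : g * (x * D.t⁻¹) * D.t = g * x := by group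
    rw [h6] at h1
    have h3 := h φ c hc hφ g v
    have h4 : φ (g * (x * D.t⁻¹)) ((D.A ^ D.ht g) v) - φ g ((D.A ^ D.ht g) v) =
        (φ (g * x) ((D.A ^ D.ht g) v) - φ g ((D.A ^ D.ht g) v)) -
        (φ (g * x) ((D.A ^ D.ht g) v) - φ (g * (x * D.t⁻¹)) ((D.A ^ D.ht g) v)) := by
      ring
    rw [h4]
    refine (norm_sub_le _ _).trans ((add_le_add h3 h1).trans ?_)
    have h5 := mul_le_mul_of_nonneg_left (hMv v) hc
    linarith

theorem phi_almost (E : Set D.G) (hE : E.Finite) : ∃ C : ℝ, 0 ≤ C ∧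
    ∀ (φ : D.G → V D.n →ₗ[ℂ] ℂ) (c : ℝ), 0 ≤ c → (∀ x, ∀ y ∈ D.L, φ (x * y) = φ x) →
    (∀ x v, ‖φ (x * D.t) ((D.A ^ D.ht x) v) - φ x ((D.A ^ D.ht x) v)‖ ≤ c * ‖v‖) →
    ∀ g, ∀ d ∈ E, ∀ d' ∈ E,
      ‖φ g ((D.A ^ D.ht g) (D.u (d * d'))) - φ g ((D.A ^ D.ht g) (D.u d)) -
        φ (g * d) ((D.A ^ D.ht (g * d)) (D.u d'))‖ ≤ C * c := by
  choose C hC h using D.phi_step
  have hfin : ((fun p : D.G × D.G => C p.1 * ‖(D.A ^ D.ht p.1) (D.u p.2)‖) '' (E ×ˢ E)).Finite :=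
    (hE.prod hE).image _
  obtain ⟨M, hM⟩ := hfin.bddAbove
  refine ⟨max M 0, le_max_right _ _, ?_⟩
  intro φ c hc h1 h2 g d hd d' hd'
  have h3 := h d φ c hc ⟨h1, h2⟩ g ((D.A ^ D.ht d) (D.u d'))
  have h4 : (D.A ^ D.ht g) ((D.A ^ D.ht d) (D.u d')) = (D.A ^ D.ht (g * d)) (D.u d') := by
    rw [← D.Apow_add, D.ht_mul]
  have h5 : φ g ((D.A ^ D.ht g) (D.u (d * d'))) - φ g ((D.A ^ D.ht g) (D.u d)) -
        φ (g * d) ((D.A ^ D.ht (g * d)) (D.u d')) =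
      -(φ (g * d) ((D.A ^ D.ht g) ((D.A ^ D.ht d) (D.u d'))) -
        φ g ((D.A ^ D.ht g) ((D.A ^ D.ht d) (D.u d')))) := by
    rw [D.u_mul, map_add, map_add, ← h4]
    ring
  rw [h5, norm_neg]
  refine h3.trans ?_
  have h6 : C d * ‖(D.A ^ D.ht d) (D.u d')‖ ≤ M :=
    hM ⟨(d, d'), ⟨hd, hd'⟩, rfl⟩
  calc _ = (C d * ‖(D.A ^ D.ht d) (D.u d')‖) * c := by ring
    _ ≤ max M 0 * c := mul_le_mul_of_nonneg_right (h6.trans (le_max_left _ _)) hc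

theorem exists_descent : ∃ Fd : Set D.G, Fd.Finite ∧ (∀ d ∈ Fd, d ∈ D.L) ∧ ∀ z0 ∈ D.P,
    ∃ z d : ℕ → D.G, z 0 = z0 ∧ (∀ j, z j ∈ D.P) ∧ (∀ j, d j ∈ Fd) ∧
      ∀ j, D.t * z j * D.t⁻¹ * d j = z (j + 1) := by
  obtain ⟨F, hF, hFL, hFP⟩ := D.P_fin
  refine ⟨(fun x => x⁻¹) '' F, hF.image _, ?_, ?_⟩
  · rintro _ ⟨f, hf, rfl⟩
    exact D.L.inv_mem (hFL f hf)
  · intro z0 hz0
    have hstep : ∀ z : D.P, ∃ d : D.G, d ∈ (fun x => x⁻¹) '' F ∧
        D.t * (z : D.G) * D.t⁻¹ * d ∈ D.P := by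
      intro z
      have h1 : D.t * (z : D.G) * D.t⁻¹ ∈ D.L := D.B_le (D.conj_P z z.2)
      obtain ⟨f, hf, y, hy, h2⟩ := hFP _ h1
      refine ⟨f⁻¹, ⟨f, hf, rfl⟩, ?_⟩
      rw [h2, mul_inv_cancel_right]
      exact hy
    choose d hd1 hd2 using hstep
    let z : ℕ → D.P := fun j => Nat.rec (motive := fun _ => D.P) ⟨z0, hz0⟩
      (fun _ z => ⟨D.t * (z : D.G) * D.t⁻¹ * d z, hd2 z⟩) j
    refine ⟨fun j => z j, fun j => d (z j), rfl, fun j => (z j).2, fun j => hd1 _, fun j => rfl⟩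

/-- the path `t, ..., t` (k times), `zs`, `t⁻¹, d 0, t⁻¹, d 1, ..., t⁻¹, d (k-1)` -/
def climbPath (k : ℕ) (zs : List D.G) (d : ℕ → D.G) : List D.G :=
  List.replicate k D.t ++ zs ++ ((List.range k).map fun j => [D.t⁻¹, d j]).flatten

lemma descent_succ (d : ℕ → D.G) (j : ℕ) :
    ((List.range (j + 1)).map fun j => [D.t⁻¹, d j]).flatten =
      ((List.range j).map fun j => [D.t⁻¹, d j]).flatten ++ [D.t⁻¹, d j] := by
  rw [List.range_succ, List.map_append, List.flatten_append]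
  simp

lemma descent_prod (z d : ℕ → D.G)
    (hd : ∀ j, D.t * z j * D.t⁻¹ * d j = z (j + 1)) (k : ℕ) (j : ℕ) (hj : j ≤ k) :
    D.t ^ k * z 0 * (((List.range j).map fun j => [D.t⁻¹, d j]).flatten).prod =
      D.t ^ (k - j) * z j := by
  induction j with
  | zero => simp
  | succ j ih =>
    rw [D.descent_succ, List.prod_append, ← mul_assoc, ih (by omega)]
    have h1 : D.t ^ (k - j) = D.t ^ (k - (j + 1)) * D.t := by
      rw [← pow_succ]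
      congr 1
      omega
    rw [h1, ← hd j]
    simp [mul_assoc]

theorem climbPath_prod (k : ℕ) (zs : List D.G) (z d : ℕ → D.G) (hz : zs.prod = z 0)
    (hd : ∀ j, D.t * z j * D.t⁻¹ * d j = z (j + 1)) :
    (D.climbPath k zs d).prod = z k := by
  unfold climbPath
  rw [List.prod_append, List.prod_append, List.prod_replicate, hz, D.descent_prod z d hd k k le_rfl]
  simp

lemma lint_replicate_t (φ : D.G → V D.n →ₗ[ℂ] ℂ) (k : ℕ) (g : D.G) :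
    lint (fun g e => φ g ((D.A ^ D.ht g) (D.u e))) g (List.replicate k D.t) = 0 := by
  induction k generalizing g with
  | zero => simp [lint]
  | succ k ih =>
    rw [List.replicate_succ, lint, ih, D.u_t]
    simp

lemma lint_L (φ : D.G → V D.n →ₗ[ℂ] ℂ) (hφ : ∀ x, ∀ y ∈ D.L, φ (x * y) = φ x)
    (zs : List D.G) (hzs : ∀ x ∈ zs, x ∈ D.L) (g : D.G) :
    lint (fun g e => φ g ((D.A ^ D.ht g) (D.u e))) g zs =
      φ g ((D.A ^ D.ht g) (D.u zs.prod)) := by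
  induction zs generalizing g with
  | nil => simp [lint]
  | cons x zs ih =>
    have hx : x ∈ D.L := hzs x (by simp)
    rw [lint, ih (fun y hy => hzs y (by simp [hy])), List.prod_cons, hφ g x hx, D.ht_mul, D.ht_L x hx,
      add_zero, D.u_mul_zero (D.ht_L x hx), map_add, map_add]

/-- the integral of `Ψ g d = φ g (A^(ht g) (u d))` along the climbing path started at `g0 ∈ L`:
only the values of `φ` on `g0 t^i L` matter. -/
theorem climbPath_lint (φ : D.G → V D.n →ₗ[ℂ] ℂ) (hφ : ∀ x, ∀ y ∈ D.L, φ (x * y) = φ x)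
    (g0 : D.G) (hg0 : g0 ∈ D.L) (k : ℕ) (zs : List D.G) (hzs : ∀ x ∈ zs, x ∈ D.L)
    (z d : ℕ → D.G) (hz : zs.prod = z 0) (hzP : ∀ j, z j ∈ D.P) (hdL : ∀ j, d j ∈ D.L)
    (hd : ∀ j, D.t * z j * D.t⁻¹ * d j = z (j + 1)) :
    lint (fun g e => φ g ((D.A ^ D.ht g) (D.u e))) g0 (D.climbPath k zs d) =
      φ (g0 * D.t ^ k) ((D.A ^ (k : ℤ)) (D.u (z 0))) +
      ∑ j ∈ Finset.range k,
        φ (g0 * D.t ^ (k - 1 - j)) ((D.A ^ ((k - 1 - j : ℕ) : ℤ)) (D.u (d j))) := by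
  have hht : ∀ i : ℕ, D.ht (g0 * D.t ^ i) = i := by
    intro i
    rw [D.ht_mul, D.ht_L g0 hg0, D.ht_pow, D.ht_t]
    simp
  have hdesc : ∀ j, j ≤ k → lint (fun g e => φ g ((D.A ^ D.ht g) (D.u e))) (g0 * D.t ^ k * z 0)
      ((List.range j).map fun j => [D.t⁻¹, d j]).flatten =
      ∑ j ∈ Finset.range j,
        φ (g0 * D.t ^ (k - 1 - j)) ((D.A ^ ((k - 1 - j : ℕ) : ℤ)) (D.u (d j))) := by
    intro j
    induction j with
    | zero => intro _; simp [lint]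
    | succ j ih =>
      intro hj
      rw [D.descent_succ, lint_append, ih (by omega), Finset.sum_range_succ]
      congr 1
      have h0 : g0 * D.t ^ k * z 0 * (((List.range j).map fun j => [D.t⁻¹, d j]).flatten).prod =
          g0 * D.t ^ (k - 1 - j) * D.t * z j := by
        have := D.descent_prod z d hd k j (by omega)
        rw [mul_assoc g0, mul_assoc g0, this]
        have h1 : D.t ^ (k - j) = D.t ^ (k - 1 - j) * D.t := by
          rw [← pow_succ]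
          congr 1
          omega
        rw [h1]
        simp only [mul_assoc]
      rw [h0, lint, lint, lint, D.u_tinv]
      have h2 : D.t * z j * D.t⁻¹ ∈ D.L := D.B_le (D.conj_P _ (hzP j))
      have h3 : g0 * D.t ^ (k - 1 - j) * D.t * z j * D.t⁻¹ =
          g0 * D.t ^ (k - 1 - j) * (D.t * z j * D.t⁻¹) := by simp only [mul_assoc]
      rw [h3, hφ _ _ h2, D.ht_mul _ (D.t * z j * D.t⁻¹), D.ht_L _ h2, add_zero, hht]
      simp
  unfold climbPath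
  rw [lint_append, lint_append, lint_replicate_t, zero_add, List.prod_append, List.prod_replicate,
    D.lint_L φ hφ zs hzs, hz, hht, ← mul_assoc, hdesc k le_rfl]

lemma tpow_lv (i : ℕ) : D.t ^ i ∈ D.lv i := by
  induction i with
  | zero =>
    rw [pow_zero]
    exact D.B.one_mem
  | succ i ih => exact ⟨1, D.L.one_mem, D.t ^ i, ih, by rw [mul_one, pow_succ']⟩

/-- facts about the powers of `t` -/
theorem tpow_br (i j : ℕ) : (D.t ^ i)⁻¹ * D.t ^ j ∈ D.br ↔ i < j := by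
  constructor
  · intro h
    by_contra hij
    rw [not_lt] at hij
    obtain ⟨m, rfl⟩ := Nat.exists_eq_add_of_le hij
    have h1 : (D.t ^ (j + m))⁻¹ * D.t ^ j = (D.t ^ m)⁻¹ := by
      rw [pow_add, mul_inv_rev, mul_assoc, inv_mul_cancel, mul_one]
    rw [h1] at h
    exact inv_not_br (D.tpow_lv m) h
  · intro hij
    obtain ⟨m, rfl⟩ := Nat.exists_eq_add_of_lt hij
    have h1 : (D.t ^ i)⁻¹ * D.t ^ (i + m + 1) = D.t ^ (m + 1) := by
      rw [add_assoc, pow_add, inv_mul_cancel_left]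
    rw [h1]
    exact lv_succ_mem_br (D.tpow_lv (m + 1))

theorem ytpow_not_br {y : D.G} (hy : y ∈ D.L) (hyB : y ∉ D.B) (i j : ℕ) :
    (D.t ^ i)⁻¹ * (y * D.t ^ j) ∉ D.br := by
  intro h
  have h1 := lv_br (D.tpow_lv i) h
  rw [mul_inv_cancel_left] at h1
  rcases Nat.eq_zero_or_pos j with rfl | hj
  · rw [pow_zero, mul_one] at h1
    exact not_br_of_L hy h1
  · apply disj hy hyB (y * D.t ^ j)
    refine ⟨h1, ?_⟩
    rw [inv_mul_cancel_left]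
    obtain ⟨m, rfl⟩ := Nat.exists_eq_add_of_lt hj
    rw [zero_add]
    exact lv_succ_mem_br (D.tpow_lv (m + 1))

end WD

end Pool.Agent.HNNA
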