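import Pool.Agent.HNNA.Tree2

/-! MP_4b60bf_al.  MODULE ENTRY (about 200 lines): entry positions, cutting at the final entry.

PROOFS.
* `exists_entrySet`: for each generator index `i` let `E_i` be the finite set of `cross (gen i)`.
  Let `F1 = {e * gen i | e ∈ E_i, e ∉ br, e * gen i ∈ br}`, finite.  If `x ∉ br`, `x * gen i ∈ br`
  then `x = b e` with `e ∈ E_i`, and `e ∉ br`, `e * gen i ∈ br` by `br_Binv`, so
  `x * gen i = b * (e * gen i)`.  Choose one representative in each class of `F1` modulo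
  left multiplication by `B`.
* `cut_entry`: induction on `σ` from the right (`List.reverseRecOn`) or take the least `m` such that
  all positions at times `≥ m` are in the branch `y · br`; `x = σ.take m`, `σ1 = σ.drop m`.
* `cut_unique`: the length of `x` is that least `m`: if `|x| < |x2|` then `x2 ≠ []`, and
  `x2.dropLast` is `x ++ (initial piece of σ1)`, so `y⁻¹ (r ev x2.dropLast) ∈ br`: contradiction.
* `entry_pos`: if `x ≠ []`, `x = x0 ++ [i]`: `y⁻¹ r ev x0 ∉ br` and `y⁻¹ r ev x0 * gen i ∈ br`; use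
  `EntrySet.entry`.
* `Ent_append`: the fold keeps the entry position as long as the positions stay in the branch.
* `Ent_entry`: at an entry the entry position is the current position.  (First component of the
  fold over `w` is `ev w`, by induction on `w` from the right.) -/

namespace Pool.Agent.HNNA

namespace UAS

variable {D : WD} (U : UAS D)

theorem exists_entrySet : ∃ R : Set D.G, U.EntrySet R := by
  choose E hEf hE using fun i : Fin U.k => WD.cross (D := D) (U.gen i)
  let F1 : Set D.G := ⋃ i : Fin U.k, (fun e => e * U.gen i) '' {e | e ∈ E i ∧ e ∉ D.br ∧ e * U.gen i ∈ D.br}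
  have hF1 : F1.Finite := by
    apply Set.finite_iUnion
    intro i
    apply Set.Finite.image
    exact (hEf i).subset (fun e he => he.1)
  let f : D.G → Quotient (QuotientGroup.rightRel D.B) := fun x => Quotient.mk _ x
  obtain ⟨R, hRF, hR⟩ := Set.exists_subset_bijOn F1 f
  refine ⟨R, ⟨hF1.subset hRF, ?_, ?_, ?_, ?_⟩⟩
  · intro x hx i hxi
    obtain ⟨b, hb, e, he, rfl⟩ := hE i x (by tauto)
    have he1 : e ∉ D.br := fun h => hx ((WD.br_Binv hb e).2 h)
    have he2 : e * U.gen i ∈ D.br := by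
      rw [mul_assoc] at hxi
      exact (WD.br_Binv hb _).1 hxi
    have hmem : e * U.gen i ∈ F1 := Set.mem_iUnion.2 ⟨i, e, ⟨he, he1, he2⟩, rfl⟩
    obtain ⟨r, hr, hfr⟩ := hR.surjOn (Set.mem_image_of_mem f hmem)
    have h3 : (QuotientGroup.rightRel D.B) r (e * U.gen i) := Quotient.exact hfr
    rw [QuotientGroup.rightRel_apply] at h3
    refine ⟨b * (e * U.gen i * r⁻¹), D.B.mul_mem hb h3, r, hr, ?_⟩
    group
  · intro r hr r' hr' b hb h
    apply hR.injOn hr' hr
    apply Quotient.sound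
    change (QuotientGroup.rightRel D.B) r' r
    rw [QuotientGroup.rightRel_apply, h]
    simpa using hb
  · intro r hr
    obtain ⟨i, e, he, rfl⟩ := Set.mem_iUnion.1 (hRF hr)
    exact ⟨e, he.2.1, i, rfl⟩
  · intro r hr
    obtain ⟨i, e, he, rfl⟩ := Set.mem_iUnion.1 (hRF hr)
    exact he.2.2

theorem stay_singleton {r : D.G} {i : Fin U.k} (h : r ∈ D.br) (h' : r * U.gen i ∈ D.br) :
    U.Stay r [i] := by
  intro m
  rcases m with _ | m
  · simpa using h
  · rw [U.pos_of_le (by simp)]
    simpa using h'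

theorem cut_entry (r y : D.G) (σ : U.W) (hend : y⁻¹ * (r * U.ev σ) ∈ D.br) :
    ∃ x σ1 : U.W, σ = x ++ σ1 ∧ U.Stay (y⁻¹ * (r * U.ev x)) σ1 ∧
      (x = [] ∨ y⁻¹ * (r * U.ev x.dropLast) ∉ D.br) := by
  induction σ using List.reverseRecOn with
  | nil =>
    refine ⟨[], [], rfl, ?_, Or.inl rfl⟩
    rw [Stay.nil_iff]
    exact hend
  | append_singleton σ i ih =>
    by_cases h : y⁻¹ * (r * U.ev σ) ∈ D.br
    · obtain ⟨x, σ1, rfl, h1, h2⟩ := ih h
      refine ⟨x, σ1 ++ [i], by simp, ?_, h2⟩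
      rw [stay_append]
      refine ⟨h1, U.stay_singleton ?_ ?_⟩
      · simpa [mul_assoc] using h
      · simpa [mul_assoc] using hend
    · refine ⟨σ ++ [i], [], by simp, ?_, Or.inr (by simpa using h)⟩
      rw [Stay.nil_iff]
      exact hend

theorem cut_unique_aux {r y : D.G} {x σ1 x2 σ2 : U.W} (h : x ++ σ1 = x2 ++ σ2)
    (h1 : U.Stay (y⁻¹ * (r * U.ev x)) σ1)
    (h2' : x2 = [] ∨ y⁻¹ * (r * U.ev x2.dropLast) ∉ D.br) : x2.length ≤ x.length := by
  by_contra hlt
  push Not at hlt
  obtain ⟨z, hz⟩ : ∃ z, x2 = x ++ z := by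
    have : x <+: x2 := by
      have ha : x <+: x ++ σ1 := List.prefix_append _ _
      have hb : x2 <+: x ++ σ1 := by rw [h]; exact List.prefix_append _ _
      exact List.prefix_of_prefix_length_le ha hb hlt.le
    obtain ⟨z, hz⟩ := this
    exact ⟨z, hz.symm⟩
  subst hz
  have hzne : z ≠ [] := by
    rintro rfl
    simp at hlt
  have hσ : σ1 = z ++ σ2 := by
    rw [List.append_assoc] at h
    exact List.append_cancel_left h
  subst hσ
  rcases h2' with h2' | h2'
  · simp at h2'
    exact hzne h2'.2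
  · apply h2'
    rw [List.dropLast_append_of_ne_nil hzne, ev_append]
    have h3 := h1 (z.length - 1)
    have h4 : U.pos (z ++ σ2) (z.length - 1) = U.ev z.dropLast := by
      rw [U.pos_append_left (by omega), pos, List.dropLast_eq_take]
    rw [h4] at h3
    simpa [mul_assoc] using h3

theorem cut_unique {r y : D.G} {x σ1 x2 σ2 : U.W} (h : x ++ σ1 = x2 ++ σ2)
    (h1 : U.Stay (y⁻¹ * (r * U.ev x)) σ1) (h1' : x = [] ∨ y⁻¹ * (r * U.ev x.dropLast) ∉ D.br)
    (h2 : U.Stay (y⁻¹ * (r * U.ev x2)) σ2)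
    (h2' : x2 = [] ∨ y⁻¹ * (r * U.ev x2.dropLast) ∉ D.br) : x = x2 ∧ σ1 = σ2 := by
  have ha := U.cut_unique_aux h h1 h2'
  have hb := U.cut_unique_aux h.symm h2 h1'
  exact List.append_inj h (le_antisymm hb ha)

theorem entry_pos {R : Set D.G} (hR : U.EntrySet R) {g : D.G} {x : U.W} (hx : x ≠ [])
    (h1 : g * U.ev x ∈ D.br) (h2 : g * U.ev x.dropLast ∉ D.br) :
    ∃ b ∈ D.B, ∃ r ∈ R, g * U.ev x = b * r := by
  have h3 : U.ev x = U.ev x.dropLast * U.gen (x.getLast hx) := by
    conv_lhs => rw [← List.dropLast_append_getLast hx]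
    rw [ev_append, ev_singleton]
  rw [h3, ← mul_assoc] at h1 ⊢
  exact hR.entry _ h2 _ h1

theorem foldl_entStep_fst (γ : D.G) (w : U.W) (p : D.G × D.G) :
    (w.foldl (U.entStep γ) p).1 = p.1 * U.ev w := by
  induction w generalizing p with
  | nil => simp
  | cons i w ih =>
    rw [List.foldl_cons, ih, ev_cons, ← mul_assoc]
    rfl

theorem foldl_entStep_snd (γ : D.G) (σ : U.W) (p : D.G × D.G) (h : U.Stay (γ⁻¹ * p.1) σ) :
    (σ.foldl (U.entStep γ) p).2 = p.2 := by
  induction σ generalizing p with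
  | nil => rfl
  | cons i σ ih =>
    have h0 : U.Stay (γ⁻¹ * p.1) ([i] ++ σ) := h
    rw [stay_append] at h0
    have h1 : γ⁻¹ * p.1 ∈ D.br := h0.1.start
    have h2 : γ⁻¹ * (p.1 * U.gen i) ∈ D.br := by
      have := h0.1.last
      simpa [mul_assoc] using this
    have h3 : U.Stay (γ⁻¹ * (p.1 * U.gen i)) σ := by
      have := h0.2
      simpa [mul_assoc] using this
    rw [List.foldl_cons, ih (U.entStep γ p i) h3]
    simp only [entStep]
    rw [if_pos h2, if_pos h1]

/-- the entry position does not change while the word stays in the branch -/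
theorem Ent_append {γ : D.G} {π σ : U.W} (h : U.Stay (γ⁻¹ * U.ev π) σ) :
    U.Ent γ (π ++ σ) = U.Ent γ π := by
  unfold Ent
  rw [List.foldl_append]
  apply U.foldl_entStep_snd
  rw [U.foldl_entStep_fst]
  simpa using h

/-- at an entry, the entry position is the current position -/
theorem Ent_entry {γ : D.G} {π : U.W} (hπ : π ≠ []) (h1 : γ⁻¹ * U.ev π ∈ D.br)
    (h2 : γ⁻¹ * U.ev π.dropLast ∉ D.br) : U.Ent γ π = U.ev π := by
  have h3 : U.ev π = U.ev π.dropLast * U.gen (π.getLast hπ) := by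
    conv_lhs => rw [← List.dropLast_append_getLast hπ]
    rw [ev_append, ev_singleton]
  have h4 : U.Ent γ π = (U.entStep γ (π.dropLast.foldl (U.entStep γ) (1, 1)) (π.getLast hπ)).2 := by
    unfold Ent
    conv_lhs => rw [← List.dropLast_append_getLast hπ]
    rw [List.foldl_append]
    rfl
  rw [h4]
  have h5 : (π.dropLast.foldl (U.entStep γ) (1, 1)).1 = U.ev π.dropLast := by
    rw [U.foldl_entStep_fst]; simp
  simp only [entStep]
  rw [h5, ← h3, if_pos h1, if_neg h2]

end UAS

end Pool.Agent.HNNA
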