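import Pool.Agent.HNNA.CA

/-! MP_4b60bf_al.  MODULE LIN1 (about 200 lines, linear algebra over ℂ).

PROOFS.  Let `S = T.dualMap` (or `ξ ↦ ξ ∘ T`) on the finite dimensional dual space `W = V n →ₗ[ℂ] ℂ`.
* `eig_norm_of_bdd`: `ξ (T^k x) = lam^k ξ x`, `‖ξ (T^k x)‖ ≤ ‖ξ‖ C ‖x‖` for all `k ∈ Z`; choose `x` with
  `ξ x ≠ 0`; `lam ≠ 0` because `T` is bijective.
* `lin_unbdd`: suppose all eigenvalues of `S` have modulus 1 and there is no Jordan pair with
  `|lam| = 1`.  Then for all `lam`: `ker (S - lam)^2 = ker (S - lam)` (if `ξ2` is in the first kernel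
  then `ξ1 = S ξ2 - lam ξ2` satisfies `S ξ1 = lam ξ1`; if `ξ1 ≠ 0` this is a Jordan pair, and then
  `lam` is an eigenvalue, of modulus 1).  So the maximal generalized eigenspaces are eigenspaces
  (`ker (S - lam)^(k+1) = ker (S - lam)^k` for `k ≥ 1`), and they span
  (`Module.End.iSup_maxGenEigenspace_eq_top` over the algebraically closed field ℂ): `S` is
  diagonalizable: `W` is spanned by finitely many eigenvectors `ξ_i`, `S ξ_i = lam_i ξ_i`, `|lam_i| = 1`.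
  Every coordinate functional `x ↦ x j` is a linear combination `Σ c_ji ξ_i`, so
  `|(T^k x) j| = |Σ c_ji lam_i^k ξ_i x| ≤ Σ |c_ji| |ξ_i x| ≤ C ‖x‖` for all `k ∈ Z`: `PBdd T`.
* `lin_bdd_general`: if `PBdd T` and all eigenvalues are roots of unity, then `T^m = 1` for some
  `m ≥ 1`: there is no Jordan pair (`ξ2 (T^k x) = lam^k ξ2 x + k lam^(k-1) ξ1 x` is unbounded in `k`), so
  as above `S` is diagonalizable with finitely many eigenvalues `lam_i` (roots of unity by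
  assumption); with `m` a common exponent `S^m = 1`, so `T^m = 1`. -/

namespace Pool.Agent.HNNA

/-- the transposed endomorphism of the dual space -/
private def dS {n : ℕ} (T : V n ≃ₗ[ℂ] V n) : Module.End ℂ (V n →ₗ[ℂ] ℂ) :=
  LinearMap.lcomp ℂ ℂ (T : V n →ₗ[ℂ] V n)

private lemma dS_apply {n : ℕ} (T : V n ≃ₗ[ℂ] V n) (ξ : V n →ₗ[ℂ] ℂ) (x : V n) :
    dS T ξ x = ξ (T x) := rfl

private lemma exists_ne {n : ℕ} {ξ : V n →ₗ[ℂ] ℂ} (h : ξ ≠ 0) : ∃ x, ξ x ≠ 0 := by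
  by_contra hc
  push Not at hc
  exact h (LinearMap.ext hc)

private lemma bd {n : ℕ} (ξ : V n →ₗ[ℂ] ℂ) : ∃ C : ℝ, 0 ≤ C ∧ ∀ x, ‖ξ x‖ ≤ C * ‖x‖ := by
  refine ⟨‖LinearMap.toContinuousLinearMap ξ‖, norm_nonneg _, fun x => ?_⟩
  exact (LinearMap.toContinuousLinearMap ξ).le_opNorm x

private lemma zpow_succ_apply {n : ℕ} (T : V n ≃ₗ[ℂ] V n) (k : ℤ) (x : V n) :
    (T ^ (k + 1)) x = T ((T ^ k) x) := by
  rw [add_comm, zpow_add, zpow_one]; rfl

theorem eig_ne_zero {n : ℕ} (T : V n ≃ₗ[ℂ] V n) {lam : ℂ} (h : HasEig T lam) : lam ≠ 0 := by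
  rintro rfl
  obtain ⟨ξ, h0, hξ⟩ := h
  apply h0
  ext1 x
  have := hξ (T.symm (Pi.single x 1))
  simp at this
  ext
  simp [this]

private lemma eig_zpow' {n : ℕ} (T : V n ≃ₗ[ℂ] V n) {lam : ℂ} (hl : lam ≠ 0) {ξ : V n →ₗ[ℂ] ℂ}
    (hξ : ∀ x, ξ (T x) = lam * ξ x) (k : ℤ) (x : V n) : ξ ((T ^ k) x) = lam ^ k * ξ x := by
  induction k using Int.induction_on generalizing x with
  | zero => simp
  | succ k ih =>
    rw [zpow_succ_apply, hξ, ih, zpow_add₀ hl, zpow_one]; ring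
  | pred k ih =>
    have h2 := hξ ((T ^ (-(k : ℤ) - 1)) x)
    rw [← zpow_succ_apply, sub_add_cancel, ih] at h2
    rw [zpow_sub₀ hl, zpow_one]
    field_simp
    rw [h2]; ring

theorem eig_norm_of_bdd {n : ℕ} (T : V n ≃ₗ[ℂ] V n) (hT : PBdd T) {lam : ℂ}
    (h : HasEig T lam) : ‖lam‖ = 1 := by
  have hl := eig_ne_zero T h
  obtain ⟨ξ, h0, hξ⟩ := h
  obtain ⟨x, hx⟩ := exists_ne h0
  obtain ⟨C, hC, hb⟩ := hT
  obtain ⟨D, hD, hd⟩ := bd ξ
  have key : ∀ k : ℤ, ‖lam‖ ^ k ≤ D * (C * ‖x‖) / ‖ξ x‖ := by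
    intro k
    have h1 : ‖ξ ((T ^ k) x)‖ ≤ D * (C * ‖x‖) :=
      (hd _).trans (mul_le_mul_of_nonneg_left (hb k x) hD)
    rw [eig_zpow' T hl hξ, norm_mul, norm_zpow] at h1
    rw [le_div_iff₀ (norm_pos_iff.2 hx)]
    exact h1
  have hpos : 0 < ‖lam‖ := norm_pos_iff.2 hl
  apply le_antisymm
  · by_contra hc
    push Not at hc
    obtain ⟨k, hk⟩ := pow_unbounded_of_one_lt (D * (C * ‖x‖) / ‖ξ x‖) hc
    have := key k
    rw [zpow_natCast] at this
    linarith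
  · by_contra hc
    push Not at hc
    have h1 : 1 < ‖lam‖⁻¹ := (one_lt_inv₀ hpos).2 hc
    obtain ⟨k, hk⟩ := pow_unbounded_of_one_lt (D * (C * ‖x‖) / ‖ξ x‖) h1
    have := key (-k)
    rw [zpow_neg, zpow_natCast, ← inv_pow] at this
    linarith

/-- without Jordan pairs the eigenvectors span -/
private lemma span_eig {n : ℕ} (T : V n ≃ₗ[ℂ] V n) (hJ : ∀ lam, HasEig T lam → ¬ HasJor T lam) :
    ⨆ mu : ℂ, Module.End.eigenspace (dS T) mu = ⊤ := by
  rw [eq_top_iff, ← Module.End.iSup_maxGenEigenspace_eq_top (dS T)]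
  apply iSup_mono
  intro mu ξ hξ
  rw [Module.End.mem_maxGenEigenspace] at hξ
  obtain ⟨k, hk⟩ := hξ
  induction k generalizing ξ with
  | zero =>
    simp at hk
    rw [hk]; exact Submodule.zero_mem _
  | succ k ih =>
    rw [pow_succ, Module.End.mul_apply] at hk
    have h1 := ih hk
    rw [Module.End.mem_eigenspace_iff] at h1 ⊢
    by_contra hne
    have hy : ((dS T - mu • (1 : Module.End ℂ (V n →ₗ[ℂ] ℂ))) ξ) ≠ 0 := by
      intro h0
      apply hne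
      have h2 : dS T ξ - mu • ξ = 0 := h0
      exact sub_eq_zero.1 h2
    set y := (dS T - mu • (1 : Module.End ℂ (V n →ₗ[ℂ] ℂ))) ξ with hydef
    have hy1 : ∀ x, y (T x) = mu * y x := by
      intro x
      have := congrArg (fun f : V n →ₗ[ℂ] ℂ => f x) h1
      simpa [dS_apply] using this
    have hy2 : ∀ x, ξ (T x) = mu * ξ x + y x := by
      intro x
      have : y x = ξ (T x) - mu * ξ x := rfl
      rw [this]; ring
    exact hJ mu ⟨y, hy, hy1⟩ ⟨y, ξ, hy, hy1, hy2⟩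

theorem lin_unbdd {n : ℕ} (T : V n ≃ₗ[ℂ] V n) (hT : ¬ PBdd T) :
    (∃ lam, HasEig T lam ∧ ‖lam‖ ≠ 1) ∨ (∃ lam, HasJor T lam ∧ ‖lam‖ = 1) := by
  by_contra hc
  rw [not_or] at hc
  obtain ⟨h1, h2⟩ := hc
  push Not at h1 h2
  apply hT
  have hsp := span_eig T (fun lam he hj => h2 lam hj (h1 lam he))
  have key : ∀ ξ : V n →ₗ[ℂ] ℂ, ∃ C : ℝ, 0 ≤ C ∧ ∀ (k : ℤ) (x : V n), ‖ξ ((T ^ k) x)‖ ≤ C * ‖x‖ := by
    intro ξ
    have hmem : ξ ∈ ⨆ mu : ℂ, Module.End.eigenspace (dS T) mu := by rw [hsp]; trivial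
    induction hmem using Submodule.iSup_induction' with
    | mem mu ξ hξ =>
      by_cases h0 : ξ = 0
      · subst h0
        exact ⟨0, le_rfl, fun k x => by simp⟩
      · rw [Module.End.mem_eigenspace_iff] at hξ
        have hξ' : ∀ x, ξ (T x) = mu * ξ x := by
          intro x
          have := congrArg (fun f : V n →ₗ[ℂ] ℂ => f x) hξ
          simpa [dS_apply] using this
        have he : HasEig T mu := ⟨ξ, h0, hξ'⟩
        obtain ⟨C, hC, hb⟩ := bd ξ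
        refine ⟨C, hC, fun k x => ?_⟩
        rw [eig_zpow' T (eig_ne_zero T he) hξ', norm_mul, norm_zpow, h1 mu he, one_zpow, one_mul]
        exact hb x
    | zero => exact ⟨0, le_rfl, fun k x => by simp⟩
    | add a b _ _ ha hb =>
      obtain ⟨C, hC, h3⟩ := ha
      obtain ⟨D, hD, h4⟩ := hb
      refine ⟨C + D, by positivity, fun k x => ?_⟩
      rw [LinearMap.add_apply, add_mul]
      exact (norm_add_le _ _).trans (add_le_add (h3 k x) (h4 k x))
  choose C hC hb using fun j : Fin n => key (LinearMap.proj j)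
  refine ⟨∑ j, C j + 1, by have := Finset.sum_nonneg (fun j (_ : j ∈ Finset.univ) => hC j); linarith,
    fun k x => ?_⟩
  have hs : 0 ≤ ∑ j, C j := Finset.sum_nonneg (fun j _ => hC j)
  rw [pi_norm_le_iff_of_nonneg (by positivity)]
  intro j
  refine (hb j k x).trans ?_
  apply mul_le_mul_of_nonneg_right _ (norm_nonneg _)
  have := Finset.single_le_sum (fun j (_ : j ∈ Finset.univ) => hC j) (Finset.mem_univ j)
  linarith

theorem lin_bdd_general {n : ℕ} (T : V n ≃ₗ[ℂ] V n) (hT : PBdd T)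
    (hr : ∀ lam, HasEig T lam → ∃ k : ℕ, 1 ≤ k ∧ lam ^ k = 1) : ∃ m : ℕ, 1 ≤ m ∧ T ^ m = 1 := by
  have hJ : ∀ lam, HasEig T lam → ¬ HasJor T lam := by
    intro lam he ⟨ξ1, ξ2, h0, h1, h2⟩
    have hl := eig_ne_zero T he
    have hn := eig_norm_of_bdd T hT he
    obtain ⟨x, hx⟩ := exists_ne h0
    obtain ⟨C, hC, hb⟩ := hT
    obtain ⟨D, hD, hd⟩ := bd ξ2
    have hpow : ∀ k : ℕ, ξ2 ((T ^ k) x) = lam ^ k * ξ2 x + k * lam ^ k * lam⁻¹ * ξ1 x := by
      intro k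
      induction k with
      | zero => simp
      | succ k ih =>
        have e1 : ξ1 ((T ^ k) x) = lam ^ k * ξ1 x := by
          have := eig_zpow' T hl h1 k x
          simpa using this
        have e2 : (T ^ (k + 1)) x = T ((T ^ k) x) := by
          rw [pow_succ']; rfl
        rw [e2, h2, ih, e1]
        push_cast
        field_simp
        ring
    have key : ∀ k : ℕ, (k : ℝ) * ‖ξ1 x‖ ≤ D * (C * ‖x‖) + ‖ξ2 x‖ := by
      intro k
      have e1 : ‖ξ2 ((T ^ k) x)‖ ≤ D * (C * ‖x‖) := by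
        refine (hd _).trans (mul_le_mul_of_nonneg_left ?_ hD)
        have := hb k x
        simpa using this
      have e2 : (k : ℂ) * lam ^ k * lam⁻¹ * ξ1 x = ξ2 ((T ^ k) x) - lam ^ k * ξ2 x := by
        rw [hpow k]; ring
      have e3 : ‖(k : ℂ) * lam ^ k * lam⁻¹ * ξ1 x‖ = (k : ℝ) * ‖ξ1 x‖ := by
        rw [norm_mul, norm_mul, norm_mul, norm_pow, norm_inv, hn]
        simp
      rw [← e3, e2]
      refine (norm_sub_le _ _).trans ?_
      rw [norm_mul, norm_pow, hn, one_pow, one_mul]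
      linarith
    obtain ⟨k, hk⟩ := exists_nat_gt ((D * (C * ‖x‖) + ‖ξ2 x‖) / ‖ξ1 x‖)
    rw [div_lt_iff₀ (norm_pos_iff.2 hx)] at hk
    have := key k
    linarith
  have hsp := span_eig T hJ
  have key : ∀ ξ : V n →ₗ[ℂ] ℂ, ∃ m : ℕ, 1 ≤ m ∧ ∀ (k : ℕ) (x : V n), ξ ((T ^ (m * k)) x) = ξ x := by
    intro ξ
    have hmem : ξ ∈ ⨆ mu : ℂ, Module.End.eigenspace (dS T) mu := by rw [hsp]; trivial
    induction hmem using Submodule.iSup_induction' with
    | mem mu ξ hξ =>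
      by_cases h0 : ξ = 0
      · subst h0
        exact ⟨1, le_rfl, fun k x => by simp⟩
      · rw [Module.End.mem_eigenspace_iff] at hξ
        have hξ' : ∀ x, ξ (T x) = mu * ξ x := by
          intro x
          have := congrArg (fun f : V n →ₗ[ℂ] ℂ => f x) hξ
          simpa [dS_apply] using this
        have he : HasEig T mu := ⟨ξ, h0, hξ'⟩
        obtain ⟨m, hm, hmu⟩ := hr mu he
        refine ⟨m, hm, fun k x => ?_⟩
        have := eig_zpow' T (eig_ne_zero T he) hξ' ((m * k : ℕ) : ℤ) x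
        rw [zpow_natCast, zpow_natCast, pow_mul mu, hmu, one_pow, one_mul] at this
        exact this
    | zero => exact ⟨1, le_rfl, fun k x => by simp⟩
    | add a b _ _ ha hb =>
      obtain ⟨m, hm, h3⟩ := ha
      obtain ⟨m', hm', h4⟩ := hb
      refine ⟨m * m', Nat.mul_pos hm hm', fun k x => ?_⟩
      rw [LinearMap.add_apply, LinearMap.add_apply, mul_assoc, h3, ← mul_assoc, mul_comm m m',
        mul_assoc, h4]
  choose m hm hb using fun j : Fin n => key (LinearMap.proj j)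
  refine ⟨∏ j, m j, Nat.succ_le_of_lt (Finset.prod_pos (fun j _ => hm j)), ?_⟩
  ext1 x
  funext j
  have h1 : ∏ i, m i = m j * ∏ i ∈ Finset.univ.erase j, m i :=
    (Finset.mul_prod_erase _ _ (Finset.mem_univ j)).symm
  have := hb j (∏ i ∈ Finset.univ.erase j, m i) x
  rw [← h1] at this
  exact this

/-- passing to the inverse -/
theorem hasEig_inv {n : ℕ} (T : V n ≃ₗ[ℂ] V n) {lam : ℂ} (h : HasEig T lam) :
    HasEig T⁻¹ lam⁻¹ := by
  have hl := eig_ne_zero T h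
  obtain ⟨ξ, h0, hξ⟩ := h
  refine ⟨ξ, h0, fun x => ?_⟩
  have h1 := hξ (T⁻¹ x)
  have h2 : T (T⁻¹ x) = x := T.apply_symm_apply x
  rw [h2] at h1
  rw [h1]
  field_simp

theorem hasJor_inv {n : ℕ} (T : V n ≃ₗ[ℂ] V n) {lam : ℂ} (h : HasJor T lam) (hl : lam ≠ 0) :
    HasJor T⁻¹ lam⁻¹ := by
  obtain ⟨ξ1, ξ2, h0, h1, h2⟩ := h
  have e1 : ∀ x, ξ1 (T⁻¹ x) = lam⁻¹ * ξ1 x := by
    intro x
    have h3 := h1 (T⁻¹ x)
    have h4 : T (T⁻¹ x) = x := T.apply_symm_apply x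
    rw [h4] at h3
    rw [h3]
    field_simp
  refine ⟨(-(lam⁻¹ * lam⁻¹)) • ξ1, ξ2, ?_, ?_, ?_⟩
  · intro hc
    rw [smul_eq_zero] at hc
    rcases hc with hc | hc
    · simp [hl] at hc
    · exact h0 hc
  · intro x
    rw [LinearMap.smul_apply, LinearMap.smul_apply, e1, smul_eq_mul, smul_eq_mul]
    ring
  · intro x
    have h3 := h2 (T⁻¹ x)
    have h4 : T (T⁻¹ x) = x := T.apply_symm_apply x
    rw [h4, e1] at h3
    rw [LinearMap.smul_apply, smul_eq_mul, h3]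
    field_simp
    ring

theorem pbdd_inv {n : ℕ} (T : V n ≃ₗ[ℂ] V n) (h : PBdd T) : PBdd T⁻¹ := by
  obtain ⟨C, hC, hb⟩ := h
  refine ⟨C, hC, fun k x => ?_⟩
  rw [inv_zpow']
  exact hb (-k) x

end Pool.Agent.HNNA
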