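import Pool.Agent.HNNA.CA

/-! MP_4b60bf_al.  MODULE LIN2 (about 250 lines, integral matrices).

Notation: `L'`, `B` subgroups of `Z^n`, `φ : L' ≃ B`, `φ x = A x`.
PROOFS.
* `cA_injective`: a rational matrix is determined by its complexification.
* If `L' = ⊤`: `A` maps `Z^n` to `Z^n`, so `A = C.map` for an integral matrix `C`
  (`C i j = (φ e_j) i`), and `det A = det C`.  If `B = ⊤`: the same for `A⁻¹` (`A⁻¹ (φ x) = x`).
  If both: `C` is invertible over `Z`, `det C = ±1`.
* `lin_int_fin`: `L' = B = ⊤` and `PBdd (cA A)`: all powers `A^k` (`k : ℕ`) are integral matrices with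
  entries bounded by `C` (`(A^k) i j = (cA A ^ k e_j) i`), so finitely many matrices: `A^k = A^k'` for
  some `k < k'`, so `A` has finite order.
* `prod_eig`: for the complex matrix `cA A` the determinant is the product of the roots of the
  characteristic polynomial (`Matrix.det_eq_prod_roots_charpoly`), and every root `lam` is an
  eigenvalue on covectors, `HasEig (cA A) lam` (the transposed matrix has the same characteristic
  polynomial; `Matrix.charpoly_transpose`; eigenvector `w` of the transpose gives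
  `ξ x = Σ w_i x_i`).
* `lin_gt`: `L' = ⊤`, `B ≠ ⊤`: `det C ≠ ±1` (otherwise `C` is invertible over `Z`, so `A Z^n = Z^n` and
  `B = ⊤`: every `y ∈ Z^n` is `C x = φ x`), `det C ≠ 0`, so `|det C| ≥ 2` and some root of the
  characteristic polynomial has modulus `> 1`.
* `lin_lt`: `B = ⊤`, `L' ≠ ⊤`: the same for `A⁻¹` and `φ.symm`; an eigenvalue `μ` of `A⁻¹` with `|μ| > 1`
  gives the eigenvalue `μ⁻¹` of `A`.
* `index_image`: `L'` contains `N Z^n` (`N` = index).  Let `d ≥ 1` be an integer with `d A⁻¹`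
  integral.  For `y ∈ Z^n`: `N d y = A (N (d A⁻¹ y))`, `N (d A⁻¹ y) ∈ N Z^n ⊆ L'`, so `N d y ∈ B`:
  `B ⊇ N d Z^n` has finite index.
* `lin_unimod`: `L' = B = ⊤`: `|det| = 1` is the product of the moduli of the roots; every `HasEig`
  eigenvalue is a root.  If one root has modulus `≠ 1`, then there is one of modulus `> 1` and one of
  modulus `< 1`. -/

namespace Pool.Agent.HNNA

open Matrix Polynomial

/-! ### multisets of reals -/

theorem prod_le_one_aux (s : Multiset ℝ) (h : ∀ a ∈ s, 0 ≤ a ∧ a ≤ 1) :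
    0 ≤ s.prod ∧ s.prod ≤ 1 := by
  induction s using Multiset.induction_on with
  | empty => simp
  | cons a s ih =>
    have h1 := h a (Multiset.mem_cons_self a s)
    have h2 := ih fun b hb => h b (Multiset.mem_cons_of_mem hb)
    rw [Multiset.prod_cons]
    exact ⟨mul_nonneg h1.1 h2.1, mul_le_one₀ h1.2 h2.1 h2.2⟩

theorem one_le_prod_aux (s : Multiset ℝ) (h : ∀ a ∈ s, 1 ≤ a) : 1 ≤ s.prod := by
  induction s using Multiset.induction_on with
  | empty => simp
  | cons a s ih =>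
    have h1 := h a (Multiset.mem_cons_self a s)
    have h2 := ih fun b hb => h b (Multiset.mem_cons_of_mem hb)
    rw [Multiset.prod_cons]
    exact one_le_mul_of_one_le_of_one_le h1 h2

theorem norm_prod_aux (s : Multiset ℂ) : ‖s.prod‖ = (s.map fun a => ‖a‖).prod := by
  induction s using Multiset.induction_on with
  | empty => simp
  | cons a s ih => rw [Multiset.prod_cons, norm_mul, ih, Multiset.map_cons, Multiset.prod_cons]

/-! ### the complexified matrix -/

/-- the complexified matrix -/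
noncomputable def mC {n : ℕ} (A : Matrix.GeneralLinearGroup (Fin n) ℚ) : Matrix (Fin n) (Fin n) ℂ :=
  (A : Matrix (Fin n) (Fin n) ℚ).map (algebraMap ℚ ℂ)

theorem mC_det {n : ℕ} (A : Matrix.GeneralLinearGroup (Fin n) ℚ) :
    (mC A).det = algebraMap ℚ ℂ (A : Matrix (Fin n) (Fin n) ℚ).det := by
  unfold mC
  rw [RingHom.map_det]
  rfl

theorem cA_injective {n : ℕ} : Function.Injective (cA (n := n)) := by
  intro A A' h
  have h1 : mC A = mC A' := by
    refine Matrix.ext_of_mulVec_single fun i => ?_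
    have h2 := congrArg (fun T : V n ≃ₗ[ℂ] V n => T (Pi.single i 1)) h
    simp only [cA_apply] at h2
    exact h2
  apply Units.ext
  exact Matrix.map_injective (algebraMap ℚ ℂ).injective h1

theorem vecMul_scalar' {n : ℕ} (lam : ℂ) (v : Fin n → ℂ) :
    v ᵥ* (Matrix.scalar (Fin n) lam) = lam • v := by
  rw [Matrix.scalar_apply]
  funext j
  rw [Matrix.vecMul_diagonal, Pi.smul_apply, smul_eq_mul, mul_comm]

/-- eigenvalues on covectors are the roots of the characteristic polynomial -/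
theorem hasEig_iff {n : ℕ} (A : Matrix.GeneralLinearGroup (Fin n) ℚ) (lam : ℂ) :
    HasEig (cA A) lam ↔ lam ∈ (mC A).charpoly.roots := by
  rw [mem_roots (charpoly_monic _).ne_zero, IsRoot.def, Matrix.eval_charpoly,
    ← Matrix.exists_vecMul_eq_zero_iff]
  constructor
  · rintro ⟨ξ, h0, h1⟩
    have hξ : ∀ x : V n, ξ x = (fun i => ξ (Pi.single i 1)) ⬝ᵥ x := by
      intro x
      conv_lhs => rw [← Finset.univ_sum_single x]
      rw [map_sum, dotProduct]
      refine Finset.sum_congr rfl fun i _ => ?_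
      have : (Pi.single i (x i) : V n) = x i • Pi.single i 1 := by
        rw [← Pi.single_smul', smul_eq_mul, mul_one]
      rw [this, map_smul, smul_eq_mul, mul_comm]
    refine ⟨fun i => ξ (Pi.single i 1), ?_, ?_⟩
    · intro h2
      refine h0 (LinearMap.ext fun x => ?_)
      rw [hξ x, h2, zero_dotProduct]
      rfl
    · rw [Matrix.vecMul_sub, sub_eq_zero]
      funext j
      have h2 := h1 (Pi.single j 1)
      rw [cA_apply] at h2
      change ξ (mC A *ᵥ _) = _ at h2
      rw [hξ (mC A *ᵥ _), dotProduct_mulVec, dotProduct_single, mul_one] at h2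
      rw [vecMul_scalar', Pi.smul_apply, smul_eq_mul, h2]
  · rintro ⟨w, h0, h1⟩
    rw [Matrix.vecMul_sub, sub_eq_zero, vecMul_scalar'] at h1
    refine ⟨∑ i, w i • LinearMap.proj i, ?_, ?_⟩
    · intro h2
      apply h0
      funext i
      have h3 := congrArg (fun f : V n →ₗ[ℂ] ℂ => f (Pi.single i 1)) h2
      simp only [LinearMap.sum_apply, LinearMap.smul_apply, LinearMap.proj_apply,
        LinearMap.zero_apply, smul_eq_mul, Pi.single_apply, mul_ite, mul_one, mul_zero,
        Finset.sum_ite_eq', Finset.sum_ite_eq, Finset.mem_univ, if_true] at h3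
      rw [h3]
      rfl
    · intro x
      have hw : ∀ y : V n, (∑ i, w i • LinearMap.proj i : V n →ₗ[ℂ] ℂ) y = w ⬝ᵥ y := by
        intro y
        rw [LinearMap.sum_apply, dotProduct]
        rfl
      rw [hw, hw, cA_apply]
      change w ⬝ᵥ (mC A *ᵥ x) = _
      rw [dotProduct_mulVec, ← h1, smul_dotProduct, smul_eq_mul]

theorem norm_det {n : ℕ} (A : Matrix.GeneralLinearGroup (Fin n) ℚ) :
    ‖(mC A).det‖ = ((mC A).charpoly.roots.map fun a => ‖a‖).prod := by
  rw [Matrix.det_eq_prod_roots_charpoly, norm_prod_aux]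

theorem exists_gt {n : ℕ} (A : Matrix.GeneralLinearGroup (Fin n) ℚ) (h : 1 < ‖(mC A).det‖) :
    ∃ lam, HasEig (cA A) lam ∧ 1 < ‖lam‖ := by
  by_contra h0
  push Not at h0
  rw [norm_det] at h
  have h1 := prod_le_one_aux ((mC A).charpoly.roots.map fun a => ‖a‖) (by
    intro a ha
    rw [Multiset.mem_map] at ha
    obtain ⟨c, hc, rfl⟩ := ha
    exact ⟨norm_nonneg _, h0 c ((hasEig_iff A c).2 hc)⟩)
  linarith [h1.2]

theorem exists_gt' {n : ℕ} (A : Matrix.GeneralLinearGroup (Fin n) ℚ) (h : ‖(mC A).det‖ = 1)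
    {lam : ℂ} (h1 : HasEig (cA A) lam) (h2 : ‖lam‖ < 1) :
    ∃ mu, HasEig (cA A) mu ∧ 1 < ‖mu‖ := by
  by_contra h0
  push Not at h0
  have hm := (hasEig_iff A lam).1 h1
  rw [norm_det, ← Multiset.cons_erase hm, Multiset.map_cons, Multiset.prod_cons] at h
  have h3 := prod_le_one_aux (((mC A).charpoly.roots.erase lam).map fun a => ‖a‖) (by
    intro a ha
    rw [Multiset.mem_map] at ha
    obtain ⟨c, hc, rfl⟩ := ha
    exact ⟨norm_nonneg _, h0 c ((hasEig_iff A c).2 (Multiset.mem_of_mem_erase hc))⟩)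
  have h4 : ‖lam‖ * (((mC A).charpoly.roots.erase lam).map fun a => ‖a‖).prod ≤ ‖lam‖ :=
    mul_le_of_le_one_right (norm_nonneg _) h3.2
  linarith

theorem exists_lt' {n : ℕ} (A : Matrix.GeneralLinearGroup (Fin n) ℚ) (h : ‖(mC A).det‖ = 1)
    {lam : ℂ} (h1 : HasEig (cA A) lam) (h2 : 1 < ‖lam‖) :
    ∃ mu, HasEig (cA A) mu ∧ ‖mu‖ < 1 := by
  by_contra h0
  push Not at h0
  have hm := (hasEig_iff A lam).1 h1
  rw [norm_det, ← Multiset.cons_erase hm, Multiset.map_cons, Multiset.prod_cons] at h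
  have h3 := one_le_prod_aux (((mC A).charpoly.roots.erase lam).map fun a => ‖a‖) (by
    intro a ha
    rw [Multiset.mem_map] at ha
    obtain ⟨c, hc, rfl⟩ := ha
    exact h0 c ((hasEig_iff A c).2 (Multiset.mem_of_mem_erase hc)))
  have h4 : ‖lam‖ ≤ ‖lam‖ * (((mC A).charpoly.roots.erase lam).map fun a => ‖a‖).prod :=
    le_mul_of_one_le_right (norm_nonneg _) h3
  linarith

/-! ### integral matrices -/

section Integral

variable {n : ℕ} (A : Matrix.GeneralLinearGroup (Fin n) ℚ)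
    {L' B : Subgroup (Multiplicative (Fin n → ℤ))} (φ : L' ≃* B)

theorem compat_symm (hA : Compat A φ) : Compat A⁻¹ φ.symm := by
  intro y i
  have h1 : (fun i => ((Multiplicative.toAdd ((y : Multiplicative (Fin n → ℤ))) i : ℤ) : ℚ)) =
      (A : Matrix (Fin n) (Fin n) ℚ).mulVec (fun j =>
        ((Multiplicative.toAdd ((φ.symm y : Multiplicative (Fin n → ℤ))) j : ℤ) : ℚ)) := by
    funext i
    have h2 := hA (φ.symm y) i
    rw [MulEquiv.apply_symm_apply] at h2
    exact h2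
  have h3 : ((A⁻¹ : Matrix.GeneralLinearGroup (Fin n) ℚ) : Matrix (Fin n) (Fin n) ℚ) *
      (A : Matrix (Fin n) (Fin n) ℚ) = 1 := by
    rw [← Units.val_mul, inv_mul_cancel, Units.val_one]
  rw [h1, Matrix.mulVec_mulVec, h3, Matrix.one_mulVec]

/-- the integral matrix -/
theorem int_mat (hA : Compat A φ) (hL : L' = ⊤) : ∃ C : Matrix (Fin n) (Fin n) ℤ,
    (A : Matrix (Fin n) (Fin n) ℚ) = C.map (Int.castRingHom ℚ) := by
  subst hL
  refine ⟨Matrix.of fun i j => Multiplicative.toAdd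
    ((φ ⟨Multiplicative.ofAdd (Pi.single j 1), Subgroup.mem_top _⟩ :
      Multiplicative (Fin n → ℤ))) i, ?_⟩
  ext i j
  rw [Matrix.map_apply, Matrix.of_apply]
  have h1 := hA ⟨Multiplicative.ofAdd (Pi.single j 1), Subgroup.mem_top _⟩ i
  have h2 : (fun k => ((Multiplicative.toAdd (((⟨Multiplicative.ofAdd (Pi.single j 1),
      Subgroup.mem_top _⟩ : (⊤ : Subgroup (Multiplicative (Fin n → ℤ)))) :
        Multiplicative (Fin n → ℤ))) k : ℤ) : ℚ)) = Pi.single j 1 := by
    funext k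
    change (((Pi.single j 1 : Fin n → ℤ) k : ℤ) : ℚ) = _
    rw [Pi.single_apply, Pi.single_apply]
    split_ifs <;> simp
  rw [h2, Matrix.mulVec_single_one] at h1
  exact h1.symm

/-- `φ x = C x` -/
theorem phi_int (hA : Compat A φ) {C : Matrix (Fin n) (Fin n) ℤ}
    (hC : (A : Matrix (Fin n) (Fin n) ℚ) = C.map (Int.castRingHom ℚ)) (x : L') :
    Multiplicative.toAdd ((φ x : Multiplicative (Fin n → ℤ))) =
      C.mulVec (Multiplicative.toAdd (x : Multiplicative (Fin n → ℤ))) := by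
  funext i
  have h1 := hA x i
  rw [hC] at h1
  have h2 : (C.map (Int.castRingHom ℚ)).mulVec (fun j =>
      ((Multiplicative.toAdd (x : Multiplicative (Fin n → ℤ)) j : ℤ) : ℚ)) i =
      ((C.mulVec (Multiplicative.toAdd (x : Multiplicative (Fin n → ℤ))) i : ℤ) : ℚ) := by
    simp only [Matrix.mulVec, dotProduct, Matrix.map_apply, Int.cast_sum, Int.cast_mul]
    rfl
  rw [h2] at h1
  exact_mod_cast h1

theorem det_int {C : Matrix (Fin n) (Fin n) ℤ}
    (hC : (A : Matrix (Fin n) (Fin n) ℚ) = C.map (Int.castRingHom ℚ)) :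
    ‖(mC A).det‖ = |(C.det : ℝ)| := by
  rw [mC_det, hC]
  have h1 : (C.map (Int.castRingHom ℚ)).det = ((C.det : ℤ) : ℚ) := by
    have := RingHom.map_det (Int.castRingHom ℚ) C
    rw [RingHom.mapMatrix_apply] at this
    rw [← this]
    rfl
  rw [h1]
  simp

theorem det_ne_zero {C : Matrix (Fin n) (Fin n) ℤ}
    (hC : (A : Matrix (Fin n) (Fin n) ℚ) = C.map (Int.castRingHom ℚ)) : C.det ≠ 0 := by
  intro h
  have h1 := RingHom.map_det (Int.castRingHom ℚ) C
  rw [RingHom.mapMatrix_apply, ← hC, h, map_zero] at h1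
  have h2 : IsUnit (A : Matrix (Fin n) (Fin n) ℚ).det :=
    (Matrix.isUnit_iff_isUnit_det _).1 (Units.isUnit A)
  rw [← h1] at h2
  exact not_isUnit_zero h2

end Integral

theorem lin_gt {n : ℕ} (A : Matrix.GeneralLinearGroup (Fin n) ℚ)
    {L' B : Subgroup (Multiplicative (Fin n → ℤ))} (φ : L' ≃* B) (hA : Compat A φ)
    (hL : L' = ⊤) (hB : B ≠ ⊤) : ∃ lam, HasEig (cA A) lam ∧ 1 < ‖lam‖ := by
  obtain ⟨C, hC⟩ := int_mat A φ hA hL
  apply exists_gt
  rw [det_int A hC]
  have h1 : ¬ |C.det| = 1 := by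
    intro h
    apply hB
    rw [eq_top_iff]
    intro y _
    have h2 : IsUnit C := (Matrix.isUnit_iff_isUnit_det _).2 (Int.isUnit_iff_abs_eq.2 h)
    obtain ⟨D, hD⟩ := h2.exists_right_inv
    have h3 := phi_int A φ hA hC ⟨Multiplicative.ofAdd (D.mulVec (Multiplicative.toAdd y)),
      by rw [hL]; exact Subgroup.mem_top _⟩
    change _ = C.mulVec (D.mulVec (Multiplicative.toAdd y)) at h3
    rw [Matrix.mulVec_mulVec, hD, Matrix.one_mulVec] at h3
    have h4 := Multiplicative.toAdd.injective h3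
    rw [← h4]
    exact Subtype.property _
  have h2 := det_ne_zero A hC
  have h3 : 1 < |C.det| := by
    have : 0 < |C.det| := abs_pos.2 h2
    omega
  exact_mod_cast h3

theorem lin_lt {n : ℕ} (A : Matrix.GeneralLinearGroup (Fin n) ℚ)
    {L' B : Subgroup (Multiplicative (Fin n → ℤ))} (φ : L' ≃* B) (hA : Compat A φ)
    (hL : L' ≠ ⊤) (hB : B = ⊤) : ∃ lam, HasEig (cA A) lam ∧ ‖lam‖ < 1 := by
  obtain ⟨lam, ⟨ξ, h0, h1⟩, h2⟩ := lin_gt A⁻¹ φ.symm (compat_symm A φ hA) hB hL
  refine ⟨lam⁻¹, ⟨ξ, h0, fun x => ?_⟩, ?_⟩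
  · have h3 := h1 (cA A x)
    have h4 : cA A⁻¹ (cA A x) = x := by
      rw [map_inv]
      exact LinearEquiv.symm_apply_apply (cA A) x
    rw [h4] at h3
    have h5 : lam ≠ 0 := by
      intro h
      rw [h, norm_zero] at h2
      linarith
    rw [h3, ← mul_assoc, inv_mul_cancel₀ h5, one_mul]
  · rw [norm_inv]
    exact inv_lt_one_of_one_lt₀ h2

theorem det_norm_one {n : ℕ} (A : Matrix.GeneralLinearGroup (Fin n) ℚ)
    {L' B : Subgroup (Multiplicative (Fin n → ℤ))} (φ : L' ≃* B) (hA : Compat A φ)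
    (hL : L' = ⊤) (hB : B = ⊤) : ‖(mC A).det‖ = 1 := by
  obtain ⟨C, hC⟩ := int_mat A φ hA hL
  obtain ⟨C', hC'⟩ := int_mat A⁻¹ φ.symm (compat_symm A φ hA) hB
  rw [det_int A hC]
  have h1 : C * C' = 1 := by
    apply Matrix.map_injective (Int.castRingHom ℚ).injective_int
    change (C * C').map (Int.castRingHom ℚ) = (1 : Matrix (Fin n) (Fin n) ℤ).map (Int.castRingHom ℚ)
    rw [Matrix.map_mul, ← hC, ← hC', ← Units.val_mul, mul_inv_cancel, Units.val_one,
      Matrix.map_one _ (map_zero _) (map_one _)]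
  have h2 : IsUnit C.det := by
    refine IsUnit.of_mul_eq_one C'.det ?_
    rw [← Matrix.det_mul, h1, Matrix.det_one]
  have h3 := Int.isUnit_iff_abs_eq.1 h2
  exact_mod_cast h3

theorem lin_unimod {n : ℕ} (A : Matrix.GeneralLinearGroup (Fin n) ℚ)
    {L' B : Subgroup (Multiplicative (Fin n → ℤ))} (φ : L' ≃* B) (hA : Compat A φ)
    (hL : L' = ⊤) (hB : B = ⊤) {lam : ℂ} (h : HasEig (cA A) lam) (hl : ‖lam‖ ≠ 1) :
    (∃ mu, HasEig (cA A) mu ∧ 1 < ‖mu‖) ∧ (∃ mu, HasEig (cA A) mu ∧ ‖mu‖ < 1) := by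
  have h1 := det_norm_one A φ hA hL hB
  rcases lt_or_gt_of_ne hl with h2 | h2
  · exact ⟨exists_gt' A h1 h h2, lam, h, h2⟩
  · exact ⟨⟨lam, h, h2⟩, exists_lt' A h1 h h2⟩

theorem lin_int_fin {n : ℕ} (A : Matrix.GeneralLinearGroup (Fin n) ℚ)
    {L' B : Subgroup (Multiplicative (Fin n → ℤ))} (φ : L' ≃* B) (hA : Compat A φ)
    (hL : L' = ⊤) (hB : B = ⊤) (hb : PBdd (cA A)) : IsOfFinOrder A := by

  obtain ⟨C, hC⟩ := int_mat A φ hA hL
  obtain ⟨K, hK, hKb⟩ := hb
  by_contra h0
  rw [← injective_pow_iff_not_isOfFinOrder] at h0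
  have hpow : ∀ k : ℕ, ((A ^ k : Matrix.GeneralLinearGroup (Fin n) ℚ) :
      Matrix (Fin n) (Fin n) ℚ) = (C ^ k).map (Int.castRingHom ℚ) := by
    intro k
    rw [Units.val_pow_eq_pow_val, hC, Matrix.map_pow]
  have hinj : Function.Injective (fun k : ℕ => C ^ k) := by
    intro k k' hk
    apply h0
    apply Units.ext
    change ((A ^ k : Matrix.GeneralLinearGroup (Fin n) ℚ) : Matrix (Fin n) (Fin n) ℚ) =
      ((A ^ k' : Matrix.GeneralLinearGroup (Fin n) ℚ) : Matrix (Fin n) (Fin n) ℚ)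
    rw [hpow, hpow]
    exact congrArg (fun M : Matrix (Fin n) (Fin n) ℤ => M.map (Int.castRingHom ℚ)) hk
  have hbd : ∀ (k : ℕ) (i j : Fin n), |((C ^ k) i j : ℤ)| ≤ ⌈K⌉ := by
    intro k i j
    have h1 := hKb k (Pi.single j 1)
    rw [zpow_natCast, ← map_pow, cA_apply, hpow, Matrix.mulVec_single_one] at h1
    have h2 : ‖(Pi.single j 1 : V n)‖ = 1 := by
      rw [Pi.norm_single, norm_one]
    rw [h2, mul_one] at h1
    have h3 := (norm_le_pi_norm _ i).trans h1
    rw [Matrix.col_apply, Matrix.map_apply, Matrix.map_apply] at h3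
    have h4 : ‖(algebraMap ℚ ℂ) ((Int.castRingHom ℚ) ((C ^ k) i j))‖ = |(((C ^ k) i j : ℤ) : ℝ)| := by
      simp
    rw [h4] at h3
    have h5 : (|((C ^ k) i j : ℤ)| : ℝ) ≤ (⌈K⌉ : ℝ) := h3.trans (Int.le_ceil K)
    exact_mod_cast h5
  have hfin : (Set.range (fun k : ℕ => C ^ k)).Finite := by
    have h1 : ((Set.univ.pi fun _ : Fin n => Set.univ.pi fun _ : Fin n =>
        Set.Icc (-⌈K⌉) ⌈K⌉) : Set (Fin n → Fin n → ℤ)).Finite :=
      Set.Finite.pi fun _ => Set.Finite.pi fun _ => Set.finite_Icc _ _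
    refine h1.subset ?_
    rintro _ ⟨k, rfl⟩
    intro i _ j _
    exact abs_le.1 (hbd k i j)
  exact Set.infinite_range_of_injective hinj hfin

/-- common denominator -/
theorem exists_den {n : ℕ} (M : Matrix (Fin n) (Fin n) ℚ) : ∃ d : ℕ, d ≠ 0 ∧
    ∃ D : Matrix (Fin n) (Fin n) ℤ, (d : ℚ) • M = D.map (Int.castRingHom ℚ) := by
  refine ⟨∏ p : Fin n × Fin n, (M p.1 p.2).den, Finset.prod_ne_zero_iff.2 fun p _ => Rat.den_ne_zero _,
    ?_⟩
  have h : ∀ i j, ∃ z : ℤ, ((∏ p : Fin n × Fin n, (M p.1 p.2).den : ℕ) : ℚ) * M i j = z := by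
    intro i j
    obtain ⟨c, hc⟩ := Finset.dvd_prod_of_mem (fun p : Fin n × Fin n => (M p.1 p.2).den)
      (Finset.mem_univ (i, j))
    refine ⟨c * (M i j).num, ?_⟩
    rw [hc]
    push_cast
    have h1 := Rat.mul_den_eq_num (M i j)
    change (((M i j).den : ℚ) * c) * M i j = _
    calc (((M i j).den : ℚ) * c) * M i j = c * (M i j * (M i j).den) := by ring
      _ = _ := by rw [h1]
  choose z hz using h
  refine ⟨Matrix.of z, ?_⟩
  ext i j
  rw [Matrix.smul_apply, smul_eq_mul, hz, Matrix.map_apply, Matrix.of_apply]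
  rfl

/-- the index of the image is finite -/
theorem index_image {n : ℕ} (A : Matrix.GeneralLinearGroup (Fin n) ℚ)
    {L' B : Subgroup (Multiplicative (Fin n → ℤ))} (φ : L' ≃* B) (hA : Compat A φ)
    (hL : L'.index ≠ 0) : B.index ≠ 0 := by
  obtain ⟨d, hd, D, hD⟩ := exists_den
    ((A⁻¹ : Matrix.GeneralLinearGroup (Fin n) ℚ) : Matrix (Fin n) (Fin n) ℚ)
  have key : ∀ y : Multiplicative (Fin n → ℤ), y ^ (L'.index * d) ∈ B := by
    intro y
    have hx : (Multiplicative.ofAdd (D.mulVec (Multiplicative.toAdd y))) ^ L'.index ∈ L' :=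
      Subgroup.pow_index_mem L' _
    have h1 : ((φ ⟨_, hx⟩ : B) : Multiplicative (Fin n → ℤ)) = y ^ (L'.index * d) := by
      apply Multiplicative.toAdd.injective
      funext i
      have h2 := hA ⟨_, hx⟩ i
      have h3 : (fun j => ((Multiplicative.toAdd
          ((Multiplicative.ofAdd (D.mulVec (Multiplicative.toAdd y))) ^ L'.index) j : ℤ) : ℚ)) =
          (L'.index : ℚ) • ((D.map (Int.castRingHom ℚ)).mulVec
            (fun j => ((Multiplicative.toAdd y j : ℤ) : ℚ))) := by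
        funext j
        rw [toAdd_pow, toAdd_ofAdd]
        simp only [Pi.smul_apply, Matrix.mulVec, dotProduct, Matrix.map_apply, nsmul_eq_mul,
          Int.cast_mul, Int.cast_sum, smul_eq_mul, Int.cast_natCast]
        rfl
      change _ = (A : Matrix (Fin n) (Fin n) ℚ).mulVec (fun j => ((Multiplicative.toAdd
          ((Multiplicative.ofAdd (D.mulVec (Multiplicative.toAdd y))) ^ L'.index) j : ℤ) : ℚ)) i at h2
      rw [h3, ← hD, Matrix.mulVec_smul, Matrix.smul_mulVec, Matrix.mulVec_smul,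
        Matrix.mulVec_mulVec, ← Units.val_mul, mul_inv_cancel, Units.val_one, Matrix.one_mulVec] at h2
      have h4 : ((Multiplicative.toAdd (y ^ (L'.index * d)) i : ℤ) : ℚ) =
          ((L'.index : ℚ) • (d : ℚ) • fun j => ((Multiplicative.toAdd y j : ℤ) : ℚ)) i := by
        rw [toAdd_pow]
        simp only [Pi.smul_apply, nsmul_eq_mul, Int.cast_mul, smul_eq_mul, Nat.cast_mul,
          Int.cast_natCast, mul_assoc]
      rw [← h4] at h2
      exact_mod_cast h2
    rw [← h1]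
    exact Subtype.property _
  have hfg : Group.FG (Multiplicative (Fin n → ℤ)) :=
    AddGroup.fg_iff_mul_fg.1 (Module.Finite.iff_addGroup_fg.1 inferInstance)
  have htor : IsMulTorsion (Multiplicative (Fin n → ℤ) ⧸ B) := by
    intro q
    obtain ⟨y, rfl⟩ := QuotientGroup.mk_surjective q
    rw [isOfFinOrder_iff_pow_eq_one]
    refine ⟨L'.index * d, Nat.pos_of_ne_zero (mul_ne_zero hL hd), ?_⟩
    rw [← QuotientGroup.mk_pow, QuotientGroup.eq_one_iff]
    exact key y
  have : Finite (Multiplicative (Fin n → ℤ) ⧸ B) := CommGroup.finite_of_fg_isMulTorsion _ htor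
  exact Subgroup.index_ne_zero_of_finite

end Pool.Agent.HNNA
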