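import Pool.Agent.HNNA.CA
import Pool.Agent.HNNA.Basic

/-! MP_4b60bf_al.  The working data of an HNN extension, and the exchange of `t` and `t⁻¹`. -/

namespace Pool.Agent.HNNA

open Multiplicative

section Swap

variable (D : WD)

/-- exchange `t` and `t⁻¹` -/
def WD.swap : WD where
  n := D.n
  G := D.G
  L := D.L
  P := D.B
  B := D.P
  t := D.t⁻¹
  A := D.A⁻¹
  ht := fun x => - D.ht x
  u := D.u
  br := {x | D.t * x ∉ D.br}
  L_comm := D.L_comm
  P_le := D.B_le
  B_le := D.P_le
  conj_P := by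
    intro x hx
    simpa using D.conj_B x hx
  conj_B := by
    intro x hx
    simpa using D.conj_P x hx
  ht_mul := by
    intro x y
    rw [D.ht_mul]; ring
  ht_L := by
    intro x hx
    rw [D.ht_L x hx]; rfl
  ht_t := by simp [D.ht_t]
  u_mul := by
    intro x y
    rw [D.u_mul]
    congr 2
    rw [inv_zpow', neg_neg]
  u_t := D.u_tinv
  u_int := D.u_int
  u_surj := D.u_surj
  u_inj := D.u_inj
  P_fin := D.B_fin
  B_fin := D.P_fin
  ind := by
    intro p h1 h2 h3 h4 x
    refine D.ind p h1 h2 ?_ ?_ x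
    · intro x hx; simpa using h4 x hx
    · intro x hx; exact h3 x hx
  br_L := by
    intro x y hy
    change D.t * (x * y) ∉ D.br ↔ D.t * x ∉ D.br
    rw [← mul_assoc, D.br_L _ _ hy]
  br_t := by
    intro x hx
    change D.t * (x * D.t⁻¹) ∉ D.br ↔ D.t * x ∉ D.br
    have h : D.t * (x * D.t⁻¹) ∉ D.B := by
      intro h
      apply hx
      have := D.conj_B _ h
      simpa [mul_assoc] using this
    have h2 := D.br_t _ h
    have h3 : D.t * (x * D.t⁻¹) * D.t = D.t * x := by group
    rw [h3] at h2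
    rw [h2]
  br_B := by
    intro x hx
    have hb : D.t * x * D.t⁻¹ ∈ D.B := D.conj_P x hx
    obtain ⟨h1, h2⟩ := D.br_B _ hb
    constructor
    · change ¬ (D.t * x ∉ D.br)
      rw [not_not]
      have h3 : D.t * x * D.t⁻¹ * D.t = D.t * x := by group
      rwa [h3] at h2
    · change D.t * (x * D.t⁻¹) ∉ D.br
      rw [← mul_assoc]; exact h1

end Swap

section Model

variable {n : ℕ} (A : Matrix.GeneralLinearGroup (Fin n) ℚ)
  {L' B : Subgroup (Multiplicative (Fin n → ℤ))} (φ : L' ≃* B)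

/-- the HNN extension of the frozen statement -/
abbrev HN {n : ℕ} {L' B : Subgroup (Multiplicative (Fin n → ℤ))} (φ : L' ≃* B) : Type :=
  HNNExtension (Multiplicative (Fin n → ℤ)) L' B φ

/-- an integer vector as a complex vector -/
def toV {n : ℕ} (z : Multiplicative (Fin n → ℤ)) : V n := fun i => ((toAdd z i : ℤ) : ℂ)

lemma toV_mul (z w : Multiplicative (Fin n → ℤ)) : toV (z * w) = toV z + toV w := by
  funext i; simp [toV]

lemma toV_one : toV (1 : Multiplicative (Fin n → ℤ)) = 0 := by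
  funext i; simp [toV]

lemma toV_inj {z : Multiplicative (Fin n → ℤ)} (h : toV z = 0) : z = 1 := by
  have : toAdd z = 0 := by
    funext i
    have := congrFun h i
    simpa [toV] using this
  exact this

lemma toV_inv (z : Multiplicative (Fin n → ℤ)) : toV z⁻¹ = - toV z := by
  have := toV_mul z z⁻¹
  rw [mul_inv_cancel, toV_one] at this
  exact eq_neg_of_add_eq_zero_right this.symm

/-- translations -/
def transl (n : ℕ) : Multiplicative (Fin n → ℤ) →* Equiv.Perm (V n) where
  toFun z := Equiv.addRight (toV z)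
  map_one' := by
    ext x : 1
    simp [toV_one]
  map_mul' z w := by
    ext x : 1
    simp only [Equiv.coe_addRight, Equiv.Perm.coe_mul, Function.comp_apply, toV_mul]
    abel

lemma compat_C {A : Matrix.GeneralLinearGroup (Fin n) ℚ} {φ : L' ≃* B} (hA : Compat A φ)
    (a : L') : cA A (toV (a : Multiplicative (Fin n → ℤ))) = toV (φ a) := by
  rw [cA_apply]
  funext i
  have h2 := congrArg (algebraMap ℚ ℂ) (hA a i)
  rw [RingHom.map_mulVec] at h2
  have h3 : (algebraMap ℚ ℂ) ∘ (fun j => ((toAdd ((a : Multiplicative (Fin n → ℤ))) j : ℤ) : ℚ)) =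
      toV (a : Multiplicative (Fin n → ℤ)) := by
    funext j; simp [toV]
  rw [h3] at h2
  rw [← h2]
  simp [toV]

/-- the affine action -/
noncomputable def affHom {A : Matrix.GeneralLinearGroup (Fin n) ℚ} {φ : L' ≃* B}
    (hA : Compat A φ) : HN φ →* Equiv.Perm (V n) :=
  HNNExtension.lift (transl n) (cA A).toEquiv (by
    intro a
    ext x : 1
    simp only [transl, MonoidHom.coe_mk, OneHom.coe_mk, Equiv.Perm.coe_mul, Function.comp_apply,
      Equiv.coe_addRight, LinearEquiv.coe_toEquiv, map_add, compat_C hA])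

/-- the height -/
noncomputable def htHom (φ : L' ≃* B) : HN φ →* Multiplicative ℤ :=
  HNNExtension.lift 1 (ofAdd 1) (by intro a; simp)

noncomputable def htF (φ : L' ≃* B) (g : HN φ) : ℤ := toAdd (htHom φ g)

lemma htF_mul (x y : HN φ) : htF φ (x * y) = htF φ x + htF φ y := by simp [htF]

@[simp] lemma htF_of (z : Multiplicative (Fin n → ℤ)) : htF φ (HNNExtension.of z) = 0 := by
  simp [htF, htHom]

@[simp] lemma htF_t : htF φ HNNExtension.t = 1 := by simp [htF, htHom]

lemma htF_one : htF φ 1 = 0 := by simp [htF]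

lemma htF_inv (x : HN φ) : htF φ x⁻¹ = - htF φ x := by simp [htF]

/-- right induction on an HNN extension -/
lemma HN_ind (p : HN φ → Prop) (h1 : p 1)
    (hL : ∀ x, ∀ z : Multiplicative (Fin n → ℤ), p x → p (x * HNNExtension.of z))
    (ht : ∀ x, p x → p (x * HNNExtension.t)) (ht' : ∀ x, p x → p (x * HNNExtension.t⁻¹)) (x : HN φ) :
    p x := by
  have key : ∀ g : HN φ, (∀ x, p x → p (x * g)) ∧ (∀ x, p x → p (x * g⁻¹)) := by
    intro g
    induction g using HNNExtension.induction_on with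
    | of z =>
      refine ⟨fun x hx => hL x z hx, fun x hx => ?_⟩
      rw [← map_inv]
      exact hL x _ hx
    | t => exact ⟨ht, ht'⟩
    | mul a b ha hb =>
      refine ⟨fun x hx => ?_, fun x hx => ?_⟩
      · rw [← mul_assoc]; exact hb.1 _ (ha.1 _ hx)
      · rw [mul_inv_rev, ← mul_assoc]; exact ha.2 _ (hb.2 _ hx)
    | inv a ha => exact ⟨ha.2, by simpa using ha.1⟩
  simpa using (key x).1 1 h1

lemma affHom_apply {A : Matrix.GeneralLinearGroup (Fin n) ℚ} {φ : L' ≃* B} (hA : Compat A φ)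
    (g : HN φ) : ∀ x : V n, affHom hA g x = (cA A ^ htF φ g) x + affHom hA g 0 := by
  refine HN_ind φ (fun g => ∀ x : V n, affHom hA g x = (cA A ^ htF φ g) x + affHom hA g 0)
    ?_ ?_ ?_ ?_ g
  · intro x; simp [htF_one]
  · intro g z ih x
    rw [map_mul, Equiv.Perm.mul_apply, Equiv.Perm.mul_apply, htF_mul, htF_of, add_zero]
    have h : ∀ y, affHom hA (HNNExtension.of z) y = y + toV z := by
      intro y; simp [affHom, transl]
    rw [h, h, ih, ih (0 + toV z), map_add, zero_add]
    abel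
  · intro g ih x
    rw [map_mul, Equiv.Perm.mul_apply, Equiv.Perm.mul_apply, htF_mul, htF_t]
    have h : ∀ y, affHom hA HNNExtension.t y = cA A y := by
      intro y; simp [affHom]
    rw [h, h, map_zero, ih, zpow_add]
    simp
  · intro g ih x
    rw [map_mul, Equiv.Perm.mul_apply, Equiv.Perm.mul_apply, htF_mul, htF_inv, htF_t]
    have h : ∀ y, affHom hA (HNNExtension.t⁻¹) y = (cA A)⁻¹ y := by
      intro y
      rw [map_inv]
      have : affHom hA HNNExtension.t = (cA A).toEquiv := by simp [affHom]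
      rw [this]
      rfl
    rw [h, h, map_zero, ih, zpow_add, zpow_neg_one]
    simp

open Classical in
/-- bookkeeping of the crossings of the edge `(L, t L)` -/
noncomputable def crossT (φ : L' ≃* B) : Equiv.Perm (HN φ × ℤ) where
  toFun p := (p.1 * HNNExtension.t⁻¹,
    p.2 - if p.1 * HNNExtension.t⁻¹ ∈ B.map (HNNExtension.of (φ := φ)) then 1 else 0)
  invFun p := (p.1 * HNNExtension.t,
    p.2 + if p.1 ∈ B.map (HNNExtension.of (φ := φ)) then 1 else 0)
  left_inv p := by simp
  right_inv p := by simp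

/-- translation of the first component -/
def crossL (φ : L' ≃* B) : Multiplicative (Fin n → ℤ) →* Equiv.Perm (HN φ × ℤ) where
  toFun z :=
    { toFun := fun p => (p.1 * (HNNExtension.of z)⁻¹, p.2)
      invFun := fun p => (p.1 * HNNExtension.of z, p.2)
      left_inv := fun p => by simp
      right_inv := fun p => by simp }
  map_one' := by
    ext p : 1
    simp
  map_mul' z w := by
    ext p : 1
    simp only [Equiv.coe_fn_mk, Equiv.Perm.coe_mul, Function.comp_apply, map_mul, mul_inv_rev,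
      mul_assoc]

noncomputable def crossHom (φ : L' ≃* B) : HN φ →* Equiv.Perm (HN φ × ℤ) :=
  HNNExtension.lift (crossL φ) (crossT φ) (by
    intro a
    ext p : 1
    classical
    have h1 : ((HNNExtension.of (φ a : Multiplicative (Fin n → ℤ)) : HN φ))⁻¹ =
        HNNExtension.t * (HNNExtension.of (a : Multiplicative (Fin n → ℤ)))⁻¹ *
          HNNExtension.t⁻¹ := by
      rw [HNNExtension.equiv_eq_conj]; group
    have h2 : p.1 * (HNNExtension.of (a : Multiplicative (Fin n → ℤ)))⁻¹ * HNNExtension.t⁻¹ =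
        p.1 * HNNExtension.t⁻¹ * (HNNExtension.of (φ a : Multiplicative (Fin n → ℤ)))⁻¹ := by
      rw [h1]; group
    have h3 : (p.1 * HNNExtension.t⁻¹ * (HNNExtension.of (φ a : Multiplicative (Fin n → ℤ)))⁻¹ ∈
        B.map (HNNExtension.of (φ := φ))) ↔
        (p.1 * HNNExtension.t⁻¹ ∈ B.map (HNNExtension.of (φ := φ))) := by
      apply Subgroup.mul_mem_cancel_right
      exact inv_mem (Subgroup.mem_map_of_mem _ (φ a).2)
    simp only [crossT, crossL, MonoidHom.coe_mk, OneHom.coe_mk, Equiv.coe_fn_mk,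
      Equiv.Perm.coe_mul, Function.comp_apply]
    rw [h2]
    simp only [h3])

/-- number of signed crossings of the edge `(L, t L)` on the way to `g` -/
noncomputable def crossF (φ : L' ≃* B) (g : HN φ) : ℤ := (crossHom φ g⁻¹ (1, 0)).2

lemma crossHom_fst (g : HN φ) : (crossHom φ g⁻¹ (1, 0)).1 = g := by
  refine HN_ind φ (fun g => (crossHom φ g⁻¹ (1, 0)).1 = g) ?_ ?_ ?_ ?_ g
  · simp
  · intro x z ih
    rw [mul_inv_rev, map_mul, Equiv.Perm.mul_apply, ← map_inv]
    have h : ∀ p, (crossHom φ (HNNExtension.of z⁻¹) p).1 = p.1 * HNNExtension.of z := by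
      intro p; simp [crossHom, crossL]
    rw [h, ih]
  · intro x ih
    rw [mul_inv_rev, map_mul, Equiv.Perm.mul_apply, map_inv]
    have h : ∀ p, ((crossHom φ HNNExtension.t)⁻¹ p).1 = p.1 * HNNExtension.t := by
      intro p; simp [crossHom, crossT, Equiv.Perm.inv_def]
    rw [h, ih]
  · intro x ih
    rw [mul_inv_rev, map_mul, Equiv.Perm.mul_apply, inv_inv]
    have h : ∀ p, (crossHom φ HNNExtension.t p).1 = p.1 * HNNExtension.t⁻¹ := by
      intro p; simp [crossHom, crossT]
    rw [h, ih]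

lemma crossF_one : crossF φ 1 = 0 := by simp [crossF]

lemma crossF_of (x : HN φ) (z : Multiplicative (Fin n → ℤ)) :
    crossF φ (x * HNNExtension.of z) = crossF φ x := by
  unfold crossF
  rw [mul_inv_rev, map_mul, Equiv.Perm.mul_apply, ← map_inv]
  have h : ∀ p, (crossHom φ (HNNExtension.of z⁻¹) p).2 = p.2 := by
    intro p; simp [crossHom, crossL]
  rw [h]

open Classical in
lemma crossF_t (x : HN φ) : crossF φ (x * HNNExtension.t) =
    crossF φ x + if x ∈ B.map (HNNExtension.of (φ := φ)) then 1 else 0 := by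
  have h0 := crossHom_fst φ x
  unfold crossF
  rw [mul_inv_rev, map_mul, Equiv.Perm.mul_apply, map_inv]
  have h : ∀ p, ((crossHom φ HNNExtension.t)⁻¹ p).2 =
      p.2 + if p.1 ∈ B.map (HNNExtension.of (φ := φ)) then 1 else 0 := by
    intro p; simp [crossHom, crossT, Equiv.Perm.inv_def]
  rw [h, h0]

lemma fin_reps (H : Subgroup (Multiplicative (Fin n → ℤ))) (hH : H.index ≠ 0) :
    ∃ F : Set (HN φ), F.Finite ∧ (∀ f ∈ F, f ∈ (HNNExtension.of (φ := φ)).range) ∧
      ∀ x ∈ (HNNExtension.of (φ := φ)).range, ∃ f ∈ F, ∃ y ∈ H.map (HNNExtension.of (φ := φ)),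
        x = y * f := by
  have hfi : H.FiniteIndex := ⟨hH⟩
  have : Finite (Multiplicative (Fin n → ℤ) ⧸ H) := Subgroup.finite_quotient_of_finiteIndex
  refine ⟨Set.range fun q : Multiplicative (Fin n → ℤ) ⧸ H => HNNExtension.of q.out,
    Set.finite_range _, ?_, ?_⟩
  · rintro _ ⟨q, rfl⟩
    exact ⟨_, rfl⟩
  · rintro _ ⟨z, rfl⟩
    refine ⟨_, ⟨(QuotientGroup.mk z : _ ⧸ H), rfl⟩, HNNExtension.of
      (z * ((QuotientGroup.mk z : _ ⧸ H).out)⁻¹), ?_, ?_⟩
    · apply Subgroup.mem_map_of_mem
      have h : (QuotientGroup.mk ((QuotientGroup.mk z : _ ⧸ H).out) : _ ⧸ H) =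
        QuotientGroup.mk z := QuotientGroup.out_eq' _
      rw [QuotientGroup.eq] at h
      rw [mul_comm]; exact h
    · rw [← map_mul]; simp

/-- the working data of the HNN extension -/
noncomputable def mk1 {A : Matrix.GeneralLinearGroup (Fin n) ℚ} {φ : L' ≃* B}
    (hA : Compat A φ) (hL : L'.index ≠ 0) (hB : B.index ≠ 0) : WD where
  n := n
  G := HN φ
  L := (HNNExtension.of (φ := φ)).range
  P := L'.map (HNNExtension.of (φ := φ))
  B := B.map (HNNExtension.of (φ := φ))
  t := HNNExtension.t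
  A := cA A
  ht := htF φ
  u := fun g => affHom hA g 0
  br := {g | crossF φ g = 1}
  L_comm := by
    rintro _ ⟨x, rfl⟩ _ ⟨y, rfl⟩
    rw [← map_mul, ← map_mul, mul_comm]
  P_le := by
    rintro _ ⟨x, _, rfl⟩
    exact ⟨x, rfl⟩
  B_le := by
    rintro _ ⟨x, _, rfl⟩
    exact ⟨x, rfl⟩
  conj_P := by
    rintro _ ⟨x, hx, rfl⟩
    have h := HNNExtension.equiv_eq_conj (φ := φ) ⟨x, hx⟩
    rw [← h]
    exact Subgroup.mem_map_of_mem _ (φ ⟨x, hx⟩).2
  conj_B := by
    rintro _ ⟨x, hx, rfl⟩
    have h := HNNExtension.equiv_symm_eq_conj (φ := φ) ⟨x, hx⟩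
    rw [← h]
    exact Subgroup.mem_map_of_mem _ (φ.symm ⟨x, hx⟩).2
  ht_mul := htF_mul φ
  ht_L := by
    rintro _ ⟨x, rfl⟩
    exact htF_of φ x
  ht_t := htF_t φ
  u_mul := by
    intro x y
    rw [map_mul, Equiv.Perm.mul_apply, affHom_apply hA x]
    abel
  u_t := by simp [affHom]
  u_int := by
    rintro _ ⟨x, rfl⟩
    refine ⟨toAdd x, ?_⟩
    simp only [affHom, transl, HNNExtension.lift_of, MonoidHom.coe_mk, OneHom.coe_mk,
      Equiv.coe_addRight, zero_add]
    rfl
  u_surj := by
    intro z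
    refine ⟨HNNExtension.of (ofAdd z), ⟨_, rfl⟩, ?_⟩
    simp only [affHom, transl, HNNExtension.lift_of, MonoidHom.coe_mk, OneHom.coe_mk,
      Equiv.coe_addRight, zero_add]
    rfl
  u_inj := by
    rintro _ ⟨x, rfl⟩ h
    simp only [affHom, transl, HNNExtension.lift_of, MonoidHom.coe_mk, OneHom.coe_mk,
      Equiv.coe_addRight, zero_add] at h
    rw [toV_inj h, map_one]
  P_fin := fin_reps φ L' hL
  B_fin := fin_reps φ B hB
  ind := by
    intro p h1 h2 h3 h4 x
    exact HN_ind φ p h1 (fun x z hx => h2 x _ ⟨z, rfl⟩ hx) h3 h4 x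
  br_L := by
    rintro x _ ⟨z, rfl⟩
    simp only [Set.mem_ofPred_eq, crossF_of]
  br_t := by
    intro x hx
    simp only [Set.mem_ofPred_eq, crossF_t, if_neg hx, add_zero]
  br_B := by
    rintro _ ⟨z, hz, rfl⟩
    have h0 : crossF φ (HNNExtension.of z) = 0 := by
      have := crossF_of φ 1 z
      rw [one_mul] at this
      rw [this, crossF_one]
    constructor
    · simp [h0]
    · simp only [Set.mem_ofPred_eq, crossF_t, h0]
      rw [if_pos (Subgroup.mem_map_of_mem _ hz)]
      rfl

end Model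

end Pool.Agent.HNNA
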