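import Pool.Agent.HNNA.U1jor

/-! MP_4b60bf_al.  MODULE U1EIG (about 150 lines): an eigenvalue of modulus `> 1`, `B ≠ L`.

PROOF.  `φ x = ξ` if `x ∈ br`, `0` otherwise.  `φ (x y) = φ x` for `y ∈ L` (`br_L`);
`φ (x t) - φ x ≠ 0` only for `x ∈ B` (`br_t`), where `ht x = 0`, so the adjacency bound holds with
`c = ‖ξ‖ + 1` (operator norm).  By `phi_almost` and `filling` (with the finite set
`F = {t, t⁻¹, y, z0} ∪ Fd`, where `y ∈ L \ B`): `lint`'s of two words of length `≤ m` with equal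
product differ by at most `C (2 m + 1)^2`.
Choose `z0 ∈ P` with `|ξ (u z0)| > (C_d / (|lam| - 1)) + 1`, `C_d = max_(d ∈ Fd) |ξ (u d)|`: `P` has
finite index (`P_fin`): take `x ∈ L` with `ξ (u x) ≠ 0` (exists because `ξ ≠ 0` and `u_surj` on the
standard basis); by pigeonhole some power `x^m ∈ P`, `m ≥ 1`, and take a large power of it.
Let `X = z k` be the climb element, `w1 = climbPath ++ [y]`, `w2 = [y] ++ climbPath`,
`w1.prod = X y = y X = w2.prod` (`X, y ∈ L`).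
`lint Ψ 1 w1 = lint Ψ 1 climbPath + φ X (u y)`, `φ X = φ 1 = 0`; by `climbPath_lint` with `g0 = 1`:
`= lam^k ξ(u z0) + Σ_(j < k - 1) lam^(k-1-j) ξ (u (d j))` (`t^i ∈ br` iff `i ≥ 1`: `tpow_br 0 i`), of absolute
value `≥ |lam|^k (|ξ (u z0)| - C_d / (|lam| - 1)) ≥ |lam|^k`.
`lint Ψ 1 w2 = φ 1 (u y) + lint Ψ y climbPath = 0` by `climbPath_lint` with `g0 = y` and
`ytpow_not_br` (`i = 0`).
Both words have length `3 k + 2`, so `|lam|^k ≤ C (6 k + 5)^2` for all `k`: contradiction. -/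

namespace Pool.Agent.HNNA

namespace U1E

open Classical in
/-- the covector family -/
noncomputable def phi (D : WD) (ξ : V D.n →ₗ[ℂ] ℂ) (x : D.G) : V D.n →ₗ[ℂ] ℂ :=
  if x ∈ D.br then ξ else 0

lemma phi_pos (D : WD) (ξ : V D.n →ₗ[ℂ] ℂ) {x : D.G} (hx : x ∈ D.br) : phi D ξ x = ξ := by
  unfold phi; rw [if_pos hx]

lemma phi_neg (D : WD) (ξ : V D.n →ₗ[ℂ] ℂ) {x : D.G} (hx : x ∉ D.br) : phi D ξ x = 0 := by
  unfold phi; rw [if_neg hx]

lemma phi_mul_L (D : WD) (ξ : V D.n →ₗ[ℂ] ℂ) (x : D.G) {y : D.G}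
    (hy : y ∈ D.L) : phi D ξ (x * y) = phi D ξ x := by
  have h := D.br_L x y hy
  by_cases hx : x ∈ D.br
  · rw [phi_pos D ξ hx, phi_pos D ξ (h.2 hx)]
  · rw [phi_neg D ξ hx, phi_neg D ξ (fun h' => hx (h.1 h'))]

lemma phi_adj (D : WD) (ξ : V D.n →ₗ[ℂ] ℂ) (c : ℝ) (hc : 0 ≤ c)
    (hξ : ∀ v, ‖ξ v‖ ≤ c * ‖v‖) (x : D.G) (v : V D.n) :
    ‖phi D ξ (x * D.t) ((D.A ^ D.ht x) v) - phi D ξ x ((D.A ^ D.ht x) v)‖
      ≤ c * ‖v‖ := by
  by_cases hx : x ∈ D.B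
  · obtain ⟨h1, h2⟩ := D.br_B _ hx
    rw [phi_pos D ξ h2, phi_neg D ξ h1, D.ht_L _ (D.B_le hx)]
    simpa using hξ v
  · have h := D.br_t _ hx
    by_cases hb : x ∈ D.br
    · rw [phi_pos D ξ hb, phi_pos D ξ (h.2 hb), sub_self, norm_zero]; positivity
    · rw [phi_neg D ξ hb, phi_neg D ξ (fun h' => hb (h.1 h')), sub_self, norm_zero]; positivity

lemma phi_tpow (D : WD) (ξ : V D.n →ₗ[ℂ] ℂ) (j : ℕ) (hj : 0 < j) : phi D ξ (D.t ^ j) = ξ := by
  apply phi_pos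
  have h := (D.tpow_br 0 j).2 hj
  simpa using h

lemma phi_one (D : WD) (ξ : V D.n →ₗ[ℂ] ℂ) : phi D ξ 1 = 0 := by
  apply phi_neg
  have h := D.tpow_br 0 0
  simp at h
  exact h

lemma phi_ytpow (D : WD) (ξ : V D.n →ₗ[ℂ] ℂ) {y : D.G} (hy : y ∈ D.L)
    (hyB : y ∉ D.B) (j : ℕ) : phi D ξ (y * D.t ^ j) = 0 := by
  apply phi_neg
  have h := D.ytpow_not_br hy hyB 0 j
  simpa using h

end U1E

open U1E in
theorem u1_eig (D : WD) (U : UAS D) (hB : ∃ l ∈ D.L, l ∉ D.B) (ξ : V D.n →ₗ[ℂ] ℂ) (hξ0 : ξ ≠ 0)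
    (lam : ℂ) (hξ : D.Eig ξ lam) (hl : 1 < ‖lam‖) : False := by
  classical
  have hl0 : lam ≠ 0 := by
    intro h; rw [h, norm_zero] at hl; linarith
  obtain ⟨y, hy, hyB⟩ := hB
  obtain ⟨x0, hx0P, hx0⟩ := U1J.exists_x0 D ξ hξ0
  have hx0L : x0 ∈ D.L := D.P_le hx0P
  obtain ⟨c0, hc0, hc0b⟩ := U1J.xi_bound ξ
  obtain ⟨Fd, hFd, hFdL, hdesc⟩ := D.exists_descent
  obtain ⟨C1, hC1, hC1b⟩ : ∃ C1 : ℝ, 0 ≤ C1 ∧ ∀ d ∈ Fd, ‖ξ (D.u d)‖ ≤ C1 := by
    obtain ⟨C, hC⟩ := (hFd.image fun d => ‖ξ (D.u d)‖).bddAbove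
    refine ⟨max C 0, le_max_right _ _, fun d hd => le_trans (hC ⟨d, hd, rfl⟩) (le_max_left _ _)⟩
  have ha1pos : 0 < ‖ξ (D.u x0)‖ := norm_pos_iff.2 hx0
  obtain ⟨M, hM⟩ : ∃ M : ℕ, C1 / (‖lam‖ - 1) + 1 ≤ M * ‖ξ (D.u x0)‖ := by
    obtain ⟨M, hM⟩ := exists_nat_ge ((C1 / (‖lam‖ - 1) + 1) / ‖ξ (D.u x0)‖)
    refine ⟨M, ?_⟩
    rw [div_le_iff₀ ha1pos] at hM
    linarith
  set z0 : D.G := x0 ^ M with hz0
  have hz0P : z0 ∈ D.P := D.P.pow_mem hx0P _
  have hz0L : z0 ∈ D.L := D.P_le hz0P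
  have hz0n : ‖ξ (D.u z0)‖ = M * ‖ξ (D.u x0)‖ := by
    rw [hz0, D.u_pow (D.ht_L x0 hx0L), map_smul, smul_eq_mul, norm_mul, Complex.norm_natCast]
  set F : Set D.G := {D.t, D.t⁻¹, y, z0} ∪ Fd with hF
  have hFfin : F.Finite := by
    rw [hF]
    exact (Set.toFinite _).union hFd
  obtain ⟨E, CF, hE, hfill⟩ := U.filling F hFfin
  obtain ⟨CP, hCP, hphi⟩ := D.phi_almost E hE
  obtain ⟨z, d, hzz, hzP, hdF, hzd⟩ := hdesc z0 hz0P
  have hzsp : [z0].prod = z 0 := by rw [List.prod_singleton, hzz]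
  have hzsL : ∀ x ∈ [z0], x ∈ D.L := by
    intro x hx
    rw [List.mem_singleton.1 hx]; exact hz0L
  have hdL : ∀ j, d j ∈ D.L := fun j => hFdL _ (hdF j)
  -- the main inequality
  have main : ∀ k : ℕ, 1 ≤ k → ‖lam‖ ^ k ≤
      |CF| * (CP * c0) * (2 * (3 * k + 2) + 1) ^ 2 := by
    intro k hk
    set φ := phi D ξ with hφ
    have hφL : ∀ x, ∀ y ∈ D.L, φ (x * y) = φ x := fun x y hy => phi_mul_L D ξ x hy
    set Ψ : D.G → D.G → ℂ := fun g e => φ g ((D.A ^ D.ht g) (D.u e)) with hΨ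
    set cp := D.climbPath k [z0] d with hcp
    have hXprod : cp.prod = z k := D.climbPath_prod k [z0] z d hzsp hzd
    have hXL : z k ∈ D.L := D.P_le (hzP k)
    have hcpF : ∀ e ∈ cp, e ∈ F := by
      apply U1J.climb_mem
      · rw [hF]; simp
      · rw [hF]; simp
      · intro x hx
        rw [List.mem_singleton.1 hx, hF]; simp
      · intro j; rw [hF]; exact Or.inr (hdF j)
    have hyF : y ∈ F := by rw [hF]; simp
    have hlen : (cp.length : ℝ) = 3 * k + 1 := by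
      rw [hcp, U1J.climb_length]
      simp
    have hf := hfill Ψ (CP * c0) (by positivity)
      (fun g d hd d' hd' => hphi φ c0 hc0 hφL (fun x v => phi_adj D ξ c0 hc0 hc0b x v)
        g d hd d' hd')
      (cp ++ [y]) ([y] ++ cp)
      (by
        intro e he
        rcases List.mem_append.1 he with he | he
        · exact hcpF e he
        · rw [List.mem_singleton.1 he]; exact hyF)
      (by
        intro e he
        rcases List.mem_append.1 he with he | he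
        · rw [List.mem_singleton.1 he]; exact hyF
        · exact hcpF e he)
      (by
        rw [List.prod_append, List.prod_append, hXprod, List.prod_singleton]
        exact D.L_comm _ hXL _ hy)
    have hl1 : lint Ψ 1 (cp ++ [y]) = lint Ψ 1 cp := by
      rw [U1J.lint_append]
      have : lint Ψ (1 * cp.prod) [y] = 0 := by
        simp only [lint, hΨ]
        rw [hXprod, hφL 1 _ hXL, hφ, phi_one]
        simp
      rw [this, add_zero]
    have hl2 : lint Ψ 1 ([y] ++ cp) = 0 := by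
      rw [U1J.lint_append]
      have e1 : lint Ψ 1 [y] = 0 := by
        simp only [lint, hΨ]
        rw [hφ, phi_one]; simp
      rw [e1, zero_add, List.prod_singleton, one_mul, hΨ, hcp,
        D.climbPath_lint φ hφL y hy k [z0] hzsL z d hzsp hzP hdL hzd, hφ, phi_ytpow D ξ hy hyB]
      simp only [LinearMap.zero_apply, zero_add]
      refine Finset.sum_eq_zero fun j _ => ?_
      rw [phi_ytpow D ξ hy hyB]; simp
    have hl3 : lint Ψ 1 cp = lam ^ k * ξ (D.u z0) + ∑ j ∈ Finset.range k,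
        φ (D.t ^ (k - 1 - j)) ((D.A ^ ((k - 1 - j : ℕ) : ℤ)) (D.u (d j))) := by
      rw [hΨ, hcp, D.climbPath_lint φ hφL 1 D.L.one_mem k [z0] hzsL z d hzsp hzP hdL hzd, one_mul,
        hφ, phi_tpow D ξ k hk, WD.eig_zpow hξ hl0, zpow_natCast, hzz]
      simp only [one_mul]
    rw [hl1, hl2, sub_zero] at hf
    have hpos : 0 < ‖lam‖ - 1 := by linarith
    have hsum : ‖∑ j ∈ Finset.range k,
        φ (D.t ^ (k - 1 - j)) ((D.A ^ ((k - 1 - j : ℕ) : ℤ)) (D.u (d j)))‖ ≤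
        ‖lam‖ ^ k * (C1 / (‖lam‖ - 1)) := by
      refine le_trans (norm_sum_le _ _) ?_
      have e1 : ∑ j ∈ Finset.range k,
          ‖φ (D.t ^ (k - 1 - j)) ((D.A ^ ((k - 1 - j : ℕ) : ℤ)) (D.u (d j)))‖ ≤
          ∑ j ∈ Finset.range k, ‖lam‖ ^ (k - 1 - j) * C1 := by
        refine Finset.sum_le_sum fun j _ => ?_
        rcases Nat.eq_zero_or_pos (k - 1 - j) with h0 | h0
        · rw [h0, pow_zero, hφ, phi_one]
          simpa using hC1
        · rw [hφ, phi_tpow D ξ _ h0, WD.eig_zpow hξ hl0, zpow_natCast, norm_mul, norm_pow]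
          exact mul_le_mul_of_nonneg_left (hC1b _ (hdF j)) (by positivity)
      refine le_trans e1 ?_
      rw [Finset.sum_range_reflect (fun i => ‖lam‖ ^ i * C1) k, ← Finset.sum_mul,
        geom_sum_eq (by linarith : ‖lam‖ ≠ 1)]
      have e2 : (‖lam‖ ^ k - 1) / (‖lam‖ - 1) * C1 = (‖lam‖ ^ k - 1) * (C1 / (‖lam‖ - 1)) := by
        ring
      rw [e2]
      apply mul_le_mul_of_nonneg_right (by linarith) (by positivity)
    have hlow := norm_sub_norm_le (lam ^ k * ξ (D.u z0)) (-(∑ j ∈ Finset.range k,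
        φ (D.t ^ (k - 1 - j)) ((D.A ^ ((k - 1 - j : ℕ) : ℤ)) (D.u (d j)))))
    rw [norm_neg, sub_neg_eq_add, ← hl3, norm_mul, norm_pow, hz0n] at hlow
    have hcl : (((cp ++ [y]).length : ℝ) + (([y] ++ cp).length : ℝ) + 1) =
        2 * (3 * k + 2) + 1 := by
      rw [List.length_append, List.length_append, List.length_singleton]
      push_cast
      rw [hlen]; ring
    rw [hcl] at hf
    have hCF : CF * (CP * c0) * (2 * (3 * (k : ℝ) + 2) + 1) ^ 2 ≤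
        |CF| * (CP * c0) * (2 * (3 * k + 2) + 1) ^ 2 := by
      apply mul_le_mul_of_nonneg_right _ (by positivity)
      apply mul_le_mul_of_nonneg_right (le_abs_self _) (by positivity)
    have h4 : ‖lam‖ ^ k * (C1 / (‖lam‖ - 1) + 1) ≤ ‖lam‖ ^ k * (M * ‖ξ (D.u x0)‖) :=
      mul_le_mul_of_nonneg_left hM (by positivity)
    linarith
  -- contradiction
  set Q : ℝ := |CF| * (CP * c0) * 121 with hQ
  have hQ0 : 0 ≤ Q := by positivity
  have hkey : ∀ k : ℕ, 1 ≤ k → ‖lam‖ ^ k ≤ Q * (k : ℝ) ^ 2 := by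
    intro k hk
    have hk1 : (1 : ℝ) ≤ k := by exact_mod_cast hk
    refine le_trans (main k hk) ?_
    have hsq : (2 * (3 * (k : ℝ) + 2) + 1) ^ 2 ≤ 121 * (k : ℝ) ^ 2 := by nlinarith
    have h3 := mul_le_mul_of_nonneg_left hsq (by positivity : 0 ≤ |CF| * (CP * c0))
    rw [hQ]; linarith
  have hlim := tendsto_pow_const_div_const_pow_of_one_lt 2 hl
  have hev := hlim.eventually (gt_mem_nhds (show (0 : ℝ) < 1 / (Q + 1) by positivity))
  obtain ⟨k, hk1, hk2⟩ := (hev.and (Filter.eventually_ge_atTop 1)).exists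
  have hp : 0 < ‖lam‖ ^ k := by positivity
  rw [div_lt_iff₀ hp, one_div, inv_mul_eq_div, lt_div_iff₀ (by positivity)] at hk1
  have h5 := hkey k hk2
  have h6 : (0 : ℝ) < (k : ℝ) ^ 2 := by
    have : (0 : ℝ) < k := by exact_mod_cast hk2
    positivity
  nlinarith

end Pool.Agent.HNNA
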