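import Pool.Agent.HNNA.Climb

/-! MP_4b60bf_al.  MODULE U1JOR (about 250 lines): a Jordan block with `|lam| = 1`, `B ≠ L`.

PROOF.  For `k : ℕ` let `φ_k x = Σ_(i < k, (t^i)⁻¹ x ∈ br) lam^i • (ξ2 ∘ A^(-i))`.
`φ_k (x y) = φ_k x` for `y ∈ L`.  `φ_k (x t) - φ_k x = Σ_(i < k, (t^i)⁻¹ x ∈ B) lam^i ξ2 ∘ A^(-i)`
(`br_t`, `br_B`), and `(t^i)⁻¹ x ∈ B` forces `i = ht x`; so there is at most one term and
`(φ_k (x t) - φ_k x) (A^(ht x) v) = lam^i ξ2 v`: adjacency bound with `c = ‖ξ2‖ + 1`, uniform in `k`.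
`ξ2 (A^m v) = lam^m ξ2 v + m lam^(m-1) ξ1 v` for `m ≥ 0` (induction).
Choose `x0 ∈ P` with `ξ1 (u x0) ≠ 0` (as in U1EIG, some power of an element of `L`), a natural number
`M ≥ 1` large (below), `zs = List.replicate (M k) x0`, `z 0 = x0^(M k) ∈ P`, `y ∈ L \ B`,
`w1 = climbPath k zs d ++ [y]`, `w2 = [y] ++ climbPath k zs d`, letters in the finite set
`{t, t⁻¹, y, x0} ∪ Fd`, lengths `(M + 3) k + 1`; equal products.
By `tpow_br`: `φ_k (t^j) = Σ_(i < j) lam^i ξ2 ∘ A^(-i)` for `j ≤ k`, so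
`φ_k (t^j) (A^j v) = Σ_(i<j) lam^i ξ2 (A^(j-i) v) = j lam^j ξ2 v + lam^(j-1) (j (j+1) / 2) ξ1 v`.
`climbPath_lint` with `g0 = 1`: the main term (`j = k`, `v = M k • u x0`) has absolute value
`≥ M k (k^2 / 2 |ξ1 (u x0)| - k |ξ2 (u x0)|)`, the sum over `j` is at most
`Σ_(i < k) (i C_d + i (i+1)/2 C_d) ≤ C_d k^3` (`k ≥ 2` say), `C_d = max over Fd of |ξ1 (u d)| + |ξ2 (u d)|`.
The last letter `y`: `φ_k (X) (u y) = φ_k (1) (u y) = 0` (`X ∈ L`).
`lint` of `w2`: `0` by `climbPath_lint` with `g0 = y` and `ytpow_not_br`.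
`phi_almost` and `filling` (constants uniform in `k`):
`M k (k^2/2 |ξ1 (u x0)| - k |ξ2 (u x0)|) - C_d k^3 ≤ C (2 (M+3) k + 3)^2` for all `k`.
With `M |ξ1 (u x0)| / 2 > C_d + 1` fixed, the left side grows like `k^3`: contradiction. -/

namespace Pool.Agent.HNNA

namespace U1J

open Classical in
/-- the covector family -/
noncomputable def phi (D : WD) (ξ : V D.n →ₗ[ℂ] ℂ) (lam : ℂ) (k : ℕ) (x : D.G) :
    V D.n →ₗ[ℂ] ℂ :=
  ∑ i ∈ Finset.range k, if (D.t ^ i)⁻¹ * x ∈ D.br then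
    lam ^ i • (ξ ∘ₗ ((D.A ^ (-(i : ℤ)) : V D.n ≃ₗ[ℂ] V D.n) : V D.n →ₗ[ℂ] V D.n)) else 0

open Classical in
lemma phi_apply (D : WD) (ξ : V D.n →ₗ[ℂ] ℂ) (lam : ℂ) (k : ℕ) (x : D.G) (v : V D.n) :
    phi D ξ lam k x v = ∑ i ∈ Finset.range k,
      if (D.t ^ i)⁻¹ * x ∈ D.br then lam ^ i * ξ ((D.A ^ (-(i : ℤ))) v) else 0 := by
  unfold phi
  rw [LinearMap.sum_apply]
  refine Finset.sum_congr rfl fun i _ => ?_
  split_ifs <;> simp

lemma phi_mul_L (D : WD) (ξ : V D.n →ₗ[ℂ] ℂ) (lam : ℂ) (k : ℕ) (x : D.G) {y : D.G}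
    (hy : y ∈ D.L) : phi D ξ lam k (x * y) = phi D ξ lam k x := by
  ext v
  simp only [LinearMap.comp_apply]
  rw [phi_apply, phi_apply]
  refine Finset.sum_congr rfl fun i _ => ?_
  have h := D.br_L ((D.t ^ i)⁻¹ * x) y hy
  rw [mul_assoc] at h
  by_cases hx : (D.t ^ i)⁻¹ * x ∈ D.br
  · rw [if_pos hx, if_pos (h.2 hx)]
  · rw [if_neg hx, if_neg (fun h' => hx (h.1 h'))]

open Classical in
lemma phi_adj (D : WD) (ξ : V D.n →ₗ[ℂ] ℂ) (lam : ℂ) (hl : ‖lam‖ = 1) (c : ℝ) (hc : 0 ≤ c)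
    (hξ : ∀ v, ‖ξ v‖ ≤ c * ‖v‖) (k : ℕ) (x : D.G) (v : V D.n) :
    ‖phi D ξ lam k (x * D.t) ((D.A ^ D.ht x) v) - phi D ξ lam k x ((D.A ^ D.ht x) v)‖
      ≤ c * ‖v‖ := by
  have hB : ∀ i : ℕ, (D.t ^ i)⁻¹ * x ∈ D.B → D.ht x = i := by
    intro i hi
    have h1 := D.ht_L _ (D.B_le hi)
    rw [D.ht_mul, D.ht_inv, D.ht_pow, D.ht_t] at h1
    linarith
  have key : phi D ξ lam k (x * D.t) ((D.A ^ D.ht x) v) - phi D ξ lam k x ((D.A ^ D.ht x) v) =
      ∑ i ∈ Finset.range k, if (D.t ^ i)⁻¹ * x ∈ D.B then lam ^ i * ξ v else 0 := by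
    rw [phi_apply, phi_apply, ← Finset.sum_sub_distrib]
    refine Finset.sum_congr rfl fun i _ => ?_
    by_cases hi : (D.t ^ i)⁻¹ * x ∈ D.B
    · obtain ⟨h1, h2⟩ := D.br_B _ hi
      rw [mul_assoc] at h2
      rw [if_pos hi, if_pos h2, if_neg h1, hB i hi, D.Apow_neg_cancel, sub_zero]
    · have h := D.br_t _ hi
      rw [mul_assoc] at h
      rw [if_neg hi]
      by_cases hx : (D.t ^ i)⁻¹ * x ∈ D.br
      · rw [if_pos hx, if_pos (h.2 hx), sub_self]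
      · rw [if_neg hx, if_neg (fun h' => hx (h.1 h')), sub_self]
  rw [key]
  by_cases hex : ∃ i ∈ Finset.range k, (D.t ^ i)⁻¹ * x ∈ D.B
  · obtain ⟨i, hik, hi⟩ := hex
    rw [Finset.sum_eq_single i]
    · rw [if_pos hi, norm_mul, norm_pow, hl, one_pow, one_mul]
      exact hξ v
    · intro j _ hj
      rw [if_neg]
      intro hjB
      apply hj
      have h1 := hB i hi
      have h2 := hB j hjB
      rw [h1] at h2
      exact_mod_cast h2.symm
    · intro h; exact absurd hik h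
  · push Not at hex
    rw [Finset.sum_eq_zero]
    · rw [norm_zero]; positivity
    · intro i hi
      rw [if_neg (hex i hi)]

lemma xi2_pow (D : WD) (ξ1 ξ2 : V D.n →ₗ[ℂ] ℂ) (lam : ℂ) (h1 : D.Eig ξ1 lam)
    (h2 : ∀ x, ξ2 (D.A x) = lam * ξ2 x + ξ1 x) (hl : lam ≠ 0) (j : ℕ) (v : V D.n) :
    ξ2 ((D.A ^ (j : ℤ)) v) = lam ^ j * (ξ2 v + j * (lam⁻¹ * ξ1 v)) := by
  induction j generalizing v with
  | zero => simp
  | succ j ih =>
    have e : ((j + 1 : ℕ) : ℤ) = (j : ℤ) + 1 := by push_cast; ring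
    rw [e, D.Apow_add, ih]
    have h3 : (D.A ^ (1 : ℤ)) v = D.A v := by simp
    rw [h3, h2, h1]
    push_cast
    field_simp
    ring

/-- the value of `phi k` at `t^j` -/
lemma phi_tpow (D : WD) (ξ1 ξ2 : V D.n →ₗ[ℂ] ℂ) (lam : ℂ) (h1 : D.Eig ξ1 lam)
    (h2 : ∀ x, ξ2 (D.A x) = lam * ξ2 x + ξ1 x) (hl : lam ≠ 0) (k j : ℕ) (hjk : j ≤ k)
    (v : V D.n) :
    phi D ξ2 lam k (D.t ^ j) ((D.A ^ (j : ℤ)) v) =
      lam ^ j * (j * ξ2 v + ((j : ℂ) * (j + 1) / 2) * (lam⁻¹ * ξ1 v)) := by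
  classical
  rw [phi_apply]
  have e1 : (∑ i ∈ Finset.range k, if (D.t ^ i)⁻¹ * D.t ^ j ∈ D.br then
      lam ^ i * ξ2 ((D.A ^ (-(i : ℤ))) ((D.A ^ (j : ℤ)) v)) else 0) =
      ∑ i ∈ Finset.range j, lam ^ j * (ξ2 v + ((j : ℂ) - i) * (lam⁻¹ * ξ1 v)) := by
    have hsub : Finset.range j ⊆ Finset.range k := Finset.range_subset_range.2 hjk
    rw [← Finset.sum_subset hsub]
    · refine Finset.sum_congr rfl fun i hi => ?_
      rw [Finset.mem_range] at hi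
      rw [if_pos ((D.tpow_br i j).2 hi)]
      have e2 : (D.A ^ (-(i : ℤ))) ((D.A ^ (j : ℤ)) v) = (D.A ^ ((j - i : ℕ) : ℤ)) v := by
        rw [← D.Apow_add]
        congr 2
        rw [Nat.cast_sub hi.le]; ring
      rw [e2, xi2_pow D ξ1 ξ2 lam h1 h2 hl, ← mul_assoc, ← pow_add, Nat.add_sub_cancel' hi.le,
        Nat.cast_sub hi.le]
    · intro i _ hi
      rw [Finset.mem_range] at hi
      rw [if_neg]
      intro h
      exact hi ((D.tpow_br i j).1 h)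
  rw [e1, ← Finset.mul_sum]
  congr 1
  have e3 : ∀ n : ℕ, ∀ a b : ℂ, ∑ i ∈ Finset.range n, (a + ((n : ℂ) - i) * b) =
      n * a + ((n : ℂ) * (n + 1) / 2) * b := by
    intro n a b
    have e4 : ∑ i ∈ Finset.range n, ((i : ℂ)) = (n : ℂ) * (n - 1) / 2 := by
      induction n with
      | zero => simp
      | succ n ih => rw [Finset.sum_range_succ, ih]; push_cast; ring
    rw [Finset.sum_add_distrib, ← Finset.sum_mul, Finset.sum_sub_distrib, e4]
    simp only [Finset.sum_const, Finset.card_range, nsmul_eq_mul]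
    ring
  exact e3 j _ _

lemma phi_ytpow (D : WD) (ξ : V D.n →ₗ[ℂ] ℂ) (lam : ℂ) {y : D.G} (hy : y ∈ D.L)
    (hyB : y ∉ D.B) (k j : ℕ) : phi D ξ lam k (y * D.t ^ j) = 0 := by
  ext v
  simp only [LinearMap.comp_apply]
  rw [phi_apply]
  simp only [LinearMap.zero_apply]
  refine Finset.sum_eq_zero fun i _ => ?_
  rw [if_neg (D.ytpow_not_br hy hyB i j)]

lemma phi_one (D : WD) (ξ : V D.n →ₗ[ℂ] ℂ) (lam : ℂ) (k : ℕ) : phi D ξ lam k 1 = 0 := by
  ext v
  simp only [LinearMap.comp_apply]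
  rw [phi_apply]
  simp only [LinearMap.zero_apply]
  refine Finset.sum_eq_zero fun i _ => ?_
  rw [if_neg]
  have h := D.tpow_br i 0
  rw [pow_zero] at h
  rw [h]; omega

lemma lint_append {G : Type} [Group G] (Ψ : G → G → ℂ) (g : G) (w w' : List G) :
    lint Ψ g (w ++ w') = lint Ψ g w + lint Ψ (g * w.prod) w' := by
  induction w generalizing g with
  | nil => simp [lint]
  | cons d w ih =>
    simp only [List.cons_append, lint, List.prod_cons]
    rw [ih, ← mul_assoc]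
    ring

/-- an element of `P` with `ξ (u x) ≠ 0` -/
lemma exists_x0 (D : WD) (ξ : V D.n →ₗ[ℂ] ℂ) (hξ : ξ ≠ 0) : ∃ x ∈ D.P, ξ (D.u x) ≠ 0 := by
  classical
  -- an element of `L`
  have hL : ∃ x ∈ D.L, ξ (D.u x) ≠ 0 := by
    by_contra hcon
    push Not at hcon
    apply hξ
    apply LinearMap.pi_ext'
    intro i
    ext
    obtain ⟨x, hx, hux⟩ := D.u_surj (Pi.single i 1)
    have h1 := hcon x hx
    have h2 : D.u x = Pi.single i (1 : ℂ) := by
      rw [hux]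
      funext j
      by_cases hj : j = i
      · subst hj; simp
      · simp [hj]
    rw [h2] at h1
    simpa using h1
  obtain ⟨x, hx, hux⟩ := hL
  obtain ⟨F, hF, hFL, hFP⟩ := D.P_fin
  have hch : ∀ m : ℕ, ∃ f ∈ F, ∃ y ∈ D.P, x ^ m = y * f := fun m => hFP _ (D.L.pow_mem hx m)
  choose f hf y hy hxy using hch
  obtain ⟨a, b, hab, hfab⟩ : ∃ a b : ℕ, a < b ∧ f a = f b := by
    have : Finite F := hF
    obtain ⟨a, b, hab, h⟩ := Finite.exists_ne_map_eq_of_infinite (fun m : ℕ => (⟨f m, hf m⟩ : F))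
    rcases lt_or_gt_of_ne hab with h1 | h1
    · exact ⟨a, b, h1, congrArg Subtype.val h⟩
    · exact ⟨b, a, h1, (congrArg Subtype.val h).symm⟩
  refine ⟨x ^ (b - a), ?_, ?_⟩
  · have e : x ^ (b - a) = y b * (y a)⁻¹ := by
      have h1 : x ^ (b - a) = x ^ b * (x ^ a)⁻¹ := by
        rw [pow_sub _ hab.le]
      rw [h1, hxy b, hxy a, hfab, mul_inv_rev, mul_assoc, mul_inv_cancel_left]
    rw [e]
    exact D.P.mul_mem (hy b) (D.P.inv_mem (hy a))
  · rw [D.u_pow (D.ht_L x hx), map_smul, smul_eq_mul]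
    apply mul_ne_zero _ hux
    have : b - a ≠ 0 := by omega
    exact_mod_cast this

lemma xi_bound {n : ℕ} (ξ : V n →ₗ[ℂ] ℂ) : ∃ c : ℝ, 0 ≤ c ∧ ∀ v, ‖ξ v‖ ≤ c * ‖v‖ := by
  refine ⟨‖LinearMap.toContinuousLinearMap ξ‖, norm_nonneg _, fun v => ?_⟩
  exact (LinearMap.toContinuousLinearMap ξ).le_opNorm v

lemma climb_length (D : WD) (k : ℕ) (zs : List D.G) (d : ℕ → D.G) :
    (D.climbPath k zs d).length = 3 * k + zs.length := by
  unfold WD.climbPath
  simp only [List.length_append, List.length_replicate, List.length_flatten, List.map_map]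
  have e : List.map (List.length ∘ fun j => [D.t⁻¹, d j]) (List.range k) =
      List.replicate k 2 := by
    rw [List.eq_replicate_iff]
    constructor
    · simp
    · intro b hb
      simp only [List.mem_map] at hb
      obtain ⟨a, _, ha⟩ := hb
      rw [← ha]; rfl
  rw [e, List.sum_replicate]
  simp only [smul_eq_mul]
  omega

lemma climb_mem (D : WD) (k : ℕ) (zs : List D.G) (d : ℕ → D.G) (F : Set D.G) (ht : D.t ∈ F)
    (ht' : D.t⁻¹ ∈ F) (hzs : ∀ x ∈ zs, x ∈ F) (hd : ∀ j, d j ∈ F) :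
    ∀ e ∈ D.climbPath k zs d, e ∈ F := by
  intro e he
  unfold WD.climbPath at he
  simp only [List.mem_append, List.mem_flatten, List.mem_map] at he
  rcases he with (he | he) | ⟨l, ⟨j, _, hj⟩, he⟩
  · rw [List.eq_of_mem_replicate he]; exact ht
  · exact hzs e he
  · rw [← hj] at he
    simp only [List.mem_cons, List.not_mem_nil, or_false] at he
    rcases he with rfl | rfl
    · exact ht'
    · exact hd j

end U1J

open U1J in
theorem u1_jor (D : WD) (U : UAS D) (hB : ∃ l ∈ D.L, l ∉ D.B) (ξ1 ξ2 : V D.n →ₗ[ℂ] ℂ)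
    (hξ0 : ξ1 ≠ 0) (lam : ℂ) (h1 : D.Eig ξ1 lam) (h2 : ∀ x, ξ2 (D.A x) = lam * ξ2 x + ξ1 x)
    (hl : ‖lam‖ = 1) : False := by
  classical
  have hl0 : lam ≠ 0 := by
    intro h; rw [h, norm_zero] at hl; exact zero_ne_one hl
  obtain ⟨y, hy, hyB⟩ := hB
  obtain ⟨x0, hx0P, hx0⟩ := exists_x0 D ξ1 hξ0
  have hx0L : x0 ∈ D.L := D.P_le hx0P
  obtain ⟨c0, hc0, hc0b⟩ := xi_bound ξ2
  obtain ⟨Fd, hFd, hFdL, hdesc⟩ := D.exists_descent
  -- bounds over `Fd`
  obtain ⟨C1, hC1, hC1b⟩ : ∃ C1 : ℝ, 0 ≤ C1 ∧ ∀ d ∈ Fd, ‖ξ1 (D.u d)‖ ≤ C1 := by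
    obtain ⟨C, hC⟩ := (hFd.image fun d => ‖ξ1 (D.u d)‖).bddAbove
    refine ⟨max C 0, le_max_right _ _, fun d hd => le_trans (hC ⟨d, hd, rfl⟩) (le_max_left _ _)⟩
  obtain ⟨C2, hC2, hC2b⟩ : ∃ C2 : ℝ, 0 ≤ C2 ∧ ∀ d ∈ Fd, ‖ξ2 (D.u d)‖ ≤ C2 := by
    obtain ⟨C, hC⟩ := (hFd.image fun d => ‖ξ2 (D.u d)‖).bddAbove
    refine ⟨max C 0, le_max_right _ _, fun d hd => le_trans (hC ⟨d, hd, rfl⟩) (le_max_left _ _)⟩
  set F : Set D.G := {D.t, D.t⁻¹, y, x0} ∪ Fd with hF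
  have hFfin : F.Finite := by
    rw [hF]
    exact (Set.toFinite _).union hFd
  obtain ⟨E, CF, hE, hfill⟩ := U.filling F hFfin
  obtain ⟨CP, hCP, hphi⟩ := D.phi_almost E hE
  set a1 : ℝ := ‖ξ1 (D.u x0)‖ with ha1
  set a2 : ℝ := ‖ξ2 (D.u x0)‖ with ha2
  have ha1pos : 0 < a1 := norm_pos_iff.2 hx0
  have ha2nn : 0 ≤ a2 := norm_nonneg _
  obtain ⟨M, hM⟩ : ∃ M : ℕ, C1 + 1 ≤ M * a1 / 2 := by
    obtain ⟨M, hM⟩ := exists_nat_ge ((C1 + 1) * 2 / a1)
    refine ⟨M, ?_⟩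
    rw [div_le_iff₀ ha1pos] at hM
    linarith
  -- the main inequality
  have main : ∀ k : ℕ, (M * k : ℝ) * ((k : ℝ) * (k + 1) / 2 * a1 - k * a2) -
      k * (k * C2 + (k : ℝ) * k * C1) ≤
      |CF| * (CP * c0) * (2 * ((M + 3) * k + 1) + 1) ^ 2 := by
    intro k
    obtain ⟨z, d, hz0, hzP, hdF, hzd⟩ := hdesc (x0 ^ (M * k)) (D.P.pow_mem hx0P _)
    set zs : List D.G := List.replicate (M * k) x0 with hzs
    have hzsp : zs.prod = z 0 := by rw [hzs, List.prod_replicate, hz0]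
    have hzsL : ∀ x ∈ zs, x ∈ D.L := by
      intro x hx
      rw [List.eq_of_mem_replicate hx]; exact hx0L
    have hdL : ∀ j, d j ∈ D.L := fun j => hFdL _ (hdF j)
    set φ := phi D ξ2 lam k with hφ
    have hφL : ∀ x, ∀ y ∈ D.L, φ (x * y) = φ x := fun x y hy => phi_mul_L D ξ2 lam k x hy
    set Ψ : D.G → D.G → ℂ := fun g e => φ g ((D.A ^ D.ht g) (D.u e)) with hΨ
    set cp := D.climbPath k zs d with hcp
    have hXprod : cp.prod = z k := D.climbPath_prod k zs z d hzsp hzd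
    have hXL : z k ∈ D.L := D.P_le (hzP k)
    have hcpF : ∀ e ∈ cp, e ∈ F := by
      apply climb_mem
      · rw [hF]; simp
      · rw [hF]; simp
      · intro x hx
        rw [List.eq_of_mem_replicate hx, hF]; simp
      · intro j; rw [hF]; exact Or.inr (hdF j)
    have hyF : y ∈ F := by rw [hF]; simp
    have hlen : (cp.length : ℝ) = (M + 3) * k := by
      rw [hcp, climb_length, hzs, List.length_replicate]
      push_cast; ring
    have hf := hfill Ψ (CP * c0) (by positivity)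
      (fun g d hd d' hd' => hphi φ c0 hc0 hφL (fun x v => phi_adj D ξ2 lam hl c0 hc0 hc0b k x v)
        g d hd d' hd')
      (cp ++ [y]) ([y] ++ cp)
      (by
        intro e he
        rcases List.mem_append.1 he with he | he
        · exact hcpF e he
        · rw [List.mem_singleton.1 he]; exact hyF)
      (by
        intro e he
        rcases List.mem_append.1 he with he | he
        · rw [List.mem_singleton.1 he]; exact hyF
        · exact hcpF e he)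
      (by
        rw [List.prod_append, List.prod_append, hXprod, List.prod_singleton]
        exact D.L_comm _ hXL _ hy)
    -- evaluate
    have hl1 : lint Ψ 1 (cp ++ [y]) = lint Ψ 1 cp := by
      rw [lint_append]
      have : lint Ψ (1 * cp.prod) [y] = 0 := by
        simp only [lint, hΨ]
        rw [hXprod, hφL 1 _ hXL, hφ, phi_one]
        simp
      rw [this, add_zero]
    have hl2 : lint Ψ 1 ([y] ++ cp) = 0 := by
      rw [lint_append]
      have e1 : lint Ψ 1 [y] = 0 := by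
        simp only [lint, hΨ]
        rw [hφ, phi_one]; simp
      rw [e1, zero_add, List.prod_singleton, one_mul, hΨ, hcp,
        D.climbPath_lint φ hφL y hy k zs hzsL z d hzsp hzP hdL hzd, hφ, phi_ytpow D ξ2 lam hy hyB]
      simp only [LinearMap.zero_apply, zero_add]
      refine Finset.sum_eq_zero fun j _ => ?_
      rw [phi_ytpow D ξ2 lam hy hyB]; simp
    have hl3 : lint Ψ 1 cp = lam ^ k * (k * ξ2 (D.u (z 0)) + ((k : ℂ) * (k + 1) / 2) *
        (lam⁻¹ * ξ1 (D.u (z 0)))) + ∑ j ∈ Finset.range k,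
        lam ^ (k - 1 - j) * (((k - 1 - j : ℕ) : ℂ) * ξ2 (D.u (d j)) +
          (((k - 1 - j : ℕ) : ℂ) * ((k - 1 - j : ℕ) + 1) / 2) * (lam⁻¹ * ξ1 (D.u (d j)))) := by
      rw [hΨ, hcp, D.climbPath_lint φ hφL 1 D.L.one_mem k zs hzsL z d hzsp hzP hdL hzd, one_mul,
        hφ, phi_tpow D ξ1 ξ2 lam h1 h2 hl0 k k le_rfl]
      congr 1
      refine Finset.sum_congr rfl fun j _ => ?_
      rw [one_mul, phi_tpow D ξ1 ξ2 lam h1 h2 hl0 k (k - 1 - j) (by omega)]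
    rw [hl1, hl2, sub_zero] at hf
    have hlinv : ‖lam⁻¹‖ = 1 := by rw [norm_inv, hl, inv_one]
    -- the sum is small
    have hsum : ‖∑ j ∈ Finset.range k,
        lam ^ (k - 1 - j) * (((k - 1 - j : ℕ) : ℂ) * ξ2 (D.u (d j)) +
          (((k - 1 - j : ℕ) : ℂ) * ((k - 1 - j : ℕ) + 1) / 2) * (lam⁻¹ * ξ1 (D.u (d j))))‖ ≤
        k * (k * C2 + (k : ℝ) * k * C1) := by
      refine le_trans (norm_sum_le _ _) ?_
      refine le_trans (Finset.sum_le_card_nsmul _ _ (k * C2 + (k : ℝ) * k * C1) ?_) ?_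
      · intro j hj
        rw [Finset.mem_range] at hj
        have hik : k - 1 - j + 1 ≤ k := by omega
        generalize k - 1 - j = i at hik
        rw [norm_mul, norm_pow, hl, one_pow, one_mul]
        refine le_trans (norm_add_le _ _) ?_
        have hik' : (i : ℝ) + 1 ≤ k := by exact_mod_cast hik
        have hi0 : (0 : ℝ) ≤ i := Nat.cast_nonneg i
        have n1 : ‖(i : ℂ)‖ = i := by simp
        have n2 : ‖(i : ℂ) * (i + 1) / 2‖ = (i : ℝ) * (i + 1) / 2 := by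
          have : (i : ℂ) * (i + 1) / 2 = (((i : ℝ) * (i + 1) / 2 : ℝ) : ℂ) := by push_cast; ring
          rw [this, Complex.norm_real, Real.norm_of_nonneg (by positivity)]
        rw [norm_mul, norm_mul ((i : ℂ) * (i + 1) / 2), n1, n2, norm_mul, hlinv, one_mul]
        have b1 := hC1b _ (hdF j)
        have b2 := hC2b _ (hdF j)
        have c1 : (i : ℝ) * ‖ξ2 (D.u (d j))‖ ≤ k * C2 := by
          apply mul_le_mul (by linarith) b2 (norm_nonneg _) (by positivity)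
        have c2 : (i : ℝ) * (i + 1) / 2 * ‖ξ1 (D.u (d j))‖ ≤ (k : ℝ) * k * C1 := by
          apply mul_le_mul _ b1 (norm_nonneg _) (by positivity)
          have : (i : ℝ) * (i + 1) ≤ (k : ℝ) * k :=
            mul_le_mul (by linarith) hik' (by positivity) (by positivity)
          have h0 : (0 : ℝ) ≤ (i : ℝ) * (i + 1) := by positivity
          linarith
        linarith
      · rw [Finset.card_range, nsmul_eq_mul]
    -- the main term is large
    have hmain : (M * k : ℝ) * ((k : ℝ) * (k + 1) / 2 * a1 - k * a2) ≤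
        ‖lam ^ k * (k * ξ2 (D.u (z 0)) + ((k : ℂ) * (k + 1) / 2) *
        (lam⁻¹ * ξ1 (D.u (z 0))))‖ := by
      have hu0 : D.u (z 0) = ((M * k : ℕ) : ℂ) • D.u x0 := by
        rw [hz0, D.u_pow (D.ht_L x0 hx0L)]
      rw [hu0, map_smul, map_smul, smul_eq_mul, smul_eq_mul]
      have e : (lam ^ k * (k * (((M * k : ℕ) : ℂ) * ξ2 (D.u x0)) + ((k : ℂ) * (k + 1) / 2) *
        (lam⁻¹ * (((M * k : ℕ) : ℂ) * ξ1 (D.u x0))))) =
        lam ^ k * (((M * k : ℕ) : ℂ) * ((((k : ℂ) * (k + 1) / 2) * (lam⁻¹ * ξ1 (D.u x0))) -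
          (-(k * ξ2 (D.u x0))))) := by ring
      rw [e, norm_mul, norm_pow, hl, one_pow, one_mul, norm_mul]
      have n0 : ‖((M * k : ℕ) : ℂ)‖ = (M * k : ℝ) := by
        rw [Complex.norm_natCast]; push_cast; ring
      rw [n0]
      apply mul_le_mul_of_nonneg_left _ (by positivity)
      refine le_trans ?_ (norm_sub_norm_le _ _)
      have n1 : ‖(k : ℂ)‖ = k := by simp
      have n2 : ‖(k : ℂ) * (k + 1) / 2‖ = (k : ℝ) * (k + 1) / 2 := by
        have : (k : ℂ) * (k + 1) / 2 = (((k : ℝ) * (k + 1) / 2 : ℝ) : ℂ) := by push_cast; ring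
        rw [this, Complex.norm_real, Real.norm_of_nonneg (by positivity)]
      rw [norm_neg, norm_mul, norm_mul (k : ℂ), n1, n2, norm_mul, hlinv, one_mul]
    have hlow := norm_sub_norm_le (lam ^ k * (k * ξ2 (D.u (z 0)) + ((k : ℂ) * (k + 1) / 2) *
        (lam⁻¹ * ξ1 (D.u (z 0))))) (-(∑ j ∈ Finset.range k,
        lam ^ (k - 1 - j) * (((k - 1 - j : ℕ) : ℂ) * ξ2 (D.u (d j)) +
          (((k - 1 - j : ℕ) : ℂ) * ((k - 1 - j : ℕ) + 1) / 2) * (lam⁻¹ * ξ1 (D.u (d j))))))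
    rw [norm_neg, sub_neg_eq_add, ← hl3] at hlow
    have hcl : (((cp ++ [y]).length : ℝ) + (([y] ++ cp).length : ℝ) + 1) =
        2 * ((M + 3) * k + 1) + 1 := by
      rw [List.length_append, List.length_append, List.length_singleton]
      push_cast
      rw [hlen]; ring
    rw [hcl] at hf
    have hCF : CF * (CP * c0) * (2 * (((M : ℝ) + 3) * k + 1) + 1) ^ 2 ≤
        |CF| * (CP * c0) * (2 * ((M + 3) * k + 1) + 1) ^ 2 := by
      apply mul_le_mul_of_nonneg_right _ (by positivity)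
      apply mul_le_mul_of_nonneg_right (le_abs_self _) (by positivity)
    linarith
  -- contradiction
  set Q : ℝ := M * a2 + C2 + |CF| * (CP * c0) * (2 * M + 9) ^ 2 with hQ
  have hQ0 : 0 ≤ Q := by positivity
  have hkey : ∀ k : ℕ, 1 ≤ k → (k : ℝ) ≤ Q := by
    intro k hk
    have hk1 : (1 : ℝ) ≤ k := by exact_mod_cast hk
    have hm := main k
    have hsq : (2 * (((M : ℝ) + 3) * k + 1) + 1) ^ 2 ≤ (2 * M + 9) ^ 2 * (k : ℝ) ^ 2 := by
      rw [← mul_pow]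
      apply pow_le_pow_left₀ (by positivity)
      nlinarith
    have h3 : |CF| * (CP * c0) * (2 * (((M : ℝ) + 3) * k + 1) + 1) ^ 2 ≤
        |CF| * (CP * c0) * ((2 * M + 9) ^ 2 * (k : ℝ) ^ 2) :=
      mul_le_mul_of_nonneg_left hsq (by positivity)
    have h4 : (k : ℝ) ^ 3 * (C1 + 1) ≤ (k : ℝ) ^ 3 * (M * a1 / 2) :=
      mul_le_mul_of_nonneg_left hM (by positivity)
    have h5 : 0 ≤ (M * k : ℝ) * (k / 2 * a1) := by positivity
    have h6 : (k : ℝ) ^ 2 * k ≤ (k : ℝ) ^ 2 * Q := by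
      rw [hQ]
      nlinarith
    exact le_of_mul_le_mul_left h6 (by positivity)
  obtain ⟨k, hk⟩ := exists_nat_gt Q
  have hk1 : 1 ≤ k := by
    have : (0 : ℝ) < k := lt_of_le_of_lt hQ0 hk
    exact_mod_cast this
  exact absurd (hkey k hk1) (not_le.2 hk)

end Pool.Agent.HNNA
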