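import Pool.Agent.HNNA.U1jor

/-! MP_4b60bf_al.  MODULE U2A (about 200 lines): `G = Z^n ⋊ Z`, eigenvalues `|lam| > 1 > |mu| > 0`.

PROOF.  Let `a = log |lam| > 0`, `b' = -log |mu| > 0`.  By symmetry of the two cases below assume
`b' ≤ a`, `β = b'/a ∈ (0, 1]`, so `|lam|^β |mu| = 1`.
`Ψ g d = |ξ (u g)|^β * ζ (A^(ht g) (u d))`.  Almost additivity:
`Ψ g (d d') - Ψ g d - Ψ (g d) d' = (|ξ (u g)|^β - |ξ (u (g d))|^β) ζ (A^(ht g + ht d) (u d'))`,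
`u (g d) = u g + A^(ht g) (u d)`, `| |x|^β - |y|^β | ≤ |x - y|^β` for `0 < β ≤ 1`
(`Real.rpow_add_le_add_rpow` / subadditivity), so the absolute value is at most
`|lam|^(β ht g) |ξ (u d)|^β |mu|^(ht g) |mu|^(ht d) |ζ (u d')| = |ξ (u d)|^β |mu|^(ht d) |ζ (u d')|`:
bounded for `d, d' ∈ E`.
Test words: choose `x, y ∈ L` with `ξ (u x) ≠ 0`, `ζ (u y) ≠ 0`.  `X = t^k x t^-k`, `Y = t^-k y t^k` are
in `L` (because `P = B = L`, conjugation by `t^(±1)` preserves `L`), so `X Y = Y X`;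
`w1 = t^k, x, t^-k, t^-k, y, t^k` and `w2 = t^-k, y, t^k, t^k, x, t^-k` (letters `t, t⁻¹, x, y`, length
`4 k + 2`).  `Ψ g t^(±1) = 0`.
`lint Ψ 1 w1 = |ξ 0|^β ζ (A^k u x) + |ξ (A^k u x)|^β ζ (A^(-k) (u y)) =
|lam|^(kβ) |ξ (u x)|^β mu^(-k) ζ (u y)` (`0^β = 0`), of absolute value `|mu|^(-2k) c0`, `c0 > 0`.
`lint Ψ 1 w2 = |ξ (A^(-k) (u y))|^β ζ (A^k (u x))`, of absolute value
`|lam|^(-kβ) |mu|^k |..| ≤ C'`.  `filling`: `c0 |mu|^(-2k) - C' ≤ C (8 k + 5)^2`, contradiction.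
If `a ≤ b'`: exchange the roles, `Ψ g d = |ζ (u g)|^(β') ξ (A^(ht g) (u d))`, `β' = a / b'`,
`|mu|^(β') |lam| = 1`; the same computation with the same words: `lint Ψ 1 w2` is the large one:
`|ζ (A^(-k) (u y))|^(β') ξ (A^k (u x))` of size `|lam|^(2k)`. -/

namespace Pool.Agent.HNNA

namespace U2A

lemma conj_L (D : WD) (hB : D.B = D.L) (hP : D.P = D.L) (m : ℤ) {x : D.G} (hx : x ∈ D.L) :
    D.t ^ m * x * (D.t ^ m)⁻¹ ∈ D.L := by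
  induction m using Int.induction_on generalizing x with
  | zero => simpa using hx
  | succ m ih =>
    have h := D.conj_P x (by rw [hP]; exact hx)
    rw [hB] at h
    have h2 := ih h
    have e : D.t ^ ((m : ℤ) + 1) * x * (D.t ^ ((m : ℤ) + 1))⁻¹ =
        D.t ^ (m : ℤ) * (D.t * x * D.t⁻¹) * (D.t ^ (m : ℤ))⁻¹ := by
      rw [zpow_add, zpow_one]; group
    rw [e]; exact h2
  | pred m ih =>
    have h := D.conj_B x (by rw [hB]; exact hx)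
    rw [hP] at h
    have h2 := ih h
    have e : D.t ^ (-(m : ℤ) - 1) * x * (D.t ^ (-(m : ℤ) - 1))⁻¹ =
        D.t ^ (-(m : ℤ)) * (D.t⁻¹ * x * D.t) * (D.t ^ (-(m : ℤ)))⁻¹ := by
      rw [sub_eq_add_neg, zpow_add]; group
    rw [e]; exact h2

lemma u_tz (D : WD) (m : ℤ) : D.u (D.t ^ m) = 0 := by
  induction m using Int.induction_on with
  | zero => simp
  | succ m ih =>
    rw [zpow_add, zpow_one, D.u_mul, ih, D.u_t, map_zero, add_zero]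
  | pred m ih =>
    rw [sub_eq_add_neg, zpow_add, zpow_neg_one, D.u_mul, ih, D.u_tinv, map_zero, add_zero]

lemma ht_tz (D : WD) (m : ℤ) : D.ht (D.t ^ m) = m := by
  induction m using Int.induction_on with
  | zero => simp
  | succ m ih =>
    rw [zpow_add, zpow_one, D.ht_mul, ih, D.ht_t]
  | pred m ih =>
    rw [sub_eq_add_neg, zpow_add, zpow_neg_one, D.ht_mul, ih, D.ht_tinv]

/-- the test word -/
def W (D : WD) (e : ℤ) (k : ℕ) (x y : D.G) : List D.G :=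
  List.replicate k (D.t ^ e) ++ [x] ++ List.replicate k (D.t ^ (-e)) ++
    List.replicate k (D.t ^ (-e)) ++ [y] ++ List.replicate k (D.t ^ e)

lemma W_length (D : WD) (e : ℤ) (k : ℕ) (x y : D.G) : (W D e k x y).length = 4 * k + 2 := by
  simp [W]; omega

lemma W_mem (D : WD) (e : ℤ) (k : ℕ) (x y : D.G) (F : Set D.G) (h1 : D.t ^ e ∈ F)
    (h2 : D.t ^ (-e) ∈ F) (h3 : x ∈ F) (h4 : y ∈ F) : ∀ d ∈ W D e k x y, d ∈ F := by
  intro d hd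
  simp only [W, List.mem_append, List.mem_replicate, List.mem_singleton] at hd
  rcases hd with ((((h | h) | h) | h) | h) | h
  · rw [h.2]; exact h1
  · rw [h]; exact h3
  · rw [h.2]; exact h2
  · rw [h.2]; exact h2
  · rw [h]; exact h4
  · rw [h.2]; exact h1

lemma W_prod (D : WD) (e : ℤ) (k : ℕ) (x y : D.G) : (W D e k x y).prod =
    (D.t ^ (e * k) * x * (D.t ^ (e * k))⁻¹) * (D.t ^ (-e * k) * y * (D.t ^ (-e * k))⁻¹) := by
  simp only [W, List.prod_append, List.prod_replicate, List.prod_singleton]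
  have h1 : (D.t ^ e) ^ k = D.t ^ (e * k) := by rw [zpow_mul, zpow_natCast]
  have h2 : (D.t ^ (-e)) ^ k = D.t ^ (-e * k) := by rw [zpow_mul, zpow_natCast]
  rw [h1, h2]
  have h3 : (D.t ^ (e * k))⁻¹ = D.t ^ (-e * k) := by rw [← zpow_neg]; congr 1; ring
  have h4 : (D.t ^ (-e * k))⁻¹ = D.t ^ (e * k) := by rw [← zpow_neg]; congr 1; ring
  rw [h3, h4]
  simp only [mul_assoc]

lemma lint_rep {G : Type} [Group G] (Ψ : G → G → ℂ) (s : G) (hs : ∀ g, Ψ g s = 0) (g : G)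
    (k : ℕ) : lint Ψ g (List.replicate k s) = 0 := by
  induction k generalizing g with
  | zero => simp [lint]
  | succ k ih =>
    rw [List.replicate_succ]
    simp only [lint]
    rw [hs, ih, add_zero]

/-- the almost additive function -/
noncomputable def Psi (D : WD) (ξ ζ : V D.n →ₗ[ℂ] ℂ) (β : ℝ) (g d : D.G) : ℂ :=
  ((‖ξ (D.u g)‖ ^ β : ℝ) : ℂ) * ζ ((D.A ^ D.ht g) (D.u d))

lemma Psi_t (D : WD) (ξ ζ : V D.n →ₗ[ℂ] ℂ) (β : ℝ) (e : ℤ) (g : D.G) :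
    Psi D ξ ζ β g (D.t ^ e) = 0 := by
  unfold Psi
  rw [u_tz, map_zero, map_zero, mul_zero]

lemma Psi_of_u_zero (D : WD) (ξ ζ : V D.n →ₗ[ℂ] ℂ) (β : ℝ) (hβ : 0 < β) (g d : D.G)
    (hg : D.u g = 0) : Psi D ξ ζ β g d = 0 := by
  unfold Psi
  rw [hg, map_zero, norm_zero, Real.zero_rpow hβ.ne']
  simp

lemma lint_W (D : WD) (ξ ζ : V D.n →ₗ[ℂ] ℂ) (β : ℝ) (hβ : 0 < β) (e : ℤ) (k : ℕ)
    (x y : D.G) (hx : x ∈ D.L) :
    lint (Psi D ξ ζ β) 1 (W D e k x y) =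
      ((‖ξ ((D.A ^ (e * k)) (D.u x))‖ ^ β : ℝ) : ℂ) * ζ ((D.A ^ (-e * k)) (D.u y)) := by
  have h1 : (D.t ^ e) ^ k = D.t ^ (e * k) := by rw [zpow_mul, zpow_natCast]
  have h2 : (D.t ^ (-e)) ^ k = D.t ^ (-e * k) := by rw [zpow_mul, zpow_natCast]
  unfold W
  simp only [U1J.lint_append, lint_rep _ _ (Psi_t D ξ ζ β e), lint_rep _ _ (Psi_t D ξ ζ β (-e)),
    lint, add_zero, zero_add, List.prod_append, List.prod_replicate, List.prod_singleton, h1, h2,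
    one_mul]
  rw [Psi_of_u_zero D ξ ζ β hβ _ _ (u_tz D _), zero_add]
  unfold Psi
  have hu : D.u (D.t ^ (e * k) * x * D.t ^ (-e * k) * D.t ^ (-e * k)) =
      (D.A ^ (e * k)) (D.u x) := by
    rw [D.u_mul, D.u_mul, D.u_mul, u_tz, u_tz, ht_tz]
    simp
  have hh : D.ht (D.t ^ (e * k) * x * D.t ^ (-e * k) * D.t ^ (-e * k)) = -e * k := by
    rw [D.ht_mul, D.ht_mul, D.ht_mul, ht_tz, ht_tz, D.ht_L x hx]
    ring
  rw [hu, hh]

lemma rpow_diff (β : ℝ) (h0 : 0 < β) (h1 : β ≤ 1) (x z : ℂ) :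
    |‖x‖ ^ β - ‖x + z‖ ^ β| ≤ ‖z‖ ^ β := by
  have a1 : ‖x + z‖ ^ β ≤ ‖x‖ ^ β + ‖z‖ ^ β :=
    le_trans (Real.rpow_le_rpow (norm_nonneg _) (norm_add_le _ _) h0.le)
      (Real.rpow_add_le_add_rpow (norm_nonneg _) (norm_nonneg _) h0.le h1)
  have a2 : ‖x‖ ^ β ≤ ‖x + z‖ ^ β + ‖z‖ ^ β := by
    have : ‖x‖ ≤ ‖x + z‖ + ‖z‖ := by
      calc ‖x‖ = ‖(x + z) - z‖ := by rw [add_sub_cancel_right]
        _ ≤ _ := norm_sub_le _ _
    exact le_trans (Real.rpow_le_rpow (norm_nonneg _) this h0.le)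
      (Real.rpow_add_le_add_rpow (norm_nonneg _) (norm_nonneg _) h0.le h1)
  rw [abs_le]
  constructor <;> linarith

lemma zpow_rpow (x : ℝ) (hx : 0 < x) (h : ℤ) (β : ℝ) : (x ^ h) ^ β = (x ^ β) ^ h := by
  rw [← Real.rpow_intCast, ← Real.rpow_mul hx.le, mul_comm, Real.rpow_mul hx.le,
    Real.rpow_intCast]

lemma Psi_almost (D : WD) (ξ ζ : V D.n →ₗ[ℂ] ℂ) (β : ℝ) (h0 : 0 < β) (h1' : β ≤ 1)
    (lam mu : ℂ) (hl : 0 < ‖lam‖) (hm : 0 < ‖mu‖) (h1 : D.Eig ξ lam) (h2 : D.Eig ζ mu)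
    (hlm : ‖lam‖ ^ β * ‖mu‖ = 1) (g d d' : D.G) :
    ‖Psi D ξ ζ β g (d * d') - Psi D ξ ζ β g d - Psi D ξ ζ β (g * d) d'‖ ≤
      ‖ξ (D.u d)‖ ^ β * ‖mu‖ ^ D.ht d * ‖ζ (D.u d')‖ := by
  have hl0 : lam ≠ 0 := norm_pos_iff.1 hl
  have hm0 : mu ≠ 0 := norm_pos_iff.1 hm
  have e1 : Psi D ξ ζ β g (d * d') - Psi D ξ ζ β g d - Psi D ξ ζ β (g * d) d' =
      (((‖ξ (D.u g)‖ ^ β - ‖ξ (D.u g) + lam ^ D.ht g * ξ (D.u d)‖ ^ β : ℝ)) : ℂ) *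
        (mu ^ (D.ht g + D.ht d) * ζ (D.u d')) := by
    unfold Psi
    rw [D.u_mul d d', map_add, map_add, ← D.Apow_add, D.u_mul g d, map_add,
      WD.eig_zpow h1 hl0, D.ht_mul, WD.eig_zpow h2 hm0, WD.eig_zpow h2 hm0]
    push_cast
    ring
  rw [e1, norm_mul, Complex.norm_real, norm_mul, norm_zpow, Real.norm_eq_abs]
  have e2 := rpow_diff β h0 h1' (ξ (D.u g)) (lam ^ D.ht g * ξ (D.u d))
  rw [norm_mul, norm_zpow, Real.mul_rpow (by positivity) (norm_nonneg _), zpow_rpow _ hl] at e2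
  refine le_trans (mul_le_mul_of_nonneg_right e2 (by positivity)) (le_of_eq ?_)
  have e3 : (‖lam‖ ^ β) ^ D.ht g * ‖mu‖ ^ D.ht g = 1 := by
    rw [← mul_zpow, hlm, one_zpow]
  rw [zpow_add₀ hm.ne']
  calc (‖lam‖ ^ β) ^ D.ht g * ‖ξ (D.u d)‖ ^ β * (‖mu‖ ^ D.ht g * ‖mu‖ ^ D.ht d * ‖ζ (D.u d')‖)
      = ((‖lam‖ ^ β) ^ D.ht g * ‖mu‖ ^ D.ht g) * (‖ξ (D.u d)‖ ^ β * ‖mu‖ ^ D.ht d *
        ‖ζ (D.u d')‖) := by ring
    _ = _ := by rw [e3, one_mul]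

lemma core (D : WD) (U : UAS D) (hB : D.B = D.L) (hP : D.P = D.L)
    (ξ ζ : V D.n →ₗ[ℂ] ℂ) (hξ0 : ξ ≠ 0) (hζ0 : ζ ≠ 0) (β : ℝ) (h0 : 0 < β) (h1' : β ≤ 1)
    (lam mu : ℂ) (hl : 0 < ‖lam‖) (hm : 0 < ‖mu‖) (h1 : D.Eig ξ lam) (h2 : D.Eig ζ mu)
    (hlm : ‖lam‖ ^ β * ‖mu‖ = 1) (e : ℤ) (hρ : 1 < ‖mu‖ ^ (-e)) : False := by
  classical
  have hl0 : lam ≠ 0 := norm_pos_iff.1 hl
  have hm0 : mu ≠ 0 := norm_pos_iff.1 hm
  obtain ⟨x, hxP, hx⟩ := U1J.exists_x0 D ξ hξ0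
  obtain ⟨y, hyP, hy⟩ := U1J.exists_x0 D ζ hζ0
  have hxL := D.P_le hxP
  have hyL := D.P_le hyP
  set F : Set D.G := {D.t ^ e, D.t ^ (-e), x, y} with hF
  have hFfin : F.Finite := Set.toFinite _
  obtain ⟨E, CF, hE, hfill⟩ := U.filling F hFfin
  obtain ⟨c, hc0, hc⟩ : ∃ c : ℝ, 0 ≤ c ∧ ∀ d ∈ E, ∀ d' ∈ E,
      ‖ξ (D.u d)‖ ^ β * ‖mu‖ ^ D.ht d * ‖ζ (D.u d')‖ ≤ c := by
    obtain ⟨C, hC⟩ := ((hE.prod hE).image
      fun q : D.G × D.G => ‖ξ (D.u q.1)‖ ^ β * ‖mu‖ ^ D.ht q.1 * ‖ζ (D.u q.2)‖).bddAbove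
    exact ⟨max C 0, le_max_right _ _, fun d hd d' hd' =>
      le_trans (hC ⟨(d, d'), ⟨hd, hd'⟩, rfl⟩) (le_max_left _ _)⟩
  set Ψ := Psi D ξ ζ β with hΨ
  set c0 : ℝ := ‖ξ (D.u x)‖ ^ β * ‖ζ (D.u y)‖ with hc0d
  set c1 : ℝ := ‖ξ (D.u y)‖ ^ β * ‖ζ (D.u x)‖ with hc1d
  have hc0pos : 0 < c0 := by
    rw [hc0d]
    exact mul_pos (Real.rpow_pos_of_pos (norm_pos_iff.2 hx) _) (norm_pos_iff.2 hy)
  have hc1nn : 0 ≤ c1 := by positivity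
  have hlb : ‖lam‖ ^ β = ‖mu‖⁻¹ := by
    exact eq_inv_of_mul_eq_one_left hlm
  -- norm of the integrals
  have hnorm : ∀ (e : ℤ) (k : ℕ) (x y : D.G), x ∈ D.L → ‖lint Ψ 1 (W D e k x y)‖ =
      (‖mu‖ ^ (-e)) ^ (2 * k) * (‖ξ (D.u x)‖ ^ β * ‖ζ (D.u y)‖) := by
    intro e k x y hx
    rw [hΨ, lint_W D ξ ζ β h0 e k x y hx, norm_mul, Complex.norm_real, WD.eig_zpow h1 hl0,
      WD.eig_zpow h2 hm0, norm_mul, norm_mul, norm_zpow, norm_zpow,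
      Real.norm_of_nonneg (by positivity), Real.mul_rpow (by positivity) (norm_nonneg _),
      zpow_rpow _ hl, hlb]
    have e1 : (‖mu‖⁻¹) ^ (e * k) * ‖mu‖ ^ (-e * k) = (‖mu‖ ^ (-e)) ^ (2 * k) := by
      rw [inv_zpow', ← zpow_add₀ hm.ne', ← zpow_natCast, ← zpow_mul]
      congr 1
      push_cast
      ring
    rw [← e1]; ring
  have main : ∀ k : ℕ, (‖mu‖ ^ (-e)) ^ (2 * k) * c0 - c1 ≤
      |CF| * c * (2 * (4 * k + 2) + 1) ^ 2 := by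
    intro k
    have hf := hfill Ψ c hc0 (fun g d hd d' hd' =>
      le_trans (Psi_almost D ξ ζ β h0 h1' lam mu hl hm h1 h2 hlm g d d') (hc d hd d' hd'))
      (W D e k x y) (W D (-e) k y x)
      (W_mem D e k x y F (by rw [hF]; simp) (by rw [hF]; simp) (by rw [hF]; simp)
        (by rw [hF]; simp))
      (W_mem D (-e) k y x F (by rw [hF]; simp) (by rw [hF]; simp) (by rw [hF]; simp)
        (by rw [hF]; simp))
      (by
        rw [W_prod, W_prod, neg_neg]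
        exact D.L_comm _ (conj_L D hB hP _ hxL) _ (conj_L D hB hP _ hyL))
    have hlow := norm_sub_norm_le (lint Ψ 1 (W D e k x y)) (lint Ψ 1 (W D (-e) k y x))
    rw [hnorm e k x y hxL, hnorm (-e) k y x hyL, neg_neg] at hlow
    have h3 : (‖mu‖ ^ e) ^ (2 * k) ≤ 1 := by
      apply pow_le_one₀ (by positivity)
      have : ‖mu‖ ^ e = (‖mu‖ ^ (-e))⁻¹ := by rw [zpow_neg, inv_inv]
      rw [this]
      exact inv_le_one_of_one_le₀ hρ.le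
    have h4 : (‖mu‖ ^ e) ^ (2 * k) * c1 ≤ c1 := mul_le_of_le_one_left hc1nn h3
    rw [W_length, W_length] at hf
    push_cast at hf
    have hCF : CF * c * (4 * (k : ℝ) + 2 + (4 * k + 2) + 1) ^ 2 ≤
        |CF| * c * (2 * (4 * k + 2) + 1) ^ 2 := by
      have : (4 * (k : ℝ) + 2 + (4 * k + 2) + 1) = (2 * (4 * k + 2) + 1) := by ring
      rw [this]
      apply mul_le_mul_of_nonneg_right _ (by positivity)
      apply mul_le_mul_of_nonneg_right (le_abs_self _) (by positivity)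
    linarith
  -- contradiction
  set r : ℝ := (‖mu‖ ^ (-e)) ^ 2 with hr
  have hr1 : 1 < r := one_lt_pow₀ hρ two_ne_zero
  set Q : ℝ := |CF| * c * 169 + c1 with hQ
  have hQ0 : 0 ≤ Q := by positivity
  have hkey : ∀ k : ℕ, 1 ≤ k → r ^ k * c0 ≤ Q * (k : ℝ) ^ 2 := by
    intro k hk
    have hk1 : (1 : ℝ) ≤ k := by exact_mod_cast hk
    have hm := main k
    rw [pow_mul] at hm
    have hsq : (2 * (4 * (k : ℝ) + 2) + 1) ^ 2 ≤ 169 * (k : ℝ) ^ 2 := by nlinarith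
    have h3 := mul_le_mul_of_nonneg_left hsq (by positivity : 0 ≤ |CF| * c)
    have h4 : c1 ≤ c1 * (k : ℝ) ^ 2 := le_mul_of_one_le_right hc1nn (one_le_pow₀ hk1)
    rw [hQ]; linarith
  have hlim := tendsto_pow_const_div_const_pow_of_one_lt 2 hr1
  have hev := hlim.eventually (gt_mem_nhds (show (0 : ℝ) < c0 / (Q + 1) by positivity))
  obtain ⟨k, hk1, hk2⟩ := (hev.and (Filter.eventually_ge_atTop 1)).exists
  have hp : 0 < r ^ k := by positivity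
  rw [div_lt_iff₀ hp, div_mul_eq_mul_div, lt_div_iff₀ (by positivity)] at hk1
  have h5 := hkey k hk2
  have h6 : (0 : ℝ) < (k : ℝ) ^ 2 := by
    have : (0 : ℝ) < k := by exact_mod_cast hk2
    positivity
  nlinarith

end U2A

open U2A in
theorem u2_eig (D : WD) (U : UAS D) (hB : D.B = D.L) (hP : D.P = D.L)
    (ξ ζ : V D.n →ₗ[ℂ] ℂ) (hξ0 : ξ ≠ 0) (hζ0 : ζ ≠ 0) (lam mu : ℂ) (h1 : D.Eig ξ lam)
    (h2 : D.Eig ζ mu) (hl : 1 < ‖lam‖) (hm0 : 0 < ‖mu‖) (hm : ‖mu‖ < 1) : False := by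
  have ha : 0 < Real.log ‖lam‖ := Real.log_pos hl
  have hb : Real.log ‖mu‖ < 0 := Real.log_neg hm0 hm
  have hl0 : 0 < ‖lam‖ := by linarith
  rcases le_total (-Real.log ‖mu‖) (Real.log ‖lam‖) with hle | hle
  · apply core D U hB hP ξ ζ hξ0 hζ0 (-Real.log ‖mu‖ / Real.log ‖lam‖)
      (div_pos (by linarith) ha) ((div_le_one ha).2 hle) lam mu hl0 hm0 h1 h2 _ 1
    · rw [zpow_neg_one]; exact (one_lt_inv₀ hm0).2 hm
    · rw [Real.rpow_def_of_pos hl0, mul_div_cancel₀ _ ha.ne', Real.exp_neg, Real.exp_log hm0,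
        inv_mul_cancel₀ hm0.ne']
  · have hb' : 0 < -Real.log ‖mu‖ := by linarith
    apply core D U hB hP ζ ξ hζ0 hξ0 (Real.log ‖lam‖ / -Real.log ‖mu‖)
      (div_pos ha hb') ((div_le_one hb').2 hle) mu lam hm0 hl0 h2 h1 _ (-1)
    · simpa using hl
    · rw [Real.rpow_def_of_pos hm0]
      have : Real.log ‖mu‖ * (Real.log ‖lam‖ / -Real.log ‖mu‖) = - Real.log ‖lam‖ := by
        have hne : Real.log ‖mu‖ ≠ 0 := hb.ne
        rw [div_neg, mul_neg, mul_div_cancel₀ _ hne]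
      rw [this, Real.exp_neg, Real.exp_log hl0, inv_mul_cancel₀ hl0.ne']

end Pool.Agent.HNNA
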