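import Pool.Agent.HNNA.U2a

/-! MP_4b60bf_al.  MODULE U2B (about 150 lines): `G = Z^n ⋊ Z`, a Jordan block with `|lam| = 1`.

PROOF.  `Ψ g d = ξ2 (u g) ξ1 (A^(ht g) (u d)) - ξ1 (u g) ξ2 (A^(ht g) (u d))`.
`Ψ g (d d') - Ψ g d - Ψ (g d) d' = -(ω (A^h (u d), A^(h + ht d) (u d')))`, `h = ht g`,
`ω (x, y) = ξ2 x ξ1 y - ξ1 x ξ2 y` (because `u (g d) = u g + A^h (u d)`), and
`ω (A x, A y) = lam^2 ω (x, y)` (from `ξ1 A = lam ξ1`, `ξ2 A = lam ξ2 + ξ1`), so this is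
`- lam^(2h) ω (u d, A^(ht d) (u d'))`: bounded for `d, d' ∈ E` (`|lam| = 1`, `lam ≠ 0`).
Test words: `x ∈ L` with `ξ1 (u x) ≠ 0` (`u_surj`).  `w1 = t^k, x (k times), t^-k, x (k times)`,
`w2 = x (k times), t^k, x (k times), t^-k`; `X = t^k x^k t^-k ∈ L` (as `P = B = L`), `Y = x^k`,
`w1.prod = X Y = Y X = w2.prod`; lengths `4 k`.  `Ψ g t^(±1) = 0`.
With `p = u x`, `q = A^k p` (`A^(ht) = A^k` at the top):
`lint Ψ 1 w1 = Σ_(i<k) ω (i q, q) + Σ_(i<k) ω (k q + i p, p) = k^2 ω (q, p)`,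
`lint Ψ 1 w2 = Σ_(i<k) ω (i p, p) + Σ_(i<k) ω (k p + i q, q) = k^2 ω (p, q) = - k^2 ω (q, p)`.
`ω (q, p) = (lam^k ξ2 p + k lam^(k-1) ξ1 p) ξ1 p - lam^k ξ1 p ξ2 p = k lam^(k-1) (ξ1 p)^2`.
So the difference has absolute value `2 k^3 |ξ1 p|^2 ≤ C (8 k + 1)^2` by `filling`: contradiction.
(`k ≥ 1`; `ξ2 (A^k p) = lam^k ξ2 p + k lam^(k-1) ξ1 p` by induction.) -/

namespace Pool.Agent.HNNA

namespace U2B

/-- the alternating form -/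
noncomputable def om {n : ℕ} (ξ1 ξ2 : V n →ₗ[ℂ] ℂ) (x y : V n) : ℂ :=
  ξ2 x * ξ1 y - ξ1 x * ξ2 y

lemma om_A (D : WD) (ξ1 ξ2 : V D.n →ₗ[ℂ] ℂ) (lam : ℂ) (h1 : D.Eig ξ1 lam)
    (h2 : ∀ x, ξ2 (D.A x) = lam * ξ2 x + ξ1 x) (x y : V D.n) :
    om ξ1 ξ2 (D.A x) (D.A y) = lam ^ 2 * om ξ1 ξ2 x y := by
  unfold om
  rw [h1, h1, h2, h2]; ring

lemma om_zpow (D : WD) (ξ1 ξ2 : V D.n →ₗ[ℂ] ℂ) (lam : ℂ) (h1 : D.Eig ξ1 lam)
    (h2 : ∀ x, ξ2 (D.A x) = lam * ξ2 x + ξ1 x) (hl : lam ≠ 0) (h : ℤ) (x y : V D.n) :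
    om ξ1 ξ2 ((D.A ^ h) x) ((D.A ^ h) y) = (lam ^ 2) ^ h * om ξ1 ξ2 x y := by
  have hl2 : lam ^ 2 ≠ 0 := pow_ne_zero _ hl
  induction h using Int.induction_on generalizing x y with
  | zero => simp
  | succ k ih =>
    rw [D.Apow_add, D.Apow_add, ih]
    have e1 : ∀ v, (D.A ^ (1 : ℤ)) v = D.A v := fun v => by simp
    rw [e1, e1, om_A D ξ1 ξ2 lam h1 h2, zpow_add₀ hl2, zpow_one]; ring
  | pred k ih =>
    rw [sub_eq_add_neg, D.Apow_add, D.Apow_add, ih]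
    have e3 : ∀ v, D.A ((D.A ^ (-1 : ℤ)) v) = v := by
      intro v
      have := D.Apow_cancel_neg 1 v
      rwa [zpow_one] at this
    have e4 := om_A D ξ1 ξ2 lam h1 h2 ((D.A ^ (-1 : ℤ)) x) ((D.A ^ (-1 : ℤ)) y)
    rw [e3, e3] at e4
    rw [zpow_add₀ hl2, e4, zpow_neg_one]
    field_simp

/-- the almost additive function -/
noncomputable def Psi (D : WD) (ξ1 ξ2 : V D.n →ₗ[ℂ] ℂ) (g d : D.G) : ℂ :=
  om ξ1 ξ2 (D.u g) ((D.A ^ D.ht g) (D.u d))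

lemma Psi_almost (D : WD) (ξ1 ξ2 : V D.n →ₗ[ℂ] ℂ) (lam : ℂ) (h1 : D.Eig ξ1 lam)
    (h2 : ∀ x, ξ2 (D.A x) = lam * ξ2 x + ξ1 x) (hl : ‖lam‖ = 1) (g d d' : D.G) :
    ‖Psi D ξ1 ξ2 g (d * d') - Psi D ξ1 ξ2 g d - Psi D ξ1 ξ2 (g * d) d'‖ ≤
      ‖om ξ1 ξ2 (D.u d) ((D.A ^ D.ht d) (D.u d'))‖ := by
  have hl0 : lam ≠ 0 := by
    intro h; rw [h, norm_zero] at hl; exact zero_ne_one hl
  have e1 : Psi D ξ1 ξ2 g (d * d') - Psi D ξ1 ξ2 g d - Psi D ξ1 ξ2 (g * d) d' =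
      -(om ξ1 ξ2 ((D.A ^ D.ht g) (D.u d)) ((D.A ^ D.ht g) ((D.A ^ D.ht d) (D.u d')))) := by
    unfold Psi om
    rw [D.u_mul d d', D.u_mul g d, D.ht_mul, D.Apow_add]
    simp only [map_add]
    ring
  rw [e1, om_zpow D ξ1 ξ2 lam h1 h2 hl0, norm_neg, norm_mul, norm_zpow, norm_pow, hl, one_pow,
    one_zpow, one_mul]

lemma Psi_t (D : WD) (ξ1 ξ2 : V D.n →ₗ[ℂ] ℂ) (e : ℤ) (g : D.G) :
    Psi D ξ1 ξ2 g (D.t ^ e) = 0 := by
  unfold Psi om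
  rw [U2A.u_tz, map_zero, map_zero, map_zero]; ring

lemma lint_rep (D : WD) (ξ1 ξ2 : V D.n →ₗ[ℂ] ℂ) (x : D.G) (hx : D.ht x = 0) (g : D.G) (k : ℕ) :
    lint (Psi D ξ1 ξ2) g (List.replicate k x) =
      k * om ξ1 ξ2 (D.u g) ((D.A ^ D.ht g) (D.u x)) := by
  induction k generalizing g with
  | zero => simp [lint]
  | succ k ih =>
    rw [List.replicate_succ]
    simp only [lint]
    rw [ih, D.ht_mul, hx, add_zero, D.u_mul]
    unfold Psi om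
    simp only [map_add]
    push_cast
    ring

end U2B

open U2B in
theorem u2_jor (D : WD) (U : UAS D) (hB : D.B = D.L) (hP : D.P = D.L)
    (ξ1 ξ2 : V D.n →ₗ[ℂ] ℂ) (hξ0 : ξ1 ≠ 0) (lam : ℂ) (h1 : D.Eig ξ1 lam)
    (h2 : ∀ x, ξ2 (D.A x) = lam * ξ2 x + ξ1 x) (hl : ‖lam‖ = 1) : False := by
  classical
  have hl0 : lam ≠ 0 := by
    intro h; rw [h, norm_zero] at hl; exact zero_ne_one hl
  obtain ⟨x, hxP, hx⟩ := U1J.exists_x0 D ξ1 hξ0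
  have hxL := D.P_le hxP
  have hxh : D.ht x = 0 := D.ht_L x hxL
  set F : Set D.G := {D.t ^ (1 : ℤ), D.t ^ (-1 : ℤ), x} with hF
  have hFfin : F.Finite := Set.toFinite _
  obtain ⟨E, CF, hE, hfill⟩ := U.filling F hFfin
  obtain ⟨c, hc0, hc⟩ : ∃ c : ℝ, 0 ≤ c ∧ ∀ d ∈ E, ∀ d' ∈ E,
      ‖om ξ1 ξ2 (D.u d) ((D.A ^ D.ht d) (D.u d'))‖ ≤ c := by
    obtain ⟨C, hC⟩ := ((hE.prod hE).image
      fun q : D.G × D.G => ‖om ξ1 ξ2 (D.u q.1) ((D.A ^ D.ht q.1) (D.u q.2))‖).bddAbove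
    exact ⟨max C 0, le_max_right _ _, fun d hd d' hd' =>
      le_trans (hC ⟨(d, d'), ⟨hd, hd'⟩, rfl⟩) (le_max_left _ _)⟩
  set Ψ := Psi D ξ1 ξ2 with hΨ
  have main : ∀ k : ℕ, 2 * (k : ℝ) ^ 3 * ‖ξ1 (D.u x)‖ ^ 2 ≤ |CF| * c * (8 * k + 1) ^ 2 := by
    intro k
    set w1 : List D.G := List.replicate k (D.t ^ (1 : ℤ)) ++ List.replicate k x ++
      List.replicate k (D.t ^ (-1 : ℤ)) ++ List.replicate k x with hw1
    set w2 : List D.G := List.replicate k x ++ List.replicate k (D.t ^ (1 : ℤ)) ++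
      List.replicate k x ++ List.replicate k (D.t ^ (-1 : ℤ)) with hw2
    have ht1 : (D.t ^ (1 : ℤ)) ^ k = D.t ^ (k : ℤ) := by rw [zpow_one, zpow_natCast]
    have ht2 : (D.t ^ (-1 : ℤ)) ^ k = D.t ^ (-(k : ℤ)) := by
      rw [zpow_neg_one, inv_pow, zpow_neg, zpow_natCast]
    have hf := hfill Ψ c hc0 (fun g d hd d' hd' =>
      le_trans (Psi_almost D ξ1 ξ2 lam h1 h2 hl g d d') (hc d hd d' hd')) w1 w2
      (by
        intro d hd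
        simp only [hw1, List.mem_append, List.mem_replicate] at hd
        rcases hd with ((h | h) | h) | h <;> rw [h.2, hF] <;> simp)
      (by
        intro d hd
        simp only [hw2, List.mem_append, List.mem_replicate] at hd
        rcases hd with ((h | h) | h) | h <;> rw [h.2, hF] <;> simp)
      (by
        simp only [hw1, hw2, List.prod_append, List.prod_replicate, ht1, ht2]
        have hX := U2A.conj_L D hB hP (k : ℤ) (D.L.pow_mem hxL k)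
        have := D.L_comm _ hX _ (D.L.pow_mem hxL k)
        rw [zpow_neg]
        rw [this]
        simp only [mul_assoc])
    have hlam : ∀ v, ξ2 ((D.A ^ (k : ℤ)) v) = lam ^ k * (ξ2 v + k * (lam⁻¹ * ξ1 v)) :=
      fun v => U1J.xi2_pow D ξ1 ξ2 lam h1 h2 hl0 k v
    have hlam1 : ∀ v, ξ1 ((D.A ^ (k : ℤ)) v) = lam ^ k * ξ1 v := fun v => by
      rw [WD.eig_zpow h1 hl0, zpow_natCast]
    have hl1 : lint Ψ 1 w1 = k * (k * om ξ1 ξ2 ((D.A ^ (k : ℤ)) (D.u x)) (D.u x)) := by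
      simp only [hw1, U1J.lint_append, U2A.lint_rep _ _ (Psi_t D ξ1 ξ2 _), hΨ,
        List.prod_append, List.prod_replicate, ht1, ht2, one_mul, zero_add, add_zero,
        lint_rep D ξ1 ξ2 x hxh]
      have hu : D.u (D.t ^ (k : ℤ) * x ^ k * D.t ^ (-(k : ℤ))) =
          (k : ℂ) • (D.A ^ (k : ℤ)) (D.u x) := by
        rw [D.u_mul, D.u_mul, U2A.u_tz, U2A.u_tz, U2A.ht_tz, D.u_pow hxh]
        simp
      have hh : D.ht (D.t ^ (k : ℤ) * x ^ k * D.t ^ (-(k : ℤ))) = 0 := by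
        rw [D.ht_mul, D.ht_mul, U2A.ht_tz, U2A.ht_tz, D.ht_pow, hxh]; ring
      rw [hu, hh, U2A.u_tz]
      unfold om
      simp only [map_zero, map_smul, smul_eq_mul, zpow_zero, LinearEquiv.coe_one, id_eq]
      ring
    have hl2 : lint Ψ 1 w2 = - (k * (k * om ξ1 ξ2 ((D.A ^ (k : ℤ)) (D.u x)) (D.u x))) := by
      simp only [hw2, U1J.lint_append, U2A.lint_rep _ _ (Psi_t D ξ1 ξ2 _), hΨ,
        List.prod_append, List.prod_replicate, ht1, ht2, one_mul, zero_add, add_zero,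
        lint_rep D ξ1 ξ2 x hxh]
      have hu : D.u (x ^ k * D.t ^ (k : ℤ)) = (k : ℂ) • (D.u x) := by
        rw [D.u_mul, U2A.u_tz, D.u_pow hxh]
        simp
      have hh : D.ht (x ^ k * D.t ^ (k : ℤ)) = k := by
        rw [D.ht_mul, U2A.ht_tz, D.ht_pow, hxh]; ring
      rw [hu, hh, D.u_one]
      unfold om
      simp only [map_zero, map_smul, smul_eq_mul]
      ring
    have hom : om ξ1 ξ2 ((D.A ^ (k : ℤ)) (D.u x)) (D.u x) =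
        lam ^ k * (k * lam⁻¹) * ξ1 (D.u x) ^ 2 := by
      unfold om
      rw [hlam, hlam1]; ring
    have hdiff : ‖lint Ψ 1 w1 - lint Ψ 1 w2‖ = 2 * (k : ℝ) ^ 3 * ‖ξ1 (D.u x)‖ ^ 2 := by
      rw [hl1, hl2, hom]
      have e : (k : ℂ) * (k * (lam ^ k * (k * lam⁻¹) * ξ1 (D.u x) ^ 2)) -
          -((k : ℂ) * (k * (lam ^ k * (k * lam⁻¹) * ξ1 (D.u x) ^ 2))) =
          2 * (k : ℂ) ^ 3 * (lam ^ k * lam⁻¹) * ξ1 (D.u x) ^ 2 := by ring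
      rw [e, norm_mul, norm_mul, norm_mul, norm_mul, norm_pow, norm_pow, norm_pow, norm_inv, hl]
      simp
    rw [hdiff] at hf
    have hlen1 : w1.length = 4 * k := by simp [hw1]; omega
    have hlen2 : w2.length = 4 * k := by simp [hw2]; omega
    rw [hlen1, hlen2] at hf
    push_cast at hf
    have hCF : CF * c * (4 * (k : ℝ) + 4 * k + 1) ^ 2 ≤ |CF| * c * (8 * k + 1) ^ 2 := by
      have : (4 * (k : ℝ) + 4 * k + 1) = 8 * k + 1 := by ring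
      rw [this]
      apply mul_le_mul_of_nonneg_right _ (by positivity)
      apply mul_le_mul_of_nonneg_right (le_abs_self _) (by positivity)
    linarith
  -- contradiction
  have hp : 0 < ‖ξ1 (D.u x)‖ ^ 2 := by
    have := norm_pos_iff.2 hx
    positivity
  set Q : ℝ := |CF| * c * 81 with hQ
  have hQ0 : 0 ≤ Q := by positivity
  obtain ⟨k, hk⟩ := exists_nat_gt (Q / (2 * ‖ξ1 (D.u x)‖ ^ 2))
  have hk0 : (0 : ℝ) < k := lt_of_le_of_lt (by positivity) hk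
  have hk1 : (1 : ℝ) ≤ k := by
    have : 0 < k := by exact_mod_cast hk0
    exact_mod_cast this
  rw [div_lt_iff₀ (by positivity)] at hk
  have hm := main k
  have hsq : (8 * (k : ℝ) + 1) ^ 2 ≤ 81 * (k : ℝ) ^ 2 := by nlinarith
  have h3 := mul_le_mul_of_nonneg_left hsq (by positivity : 0 ≤ |CF| * c)
  have h4 : (k : ℝ) ^ 2 * Q < (k : ℝ) ^ 2 * (k * (2 * ‖ξ1 (D.u x)‖ ^ 2)) :=
    mul_lt_mul_of_pos_left hk (by positivity)
  rw [hQ] at h4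
  nlinarith

end Pool.Agent.HNNA
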