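import Pool.Agent.HNNA.Defs

/-! MP_4b60bf_al.  MODULE UNIQ (about 250 lines): unique representatives.

PROOF of `exists_unique_dfa`.  Order words by shortlex: `v ≺ w` iff `|v| < |w|`, or `|v| = |w|` and
`v <_lex w`; a well-order.  Let `𝓛 = {u ∈ accepts | ∀ v ∈ accepts, ev v = ev u → ¬ v ≺ u}`.  It
contains exactly one word for every element.  We show that `𝓛` is regular by Myhill-Nerode
(`Language.isRegular_iff_finite_range_leftQuotient`).  For a word `u` consider the data
(1) `M.eval u`;
(2) the set of all `(M.eval v, (ev u)⁻¹ ev v, compare v u) ∈ σ × F × Ordering` with `|v| = |u|`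
    (`compare` is the lexicographic comparison) and `(ev u)⁻¹ ev v ∈ F`;
(3) the set of all `(ev u)⁻¹ ev v ∈ F` with `v ∈ accepts`, `|v| < |u|`.
They take finitely many values.  CLAIM: if `u`, `u'` have the same data then the left quotients agree.
Let `u ++ τ ∈ 𝓛`, and suppose `u' ++ τ ∉ 𝓛`.  By (1) `u' ++ τ ∈ accepts`, so there is
`v' ∈ accepts` with `ev v' = ev (u' ++ τ)`, `v' ≺ u' ++ τ`.  By the fellow traveller property the
differences `(ev ((u' ++ τ).take m))⁻¹ ev (v'.take m)` lie in `F`.
If `|v'| ≥ |u'|`: `v' = v1' ++ v2'`, `|v1'| = |u'|`; by (2) there is `v1` with `|v1| = |u|`,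
`M.eval v1 = M.eval v1'`, `(ev u)⁻¹ ev v1 = (ev u')⁻¹ ev v1'`, `compare v1 u = compare v1' u'`.  Then
`v = v1 ++ v2' ∈ accepts`, `ev v = ev (u ++ τ)`, and `v ≺ u ++ τ` (the lengths differ by the same
amount, and for equal lengths lexicographic comparison of `v1 ++ v2'` with `u ++ τ` is decided by
`compare v1 u` and then `v2'`, `τ`).  Contradiction.
If `|v'| < |u'|`: `(ev u')⁻¹ ev v' = ev τ` (and it is in `F`: take `m = |u'|`), so by (3) there is
`v ∈ accepts`, `|v| < |u|`, `(ev u)⁻¹ ev v = ev τ`: `ev v = ev (u ++ τ)`, `v ≺ u ++ τ`.  Contradiction.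

PROOF of `exists_UAS`: apply it with `F = {ev w | |w| ≤ K}`; the set `K` of the structure is
`F ∪ F⁻¹ ∪ {1}`; the fellow traveller property is inherited by sublanguages. -/

namespace Pool.Agent.HNNA

namespace Uniq

variable {α : Type} [LinearOrder α]

theorem append_lt {v u : List α} (h : v.length = u.length) (v2 t : List α) :
    v ++ v2 < u ++ t ↔ v < u ∨ (v = u ∧ v2 < t) := by
  induction v generalizing u with
  | nil =>
    cases u with
    | nil => simp
    | cons b u => simp at h
  | cons a v ih =>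
    cases u with
    | nil => simp at h
    | cons b u =>
      simp only [List.length_cons, Nat.add_right_cancel_iff] at h
      rw [List.cons_append, List.cons_append, List.cons_lt_cons_iff, List.cons_lt_cons_iff, ih h]
      constructor
      · rintro (h1 | ⟨rfl, h1 | ⟨rfl, h1⟩⟩)
        · exact Or.inl (Or.inl h1)
        · exact Or.inl (Or.inr ⟨rfl, h1⟩)
        · exact Or.inr ⟨rfl, h1⟩
      · rintro ((h1 | ⟨rfl, h1⟩) | ⟨h1, h2⟩)
        · exact Or.inl h1
        · exact Or.inr ⟨rfl, Or.inl h1⟩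
        · injection h1 with h3 h4
          subst h3 h4
          exact Or.inr ⟨rfl, Or.inr ⟨rfl, h2⟩⟩

/-- shortlex order -/
def SL (v u : List α) : Prop := v.length < u.length ∨ (v.length = u.length ∧ v < u)

theorem SL_tri (v u : List α) : SL v u ∨ v = u ∨ SL u v := by
  rcases lt_trichotomy v.length u.length with h | h | h
  · exact Or.inl (Or.inl h)
  · rcases lt_trichotomy v u with h1 | h1 | h1
    · exact Or.inl (Or.inr ⟨h, h1⟩)
    · exact Or.inr (Or.inl h1)
    · exact Or.inr (Or.inr (Or.inr ⟨h.symm, h1⟩))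
  · exact Or.inr (Or.inr (Or.inl h))

theorem SL_append {v u : List α} (h : v.length = u.length) (v2 t : List α) :
    SL (v ++ v2) (u ++ t) ↔
      v2.length < t.length ∨ (v2.length = t.length ∧ (v < u ∨ (v = u ∧ v2 < t))) := by
  unfold SL
  rw [append_lt h, List.length_append, List.length_append, h]
  simp only [add_lt_add_iff_left, add_right_inj]

theorem SL_min [Finite α] (s : Set (List α)) (hs : s.Nonempty) :
    ∃ u ∈ s, ∀ v ∈ s, ¬ SL v u := by
  classical
  have hne : ∃ m, ∃ u ∈ s, u.length = m := ⟨_, hs.choose, hs.choose_spec, rfl⟩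
  obtain ⟨u0, hu0, hl⟩ := Nat.find_spec hne
  have hmin := fun {m} => Nat.find_min hne (m := m)
  set m := Nat.find hne
  have hfin : {u ∈ s | u.length = m}.Finite :=
    (List.finite_length_eq α m).subset fun u hu => hu.2
  obtain ⟨u, hu, hu2⟩ := Set.exists_min_image {u ∈ s | u.length = m} id hfin ⟨u0, hu0, hl⟩
  refine ⟨u, hu.1, fun v hv hvu => ?_⟩
  rcases hvu with h | ⟨h, h'⟩
  · rw [hu.2] at h
    exact hmin h ⟨v, hv, rfl⟩
  · exact absurd h' (not_lt.2 (hu2 v ⟨hv, h.trans hu.2⟩))

section

variable {G : Type} [Group G] {k : ℕ} (gen : Fin k → G) {σ : Type} (M : DFA (Fin k) σ) (F : Set G)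

/-- value of a word -/
def val (w : List (Fin k)) : G := (w.map gen).prod

theorem val_append (u v : List (Fin k)) : val gen (u ++ v) = val gen u * val gen v := by
  unfold val; rw [List.map_append, List.prod_append]

/-- the data determining the left quotient -/
def data (u : List (Fin k)) : σ × Set (σ × F × Prop × Prop) × Set F :=
  (M.eval u,
    {x | ∃ v : List (Fin k), v.length = u.length ∧ M.eval v = x.1 ∧
      (val gen u)⁻¹ * val gen v = x.2.1 ∧ (v < u) = x.2.2.1 ∧ (v = u) = x.2.2.2},
    {x | ∃ v ∈ M.accepts, v.length < u.length ∧ (val gen u)⁻¹ * val gen v = x})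

/-- the language of shortlex-least representatives -/
def lang : Language (Fin k) :=
  {u | u ∈ M.accepts ∧ ∀ v ∈ M.accepts, val gen v = val gen u → ¬ SL v u}

theorem mem_lang (u : List (Fin k)) : u ∈ lang gen M ↔
    u ∈ M.accepts ∧ ∀ v ∈ M.accepts, val gen v = val gen u → ¬ SL v u := Iff.rfl

theorem lang_step
    (ft : ∀ u ∈ M.accepts, ∀ v ∈ M.accepts, val gen v = val gen u →
      ∀ m : ℕ, (val gen (u.take m))⁻¹ * val gen (v.take m) ∈ F)
    {u u' : List (Fin k)} (h : data gen M F u = data gen M F u') (t : List (Fin k))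
    (ht : u ++ t ∈ lang gen M) : u' ++ t ∈ lang gen M := by
  have h1 : M.eval u = M.eval u' := congrArg Prod.fst h
  have h2 := congrArg (fun x => x.2.1) h
  have h3 := congrArg (fun x => x.2.2) h
  simp only [data] at h2 h3
  rw [mem_lang] at ht ⊢
  have hacc : u' ++ t ∈ M.accepts := by
    have := ht.1
    rw [DFA.mem_accepts] at this ⊢
    rw [DFA.eval, DFA.evalFrom_of_append] at this ⊢
    change M.evalFrom (M.eval u') t ∈ M.accept
    rw [← h1]
    exact this
  refine ⟨hacc, fun v' hv' hval hlt => ?_⟩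
  have hft := ft (u' ++ t) hacc v' hv' hval u'.length
  rw [List.take_left'  rfl] at hft
  have hv'' : val gen v' = val gen u' * val gen t := by rw [hval, val_append]
  rcases Nat.lt_or_ge v'.length u'.length with hl | hl
  · rw [List.take_of_length_le hl.le] at hft
    have hm : (⟨_, hft⟩ : F) ∈ {x : F | ∃ v ∈ M.accepts, v.length < u'.length ∧
        (val gen u')⁻¹ * val gen v = x} := ⟨v', hv', hl, rfl⟩
    rw [← h3] at hm
    obtain ⟨v, hv, hvl, hve⟩ := hm
    simp only at hve
    refine ht.2 v hv ?_ (Or.inl ?_)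
    · have : val gen v = val gen u * ((val gen u')⁻¹ * val gen v') := by
        rw [← hve, mul_inv_cancel_left]
      rw [val_append, this, hv'', inv_mul_cancel_left]
    · rw [List.length_append]; omega
  · obtain ⟨v1', v2', rfl, hl1⟩ : ∃ v1' v2', v' = v1' ++ v2' ∧ v1'.length = u'.length :=
      ⟨v'.take u'.length, v'.drop u'.length, (List.take_append_drop _ _).symm,
        by rw [List.length_take]; omega⟩
    rw [List.take_left' hl1] at hft
    have hm : ((M.eval v1', ⟨_, hft⟩, v1' < u', v1' = u') : σ × F × Prop × Prop) ∈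
        {x : σ × F × Prop × Prop | ∃ v : List (Fin k), v.length = u'.length ∧ M.eval v = x.1 ∧
          (val gen u')⁻¹ * val gen v = x.2.1 ∧ (v < u') = x.2.2.1 ∧ (v = u') = x.2.2.2} :=
      ⟨v1', hl1, rfl, rfl, rfl, rfl⟩
    rw [← h2] at hm
    obtain ⟨v1, hl1', he, hd, hb, hc⟩ := hm
    simp only at he hd hb hc
    refine ht.2 (v1 ++ v2') ?_ ?_ ?_
    · rw [DFA.mem_accepts] at hv' ⊢
      rw [DFA.eval, DFA.evalFrom_of_append] at hv' ⊢
      change M.evalFrom (M.eval v1) v2' ∈ M.accept
      rw [he]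
      exact hv'
    · rw [val_append, val_append]
      have e1 : val gen v1 = val gen u * ((val gen u')⁻¹ * val gen v1') := by
        rw [← hd, mul_inv_cancel_left]
      rw [val_append] at hv''
      rw [e1, mul_assoc, mul_assoc, hv'', inv_mul_cancel_left]
    · rw [SL_append hl1'] 
      rw [SL_append hl1] at hlt
      rw [hb, hc]
      exact hlt

theorem lang_regular [Fintype σ] (hF : F.Finite)
    (ft : ∀ u ∈ M.accepts, ∀ v ∈ M.accepts, val gen v = val gen u →
      ∀ m : ℕ, (val gen (u.take m))⁻¹ * val gen (v.take m) ∈ F) :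
    (lang gen M).IsRegular := by
  rw [Language.isRegular_iff_finite_range_leftQuotient]
  have hfac : Function.FactorsThrough (lang gen M).leftQuotient (data gen M F) := by
    intro u u' h
    ext t
    rw [Language.mem_leftQuotient, Language.mem_leftQuotient]
    exact ⟨lang_step gen M F ft h t, lang_step gen M F ft h.symm t⟩
  have : Finite F := hF
  have hfin : Finite (σ × Set (σ × F × Prop × Prop) × Set F) := inferInstance
  have hext : (lang gen M).leftQuotient =
      Function.extend (data gen M F) (lang gen M).leftQuotient (fun _ => 0) ∘ data gen M F := by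
    funext u
    exact (hfac.extend_apply _ u).symm
  rw [hext]
  exact (Set.finite_range _).subset (Set.range_comp_subset_range _ _)

end

end Uniq

theorem exists_unique_dfa {G : Type} [Group G] {k : ℕ} (gen : Fin k → G) {σ : Type} [Fintype σ]
    (M : DFA (Fin k) σ) (hs : ∀ g : G, ∃ u ∈ M.accepts, (u.map gen).prod = g)
    (F : Set G) (hF : F.Finite)
    (ft : ∀ u ∈ M.accepts, ∀ v ∈ M.accepts, (v.map gen).prod = (u.map gen).prod →
      ∀ m : ℕ, ((u.take m).map gen).prod⁻¹ * ((v.take m).map gen).prod ∈ F) :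
    ∃ (S : Type) (_ : Fintype S) (M' : DFA (Fin k) S), (∀ w ∈ M'.accepts, w ∈ M.accepts) ∧
      (∀ g : G, ∃ u ∈ M'.accepts, (u.map gen).prod = g) ∧
      (∀ w ∈ M'.accepts, ∀ w' ∈ M'.accepts, (w.map gen).prod = (w'.map gen).prod → w = w') := by
  obtain ⟨S, hS, M', hM'⟩ := Uniq.lang_regular gen M F hF ft
  refine ⟨S, hS, M', ?_, ?_, ?_⟩
  · intro w hw
    rw [hM'] at hw
    exact hw.1
  · intro g
    obtain ⟨u0, hu0, he0⟩ := hs g
    obtain ⟨u, hu, hmin⟩ := Uniq.SL_min {u : List (Fin k) | u ∈ M.accepts ∧ (u.map gen).prod = g}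
      ⟨u0, hu0, he0⟩
    refine ⟨u, ?_, hu.2⟩
    rw [hM']
    refine ⟨hu.1, fun v hv hve => hmin v ⟨hv, ?_⟩⟩
    exact Eq.trans hve hu.2
  · intro w hw w' hw' he
    rw [hM'] at hw hw'
    rcases Uniq.SL_tri w w' with h | h | h
    · exact absurd h (hw'.2 w hw.1 he)
    · exact h
    · exact absurd h (hw.2 w' hw'.1 he.symm)

theorem exists_UAS (D : WD) {k : ℕ} (gen : Fin k → D.G) {σ : Type} [Fintype σ]
    (M : DFA (Fin k) σ) (hs : ∀ g : D.G, ∃ u ∈ M.accepts, (u.map gen).prod = g) (K : ℕ)
    (ft : ∀ u ∈ M.accepts, ∀ v ∈ M.accepts,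
      ((v.map gen).prod = (u.map gen).prod ∨ ∃ i : Fin k, (v.map gen).prod = (u.map gen).prod * gen i) →
      ∀ m : ℕ, ∃ w : List (Fin k), w.length ≤ K ∧
        ((u.take m).map gen).prod * (w.map gen).prod = ((v.take m).map gen).prod) :
    Nonempty (UAS D) := by
  have hF : ((fun w : List (Fin k) => (w.map gen).prod) '' {w | w.length ≤ K}).Finite :=
    (List.finite_length_le (Fin k) K).image _
  set F : Set D.G := (fun w : List (Fin k) => (w.map gen).prod) '' {w | w.length ≤ K} with hFdef
  obtain ⟨S, hS, M', hsub, hsurj, huniq⟩ := exists_unique_dfa gen M hs F hF (by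
    intro u hu v hv huv m
    obtain ⟨w, hw, he⟩ := ft u hu v hv (Or.inl huv) m
    exact ⟨w, hw, by rw [← he, inv_mul_cancel_left]⟩)
  refine ⟨{ k := k, gen := gen, S := S, M := M', K := F ∪ F⁻¹ ∪ {1}, K_fin := ?_, K_one := ?_,
            K_inv := ?_, surj := hsurj, uniq := huniq, ft := ?_ }⟩
  · exact (hF.union hF.inv).union (Set.finite_singleton 1)
  · exact Or.inr rfl
  · rintro x ((hx | hx) | hx)
    · exact Or.inl (Or.inr (Set.inv_mem_inv.2 hx))
    · exact Or.inl (Or.inl hx)
    · right
      rw [Set.mem_singleton_iff] at hx ⊢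
      rw [hx, inv_one]
  · intro w hw w' hw' i hi m
    obtain ⟨z, hz, he⟩ := ft w (hsub w hw) w' (hsub w' hw') (Or.inr ⟨i, hi⟩) m
    exact Or.inl (Or.inl ⟨z, hz, by rw [← he, inv_mul_cancel_left]⟩)

end Pool.Agent.HNNA
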