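import Pool.Agent.HNNA.CaseB
import Pool.Agent.HNNA.Model
import Pool.Agent.HNNA.Uniq
import Pool.Agent.HNNA.U1eig
import Pool.Agent.HNNA.U1jor
import Pool.Agent.HNNA.U2a
import Pool.Agent.HNNA.U2b
import Pool.Agent.HNNA.Lin1
import Pool.Agent.HNNA.Lin2

/-! MP_4b60bf_al.  Final assembly: no `G(A, L')` with `A` of infinite order is automatic. -/

namespace Pool.Agent.HNNA

open Multiplicative

variable {n : ℕ} {A : Matrix.GeneralLinearGroup (Fin n) ℚ}
  {L' B : Subgroup (Multiplicative (Fin n → ℤ))} {φ : L' ≃* B}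

lemma exists_not_map {H : Subgroup (Multiplicative (Fin n → ℤ))} (hH : H ≠ ⊤) :
    ∃ l ∈ (HNNExtension.of (φ := φ)).range, l ∉ H.map (HNNExtension.of (φ := φ)) := by
  obtain ⟨z, hz⟩ : ∃ z, z ∉ H := by
    by_contra h
    push Not at h
    exact hH ((Subgroup.eq_top_iff' H).2 h)
  refine ⟨HNNExtension.of z, ⟨z, rfl⟩, ?_⟩
  rintro ⟨w, hw, hwz⟩
  exact hz (HNNExtension.of_injective (φ := φ) hwz ▸ hw)

lemma map_top_eq {H : Subgroup (Multiplicative (Fin n → ℤ))} (h : ∀ z, z ∈ H) :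
    H.map (HNNExtension.of (φ := φ)) = (HNNExtension.of (φ := φ)).range := by
  ext x
  constructor
  · rintro ⟨z, _, rfl⟩; exact ⟨z, rfl⟩
  · rintro ⟨z, rfl⟩; exact ⟨z, h z, rfl⟩

theorem no_UAS (hA : Compat A φ) (hL : L'.index ≠ 0) (hB : B.index ≠ 0)
    (hfin : ¬ IsOfFinOrder A) (U : UAS (mk1 hA hL hB)) (U' : UAS (mk1 hA hL hB).swap) : False := by
  have hBD : B ≠ ⊤ → ∃ l ∈ (mk1 hA hL hB).L, l ∉ (mk1 hA hL hB).B := fun h => exists_not_map h
  have hPD : L' ≠ ⊤ → ∃ l ∈ (mk1 hA hL hB).swap.L, l ∉ (mk1 hA hL hB).swap.B :=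
    fun h => exists_not_map h
  by_cases hb : PBdd (cA A)
  · -- bounded case
    have h1 : ∃ lam, HasEig (cA A) lam ∧ ∀ k : ℕ, 1 ≤ k → lam ^ k ≠ 1 := by
      by_contra hcon
      push Not at hcon
      obtain ⟨m, hm, hT⟩ := lin_bdd_general (cA A) hb hcon
      apply hfin
      rw [isOfFinOrder_iff_pow_eq_one]
      refine ⟨m, hm, ?_⟩
      apply cA_injective
      rw [map_pow, hT, map_one]
    obtain ⟨lam, hlam, hroot⟩ := h1
    have hnorm := eig_norm_of_bdd (cA A) hb hlam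
    by_cases hBt : B = ⊤
    · by_cases hLt : L' = ⊤
      · exact hfin (lin_int_fin A φ hA hLt hBt hb)
      · obtain ⟨ξ, hξ0, hξ⟩ := hasEig_inv (cA A) hlam
        refine caseB (mk1 hA hL hB).swap U' (pbdd_inv (cA A) hb) (hPD hLt) ξ hξ0 lam⁻¹ hξ ?_ ?_
        · rw [norm_inv, hnorm, inv_one]
        · intro k hk h
          apply hroot k hk
          rw [inv_pow, inv_eq_one] at h
          exact h
    · obtain ⟨ξ, hξ0, hξ⟩ := hlam
      exact caseB (mk1 hA hL hB) U hb (hBD hBt) ξ hξ0 lam hξ hnorm hroot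
  · -- unbounded case
    rcases lin_unbdd (cA A) hb with ⟨lam, hlam, hne⟩ | ⟨lam, hlam, hn1⟩
    · have hgt : B ≠ ⊤ → ∀ mu, HasEig (cA A) mu → 1 < ‖mu‖ → False := by
        rintro hBt mu ⟨ξ, hξ0, hξ⟩ hmu
        exact u1_eig (mk1 hA hL hB) U (hBD hBt) ξ hξ0 mu hξ hmu
      have hlt : L' ≠ ⊤ → ∀ mu, HasEig (cA A) mu → ‖mu‖ < 1 → False := by
        intro hLt mu hmu hmu1
        obtain ⟨ξ, hξ0, hξ⟩ := hasEig_inv (cA A) hmu
        refine u1_eig (mk1 hA hL hB).swap U' (hPD hLt) ξ hξ0 mu⁻¹ hξ ?_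
        rw [norm_inv]
        have h0 : 0 < ‖mu‖ := norm_pos_iff.2 (eig_ne_zero (cA A) hmu)
        exact (one_lt_inv₀ h0).2 hmu1
      by_cases hBt : B = ⊤
      · by_cases hLt : L' = ⊤
        · obtain ⟨⟨mu, ⟨ξ, hξ0, hξ⟩, hmu⟩, ⟨nu, hnuE, hnu⟩⟩ :=
            lin_unimod A φ hA hLt hBt hlam hne
          have hnu0 : 0 < ‖nu‖ := norm_pos_iff.2 (eig_ne_zero (cA A) hnuE)
          obtain ⟨ζ, hζ0, hζ⟩ := hnuE
          refine u2_eig (mk1 hA hL hB) U ?_ ?_ ξ ζ hξ0 hζ0 mu nu hξ hζ hmu hnu0 hnu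
          · exact map_top_eq fun z => by rw [hBt]; trivial
          · exact map_top_eq fun z => by rw [hLt]; trivial
        · obtain ⟨mu, hmu, hmu1⟩ := lin_lt A φ hA hLt hBt
          exact hlt hLt mu hmu hmu1
      · by_cases hLt : L' = ⊤
        · obtain ⟨mu, hmu, hmu1⟩ := lin_gt A φ hA hLt hBt
          exact hgt hBt mu hmu hmu1
        · rcases lt_or_gt_of_ne hne with h | h
          · exact hlt hLt lam hlam h
          · exact hgt hBt lam hlam h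
    · by_cases hBt : B = ⊤
      · by_cases hLt : L' = ⊤
        · obtain ⟨ξ1, ξ2, h0, h1, h2⟩ := hlam
          refine u2_jor (mk1 hA hL hB) U ?_ ?_ ξ1 ξ2 h0 lam h1 h2 hn1
          · exact map_top_eq fun z => by rw [hBt]; trivial
          · exact map_top_eq fun z => by rw [hLt]; trivial
        · have hl0 : lam ≠ 0 := by
            intro h; rw [h] at hn1; simp at hn1
          obtain ⟨ξ1, ξ2, h0, h1, h2⟩ := hasJor_inv (cA A) hlam hl0
          refine u1_jor (mk1 hA hL hB).swap U' (hPD hLt) ξ1 ξ2 h0 lam⁻¹ h1 h2 ?_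
          rw [norm_inv, hn1, inv_one]
      · obtain ⟨ξ1, ξ2, h0, h1, h2⟩ := hlam
        exact u1_jor (mk1 hA hL hB) U (hBD hBt) ξ1 ξ2 h0 lam h1 h2 hn1

theorem main (n : ℕ) (A : Matrix.GeneralLinearGroup (Fin n) ℚ)
    (L' B : Subgroup (Multiplicative (Fin n → ℤ))) (φ : L' ≃* B) (hfin : ¬ IsOfFinOrder A)
    (hL : L'.index ≠ 0) (hA : Compat A φ) (k : ℕ)
    (gen : Fin k → HNNExtension (Multiplicative (Fin n → ℤ)) L' B φ)
    (σ : Type) (hσ : Fintype σ) (M : DFA (Fin k) σ)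
    (hs : ∀ g : HNNExtension (Multiplicative (Fin n → ℤ)) L' B φ,
      ∃ u ∈ M.accepts, (u.map gen).prod = g) (K : ℕ)
    (hK : ∀ u ∈ M.accepts, ∀ v ∈ M.accepts,
      ((v.map gen).prod = (u.map gen).prod ∨
        ∃ i : Fin k, (v.map gen).prod = (u.map gen).prod * gen i) →
      ∀ t : ℕ, ∃ w : List (Fin k), w.length ≤ K ∧
        ((u.take t).map gen).prod * (w.map gen).prod = ((v.take t).map gen).prod) : False := by
  have hB : B.index ≠ 0 := index_image A φ hA hL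
  obtain ⟨U⟩ := exists_UAS (mk1 hA hL hB) gen M hs K hK
  obtain ⟨U'⟩ := exists_UAS (mk1 hA hL hB).swap gen M hs K hK
  exact no_UAS hA hL hB hfin U U'

end Pool.Agent.HNNA
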