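import Pool.Agent.HNNA.LenA

/-! MP_4b60bf_al.  MODULE LENB (about 180 lines): norm bounds and word length bounds.

PROOFS.
* `norm_ev_le`: `u (pos w (m+1)) = u (pos w m) + A^(ht ..) (u (gen i))`, use `Bdd` and the
  finiteness of `Fin U.k`.
* `word_bound`: the standard basis vectors `± e_i` of `L` (elements `b_i^{±1} ∈ L` with
  `u b_i = e_i`, `u_surj`) are values of words of length at most `c`; `y ∈ L` with
  `u y = z` is `Π b_i^{z_i}` (both sides have the same `u`; `u_inj`, `L_comm`), so it is the value of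
  a word of length at most `c Σ |z_i| ≤ c n ‖u y‖`.  (Or: induction on `Σ |z_i|`.)  For `x ∈ P` write
  `x = f y` (`TB.cosets`); `‖u y‖ = ‖A^(-ht f) (u x - u f)‖ ≤ C_A (‖u x‖ + ‖u f‖)`.  The constant in
  front of `‖u x‖` is `c n C_A` (plus 1, independent of `P`), the rest goes into `C'`. -/

namespace Pool.Agent.HNNA

namespace UAS

variable {D : WD} (U : UAS D)

theorem norm_ev_le (hb : D.Bdd) : ∃ C : ℝ, 0 < C ∧ ∀ w : U.W, ‖D.u (U.ev w)‖ ≤ C * w.length := by
  obtain ⟨CA, hCA, hA⟩ := hb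
  set M : ℝ := ∑ i, ‖D.u (U.gen i)‖ with hM
  have hM0 : 0 ≤ M := Finset.sum_nonneg (fun i _ => norm_nonneg _)
  refine ⟨CA * M + 1, by positivity, fun w => ?_⟩
  induction w using List.reverseRecOn with
  | nil => simp
  | append_singleton w i ih =>
    rw [ev_append, ev_singleton, D.u_mul]
    have h1 : ‖D.u (U.gen i)‖ ≤ M :=
      Finset.single_le_sum (f := fun i => ‖D.u (U.gen i)‖) (fun i _ => norm_nonneg _)
        (Finset.mem_univ i)
    calc ‖D.u (U.ev w) + (D.A ^ D.ht (U.ev w)) (D.u (U.gen i))‖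
        ≤ ‖D.u (U.ev w)‖ + ‖(D.A ^ D.ht (U.ev w)) (D.u (U.gen i))‖ := norm_add_le _ _
      _ ≤ (CA * M + 1) * w.length + CA * M := by
          apply add_le_add ih
          exact (hA _ _).trans (mul_le_mul_of_nonneg_left h1 hCA.le)
      _ ≤ (CA * M + 1) * ((w ++ [i]).length : ℝ) := by
          rw [List.length_append]
          push_cast
          simp only [List.length_singleton, Nat.cast_one]
          nlinarith

theorem ht_ev_le : ∃ C : ℕ, ∀ w : U.W, |D.ht (U.ev w)| ≤ C * w.length := by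
  refine ⟨∑ i, (D.ht (U.gen i)).natAbs, fun w => ?_⟩
  induction w using List.reverseRecOn with
  | nil => simp
  | append_singleton w i ih =>
    rw [ev_append, ev_singleton, D.ht_mul]
    have h1 : (D.ht (U.gen i)).natAbs ≤ ∑ i, (D.ht (U.gen i)).natAbs :=
      Finset.single_le_sum (f := fun i => (D.ht (U.gen i)).natAbs) (fun i _ => Nat.zero_le _)
        (Finset.mem_univ i)
    have h2 : |D.ht (U.gen i)| ≤ ((∑ i, (D.ht (U.gen i)).natAbs : ℕ) : ℤ) := by
      rw [Int.abs_eq_natAbs]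
      exact_mod_cast h1
    calc |D.ht (U.ev w) + D.ht (U.gen i)| ≤ |D.ht (U.ev w)| + |D.ht (U.gen i)| := abs_add_le _ _
      _ ≤ ((∑ i, (D.ht (U.gen i)).natAbs : ℕ) : ℤ) * w.length
          + ((∑ i, (D.ht (U.gen i)).natAbs : ℕ) : ℤ) := add_le_add ih h2
      _ = ((∑ i, (D.ht (U.gen i)).natAbs : ℕ) : ℤ) * ((w ++ [i]).length : ℕ) := by
          rw [List.length_append]
          push_cast
          simp only [List.length_singleton, Nat.cast_one]
          ring

/-- words for lattice elements -/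
theorem lattice_word : ∃ c : ℕ, ∀ N : ℕ, ∀ z : Fin D.n → ℤ, ∑ i, (z i).natAbs ≤ N →
    ∀ y ∈ D.L, D.u y = (fun i => (z i : ℂ)) → ∃ w : U.W, U.ev w = y ∧ w.length ≤ c * N := by
  have huniq : ∀ y ∈ D.L, ∀ y' ∈ D.L, D.u y = D.u y' → y = y' := by
    intro y hy y' hy' h
    have h1 : D.u (y * y'⁻¹) = 0 := by
      rw [D.u_mul_zero (D.ht_L y hy), D.u_inv, D.ht_L y' hy', h]
      simp
    have h2 := D.u_inj (y * y'⁻¹) (D.L.mul_mem hy (D.L.inv_mem hy')) h1
    exact mul_inv_eq_one.1 h2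
  choose bp hbpL hbpu using fun i : Fin D.n => D.u_surj (Pi.single i 1)
  choose bm hbmL hbmu using fun i : Fin D.n => D.u_surj (Pi.single i (-1))
  choose wp hwp using fun i : Fin D.n => U.surj (bp i)
  choose wm hwm using fun i : Fin D.n => U.surj (bm i)
  refine ⟨∑ i, ((wp i).length + (wm i).length), fun N => ?_⟩
  set c := ∑ i, ((wp i).length + (wm i).length) with hc
  have hcle : ∀ i, (wp i).length + (wm i).length ≤ c := fun i =>
    Finset.single_le_sum (f := fun i => (wp i).length + (wm i).length) (fun i _ => Nat.zero_le _)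
        (Finset.mem_univ i)
  induction N with
  | zero =>
    intro z hz y hy hu
    have hz0 : ∀ i, z i = 0 := by
      intro i
      have h1 := Finset.single_le_sum (f := fun i => (z i).natAbs) (fun i _ => Nat.zero_le _)
        (Finset.mem_univ i)
      have h2 : (z i).natAbs ≤ 0 := h1.trans hz
      exact Int.natAbs_eq_zero.1 (Nat.le_zero.1 h2)
    refine ⟨[], ?_, by simp⟩
    have : y = 1 := D.u_inj y hy (by rw [hu]; funext i; simp [hz0 i])
    rw [this]; rfl
  | succ N ih =>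
    intro z hz y hy hu
    by_cases hzero : ∀ i, z i = 0
    · refine ⟨[], ?_, by simp⟩
      have : y = 1 := D.u_inj y hy (by rw [hu]; funext i; simp [hzero i])
      rw [this]; rfl
    push Not at hzero
    obtain ⟨i, hi⟩ := hzero
    -- the element to split off
    obtain ⟨ε, hε, b, hbL, hbu, v, hv, hvl⟩ : ∃ ε : ℤ, (z i - ε).natAbs + 1 = (z i).natAbs ∧
        ∃ b ∈ D.L, D.u b = (fun j => ((Pi.single i ε : Fin D.n → ℤ) j : ℂ)) ∧
        ∃ v : U.W, U.ev v = b ∧ v.length ≤ c := by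
      rcases lt_or_gt_of_ne hi with h | h
      · refine ⟨-1, by omega, bm i, hbmL i, hbmu i, wm i, (hwm i).2, ?_⟩
        have := hcle i; omega
      · refine ⟨1, by omega, bp i, hbpL i, hbpu i, wp i, (hwp i).2, ?_⟩
        have := hcle i; omega
    let z' : Fin D.n → ℤ := z - Pi.single i ε
    have hsum : ∑ j, (z' j).natAbs ≤ N := by
      have h1 : ∑ j, (z' j).natAbs + 1 = ∑ j, (z j).natAbs := by
        rw [← Finset.add_sum_erase Finset.univ (fun j => (z' j).natAbs) (Finset.mem_univ i),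
          ← Finset.add_sum_erase Finset.univ (fun j => (z j).natAbs) (Finset.mem_univ i)]
        have h2 : ∑ x ∈ Finset.univ.erase i, (z' x).natAbs
            = ∑ x ∈ Finset.univ.erase i, (z x).natAbs := by
          apply Finset.sum_congr rfl
          intro x hx
          have hne : x ≠ i := Finset.ne_of_mem_erase hx
          simp [z', Pi.single_eq_of_ne hne]
        have h3 : z' i = z i - ε := by simp [z']
        rw [h2, h3]
        omega
      omega
    have hy' : y * b⁻¹ ∈ D.L := D.L.mul_mem hy (D.L.inv_mem hbL)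
    have hu' : D.u (y * b⁻¹) = fun j => (z' j : ℂ) := by
      rw [D.u_mul_zero (D.ht_L y hy), D.u_inv, D.ht_L b hbL, hu, hbu]
      funext j
      simp [z', sub_eq_add_neg]
    obtain ⟨w, hw, hwl⟩ := ih z' hsum _ hy' hu'
    refine ⟨w ++ v, ?_, ?_⟩
    · rw [ev_append, hw, hv]; group
    · rw [List.length_append]
      nlinarith

theorem word_bound (hb : D.Bdd) : ∃ C : ℝ, 0 < C ∧ ∀ P : Set D.G, D.TB P → ∃ C' : ℝ,
    ∀ x ∈ P, ∃ w : U.W, U.ev w = x ∧ (w.length : ℝ) ≤ C' + C * ‖D.u x‖ := by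
  obtain ⟨CA, hCA, hA⟩ := hb
  obtain ⟨c, hc⟩ := U.lattice_word
  refine ⟨c * D.n * CA + 1, by positivity, fun P hP => ?_⟩
  obtain ⟨F, hF, hPF⟩ := WD.TB.cosets hP
  refine ⟨∑ f ∈ hF.toFinset, ((U.wd f).length + c * D.n * CA * ‖D.u f‖), fun x hx => ?_⟩
  obtain ⟨f, hf, y, hy, rfl⟩ := hPF x hx
  obtain ⟨z, hz⟩ := D.u_int y hy
  obtain ⟨w, hw, hwl⟩ := hc _ z le_rfl y hy hz
  refine ⟨U.wd f ++ w, by rw [ev_append, ev_wd, hw], ?_⟩
  have h1 : (U.wd f).length + c * D.n * CA * ‖D.u f‖ ≤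
      ∑ f ∈ hF.toFinset, ((U.wd f).length + c * D.n * CA * ‖D.u f‖) :=
    Finset.single_le_sum (f := fun f => ((U.wd f).length : ℝ) + c * D.n * CA * ‖D.u f‖)
      (fun i _ => by positivity) (hF.mem_toFinset.2 hf)
  have h2 : ((∑ i, (z i).natAbs : ℕ) : ℝ) ≤ D.n * ‖D.u y‖ := by
    push_cast
    calc ∑ i, ((z i).natAbs : ℝ) ≤ ∑ i : Fin D.n, ‖D.u y‖ := by
          apply Finset.sum_le_sum
          intro i _
          have h3 := norm_le_pi_norm (D.u y) i
          rw [hz] at h3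
          rw [hz]
          refine le_trans ?_ h3
          simp [Nat.cast_natAbs]
      _ = D.n * ‖D.u y‖ := by simp
  have h3 : ‖D.u y‖ ≤ CA * (‖D.u (f * y)‖ + ‖D.u f‖) := by
    have h4 : D.u y = (D.A ^ (- D.ht f)) (D.u (f * y) - D.u f) := by
      rw [D.u_mul, add_sub_cancel_left, D.Apow_neg_cancel]
    calc ‖D.u y‖ = ‖(D.A ^ (- D.ht f)) (D.u (f * y) - D.u f)‖ := by rw [← h4]
      _ ≤ CA * ‖D.u (f * y) - D.u f‖ := hA _ _
      _ ≤ CA * (‖D.u (f * y)‖ + ‖D.u f‖) := by
          apply mul_le_mul_of_nonneg_left (norm_sub_le _ _) hCA.le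
  have h5 : (w.length : ℝ) ≤ c * (D.n * ‖D.u y‖) := by
    calc (w.length : ℝ) ≤ ((c * (∑ i, (z i).natAbs) : ℕ) : ℝ) := by exact_mod_cast hwl
      _ = c * ((∑ i, (z i).natAbs : ℕ) : ℝ) := by push_cast; ring
      _ ≤ c * (D.n * ‖D.u y‖) := mul_le_mul_of_nonneg_left h2 (by positivity)
  have h6 : (c : ℝ) * (D.n * ‖D.u y‖) ≤ c * (D.n * (CA * (‖D.u (f * y)‖ + ‖D.u f‖))) := by
    gcongr
  rw [List.length_append]
  push_cast
  have h7 : 0 ≤ ‖D.u (f * y)‖ := norm_nonneg _
  nlinarith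

end UAS

end Pool.Agent.HNNA
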