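import Pool.Agent.HNNA.Window
import Pool.Agent.HNNA.LenB

/-! MP_4b60bf_al.  MODULE STARA (about 250 lines): the three ingredients of STAR.

* `far_word`: `E = ev e ∈ L`.  There is `C1` (depending only on `D, U, e`) such that for all words
  `α, α', ω` there is `C2` such that for every `N` there is a word `y` with
  `ev (α e^N ω) * ev y = ev (α' e^N ω)` and
  `|y| ≤ C2 + C1 N ‖A^(ht (ev α)) (u E) - A^(ht (ev α')) (u E)‖`.
  PROOF: `d = (ev (α e^N ω))⁻¹ ev (α' e^N ω) = ω⁻¹ q ω`, `q = E^{-N} δ E^N`,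
  `δ = (ev α)⁻¹ ev α'`.  `d` lies in the `TB` set `ω⁻¹ L δ L ω` (independent of `N`), so `word_bound`
  applies (its first constant does not depend on the set);
  `u q = -N u(E) + u δ + A^(ht δ) (N u(E))`, so `‖u d‖ ≤ C_A ‖u q‖ + const`, and
  `A^(ht δ) (u E) - u E = A^(-ht α) (A^(ht α') (u E) - A^(ht α) (u E))`, so
  `‖u q‖ ≤ N C_A ‖A^(ht α) (u E) - A^(ht α') (u E)‖ + ‖u δ‖`.
* `good_run`: in the word `α e^N ω` the window `[a, b]` with `|α| ≤ a`, `a + |e| ≤ b`,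
  `b ≤ |α| + N |e|` contains an elliptic loop of velocity `|e|⁻¹ A^(ht (ev α)) (u E)`: take `m1 = a`,
  `m2 = a + |e|`.  With `a = |α| + q |e| + r`, `r < |e|` (write `e = e1 ++ e2`, `|e1| = r`):
  `pos m1 = ev α E^q ev e1`, `pos m2 = ev α E^(q+1) ev e1`, states `go s2 e1` both;
  `(pos m1)⁻¹ pos m2 = (ev e1)⁻¹ E ev e1` (elliptic by `Ell_conj`), and
  `u (pos m2) - u (pos m1) = A^(ht α) (u E)` (all `E^i` have height 0, `u (E^(q+1)) = u (E^q) + u E`).
* `not_good_run`: if the window `[a, b]`, `|α| ≤ a`, `b ≤ |α| + N |e|` contains an elliptic loop of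
  velocity `β`, then `β = |e|⁻¹ A^(ht (ev α)) (u E)`.  Let `f` be the loop, between `m1` and `m2`,
  `m1 = |α| + q |e| + r`, `e = e1 ++ e2`, `|e1| = r`, `s_* = go s2 e1 = st m1`; apply `loop_vel` with
  `s1 := s2`, `p = e1`, `p' = e2`, `f`: `|e| A^(ht e1) (u f) = |f| u E`; and
  `u (pos m2) - u (pos m1) = A^(ht (pos m1)) (u f) = A^(ht α) A^(ht e1) (u f) = (|f|/|e|) A^(ht α) (u E)`.
  It is also `(m2 - m1) β = |f| β`, `|f| > 0`. -/

namespace Pool.Agent.HNNA

namespace UAS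

variable {D : WD} (U : UAS D)

/-- prefixes of a run -/
lemma take_run (α e ω : U.W) {N q r : ℕ} (hr : r < e.length)
    (h : q * e.length + r ≤ N * e.length) :
    (α ++ wpow e N ++ ω).take (α.length + q * e.length + r) = α ++ wpow e q ++ e.take r := by
  have hq : q ≤ N := by
    by_contra hcon
    have h1 : N + 1 ≤ q := by omega
    have h2 : (N + 1) * e.length ≤ q * e.length := Nat.mul_le_mul_right _ h1
    have h3 : (N + 1) * e.length = N * e.length + e.length := by ring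
    omega
  rcases hq.eq_or_lt with hq | hq
  · subst hq
    have hr0 : r = 0 := by omega
    subst hr0
    simp only [List.take_zero, List.append_nil, Nat.add_zero]
    rw [List.take_append_of_le_length (by simp [wpow_length])]
    rw [List.take_of_length_le (by simp [wpow_length])]
  · obtain ⟨c, rfl⟩ : ∃ c, N = q + (c + 1) := ⟨N - q - 1, by omega⟩
    have e1 : α ++ wpow e (q + (c + 1)) ++ ω = (α ++ wpow e q) ++ (e ++ (wpow e c ++ ω)) := by
      rw [wpow_add, wpow]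
      simp [List.append_assoc]
    have e2 : α.length + q * e.length + r = (α ++ wpow e q).length + r := by
      simp [wpow_length]
    rw [e1, e2, List.take_length_add_append, List.take_append_of_le_length hr.le]

lemma pos_run (α e ω : U.W) {N q r : ℕ} (hr : r < e.length)
    (h : q * e.length + r ≤ N * e.length) :
    U.pos (α ++ wpow e N ++ ω) (α.length + q * e.length + r) =
      U.ev α * U.ev e ^ q * U.ev (e.take r) := by
  rw [pos, U.take_run α e ω hr h, ev_append, ev_append, ev_wpow]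

lemma st_run {s2 : U.S} {α e : U.W} (ω : U.W) (hα : U.go U.M.start α = s2) (he : U.go s2 e = s2)
    {N q r : ℕ} (hr : r < e.length) (h : q * e.length + r ≤ N * e.length) :
    U.st (α ++ wpow e N ++ ω) (α.length + q * e.length + r) = U.go s2 (e.take r) := by
  rw [st_eq, U.take_run α e ω hr h, go_append, go_append, hα, U.go_wpow he]

theorem far_word (hb : D.Bdd) {e : U.W} (heL : U.ev e ∈ D.L) : ∃ C1 : ℝ, 0 < C1 ∧
    ∀ α α' ω : U.W, ∃ C2 : ℝ, ∀ N : ℕ, ∃ y : U.W,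
      U.ev (α ++ wpow e N ++ ω) * U.ev y = U.ev (α' ++ wpow e N ++ ω) ∧
      (y.length : ℝ) ≤ C2 + C1 * N * ‖(D.A ^ D.ht (U.ev α)) (D.u (U.ev e)) -
        (D.A ^ D.ht (U.ev α')) (D.u (U.ev e))‖ := by
  obtain ⟨C, hC, hword⟩ := U.word_bound hb
  obtain ⟨CA, hCA, hA⟩ := hb
  refine ⟨C * CA * CA, by positivity, fun α α' ω => ?_⟩
  obtain ⟨E, hE⟩ : ∃ E, E = U.ev e := ⟨_, rfl⟩
  obtain ⟨g, hg⟩ : ∃ g, g = U.ev ω := ⟨_, rfl⟩
  obtain ⟨a, ha⟩ : ∃ a, a = U.ev α := ⟨_, rfl⟩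
  obtain ⟨a', ha'⟩ : ∃ a', a' = U.ev α' := ⟨_, rfl⟩
  have hEht : D.ht E = 0 := by rw [hE]; exact D.ht_L _ heL
  have hδ : D.TB {x : D.G | x = a⁻¹ * a'} :=
    WD.TB_of_finite (Set.finite_singleton (a⁻¹ * a'))
  have hP2 := hδ.mul (WD.TB_L (D := D))
  have hP3 := (WD.TB_L (D := D)).mul hP2
  have hP4 := hP3.right g⁻¹
  have hP5 := hP4.left g
  obtain ⟨C', hC'⟩ := hword _ hP5
  refine ⟨C' + C * (CA * ‖D.u (a⁻¹ * a')‖ + (CA + CA * CA) * ‖D.u g‖), fun N => ?_⟩
  obtain ⟨y, hy, hyl⟩ := hC' (g⁻¹ * (E⁻¹ ^ N * (a⁻¹ * a') * E ^ N) * g) (by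
    refine ⟨E⁻¹ ^ N, ?_, (a⁻¹ * a') * E ^ N, ⟨a⁻¹ * a', rfl, E ^ N, ?_, rfl⟩, by group⟩
    · rw [hE]; exact D.L.pow_mem (D.L.inv_mem heL) N
    · rw [hE]; exact D.L.pow_mem heL N)
  refine ⟨y, ?_, ?_⟩
  · rw [hy, ev_append, ev_append, ev_append, ev_append, ev_wpow, ← hE, ← hg, ← ha, ← ha',
      inv_pow]
    group
  · refine hyl.trans ?_
    rw [← hE, ← ha, ← ha']
    obtain ⟨q, hq⟩ : ∃ q, q = E⁻¹ ^ N * (a⁻¹ * a') * E ^ N := ⟨_, rfl⟩
    rw [← hq]
    have hEi : D.ht E⁻¹ = 0 := by rw [D.ht_inv, hEht]; rfl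
    have huEi : D.u E⁻¹ = - D.u E := by
      rw [D.u_inv, hEht]; simp
    have huq : D.u q = D.u (a⁻¹ * a') + (N : ℂ) • ((D.A ^ D.ht (a⁻¹ * a')) (D.u E) - D.u E) := by
      rw [hq, mul_assoc, D.u_mul_zero (by rw [D.ht_pow, hEi]; simp), D.u_pow hEi, huEi, D.u_mul,
        D.u_pow hEht, map_smul, smul_sub, smul_neg]
      abel
    have hdiff : (D.A ^ D.ht (a⁻¹ * a')) (D.u E) - D.u E =
        (D.A ^ (- D.ht a)) ((D.A ^ D.ht a') (D.u E) - (D.A ^ D.ht a) (D.u E)) := by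
      rw [map_sub, D.Apow_neg_cancel, D.ht_mul, D.ht_inv, D.Apow_add]
    have hn1 : ‖D.u q‖ ≤ ‖D.u (a⁻¹ * a')‖ + N * (CA * ‖(D.A ^ D.ht a) (D.u E) -
        (D.A ^ D.ht a') (D.u E)‖) := by
      rw [huq, hdiff]
      refine (norm_add_le _ _).trans ?_
      gcongr
      rw [norm_smul, Complex.norm_natCast]
      gcongr
      refine (hA _ _).trans_eq ?_
      rw [norm_sub_rev]
    have hn2 : ‖D.u (g⁻¹ * q * g)‖ ≤ CA * ‖D.u q‖ + (CA + CA * CA) * ‖D.u g‖ := by
      rw [mul_assoc, D.u_mul, D.u_inv, D.u_mul, D.ht_inv]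
      refine (norm_add_le _ _).trans ?_
      rw [norm_neg]
      have h1 := hA (-D.ht g) (D.u g)
      have h2 := hA (-D.ht g) (D.u q + (D.A ^ D.ht q) (D.u g))
      have h3 := hA (D.ht q) (D.u g)
      have h4 := norm_add_le (D.u q) ((D.A ^ D.ht q) (D.u g))
      have h5 : CA * ‖D.u q + (D.A ^ D.ht q) (D.u g)‖ ≤ CA * (‖D.u q‖ + CA * ‖D.u g‖) :=
        mul_le_mul_of_nonneg_left (h4.trans (by linarith)) hCA.le
      nlinarith [h1, h2, h5]
    obtain ⟨X, hX⟩ : ∃ X, X = ‖(D.A ^ D.ht a) (D.u E) - (D.A ^ D.ht a') (D.u E)‖ := ⟨_, rfl⟩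
    rw [← hX] at hn1 ⊢
    have hn3 : ‖D.u (g⁻¹ * q * g)‖ ≤ CA * (‖D.u (a⁻¹ * a')‖ + N * (CA * X)) +
        (CA + CA * CA) * ‖D.u g‖ :=
      hn2.trans (by gcongr)
    have hn4 := mul_le_mul_of_nonneg_left hn3 hC.le
    nlinarith [hn4]

theorem good_run {s2 : U.S} {α e ω : U.W} (hα : U.go U.M.start α = s2) (he : U.go s2 e = s2)
    (hne : e ≠ []) (heL : U.ev e ∈ D.L) {N a b : ℕ} (ha : α.length ≤ a)
    (hab : a + e.length ≤ b) (hb' : b ≤ α.length + N * e.length) :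
    U.Good (α ++ wpow e N ++ ω) a b
      ((e.length : ℂ)⁻¹ • (D.A ^ D.ht (U.ev α)) (D.u (U.ev e))) := by
  have hel : 0 < e.length := List.length_pos_iff.2 hne
  obtain ⟨q, r, hr, hqr⟩ : ∃ q r, r < e.length ∧ a = α.length + q * e.length + r := by
    refine ⟨(a - α.length) / e.length, (a - α.length) % e.length, Nat.mod_lt _ hel, ?_⟩
    have := Nat.div_add_mod' (a - α.length) e.length
    omega
  have hq1 : (q + 1) * e.length = q * e.length + e.length := by ring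
  have h1 : q * e.length + r ≤ N * e.length := by omega
  have h2 : (q + 1) * e.length + r ≤ N * e.length := by omega
  have hm2 : a + e.length = α.length + (q + 1) * e.length + r := by omega
  have hEht : D.ht (U.ev e) = 0 := D.ht_L _ heL
  have p1 := U.pos_run α e ω hr h1
  have p2 := U.pos_run α e ω hr h2
  rw [← hqr] at p1
  rw [← hm2] at p2
  refine ⟨a, a + e.length, le_rfl, by omega, hab, ?_, ?_, ?_, ?_⟩
  · simp only [List.length_append, wpow_length]
    omega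
  · have s1 := U.st_run ω hα he hr h1
    have s2 := U.st_run ω hα he hr h2
    rw [← hqr] at s1
    rw [← hm2] at s2
    rw [s1, s2]
  · rw [p1, p2]
    have h3 : (U.ev α * U.ev e ^ q * U.ev (e.take r))⁻¹ *
        (U.ev α * U.ev e ^ (q + 1) * U.ev (e.take r)) =
        (U.ev (e.take r))⁻¹ * U.ev e * ((U.ev (e.take r))⁻¹)⁻¹ := by
      rw [pow_succ]
      group
    rw [h3]
    exact WD.Ell_conj ⟨1, le_rfl, by simpa using heL⟩ _
  · rw [p1, p2, mul_assoc, mul_assoc, D.u_mul, D.u_mul (U.ev α)]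
    rw [D.u_mul_zero (by rw [D.ht_pow, hEht]; simp), D.u_mul_zero (by rw [D.ht_pow, hEht]; simp),
      D.u_pow hEht, D.u_pow hEht]
    have hc : (e.length : ℂ) ≠ 0 := by exact_mod_cast hel.ne'
    have h4 : (((a + e.length : ℕ) : ℂ) - (a : ℂ)) = (e.length : ℂ) := by push_cast; ring
    rw [h4, smul_smul, mul_inv_cancel₀ hc, one_smul, add_sub_add_left_eq_sub, ← map_sub]
    congr 1
    push_cast
    rw [add_smul, one_smul]
    abel

theorem not_good_run (hb : D.Bdd) {s2 : U.S} {α e ω : U.W} (hα : U.go U.M.start α = s2)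
    (hco : U.coacc s2) (he : U.go s2 e = s2)
    (hne : e ≠ []) (heL : U.ev e ∈ D.L) {N a b : ℕ} (ha : α.length ≤ a)
    (hb' : b ≤ α.length + N * e.length) {β : V D.n}
    (hg : U.Good (α ++ wpow e N ++ ω) a b β) :
    β = (e.length : ℂ)⁻¹ • (D.A ^ D.ht (U.ev α)) (D.u (U.ev e)) := by
  have hel : 0 < e.length := List.length_pos_iff.2 hne
  obtain ⟨m1, m2, ham, hm12, hm2b, hm2w, hst, hEll, hu⟩ := hg
  obtain ⟨q, r, hr, hqr⟩ : ∃ q r, r < e.length ∧ m1 = α.length + q * e.length + r := by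
    refine ⟨(m1 - α.length) / e.length, (m1 - α.length) % e.length, Nat.mod_lt _ hel, ?_⟩
    have := Nat.div_add_mod' (m1 - α.length) e.length
    omega
  have h1 : q * e.length + r ≤ N * e.length := by omega
  have hEht : D.ht (U.ev e) = 0 := D.ht_L _ heL
  have p1 := U.pos_run α e ω hr h1
  have s1 := U.st_run ω hα he hr h1
  rw [← hqr] at p1 s1
  obtain ⟨w, hw⟩ : ∃ w, w = α ++ wpow e N ++ ω := ⟨_, rfl⟩
  rw [← hw] at p1 s1 hst hEll hu hm2w
  obtain ⟨f, hf⟩ : ∃ f, f = (w.take m2).drop m1 := ⟨_, rfl⟩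
  have hfev : U.ev f = (U.pos w m1)⁻¹ * U.pos w m2 := by rw [hf]; exact U.ev_piece w hm12.le
  have hfgo : U.go (U.go s2 (e.take r)) f = U.go s2 (e.take r) := by
    rw [← s1, hf, U.go_piece w hm12.le, hst]
  have hflen : f.length = m2 - m1 := by
    rw [hf, List.length_drop, List.length_take]
    omega
  have hlive : U.live s2 := ⟨⟨α, hα⟩, hco⟩
  obtain ⟨-, -, hv⟩ := U.loop_vel hb hlive (e := e) (p := e.take r) (p' := e.drop r) (f := f) hne
    ⟨1, le_rfl, by simpa using heL⟩ he rfl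
    (by rw [← go_append, List.take_append_drop, he]) hfgo
  have hpos2 : U.pos w m2 = U.pos w m1 * U.ev f := by rw [hfev]; group
  rw [hpos2, D.u_mul, add_sub_cancel_left] at hu
  have hht : D.ht (U.pos w m1) = D.ht (U.ev α) + D.ht (U.ev (e.take r)) := by
    rw [p1, D.ht_mul, D.ht_mul, D.ht_pow, hEht]
    ring
  rw [hht, D.Apow_add] at hu
  have hc : (e.length : ℂ) ≠ 0 := by exact_mod_cast hel.ne'
  have hfc : (f.length : ℂ) = (m2 : ℂ) - (m1 : ℂ) := by
    rw [hflen, Nat.cast_sub hm12.le]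
  have hfc0 : (f.length : ℂ) ≠ 0 := by
    have : 0 < f.length := by omega
    exact_mod_cast this.ne'
  rw [← hfc] at hu
  have h2 := congrArg (fun x => (e.length : ℂ) • x) hu
  rw [← map_smul, hv, map_smul, smul_comm] at h2
  have h3 := smul_right_injective (V D.n) hfc0 h2
  rw [h3, smul_smul, inv_mul_cancel₀ hc, one_smul]

end UAS

end Pool.Agent.HNNA
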