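import Pool.Agent.HNNA.Chain
import Pool.Agent.HNNA.StarA

/-! MP_4b60bf_al.  MODULE STAR (about 200 lines).

After a loop `f` of nonzero height every loop `e` with value in `L` has a velocity with finite
`A`-orbit.

PROOF.  Fix `α0 : start → s1`, `ω` leading from `s2` to an accepting state.  Put
`α_m = α0 ++ f^m ++ α1`, `W m N = α_m ++ e^N ++ ω`, accepted.  Let
`β_m = |e|⁻¹ A^(ht (ev α_m)) (u (ev e))`; `ht (ev α_m) = c + m h` with `h = ht (ev f) ≠ 0`.
Suppose `A^k (u (ev e)) ≠ u (ev e)` for all `k ≥ 1`.  Then the `β_m` are pairwise distinct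
(`β_m = β_m'` gives `A^((m-m')h) x = x`).  They are bounded (`Bdd`).

`κ = card S * card S * K.ncard + |e| + 1`.  Let `C3` be the constant of `len_lip`, `C1` the constant of
`far_word`, and choose `m ≠ m'` with `‖β_m - β_m'‖ < ε`, where
`(card S + C3) C1 |e| ε < |e| / (2 κ)` (a bounded sequence of distinct points in `C^n` has two of them
closer than `ε`: `tendsto_subseq_of_bounded`, or total boundedness).  For `N : ℕ` let `y` be the word
of `far_word` for `α = α_m`, `α' = α_m'`, `J = |y| ≤ C2 + C1 N |e| ε`,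
`w j = wd (ev (W m N) * ev (y.take j))`, so `w 0 = W m N`, `w J = W m' N` (`wd_ev`) and
`|w j| ≥ |W m N| - C3 j ≥ N |e| - C3 J`.

`chain` with `β = β_m`, `i0 = max |α_m| |α_m'|` (then `i0 κ ≥ i0 ≥` both), `i1 = (N|e| - C3 J)/κ`
(natural number division, truncated subtraction), `good_run` for `w 0`, `not_good_run` for `w J`
(it would give `β_m = β_m'`): `i1 ≤ i0 + J card S`, so
`N |e| / κ ≤ const + J (card S + C3) ≤ const' + (card S + C3) C1 |e| ε N ≤ const' + N |e| / (2 κ)`,
with constants independent of `N`: contradiction for `N` large. -/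

namespace Pool.Agent.HNNA

namespace SA

/-- a bounded injective sequence has two close terms -/
theorem close {n : ℕ} {v : ℕ → V n} {C : ℝ} (hC : ∀ m, ‖v m‖ ≤ C) {ε : ℝ} (hε : 0 < ε) :
    ∃ m m' : ℕ, m < m' ∧ ‖v m - v m'‖ < ε := by
  obtain ⟨a, -, φ, hφ, ha⟩ := tendsto_subseq_of_bounded
    (Metric.isBounded_closedBall (x := (0 : V n)) (r := C)) (x := v)
    (fun m => by rw [mem_closedBall_zero_iff]; exact hC m)
  obtain ⟨N, hN⟩ := Metric.tendsto_atTop.1 ha (ε / 2) (by linarith)
  refine ⟨φ N, φ (N + 1), hφ (Nat.lt_succ_self N), ?_⟩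
  have h1 := hN N le_rfl
  have h2 := hN (N + 1) (Nat.le_succ N)
  rw [← dist_eq_norm]
  calc dist (v (φ N)) (v (φ (N + 1))) ≤ dist (v (φ N)) a + dist (v (φ (N + 1))) a :=
        dist_triangle_right _ _ _
    _ < ε / 2 + ε / 2 := add_lt_add h1 h2
    _ = ε := by ring

/-- a vector with infinite orbit is not fixed by a nontrivial power -/
theorem npow_of_zpow {n : ℕ} {A : V n ≃ₗ[ℂ] V n} {x : V n} {k : ℤ} (hk : k ≠ 0)
    (h : (A ^ k) x = x) : ∃ j : ℕ, 1 ≤ j ∧ (A ^ j) x = x := by
  rcases lt_or_gt_of_ne hk with h1 | h1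
  · refine ⟨k.natAbs, by omega, ?_⟩
    have h2 : (A ^ (-k)) x = x := by
      have h3 : (A ^ (-k)) ((A ^ k) x) = x := by
        rw [← LinearEquiv.mul_apply, ← zpow_add]
        simp
      rwa [h] at h3
    have h4 : -k = (k.natAbs : ℤ) := by omega
    rw [h4, zpow_natCast] at h2
    exact h2
  · refine ⟨k.natAbs, by omega, ?_⟩
    have h4 : k = (k.natAbs : ℤ) := by omega
    rw [h4, zpow_natCast] at h
    exact h

end SA

namespace UAS

variable {D : WD} (U : UAS D)

theorem star (hb : D.Bdd) {s1 s2 : U.S} (h1 : U.acc s1) (h2 : U.coacc s2) {f α1 e : U.W}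
    (hf : U.go s1 f = s1) (hfh : D.ht (U.ev f) ≠ 0) (hα : U.go s1 α1 = s2)
    (he : U.go s2 e = s2) (hne : e ≠ []) (heL : U.ev e ∈ D.L) :
    ∃ k : ℕ, 1 ≤ k ∧ (D.A ^ k) (D.u (U.ev e)) = D.u (U.ev e) := by
  classical
  by_contra hcon
  push Not at hcon
  obtain ⟨α0, hα0⟩ := h1
  have h2' := h2
  obtain ⟨ω, hω⟩ := h2'
  set x := D.u (U.ev e) with hx
  set al : ℕ → U.W := fun m => α0 ++ wpow f m ++ α1 with hal
  have hgoal : ∀ m, U.go U.M.start (al m) = s2 := by
    intro m
    rw [hal]
    simp only [go_append]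
    rw [hα0, U.go_wpow hf, hα]
  have hht : ∀ m : ℕ, D.ht (U.ev (al m)) =
      D.ht (U.ev α0) + D.ht (U.ev α1) + m * D.ht (U.ev f) := by
    intro m
    rw [hal]
    simp only [ev_append, ev_wpow, D.ht_mul, D.ht_pow]
    ring
  set v : ℕ → V D.n := fun m => (D.A ^ D.ht (U.ev (al m))) x with hv
  have hdist : ∀ m m' : ℕ, m < m' → v m ≠ v m' := by
    intro m m' hmm hEq
    have e1 : D.ht (U.ev (al m')) = D.ht (U.ev (al m)) + ((m' : ℤ) - m) * D.ht (U.ev f) := by
      rw [hht, hht]
      ring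
    have e2 : (D.A ^ (((m' : ℤ) - m) * D.ht (U.ev f))) x = x := by
      have e3 : v m = (D.A ^ D.ht (U.ev (al m))) ((D.A ^ (((m' : ℤ) - m) * D.ht (U.ev f))) x) := by
        rw [← D.Apow_add, ← e1]
        exact hEq
      exact ((D.A ^ D.ht (U.ev (al m))).injective e3).symm
    have e4 : ((m' : ℤ) - m) * D.ht (U.ev f) ≠ 0 := by
      refine mul_ne_zero ?_ hfh
      omega
    obtain ⟨j, hj, hjx⟩ := SA.npow_of_zpow e4 e2
    exact hcon j hj hjx
  obtain ⟨CA, hCA0, hCA⟩ := id hb
  obtain ⟨C1, hC10, hC1⟩ := U.far_word hb heL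
  obtain ⟨C3, hC3⟩ := U.len_lip
  have hel : 1 ≤ e.length := List.length_pos_iff.2 hne
  set κ : ℕ := Fintype.card U.S * Fintype.card U.S * U.K.ncard + e.length + 1 with hκ
  set T : ℝ := (Fintype.card U.S : ℝ) * κ + C3 with hT
  have hT0 : 0 ≤ T := by positivity
  have hden : 0 < 2 * (C1 * T + 1) := by positivity
  obtain ⟨m, m', hmm, hclose⟩ := SA.close (v := v) (C := CA * ‖x‖) (fun m => hCA _ _)
    (ε := (e.length : ℝ) / (2 * (C1 * T + 1))) (by
      have : (0 : ℝ) < e.length := by exact_mod_cast hel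
      positivity)
  obtain ⟨C2, hC2⟩ := hC1 (al m) (al m') ω
  set i0 : ℕ := max (al m).length (al m').length with hi0
  -- choose `N`
  obtain ⟨N, hN⟩ := exists_nat_gt (2 * (((i0 : ℝ) + 1) * κ + |C2| * T))
  obtain ⟨y, hy, hylen⟩ := hC2 N
  set Wm := al m ++ wpow e N ++ ω with hWm
  set Wm' := al m' ++ wpow e N ++ ω with hWm'
  have hWacc : Wm ∈ U.M.accepts := by
    rw [mem_accepts_iff, hWm, go_append, go_append, hgoal, U.go_wpow he]
    exact hω
  have hWacc' : Wm' ∈ U.M.accepts := by
    rw [mem_accepts_iff, hWm', go_append, go_append, hgoal, U.go_wpow he]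
    exact hω
  set w : ℕ → U.W := fun j => U.wd (U.ev Wm * U.pos y j) with hw
  have hw0 : w 0 = Wm := by
    rw [hw]
    simp only [pos_zero, mul_one]
    exact U.wd_ev hWacc
  have hwJ : w y.length = Wm' := by
    rw [hw]
    simp only [pos_length]
    rw [hy]
    exact U.wd_ev hWacc'
  have hstep : ∀ j < y.length, ∃ i, U.ev (w (j + 1)) = U.ev (w j) * U.gen i := by
    intro j hj
    refine ⟨y[j], ?_⟩
    rw [hw]
    simp only [ev_wd]
    rw [U.pos_succ hj, mul_assoc]
  have hacc : ∀ j ≤ y.length, w j ∈ U.M.accepts := fun j _ => U.wd_mem _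
  have hlenW : Wm.length = (al m).length + N * e.length + ω.length := by
    rw [hWm, List.length_append, List.length_append, wpow_length]
  have hlow : ∀ j ≤ y.length, N * e.length ≤ (w j).length + C3 * j := by
    intro j
    induction j with
    | zero =>
      intro _
      rw [hw0, hlenW]
      omega
    | succ j ih =>
      intro hj
      have h3 := ih (by omega)
      obtain ⟨i, hi⟩ := hstep j (by omega)
      have h4 := (hC3 _ (hacc j (by omega)) _ (hacc (j + 1) hj) i hi).2
      rw [mul_add, mul_one]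
      omega
  set i1 : ℕ := (N * e.length - C3 * y.length) / κ with hi1
  have hκ0 : 0 < κ := by omega
  have hi1κ : i1 * κ ≤ N * e.length - C3 * y.length := Nat.div_mul_le_self _ _
  have hi1N : i1 * κ ≤ N * e.length := hi1κ.trans (Nat.sub_le _ _)
  have hchain := U.chain hb κ (by omega) y.length w hacc hstep i0 i1 (by
      intro j hj
      have h3 := hlow j hj
      have h4 : C3 * j ≤ C3 * y.length := Nat.mul_le_mul_left _ hj
      omega) ((e.length : ℂ)⁻¹ • v m) (by
      intro i hi hi'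
      rw [hw0]
      have h3 : (al m).length ≤ i * κ := by
        have : (al m).length ≤ i := (le_max_left _ _).trans hi
        exact this.trans (Nat.le_mul_of_pos_right i hκ0)
      have h4 : (i + 1) * κ ≤ i1 * κ := Nat.mul_le_mul_right _ hi'
      refine U.good_run (hgoal m) he hne heL h3 ?_ ?_
      · rw [add_mul, one_mul]
        omega
      · omega) (by
      intro i hi hi' hg
      rw [hwJ] at hg
      have h3 : (al m').length ≤ i * κ := by
        have : (al m').length ≤ i := (le_max_right _ _).trans hi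
        exact this.trans (Nat.le_mul_of_pos_right i hκ0)
      have h4 : (i + 1) * κ ≤ i1 * κ := Nat.mul_le_mul_right _ hi'
      have h5 := U.not_good_run hb (hgoal m') h2 he hne heL h3 (by omega) hg
      have h6 : ((e.length : ℂ))⁻¹ ≠ 0 := by
        refine inv_ne_zero ?_
        have : e.length ≠ 0 := by omega
        exact_mod_cast this
      exact hdist m m' hmm (smul_right_injective (V D.n) h6 h5))
  -- the contradiction
  have h3 : N * e.length < (i0 + y.length * Fintype.card U.S + 1) * κ + C3 * y.length := by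
    have h4 : N * e.length - C3 * y.length < (i1 + 1) * κ := by
      have := Nat.lt_mul_div_succ (N * e.length - C3 * y.length) hκ0
      rw [mul_comm κ] at this
      exact this
    have h5 : (i1 + 1) * κ ≤ (i0 + y.length * Fintype.card U.S + 1) * κ :=
      Nat.mul_le_mul_right _ (by omega)
    omega
  have h4 : (N : ℝ) * e.length < ((i0 : ℝ) + y.length * Fintype.card U.S + 1) * κ +
      C3 * y.length := by exact_mod_cast h3
  have h5 : (N : ℝ) * e.length < ((i0 : ℝ) + 1) * κ + T * y.length := by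
    rw [hT]
    linarith
  have h6 : T * (y.length : ℝ) ≤ T * (C2 + C1 * N * ‖v m - v m'‖) :=
    mul_le_mul_of_nonneg_left hylen hT0
  have h7 : C1 * T * ‖v m - v m'‖ ≤ e.length / 2 := by
    have h8 : ‖v m - v m'‖ * (2 * (C1 * T + 1)) < e.length := by
      rwa [lt_div_iff₀ hden] at hclose
    nlinarith [norm_nonneg (v m - v m')]
  have h8 : T * (C2 + C1 * N * ‖v m - v m'‖) ≤ |C2| * T + N * (e.length / 2) := by
    have h9 : T * C2 ≤ T * |C2| := mul_le_mul_of_nonneg_left (le_abs_self _) hT0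
    have h10 : (N : ℝ) * (C1 * T * ‖v m - v m'‖) ≤ N * (e.length / 2) :=
      mul_le_mul_of_nonneg_left h7 (Nat.cast_nonneg N)
    nlinarith
  have h9 : (N : ℝ) * (e.length / 2) < ((i0 : ℝ) + 1) * κ + |C2| * T := by linarith
  have h10 : (N : ℝ) * 1 ≤ N * e.length :=
    mul_le_mul_of_nonneg_left (by exact_mod_cast hel) (Nat.cast_nonneg N)
  linarith

end UAS

end Pool.Agent.HNNA
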