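import Pool.Agent.HNNA.Tents
import Pool.Agent.HNNA.Star

/-! MP_4b60bf_al.  MODULE GOODBR (about 200 lines): existence of a good branch.

PROOFS.
* `good_branch`: let `N = card S * R.ncard + 1`, `j ≥ j0` and `j ≥` the bound of `lv_many`.  If every
  `s i` (`i : Fin N`) had a pair `(s_i, r_i) ∈ S × R` with `Real (s i) s_i r_i` and `¬ Tame1 s_i r_i`,
  pigeonhole would give `i ≠ i'` with the same pair, contradicting `tents`.
* `nonzero_loop`: a word `π` with `C * card S < |ht (ev π)|`, `C` the bound for `|ht (gen i)|`,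
  has times `m1 < m2 ≤ |π|` with `st π m1 = st π m2` and `ht (pos π m1) ≠ ht (pos π m2)`:
  otherwise the height is a function of the state, so it takes at most `card S` values along `π`,
  it starts at 0, ends at `ht (ev π)`, and consecutive values differ by at most `C`; hence
  `|ht (ev π)| ≤ C card S` (in each of the intervals `(iC, (i+1)C]` between 0 and `ht (ev π)` there is a
  value).
* `tame2`: let `γ ∈ lv j` with `j` large, `ev π = γ z r`: `ht (ev π) = j + ht r`.  Take the loop of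
  `nonzero_loop`: `s1 = st π m1`, `f` the piece (`ht f ≠ 0`), `α1 = (rest of π after m2) ++ y`, leading
  from `s1` to `s2 = go s y`; `star` gives the claim for every loop `e` at `s2` with value in `L`. -/

namespace Pool.Agent.HNNA

namespace UAS

variable {D : WD} (U : UAS D)

theorem good_branch (hb : D.Bdd) (hB : ∃ l ∈ D.L, l ∉ D.B) {R : Set D.G} (hR : R.Finite)
    (j0 : ℕ) : ∃ j, j0 ≤ j ∧ ∃ γ ∈ D.lv j, ∀ s : U.S, ∀ r ∈ R, U.Real γ s r → U.Tame1 s r := by
  classical
  have : Fintype R := hR.fintype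
  obtain ⟨j1, hj1⟩ := WD.lv_many hB (Fintype.card (U.S × R) + 1)
  obtain ⟨s, hs, hne⟩ := hj1 (max j0 j1) (le_max_right _ _)
  by_contra hcon
  have h2 : ∀ i : Fin (Fintype.card (U.S × R) + 1),
      ∃ p : U.S × R, U.Real (s i) p.1 p.2 ∧ ¬ U.Tame1 p.1 p.2 := by
    intro i
    by_contra h3
    apply hcon
    refine ⟨max j0 j1, le_max_left _ _, s i, hs i, ?_⟩
    intro s' r hr hreal
    by_contra h4
    exact h3 ⟨(s', ⟨r, hr⟩), hreal, h4⟩
  choose f hf using h2
  obtain ⟨i, i', hii, hfi⟩ := Fintype.exists_ne_map_eq_of_card_lt f (by simp)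
  refine (hf i).2 (U.tents hb (hs i) (hs i') (hne i i' hii) (hf i).1 ?_)
  rw [hfi]
  exact (hf i').1

theorem nonzero_loop : ∃ C : ℕ, ∀ π : U.W, (C : ℤ) < |D.ht (U.ev π)| →
    ∃ m1 m2 : ℕ, m1 < m2 ∧ m2 ≤ π.length ∧ U.st π m1 = U.st π m2 ∧
      D.ht (U.pos π m1) ≠ D.ht (U.pos π m2) := by
  classical
  -- a bound for the heights of the generators
  obtain ⟨c, hc⟩ : ∃ c : ℕ, 0 < c ∧ ∀ i, (D.ht (U.gen i)).natAbs ≤ c := by
    refine ⟨(∑ i, (D.ht (U.gen i)).natAbs) + 1, Nat.succ_pos _, fun i => ?_⟩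
    have := Finset.single_le_sum (f := fun i => (D.ht (U.gen i)).natAbs)
      (fun i _ => Nat.zero_le _) (Finset.mem_univ i)
    exact this.trans (Nat.le_succ _)
  obtain ⟨hc0, hc⟩ := hc
  refine ⟨c * Fintype.card U.S, fun π hπ => ?_⟩
  set a : ℕ → ℕ := fun m => (D.ht (U.pos π m)).natAbs with ha
  have ha0 : a 0 = 0 := by simp [ha]
  have hstep : ∀ m, a (m + 1) ≤ a m + c := by
    intro m
    rcases lt_or_ge m π.length with hm | hm
    · have h1 : D.ht (U.pos π (m + 1)) = D.ht (U.pos π m) + D.ht (U.gen π[m]) := by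
        rw [U.pos_succ hm, D.ht_mul]
      simp only [ha]
      rw [h1]
      have h2 := Int.natAbs_add_le (D.ht (U.pos π m)) (D.ht (U.gen π[m]))
      have h3 := hc π[m]
      omega
    · have h1 : U.pos π (m + 1) = U.pos π m := by
        rw [U.pos_of_le hm, U.pos_of_le (hm.trans (Nat.le_succ m))]
      simp only [ha]
      rw [h1]
      omega
  have hlast : c * Fintype.card U.S < a π.length := by
    simp only [ha, U.pos_length]
    have h1 : ((c * Fintype.card U.S : ℕ) : ℤ) < ((D.ht (U.ev π)).natAbs : ℤ) := by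
      rw [Int.natCast_natAbs]; exact hπ
    exact_mod_cast h1
  have hex : ∀ i : Fin (Fintype.card U.S + 1), ∃ m, i.val * c ≤ a m ∧ m ≤ π.length := by
    intro i
    refine ⟨π.length, ?_, le_rfl⟩
    have h1 : i.val ≤ Fintype.card U.S := Nat.lt_succ_iff.mp i.isLt
    have h2 : i.val * c ≤ Fintype.card U.S * c := Nat.mul_le_mul_right c h1
    rw [mul_comm] at hlast
    exact h2.trans hlast.le
  have hwin : ∀ i : Fin (Fintype.card U.S + 1), ∃ m, m ≤ π.length ∧ i.val * c ≤ a m ∧
      a m < (i.val + 1) * c := by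
    intro i
    refine ⟨Nat.find (hex i), (Nat.find_spec (hex i)).2, (Nat.find_spec (hex i)).1, ?_⟩
    rcases Nat.eq_zero_or_pos (Nat.find (hex i)) with h0 | h0
    · rw [h0, ha0]; positivity
    · obtain ⟨k, hk⟩ : ∃ k, Nat.find (hex i) = k + 1 := ⟨Nat.find (hex i) - 1, by omega⟩
      have h1 : ¬ (i.val * c ≤ a k ∧ k ≤ π.length) := Nat.find_min (hex i) (by omega)
      have h2 : k ≤ π.length := by
        have := (Nat.find_spec (hex i)).2
        omega
      have h3 : a k < i.val * c := by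
        by_contra h4
        exact h1 ⟨not_lt.mp h4, h2⟩
      rw [hk]
      have h4 := hstep k
      have h5 : (i.val + 1) * c = i.val * c + c := by ring
      omega
  choose m hm using hwin
  obtain ⟨i, i', hii, hst⟩ := Fintype.exists_ne_map_eq_of_card_lt
    (fun i : Fin (Fintype.card U.S + 1) => U.st π (m i)) (by simp)
  have hst' : U.st π (m i) = U.st π (m i') := hst
  have hane : a (m i) ≠ a (m i') := by
    intro h
    have h1 := hm i
    have h2 := hm i'
    rcases lt_trichotomy i.val i'.val with hlt | heq | hgt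
    · have h3 : (i.val + 1) * c ≤ i'.val * c := Nat.mul_le_mul_right c hlt
      omega
    · exact hii (Fin.ext heq)
    · have h3 : (i'.val + 1) * c ≤ i.val * c := Nat.mul_le_mul_right c hgt
      omega
  have hht : D.ht (U.pos π (m i)) ≠ D.ht (U.pos π (m i')) := by
    intro h
    exact hane (by simp only [ha]; rw [h])
  rcases lt_trichotomy (m i) (m i') with hlt | heq | hgt
  · exact ⟨m i, m i', hlt, (hm i').1, hst', hht⟩
  · exact absurd (by rw [heq]) hht
  · exact ⟨m i', m i, hgt, (hm i).1, hst'.symm, hht.symm⟩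

theorem tame2 (hb : D.Bdd) {R : Set D.G} (hR : R.Finite) : ∃ j0 : ℕ, ∀ j, j0 ≤ j →
    ∀ γ ∈ D.lv j, ∀ s : U.S, ∀ r ∈ R, U.Real γ s r → U.Tame2 s := by
  classical
  obtain ⟨C, hC⟩ := U.nonzero_loop
  obtain ⟨M, hM⟩ : ∃ M : ℕ, ∀ r ∈ R, (D.ht r).natAbs ≤ M := by
    obtain ⟨M, hM⟩ := (hR.image (fun r => (D.ht r).natAbs)).bddAbove
    exact ⟨M, fun r hr => hM ⟨r, hr, rfl⟩⟩
  refine ⟨C + M + 1, fun j hj γ hγ s r hr hreal => ?_⟩
  obtain ⟨π, hπs, z, hz, hπ⟩ := hreal
  intro y hy e hne hloop heL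
  have hht : D.ht (U.ev π) = j + D.ht r := by
    rw [hπ, D.ht_mul, D.ht_mul, WD.lv_ht hγ, WD.ht_of_mem_B hz]
    ring
  have hlarge : (C : ℤ) < |D.ht (U.ev π)| := by
    rw [hht]
    have h1 := hM r hr
    have h2 : (C : ℤ) < j + D.ht r := by omega
    exact lt_of_lt_of_le h2 (le_abs_self _)
  obtain ⟨m1, m2, h12, h2l, hst, hne'⟩ := hC π hlarge
  have hf : U.go (U.st π m1) ((π.take m2).drop m1) = U.st π m1 := by
    rw [U.go_piece π h12.le, hst]
  have hfh : D.ht (U.ev ((π.take m2).drop m1)) ≠ 0 := by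
    rw [U.ev_piece π h12.le, D.ht_mul, D.ht_inv]
    intro h
    apply hne'
    linarith
  have hα : U.go (U.st π m1) (π.drop m2 ++ y) = U.go s y := by
    rw [hst, st_eq, ← go_append, ← List.append_assoc, List.take_append_drop, go_append, hπs]
  exact U.star hb ⟨π.take m1, rfl⟩ hy hf hfh hα hloop hne heL

end UAS

end Pool.Agent.HNNA
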