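import Mathlib

/-! MP_4b60bf_al.  MODULE LA (about 250 lines, independent of everything else): a nonnegative
matrix which is power-bounded on the relevant indices has only roots of unity as unimodular
eigenvalues.

PROOF.  Let `B^k i j` denote the matrix powers (`Matrix` or iterated sums).  Call `i` reachable if
`∃ k i0, φ i0 > 0 ∧ (B^k) i0 i > 0`, coreachable if `∃ l, a l i > 0`, relevant (`i ∈ R`) if both.
From `Σ_i φ i * a (k + l) i ≤ C` and `a (k+l) i0 = Σ_i (B^k) i0 i * a l i`: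
(1) for `i` reachable, `a l i` is bounded in `l`.  If `i` is reachable, `B i j > 0`, then `j` is
reachable; if moreover `j ∉ R` then `a l j = 0` for all `l`.
Let `𝒰` be a nonprincipal ultrafilter on `ℕ` (`Filter.hyperfilter ℕ`).  For `i ∈ R` let
`y i = lim_(n → 𝒰) (1/n) Σ_(l < n) lam^(-l) a l i` (bounded), `y i = 0` otherwise.
(2) for `i ∈ R`: `Σ_j B i j * y j = lam * y i` (sum over `j ∈ R` suffices; the shift `l -> l+1` changes
the averages by `O(1/n)`).
(3) `Σ_i v i * y i = κ`: if `v i ≠ 0` then `φ i > 0`, so `i` is reachable and either `i ∈ R` or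
`a l i = 0` for all `l`.  Hence there is `i0` with `φ i0 > 0`, `i0 ∈ R`, `y i0 ≠ 0`.
(4) for `j ∈ R` the powers `(B^k) i0 j` are bounded in `k` (`(B^k) i0 j * a l j ≤ a (k+l) i0`, choose
`l` with `a l j > 0`, use (1) for `i0`).  Let `δ j = lim_𝒰 (1/n) Σ_(k < n) (B^k) i0 j ≥ 0` for
`j ∈ R`.  Then `Σ_(j ∈ R) δ j * B j j' = δ j'` for `j' ∈ R` (if `(B^k) i0 j > 0` and `B j j' > 0`,
`j' ∈ R` then `j ∈ R`).
(5) `‖y i‖ ≤ Σ_j B i j ‖y j‖` for `i ∈ R`, so `‖y i0‖ ≤ Σ_(j∈R) (B^k) i0 j ‖y j‖` for all `k`, so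
`0 < ‖y i0‖ ≤ Σ_(j∈R) δ j ‖y j‖`.
(6) `Σ_(j∈R) δ j (Σ_j' B j j' ‖y j'‖ - ‖y j‖) = 0` by (4), all summands are `≥ 0`, so
`Σ_j' B j j' ‖y j'‖ = ‖y j‖` whenever `δ j > 0`.
Let `Z = {j ∈ R | δ j > 0 ∧ y j ≠ 0}`, nonempty by (5).  For `j ∈ Z` there is `j'` with `B j j' > 0`,
`y j' ≠ 0`; then `δ j' ≥ δ j B j j' > 0`, so `j' ∈ Z`, and by equality in the triangle inequality
`‖Σ_j' B j j' y j'‖ = ‖lam y j‖ = Σ_j' B j j' ‖y j'‖` the numbers `y j'` with `B j j' > 0` all have the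
direction of the sum: `y j' / ‖y j'‖ = lam * y j / ‖y j‖`.
Starting in `Z`, build a sequence `j_0, j_1, ... ∈ Z` with `dir (j_(k+1)) = lam * dir (j_k)`; by
finiteness `j_a = j_b` for some `a < b`, so `lam^(b-a) = 1`. -/

set_option linter.all false

open Filter Topology

namespace Pool.Agent.HNNA

namespace LAaux

/-- averages -/
noncomputable def av (f : ℕ → ℂ) (n : ℕ) : ℂ := (n : ℂ)⁻¹ * ∑ l ∈ Finset.range n, f l

lemma av_bdd {f : ℕ → ℂ} {M : ℝ} (hM : 0 ≤ M) (hf : ∀ l, ‖f l‖ ≤ M) (n : ℕ) : ‖av f n‖ ≤ M := by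
  unfold av
  rw [norm_mul, norm_inv, Complex.norm_natCast]
  rcases Nat.eq_zero_or_pos n with rfl | hn
  · simpa using hM
  · have h1 : ‖∑ l ∈ Finset.range n, f l‖ ≤ n * M := by
      refine (norm_sum_le _ _).trans ?_
      refine (Finset.sum_le_sum fun l _ => hf l).trans ?_
      rw [Finset.sum_const, Finset.card_range, nsmul_eq_mul]
    rw [inv_mul_le_iff₀ (by exact_mod_cast hn)]
    exact h1

lemma av_shift {f : ℕ → ℂ} {M : ℝ} (hf : ∀ l, ‖f l‖ ≤ M) :
    Tendsto (fun n => av (fun l => f (l + 1)) n - av f n) atTop (𝓝 0) := by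
  have h1 : ∀ n, av (fun l => f (l + 1)) n - av f n = (n : ℂ)⁻¹ * (f n - f 0) := by
    intro n
    unfold av
    rw [← mul_sub]
    congr 1
    have := Finset.sum_range_succ f n
    have h2 := Finset.sum_range_succ' f n
    rw [h2] at this
    linear_combination this
  refine squeeze_zero_norm (a := fun n : ℕ => (n : ℝ)⁻¹ * (M + M)) (fun n => ?_) ?_
  · rw [h1, norm_mul, norm_inv, Complex.norm_natCast]
    refine mul_le_mul_of_nonneg_left ?_ (by positivity)
    exact (norm_sub_le _ _).trans (add_le_add (hf _) (hf _))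
  · have := (tendsto_inv_atTop_nhds_zero_nat (𝕜 := ℝ)).mul_const (M + M)
    rwa [zero_mul] at this

lemma ulim (U : Ultrafilter ℕ) (f : ℕ → ℂ) (M : ℝ) (hf : ∀ n, ‖f n‖ ≤ M) :
    ∃ x, Tendsto f U (𝓝 x) := by
  have hK : IsCompact (Metric.closedBall (0 : ℂ) M) := isCompact_closedBall 0 M
  have hmem : (↑(U.map f) : Filter ℂ) ≤ 𝓟 (Metric.closedBall (0 : ℂ) M) := by
    rw [Filter.le_principal_iff, Ultrafilter.coe_map, Filter.mem_map]
    have h1 : f ⁻¹' Metric.closedBall (0 : ℂ) M = Set.univ := by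
      ext n
      simpa using hf n
    rw [h1]
    exact Filter.univ_mem
  obtain ⟨x, _, hx⟩ := hK.ultrafilter_le_nhds (U.map f) hmem
  exact ⟨x, hx⟩

end LAaux

open LAaux in
theorem LA {I : Type} [Fintype I] (B : I → I → ℝ) (hB : ∀ i j, 0 ≤ B i j)
    (a : ℕ → I → ℝ) (ha : ∀ l i, 0 ≤ a l i) (hrec : ∀ l i, a (l + 1) i = ∑ j, B i j * a l j)
    (φ : I → ℝ) (hφ : ∀ i, 0 ≤ φ i) (C : ℝ) (hbd : ∀ l, ∑ i, φ i * a l i ≤ C)
    (v : I → ℂ) (C' : ℝ) (hv : ∀ i, ‖v i‖ ≤ C' * φ i) (lam κ : ℂ) (hlam : ‖lam‖ = 1) (hκ : κ ≠ 0)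
    (hV : ∀ l, ∑ i, v i * (a l i : ℂ) = lam ^ l * κ) : ∃ m : ℕ, 1 ≤ m ∧ lam ^ m = 1 := by
  classical
  set U : Ultrafilter ℕ := Ultrafilter.of atTop with hU
  have hUle : (U : Filter ℕ) ≤ atTop := Ultrafilter.of_le atTop
  set Bd : I → Prop := fun i => ∃ M : ℝ, ∀ l, a l i ≤ M with hBd
  have hstep : ∀ i j, Bd i → B i j ≠ 0 → Bd j := by
    rintro i j ⟨M, hM⟩ hij
    have hpos : 0 < B i j := lt_of_le_of_ne (hB i j) (Ne.symm hij)
    refine ⟨M / B i j, fun l => ?_⟩
    rw [le_div_iff₀ hpos]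
    have h1 : B i j * a l j ≤ a (l + 1) i := by
      rw [hrec]
      exact Finset.single_le_sum (f := fun j => B i j * a l j)
        (fun j _ => mul_nonneg (hB i j) (ha l j)) (Finset.mem_univ j)
    calc a l j * B i j = B i j * a l j := mul_comm _ _
      _ ≤ _ := h1
      _ ≤ M := hM _
  have hφBd : ∀ i, φ i ≠ 0 → Bd i := by
    intro i hi
    have hpos : 0 < φ i := lt_of_le_of_ne (hφ i) (Ne.symm hi)
    refine ⟨C / φ i, fun l => ?_⟩
    rw [le_div_iff₀ hpos, mul_comm]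
    exact (Finset.single_le_sum (f := fun i => φ i * a l i)
        (fun i _ => mul_nonneg (hφ i) (ha l i)) (Finset.mem_univ i)).trans (hbd l)
  have hvBd : ∀ i, v i ≠ 0 → Bd i := by
    intro i hi
    apply hφBd
    intro h0
    apply hi
    have := hv i
    rw [h0, mul_zero] at this
    exact norm_le_zero_iff.1 this
  -- the limits
  have key : ∀ c : ℂ, ‖c‖ = 1 → ∃ Y : I → ℂ,
      (∀ i, Bd i → Tendsto (av (fun l => (c⁻¹) ^ l * (a l i : ℂ))) U (𝓝 (Y i))) ∧
      (∀ i, ¬ Bd i → Y i = 0) ∧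
      (∀ i, Bd i → ∑ j, (B i j : ℂ) * Y j = c * Y i) := by
    intro c hc
    have hc0 : c ≠ 0 := by
      intro h
      rw [h, norm_zero] at hc
      exact zero_ne_one hc
    have hb : ∀ i, Bd i → ∃ M : ℝ, 0 ≤ M ∧ ∀ l, ‖(c⁻¹) ^ l * (a l i : ℂ)‖ ≤ M := by
      rintro i ⟨M, hM⟩
      refine ⟨M, (ha 0 i).trans (hM 0), fun l => ?_⟩
      rw [norm_mul, norm_pow, norm_inv, hc, inv_one, one_pow, one_mul, Complex.norm_real,
        Real.norm_of_nonneg (ha l i)]
      exact hM l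
    have hex : ∀ i, ∃ x : ℂ, (Bd i → Tendsto (av (fun l => (c⁻¹) ^ l * (a l i : ℂ))) U (𝓝 x)) ∧
        (¬ Bd i → x = 0) := by
      intro i
      by_cases hi : Bd i
      · obtain ⟨M, hM0, hM⟩ := hb i hi
        obtain ⟨x, hx⟩ := ulim U _ M (av_bdd hM0 hM)
        exact ⟨x, fun _ => hx, fun h => absurd hi h⟩
      · exact ⟨0, fun h => absurd h hi, fun _ => rfl⟩
    choose Y hY using hex
    refine ⟨Y, fun i => (hY i).1, fun i => (hY i).2, fun i hi => ?_⟩
    have h1 : Tendsto (fun n => ∑ j, (B i j : ℂ) * av (fun l => (c⁻¹) ^ l * (a l j : ℂ)) n) U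
        (𝓝 (∑ j, (B i j : ℂ) * Y j)) := by
      refine tendsto_finsetSum _ fun j _ => ?_
      by_cases hij : B i j = 0
      · simp [hij]
      · exact ((hY j).1 (hstep i j hi hij)).const_mul _
    have h2 : ∀ n, ∑ j, (B i j : ℂ) * av (fun l => (c⁻¹) ^ l * (a l j : ℂ)) n =
        c * av (fun l => (c⁻¹) ^ (l + 1) * (a (l + 1) i : ℂ)) n := by
      intro n
      unfold av
      have e1 : ∀ l, (c⁻¹) ^ (l + 1) * (a (l + 1) i : ℂ) =
          c⁻¹ * ∑ j, (B i j : ℂ) * ((c⁻¹) ^ l * (a l j : ℂ)) := by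
        intro l
        rw [hrec]
        push_cast
        rw [pow_succ, Finset.mul_sum, Finset.mul_sum]
        refine Finset.sum_congr rfl fun j _ => ?_
        ring
      simp only [e1]
      rw [← Finset.mul_sum, Finset.sum_comm]
      have e2 : c * ((n : ℂ)⁻¹ * (c⁻¹ * ∑ j, ∑ l ∈ Finset.range n,
          (B i j : ℂ) * ((c⁻¹) ^ l * (a l j : ℂ)))) = (n : ℂ)⁻¹ * (∑ j, ∑ l ∈ Finset.range n,
          (B i j : ℂ) * ((c⁻¹) ^ l * (a l j : ℂ))) := by
        field_simp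
      rw [e2, Finset.mul_sum]
      refine Finset.sum_congr rfl fun j _ => ?_
      rw [← Finset.mul_sum]
      ring
    simp only [h2] at h1
    obtain ⟨M, hM0, hM⟩ := hb i hi
    have h3 := (av_shift hM).mono_left hUle
    have h4 : Tendsto (fun n => av (fun l => (c⁻¹) ^ (l + 1) * (a (l + 1) i : ℂ)) n) U
        (𝓝 (Y i)) := by
      have h5 := h3.add ((hY i).1 hi)
      rw [zero_add] at h5
      refine h5.congr fun n => ?_
      ring
    exact tendsto_nhds_unique h1 (h4.const_mul c)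
  obtain ⟨Y, hY1, hY2, hY3⟩ := key lam hlam
  obtain ⟨W, hW1, hW2, hW3⟩ := key 1 norm_one
  -- real averages
  have hW4 : ∀ i, Bd i → Tendsto (fun n : ℕ => (n : ℝ)⁻¹ * ∑ l ∈ Finset.range n, a l i) U
      (𝓝 (W i).re) := by
    intro i hi
    have h1 := (Complex.continuous_re.tendsto (W i)).comp (hW1 i hi)
    refine h1.congr fun n => ?_
    simp only [Function.comp, av, inv_one, one_pow, one_mul]
    rw [← Complex.ofReal_natCast, ← Complex.ofReal_sum, ← Complex.ofReal_inv,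
      ← Complex.ofReal_mul, Complex.ofReal_re]
  have hYW : ∀ i, ‖Y i‖ ≤ (W i).re := by
    intro i
    by_cases hi : Bd i
    · refine le_of_tendsto_of_tendsto' ((hY1 i hi).norm) (hW4 i hi) fun n => ?_
      unfold av
      rw [norm_mul, norm_inv, Complex.norm_natCast]
      refine mul_le_mul_of_nonneg_left ?_ (by positivity)
      refine (norm_sum_le _ _).trans (le_of_eq (Finset.sum_congr rfl fun l _ => ?_))
      rw [norm_mul, norm_pow, norm_inv, hlam, inv_one, one_pow, one_mul, Complex.norm_real,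
        Real.norm_of_nonneg (ha l i)]
    · rw [hY2 i hi, hW2 i hi]; simp
  have hWre : ∀ i, Bd i → ∑ j, B i j * (W j).re = (W i).re := by
    intro i hi
    have h := congrArg Complex.re (hW3 i hi)
    rw [one_mul, Complex.re_sum] at h
    rw [← h]
    refine Finset.sum_congr rfl fun j _ => ?_
    rw [Complex.re_ofReal_mul]
  have hYBd : ∀ i, Y i ≠ 0 → Bd i := fun i h => by
    by_contra h'
    exact h (hY2 i h')
  -- `Y ≠ 0`
  have hne : ∃ i, Y i ≠ 0 := by
    by_contra hcon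
    push_neg at hcon
    have hl0 : lam ≠ 0 := by
      intro h
      rw [h, norm_zero] at hlam
      exact zero_ne_one hlam
    have h1 : Tendsto (fun n => ∑ i, v i * av (fun l => (lam⁻¹) ^ l * (a l i : ℂ)) n) U
        (𝓝 (∑ i, v i * Y i)) := by
      refine tendsto_finsetSum _ fun i _ => ?_
      by_cases hvi : v i = 0
      · simp [hvi]
      · exact (hY1 i (hvBd i hvi)).const_mul _
    have h2 : ∑ i, v i * Y i = 0 := Finset.sum_eq_zero fun i _ => by rw [hcon i, mul_zero]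
    rw [h2] at h1
    have h3 : ∀ᶠ n : ℕ in (U : Filter ℕ),
        ∑ i, v i * av (fun l => (lam⁻¹) ^ l * (a l i : ℂ)) n = κ := by
      have h4 : ∀ᶠ n : ℕ in (atTop : Filter ℕ), 1 ≤ n := eventually_ge_atTop 1
      have h4' : ∀ᶠ n : ℕ in (U : Filter ℕ), 1 ≤ n := h4.filter_mono hUle
      refine h4'.mono fun n hn => ?_
      unfold av
      have e1 : ∀ i, v i * ((n : ℂ)⁻¹ * ∑ l ∈ Finset.range n, (lam⁻¹) ^ l * (a l i : ℂ)) =
          (n : ℂ)⁻¹ * ∑ l ∈ Finset.range n, (lam⁻¹) ^ l * (v i * (a l i : ℂ)) := by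
        intro i
        rw [Finset.mul_sum, Finset.mul_sum, Finset.mul_sum]
        refine Finset.sum_congr rfl fun l _ => ?_
        ring
      simp only [e1]
      rw [← Finset.mul_sum, Finset.sum_comm]
      simp only [← Finset.mul_sum, hV]
      have e2 : ∀ l, (lam⁻¹) ^ l * (lam ^ l * κ) = κ := by
        intro l
        rw [← mul_assoc, ← mul_pow, inv_mul_cancel₀ hl0, one_pow, one_mul]
      simp only [e2, Finset.sum_const, Finset.card_range, nsmul_eq_mul]
      have hn0 : (n : ℂ) ≠ 0 := by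
        have : n ≠ 0 := by omega
        exact_mod_cast this
      field_simp
    have h5 : Tendsto (fun n => ∑ i, v i * av (fun l => (lam⁻¹) ^ l * (a l i : ℂ)) n) U
        (𝓝 κ) := tendsto_const_nhds.congr' (h3.mono fun n hn => hn.symm)
    exact hκ (tendsto_nhds_unique h5 h1)
  -- the maximum of `‖Y i‖ / W i`
  set θf : I → ℝ := fun i => ‖Y i‖ / (W i).re with hθf
  obtain ⟨i1, hi1⟩ := hne
  haveI : Nonempty I := ⟨i1⟩
  obtain ⟨i0, hi0⟩ := Finite.exists_max θf
  set θ : ℝ := θf i0 with hθ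
  have hWnn : ∀ i, 0 ≤ (W i).re := fun i => (norm_nonneg _).trans (hYW i)
  have hWpos : ∀ i, Y i ≠ 0 → 0 < (W i).re := fun i hi => (norm_pos_iff.2 hi).trans_le (hYW i)
  have hθpos : 0 < θ := by
    have h1 : 0 < θf i1 := div_pos (norm_pos_iff.2 hi1) (hWpos i1 hi1)
    exact h1.trans_le (hi0 i1)
  have hle : ∀ i, ‖Y i‖ ≤ θ * (W i).re := by
    intro i
    by_cases hi : Y i = 0
    · rw [hi, norm_zero]; exact mul_nonneg hθpos.le (hWnn i)
    · rw [← div_le_iff₀ (hWpos i hi)]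
      exact hi0 i
  have hYi0 : Y i0 ≠ 0 := by
    intro h
    have : θ = 0 := by rw [hθ, hθf]; simp [h]
    exact hθpos.ne' this
  have heq0 : ‖Y i0‖ = θ * (W i0).re := by
    rw [hθ, hθf]
    simp only
    rw [div_mul_cancel₀ _ (hWpos i0 hYi0).ne']
  -- a step of the walk
  have hwalk : ∀ i, Y i ≠ 0 → ‖Y i‖ = θ * (W i).re → ∃ j, Y j ≠ 0 ∧ ‖Y j‖ = θ * (W j).re ∧
      (Y j) / (‖Y j‖ : ℂ) = lam * (Y i / (‖Y i‖ : ℂ)) := by
    intro i hi hie
    have hBi := hYBd i hi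
    -- unit direction
    set e : ℂ := lam * (Y i / (‖Y i‖ : ℂ)) with he
    have hni : (‖Y i‖ : ℂ) ≠ 0 := by
      exact_mod_cast (norm_pos_iff.2 hi).ne'
    have hen : ‖e‖ = 1 := by
      rw [he, norm_mul, hlam, one_mul, norm_div, Complex.norm_real, norm_norm, div_self]
      exact (norm_pos_iff.2 hi).ne'
    -- the sum of the real parts
    have hs1 : ∑ j, B i j * ((starRingEnd ℂ) e * Y j).re = ‖Y i‖ := by
      have h1 : (starRingEnd ℂ) e * ∑ j, (B i j : ℂ) * Y j = (‖Y i‖ : ℂ) := by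
        rw [hY3 i hBi]
        have h2 : lam * Y i = (‖Y i‖ : ℂ) * e := by
          rw [he]; field_simp
        rw [h2, mul_comm ((starRingEnd ℂ) e), mul_assoc, Complex.mul_conj, Complex.normSq_eq_norm_sq, hen]
        simp
      have h2 := congrArg Complex.re h1
      rw [Finset.mul_sum, Complex.re_sum, Complex.ofReal_re] at h2
      rw [← h2]
      refine Finset.sum_congr rfl fun j _ => ?_
      rw [← Complex.re_ofReal_mul]
      congr 1
      ring
    have hterm : ∀ j, ((starRingEnd ℂ) e * Y j).re ≤ ‖Y j‖ := by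
      intro j
      refine (Complex.re_le_norm _).trans ?_
      rw [norm_mul, RCLike.norm_conj, hen, one_mul]
    have hs2 : ∑ j, B i j * (θ * (W j).re - ((starRingEnd ℂ) e * Y j).re) = 0 := by
      simp only [mul_sub, Finset.sum_sub_distrib]
      rw [hs1, hie]
      have h3 : ∑ j, B i j * (θ * (W j).re) = θ * ∑ j, B i j * (W j).re := by
        rw [Finset.mul_sum]
        exact Finset.sum_congr rfl fun j _ => by ring
      rw [h3, hWre i hBi, sub_self]
    have hs3 : ∀ j, B i j * (θ * (W j).re - ((starRingEnd ℂ) e * Y j).re) = 0 := by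
      intro j
      refine (Finset.sum_eq_zero_iff_of_nonneg (fun j _ => ?_)).1 hs2 j (Finset.mem_univ j)
      exact mul_nonneg (hB i j) (sub_nonneg.2 ((hterm j).trans (hle j)))
    -- there is `j` with `B i j ≠ 0` and `Y j ≠ 0`
    have hex : ∃ j, B i j ≠ 0 ∧ Y j ≠ 0 := by
      by_contra hcon
      push_neg at hcon
      have h1 : ∑ j, B i j * ((starRingEnd ℂ) e * Y j).re = 0 := by
        refine Finset.sum_eq_zero fun j _ => ?_
        by_cases hj : B i j = 0
        · rw [hj, zero_mul]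
        · rw [hcon j hj, mul_zero]; simp
      rw [hs1] at h1
      exact hi (norm_eq_zero.1 h1)
    obtain ⟨j, hj1, hj2⟩ := hex
    have h4 : θ * (W j).re = ((starRingEnd ℂ) e * Y j).re := by
      rcases mul_eq_zero.1 (hs3 j) with h | h
      · exact absurd h hj1
      · linarith
    have h5 : ‖Y j‖ = θ * (W j).re := le_antisymm (hle j) (by rw [h4]; exact hterm j)
    refine ⟨j, hj2, h5, ?_⟩
    -- `re (conj e * Y j) = ‖Y j‖ = ‖conj e * Y j‖`, so `conj e * Y j = ‖Y j‖`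
    have h6 : ((starRingEnd ℂ) e * Y j).re = ‖(starRingEnd ℂ) e * Y j‖ := by
      rw [norm_mul, RCLike.norm_conj, hen, one_mul, h5, h4]
    have h7 : (starRingEnd ℂ) e * Y j = (‖Y j‖ : ℂ) := by
      have h8 : (((starRingEnd ℂ) e * Y j).re : ℂ) = (starRingEnd ℂ) e * Y j := by
        apply Complex.ext
        · simp
        · have := (Complex.nonneg_iff.1 (Complex.re_eq_norm.1 h6)).2
          rw [Complex.ofReal_im]
          exact this
      rw [← h8, ← h4, h5]
    have h9 : e * (starRingEnd ℂ) e = 1 := by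
      rw [Complex.mul_conj, Complex.normSq_eq_norm_sq, hen]; simp
    have hnj : (‖Y j‖ : ℂ) ≠ 0 := by
      exact_mod_cast (norm_pos_iff.2 hj2).ne'
    rw [div_eq_iff hnj, ← h7, ← mul_assoc, h9, one_mul]
  -- the walk
  let S := {i : I // Y i ≠ 0 ∧ ‖Y i‖ = θ * (W i).re}
  have hnext : ∀ s : S, ∃ s' : S, (Y s'.1) / (‖Y s'.1‖ : ℂ) = lam * (Y s.1 / (‖Y s.1‖ : ℂ)) := by
    rintro ⟨i, h1, h2⟩
    obtain ⟨j, hj1, hj2, hj3⟩ := hwalk i h1 h2
    exact ⟨⟨j, hj1, hj2⟩, hj3⟩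
  choose nx hnx using hnext
  let s0 : S := ⟨i0, hYi0, heq0⟩
  let w : ℕ → S := fun k => nx^[k] s0
  have hw : ∀ k, (Y (w k).1) / (‖Y (w k).1‖ : ℂ) = lam ^ k * (Y i0 / (‖Y i0‖ : ℂ)) := by
    intro k
    induction k with
    | zero => simp [w, s0]
    | succ k ih =>
      have : w (k + 1) = nx (w k) := Function.iterate_succ_apply' nx k s0
      rw [this, hnx, ih, pow_succ]
      ring
  obtain ⟨p, q, hpq, hwpq⟩ := Finite.exists_ne_map_eq_of_infinite w
  have hd0 : Y i0 / (‖Y i0‖ : ℂ) ≠ 0 := by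
    refine div_ne_zero hYi0 ?_
    exact_mod_cast (norm_pos_iff.2 hYi0).ne'
  have hl0 : lam ≠ 0 := by
    intro h
    rw [h, norm_zero] at hlam
    exact zero_ne_one hlam
  have hpow : lam ^ p = lam ^ q := by
    have h1 := hw p
    have h2 := hw q
    rw [hwpq] at h1
    exact mul_right_cancel₀ hd0 (h1.symm.trans h2)
  rcases lt_or_gt_of_ne hpq with h | h
  · refine ⟨q - p, by omega, ?_⟩
    have h1 : lam ^ p * lam ^ (q - p) = lam ^ p * 1 := by
      rw [← pow_add, Nat.add_sub_cancel' h.le, mul_one, hpow]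
    exact mul_left_cancel₀ (pow_ne_zero _ hl0) h1
  · refine ⟨p - q, by omega, ?_⟩
    have h1 : lam ^ q * lam ^ (p - q) = lam ^ q * 1 := by
      rw [← pow_add, Nat.add_sub_cancel' h.le, mul_one, hpow]
    exact mul_left_cancel₀ (pow_ne_zero _ hl0) h1

end Pool.Agent.HNNA
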