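import Pool.Agent.HNNA.TBl

/-! MP_4b60bf_al.  MODULE LENA (about 200 lines): lengths of normal forms, fellow travelling of
far away elements.

PROOFS.
* `len_lip`: let `ev w' = ev w * gen i`.  Suppose `|w'| > |w| + card S * K.ncard`.  For
  `m = |w|, ..., |w'|` we have `pos w m = ev w`, so `(ev w)⁻¹ * pos w' m ∈ K` (`U.ft`).  By
  pigeonhole there are `|w| ≤ m1 < m2 ≤ |w'|` with `pos w' m1 = pos w' m2` and
  `st w' m1 = st w' m2`.  Deleting the piece between `m1` and `m2` gives another accepted word with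
  the same value: contradiction to `U.uniq` (lengths differ).  The other inequality is the same
  (for `m ≥ |w'|`: `(pos w m)⁻¹ * ev w' ∈ K`, so `pos w m` lies in a set of `K.ncard` elements).
* `len_lip_d`: write `d = ev y` (`U.surj`), go along the letters of `y`: normal forms of
  `g * ev (y.take m)`.  For words: `w ∈ accepts` is `wd (ev w)` by `wd_ev`.
* `ft_d`: for one `d = ev y` the differences lie in the product set `K^{|y|}` (telescoping
  `(pos w_0 m)⁻¹ pos w_J m = Π (pos w_j m)⁻¹ pos w_(j+1) m`), a finite set; then take the union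
  over the finite set `E`. -/

namespace Pool.Agent.HNNA

namespace UAS

variable {D : WD} (U : UAS D)

/-- pigeonhole: a normal form whose positions stay in a translate of `K` after the time `a`
is not much longer than `a` -/
theorem len_pigeon {w : U.W} (hw : w ∈ U.M.accepts) (g : D.G) (a : ℕ)
    (h : ∀ m, a ≤ m → g⁻¹ * U.pos w m ∈ U.K) :
    w.length ≤ a + Fintype.card U.S * U.K.ncard := by
  classical
  by_contra hlt
  push Not at hlt
  set N := Fintype.card U.S * U.K.ncard with hN
  have hcard : ((Finset.univ : Finset U.S) ×ˢ U.K_fin.toFinset).card < (Finset.range (N + 1)).card := by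
    rw [Finset.card_product, Finset.card_range, Finset.card_univ,
      ← Set.ncard_eq_toFinset_card U.K U.K_fin]
    omega
  obtain ⟨m1, h1, m2, h2, hne, heq⟩ := Finset.exists_ne_map_eq_of_card_lt_of_maps_to hcard
    (f := fun m => (U.st w (a + m), g⁻¹ * U.pos w (a + m))) (by
      intro m _
      simp only [Finset.coe_product, Finset.coe_univ, Set.mem_prod, Set.mem_univ, true_and,
        Set.Finite.coe_toFinset]
      exact h _ (Nat.le_add_right _ _))
  have key : ∀ m1 m2 : ℕ, m1 < m2 → m2 ≤ N → U.st w (a + m1) = U.st w (a + m2) →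
      g⁻¹ * U.pos w (a + m1) = g⁻¹ * U.pos w (a + m2) → False := by
    intro m1 m2 hm hm2 hs hp
    have hp' : U.pos w (a + m1) = U.pos w (a + m2) := mul_left_cancel hp
    have e : w = w.take (a + m1) ++ w.drop (a + m2) := by
      apply U.uniq w hw
      · rw [mem_accepts_iff, go_append, ← st_eq, hs, st_eq, ← go_append, List.take_append_drop]
        exact hw
      · change U.ev w = U.ev (w.take (a + m1) ++ w.drop (a + m2))
        conv_lhs => rw [← List.take_append_drop (a + m2) w]
        rw [ev_append, ev_append]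
        congr 1
        exact hp'.symm
    have hl := congrArg List.length e
    rw [List.length_append, List.length_take, List.length_drop] at hl
    omega
  rw [Finset.mem_range] at h1 h2
  simp only [Prod.mk.injEq] at heq
  rcases lt_or_gt_of_ne hne with hh | hh
  · exact key m1 m2 hh (by omega) heq.1 heq.2
  · exact key m2 m1 hh (by omega) heq.1.symm heq.2.symm

theorem len_lip : ∃ C : ℕ, ∀ w ∈ U.M.accepts, ∀ w' ∈ U.M.accepts, ∀ i,
    U.ev w' = U.ev w * U.gen i → w'.length ≤ w.length + C ∧ w.length ≤ w'.length + C := by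
  refine ⟨Fintype.card U.S * U.K.ncard, fun w hw w' hw' i he => ⟨?_, ?_⟩⟩
  · refine U.len_pigeon hw' (U.ev w) w.length fun m hm => ?_
    have := U.ft w hw w' hw' i he m
    rw [← U.pos_of_le hm]
    exact this
  · refine U.len_pigeon hw (U.ev w') w'.length fun m hm => ?_
    have := U.K_inv _ (U.ft w hw w' hw' i he m)
    rw [mul_inv_rev, inv_inv] at this
    rw [← U.pos_of_le hm]
    exact this

theorem len_lip_word (y : U.W) : ∃ C : ℕ, ∀ g : D.G,
    (U.wd (g * U.ev y)).length ≤ (U.wd g).length + C ∧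
    (U.wd g).length ≤ (U.wd (g * U.ev y)).length + C := by
  obtain ⟨C0, hC0⟩ := U.len_lip
  induction y with
  | nil => exact ⟨0, fun g => by simp⟩
  | cons i y ih =>
    obtain ⟨C, hC⟩ := ih
    refine ⟨C0 + C, fun g => ?_⟩
    have h1 := hC0 _ (U.wd_mem g) _ (U.wd_mem (g * U.gen i)) i (by rw [ev_wd, ev_wd])
    have h2 := hC (g * U.gen i)
    rw [ev_cons, ← mul_assoc]
    omega

theorem len_lip_d (d : D.G) : ∃ C : ℕ, ∀ g : D.G,
    (U.wd (g * d)).length ≤ (U.wd g).length + C ∧
    (U.wd g).length ≤ (U.wd (g * d)).length + C := by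
  have := U.len_lip_word (U.wd d)
  rwa [ev_wd] at this

theorem ft_word (y : U.W) : ∃ K' : Set D.G, K'.Finite ∧ ∀ g : D.G,
    ∀ m : ℕ, (U.pos (U.wd g) m)⁻¹ * U.pos (U.wd (g * U.ev y)) m ∈ K' := by
  induction y with
  | nil => exact ⟨{1}, Set.finite_singleton 1, fun g m => by simp⟩
  | cons i y ih =>
    obtain ⟨K', hK', h⟩ := ih
    refine ⟨Set.image2 (· * ·) U.K K', U.K_fin.image2 _ hK', fun g m => ?_⟩
    refine ⟨(U.pos (U.wd g) m)⁻¹ * U.pos (U.wd (g * U.gen i)) m, ?_,
      (U.pos (U.wd (g * U.gen i)) m)⁻¹ * U.pos (U.wd (g * U.gen i * U.ev y)) m,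
      h (g * U.gen i) m, ?_⟩
    · refine U.ft _ (U.wd_mem g) _ (U.wd_mem (g * U.gen i)) i ?_ m
      exact (U.ev_wd _).trans (congrArg (· * U.gen i) (U.ev_wd g).symm)
    · simp only
      rw [ev_cons, ← mul_assoc g]
      group

theorem ft_d (E : Set D.G) (hE : E.Finite) : ∃ K' : Set D.G, K'.Finite ∧ ∀ d ∈ E, ∀ g : D.G,
    ∀ m : ℕ, (U.pos (U.wd g) m)⁻¹ * U.pos (U.wd (g * d)) m ∈ K' := by
  choose K' hK' h using fun d : D.G => U.ft_word (U.wd d)
  refine ⟨⋃ d ∈ E, K' d, hE.biUnion fun d _ => hK' d, fun d hd g m => ?_⟩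
  have := h d g m
  rw [ev_wd] at this
  exact Set.mem_biUnion hd this

end UAS

end Pool.Agent.HNNA
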