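import Pool.Agent.HNNA.Basic

/-! MP_4b60bf_al.  MODULE TBL (about 250 lines): tree-bounded sets.

PROOFS.
* `comm_left g` (`gL` is in finitely many right cosets of `L`): the set of all `g` with this
  property contains `1`, is closed under `g -> g y` (`y ∈ L`), and under `g -> g t^{±1}`:
  `t L = ∪ t P f ⊆ B t f` (`P_fin`, `conj_P`), `t⁻¹ L = ∪ t⁻¹ B f ⊆ P t⁻¹ f` (`B_fin`, `conj_B`),
  and `g t L ⊆ g L (t f)`, so use `comm_left g`.  Use `D.ind`.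
* `comm_right g`: take inverses in `comm_left g⁻¹`.
* products: `L F L F' ⊆ L (∪_f F_f) F'`.  Everything else is similar or trivial.
* `TB.cosets`: `L f ⊆ F' L` by `comm_right`.
* `TB.count`: by `TB.cosets` it is enough to count, for fixed `f`, the `y ∈ L` with
  `‖u (f y)‖ ≤ R`; `u (f y) = u f + A^(ht f) (u y)`, so `‖u y‖ ≤ C (R + ‖u f‖) ≤ C' (R + 1)`
  (apply `A^(-ht f)` and `Bdd`); `u y` is an integer vector with sup norm at most `C' (R+1)` and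
  `y` is determined by `u y` (`u_inj` applied to `y y'⁻¹`).
* `Ell_conj`: `x^c ∈ L`.  All `g x^(c k)`, `k ∈ ℕ`, lie in `gL ⊆ L F`; pigeonhole gives `k < k'`
  with `g x^(ck) = l f`, `g x^(ck') = l' f`, so `g x^(c(k'-k)) g⁻¹ = l' l⁻¹ ∈ L`. -/

namespace Pool.Agent.HNNA

namespace WD

variable (D : WD)

theorem comm_left (g : D.G) : ∃ F : Set D.G, F.Finite ∧
    ∀ x ∈ D.L, ∃ y ∈ D.L, ∃ f ∈ F, g * x = y * f := by
  refine D.ind (fun g => ∃ F : Set D.G, F.Finite ∧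
    ∀ x ∈ D.L, ∃ y ∈ D.L, ∃ f ∈ F, g * x = y * f) ?_ ?_ ?_ ?_ g
  · exact ⟨{1}, Set.finite_singleton 1, fun x hx => ⟨x, hx, 1, rfl, by simp⟩⟩
  · rintro g y hy ⟨F, hF, h⟩
    refine ⟨F, hF, fun x hx => ?_⟩
    obtain ⟨y', hy', f, hf, e⟩ := h (y * x) (D.L.mul_mem hy hx)
    exact ⟨y', hy', f, hf, by rw [mul_assoc, e]⟩
  · rintro g ⟨F, hF, h⟩
    obtain ⟨F1, hF1, -, h1⟩ := D.P_fin
    refine ⟨Set.image2 (fun f f1 => f * (D.t * f1)) F F1, hF.image2 _ hF1, fun x hx => ?_⟩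
    obtain ⟨f1, hf1, q, hq, rfl⟩ := h1 x hx
    obtain ⟨y', hy', f, hf, e⟩ := h (D.t * q * D.t⁻¹) (D.B_le (D.conj_P q hq))
    refine ⟨y', hy', f * (D.t * f1), ⟨f, hf, f1, hf1, rfl⟩, ?_⟩
    have : g * D.t * (q * f1) = g * (D.t * q * D.t⁻¹) * (D.t * f1) := by group
    rw [this, e, mul_assoc]
  · rintro g ⟨F, hF, h⟩
    obtain ⟨F1, hF1, -, h1⟩ := D.B_fin
    refine ⟨Set.image2 (fun f f1 => f * (D.t⁻¹ * f1)) F F1, hF.image2 _ hF1, fun x hx => ?_⟩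
    obtain ⟨f1, hf1, q, hq, rfl⟩ := h1 x hx
    obtain ⟨y', hy', f, hf, e⟩ := h (D.t⁻¹ * q * D.t) (D.P_le (D.conj_B q hq))
    refine ⟨y', hy', f * (D.t⁻¹ * f1), ⟨f, hf, f1, hf1, rfl⟩, ?_⟩
    have : g * D.t⁻¹ * (q * f1) = g * (D.t⁻¹ * q * D.t) * (D.t⁻¹ * f1) := by group
    rw [this, e, mul_assoc]

theorem comm_right (g : D.G) : ∃ F : Set D.G, F.Finite ∧
    ∀ x ∈ D.L, ∃ f ∈ F, ∃ y ∈ D.L, x * g = f * y := by
  obtain ⟨F, hF, h⟩ := D.comm_left g⁻¹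
  refine ⟨F⁻¹, hF.inv, fun x hx => ?_⟩
  obtain ⟨y, hy, f, hf, e⟩ := h x⁻¹ (D.L.inv_mem hx)
  refine ⟨f⁻¹, by simpa using hf, y⁻¹, D.L.inv_mem hy, ?_⟩
  have := congrArg (fun a => a⁻¹) e
  simpa using this

variable {D}

theorem TB.mono {P Q : Set D.G} (h : D.TB Q) (hPQ : P ⊆ Q) : D.TB P := by
  obtain ⟨F, hF, h⟩ := h
  exact ⟨F, hF, fun x hx => h x (hPQ hx)⟩

theorem TB_of_finite {P : Set D.G} (h : P.Finite) : D.TB P :=
  ⟨P, h, fun x hx => ⟨1, D.L.one_mem, x, hx, by simp⟩⟩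

theorem TB_L : D.TB {x | x ∈ D.L} :=
  ⟨{1}, Set.finite_singleton 1, fun x hx => ⟨x, hx, 1, rfl, by simp⟩⟩

theorem TB.union {P Q : Set D.G} (h : D.TB P) (h' : D.TB Q) : D.TB (P ∪ Q) := by
  obtain ⟨F, hF, h⟩ := h
  obtain ⟨F', hF', h'⟩ := h'
  refine ⟨F ∪ F', hF.union hF', ?_⟩
  rintro x (hx | hx)
  · obtain ⟨y, hy, f, hf, e⟩ := h x hx
    exact ⟨y, hy, f, Or.inl hf, e⟩
  · obtain ⟨y, hy, f, hf, e⟩ := h' x hx
    exact ⟨y, hy, f, Or.inr hf, e⟩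

theorem TB_iUnion {ι : Type} (s : Set ι) (hs : s.Finite) (P : ι → Set D.G)
    (h : ∀ i ∈ s, D.TB (P i)) : D.TB {x | ∃ i ∈ s, x ∈ P i} := by
  choose! F hF hP using h
  refine ⟨⋃ i ∈ s, F i, hs.biUnion hF, ?_⟩
  rintro x ⟨i, hi, hx⟩
  obtain ⟨y, hy, f, hf, e⟩ := hP i hi x hx
  exact ⟨y, hy, f, Set.mem_biUnion hi hf, e⟩

theorem TB.mul {P Q : Set D.G} (h : D.TB P) (h' : D.TB Q) :
    D.TB {x | ∃ p ∈ P, ∃ q ∈ Q, x = p * q} := by
  obtain ⟨F, hF, h⟩ := h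
  obtain ⟨F', hF', h'⟩ := h'
  choose E hE hEc using D.comm_left
  refine ⟨⋃ f ∈ F, Set.image2 (fun e f' => e * f') (E f) F',
    hF.biUnion fun f _ => (hE f).image2 _ hF', ?_⟩
  rintro x ⟨p, hp, q, hq, rfl⟩
  obtain ⟨y, hy, f, hf, rfl⟩ := h p hp
  obtain ⟨y', hy', f', hf', rfl⟩ := h' q hq
  obtain ⟨y'', hy'', e, he, h2⟩ := hEc f y' hy'
  refine ⟨y * y'', D.L.mul_mem hy hy'', e * f', Set.mem_biUnion hf ⟨e, he, f', hf', rfl⟩, ?_⟩
  calc y * f * (y' * f') = y * (f * y') * f' := by group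
    _ = y * y'' * (e * f') := by rw [h2]; group

theorem TB.left {P : Set D.G} (h : D.TB P) (g : D.G) : D.TB {x | g * x ∈ P} :=
  (TB.mul (TB_of_finite (Set.finite_singleton g⁻¹)) h).mono
    fun x hx => ⟨g⁻¹, rfl, g * x, hx, by group⟩

theorem TB.right {P : Set D.G} (h : D.TB P) (g : D.G) : D.TB {x | x * g ∈ P} :=
  (TB.mul h (TB_of_finite (Set.finite_singleton g⁻¹))).mono
    fun x hx => ⟨x * g, hx, g⁻¹, rfl, by group⟩

theorem TB.inv {P : Set D.G} (h : D.TB P) : D.TB {x | x⁻¹ ∈ P} := by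
  obtain ⟨F, hF, h⟩ := h
  choose E hE hEc using D.comm_left
  refine ⟨⋃ f ∈ F, E f⁻¹, hF.biUnion fun f _ => hE f⁻¹, ?_⟩
  intro x hx
  obtain ⟨y, hy, f, hf, e⟩ := h _ hx
  obtain ⟨y', hy', e', he', h2⟩ := hEc f⁻¹ y⁻¹ (D.L.inv_mem hy)
  refine ⟨y', hy', e', Set.mem_biUnion hf he', ?_⟩
  rw [← h2, ← mul_inv_rev, ← e, inv_inv]

theorem TB.cosets {P : Set D.G} (h : D.TB P) : ∃ F : Set D.G, F.Finite ∧
    ∀ x ∈ P, ∃ f ∈ F, ∃ y ∈ D.L, x = f * y := by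
  obtain ⟨F, hF, h⟩ := h
  choose E hE hEc using D.comm_right
  refine ⟨⋃ f ∈ F, E f, hF.biUnion fun f _ => hE f, ?_⟩
  intro x hx
  obtain ⟨y, hy, f, hf, rfl⟩ := h x hx
  obtain ⟨e, he, y', hy', h2⟩ := hEc f y hy
  exact ⟨e, Set.mem_biUnion hf he, y', hy', h2⟩

theorem TB.ht_bdd {P : Set D.G} (h : D.TB P) : ∃ C : ℤ, ∀ x ∈ P, |D.ht x| ≤ C := by
  obtain ⟨F, hF, h⟩ := h
  obtain ⟨C, hC⟩ := (hF.image (fun f => |D.ht f|)).bddAbove
  refine ⟨C, fun x hx => ?_⟩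
  obtain ⟨y, hy, f, hf, rfl⟩ := h x hx
  rw [D.ht_mul, D.ht_L y hy, zero_add]
  exact hC ⟨f, hf, rfl⟩

theorem TB.count (hb : D.Bdd) {P : Set D.G} (h : D.TB P) : ∃ C : ℕ, ∀ R : ℕ,
    {x | x ∈ P ∧ ‖D.u x‖ ≤ R}.Finite ∧
    {x | x ∈ P ∧ ‖D.u x‖ ≤ R}.ncard ≤ C * (R + 1) ^ D.n := by
  classical
  obtain ⟨F, hF, h⟩ := h.cosets
  obtain ⟨Cb, hCb, hbd⟩ := hb
  obtain ⟨M, hM⟩ := (hF.image (fun f => ‖D.u f‖)).bddAbove
  have hM' : ∀ f ∈ F, ‖D.u f‖ ≤ max M 0 := fun f hf => (hM ⟨f, hf, rfl⟩).trans (le_max_left _ _)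
  obtain ⟨N, hN⟩ := exists_nat_ge (Cb * (1 + max M 0))
  choose yz hyz hyzu using D.u_surj
  refine ⟨F.ncard * (2 * N + 1) ^ D.n, fun R => ?_⟩
  set K : ℕ := N * (R + 1) with hK
  set Box : Finset (Fin D.n → ℤ) := Fintype.piFinset fun _ => Finset.Icc (-(K : ℤ)) K with hBox
  have hsub : {x | x ∈ P ∧ ‖D.u x‖ ≤ R} ⊆
      (fun p : D.G × (Fin D.n → ℤ) => p.1 * yz p.2) '' (F ×ˢ (Box : Set (Fin D.n → ℤ))) := by
    rintro x ⟨hx, hxR⟩
    obtain ⟨f, hf, y, hy, rfl⟩ := h x hx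
    obtain ⟨z, hz⟩ := D.u_int y hy
    have h1 : ‖D.u y‖ ≤ K := by
      have e1 : (D.A ^ (D.ht f)) (D.u y) = D.u (f * y) - D.u f := by
        rw [D.u_mul]; abel
      have e2 : D.u y = (D.A ^ (- D.ht f)) (D.u (f * y) - D.u f) := by
        rw [← e1, D.Apow_neg_cancel]
      have h0 : (0 : ℝ) ≤ max M 0 := le_max_right _ _
      have hR0 : (0 : ℝ) ≤ R := Nat.cast_nonneg R
      calc ‖D.u y‖ = ‖(D.A ^ (- D.ht f)) (D.u (f * y) - D.u f)‖ := by rw [← e2]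
        _ ≤ Cb * ‖D.u (f * y) - D.u f‖ := hbd _ _
        _ ≤ Cb * (R + max M 0) := by
            apply mul_le_mul_of_nonneg_left _ hCb.le
            exact (norm_sub_le _ _).trans (add_le_add hxR (hM' f hf))
        _ ≤ Cb * (1 + max M 0) * (R + 1) := by
            have : (R : ℝ) + max M 0 ≤ (1 + max M 0) * (R + 1) := by nlinarith
            calc Cb * (R + max M 0) ≤ Cb * ((1 + max M 0) * (R + 1)) :=
                  mul_le_mul_of_nonneg_left this hCb.le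
              _ = _ := by ring
        _ ≤ N * (R + 1) := by
            apply mul_le_mul_of_nonneg_right hN; linarith
        _ = K := by rw [hK]; push_cast; ring
    refine ⟨(f, z), ⟨hf, ?_⟩, ?_⟩
    · simp only [hBox, Finset.mem_coe, Fintype.mem_piFinset, Finset.mem_Icc]
      intro i
      have h2 : ‖(z i : ℂ)‖ ≤ K := by
        have := norm_le_pi_norm (D.u y) i
        rw [hz] at this
        rw [hz] at h1
        exact this.trans h1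
      rw [Complex.norm_intCast] at h2
      have h3 : |z i| ≤ (K : ℤ) := by exact_mod_cast h2
      exact abs_le.mp h3
    · have h4 : yz z = y := by
        have h5 : D.u (yz z * y⁻¹) = 0 := by
          rw [D.u_mul_zero (D.ht_L _ (hyz z)), D.u_inv, D.ht_L y hy, hyzu, hz]
          simp
        have := D.u_inj _ (D.L.mul_mem (hyz z) (D.L.inv_mem hy)) h5
        exact mul_inv_eq_one.mp this
      simp only [h4]
  have hfinprod : (F ×ˢ (Box : Set (Fin D.n → ℤ))).Finite := hF.prod Box.finite_toSet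
  refine ⟨(hfinprod.image _).subset hsub, ?_⟩
  refine (Set.ncard_le_ncard hsub (hfinprod.image _)).trans ?_
  refine (Set.ncard_image_le hfinprod).trans ?_
  rw [Set.ncard_prod, Set.ncard_coe_finset, hBox, Fintype.card_piFinset]
  simp only [Int.card_Icc, Finset.prod_const, Finset.card_univ, Fintype.card_fin]
  rw [mul_assoc, ← mul_pow]
  apply Nat.mul_le_mul_left
  apply Nat.pow_le_pow_left
  have : ((K : ℤ) + 1 - -(K : ℤ)).toNat = 2 * K + 1 := by omega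
  rw [this, hK]
  nlinarith

theorem Ell_conj {x : D.G} (h : D.Ell x) (g : D.G) : D.Ell (g * x * g⁻¹) := by
  obtain ⟨c, hc, hx⟩ := h
  obtain ⟨F, hF, hcomm⟩ := D.comm_left g
  have h1 : ∀ k : ℕ, ∃ f ∈ F, ∃ y ∈ D.L, g * (x ^ c) ^ k = y * f := by
    intro k
    obtain ⟨y, hy, f, hf, e⟩ := hcomm _ (D.L.pow_mem hx k)
    exact ⟨f, hf, y, hy, e⟩
  choose f hf y hy e using h1
  obtain ⟨k, -, k', -, hlt, heq⟩ := Set.infinite_univ.exists_lt_map_eq_of_mapsTo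
    (f := f) (t := F) (fun k _ => hf k) hF
  refine ⟨c * (k' - k), ?_, ?_⟩
  · have : 1 ≤ k' - k := by omega
    exact Nat.mul_pos hc this
  · have e1 : (g * x * g⁻¹) ^ (c * (k' - k)) = y k' * (y k)⁻¹ := by
      rw [conj_pow, pow_mul]
      have h2 : (x ^ c) ^ (k' - k) = (x ^ c) ^ k' * ((x ^ c) ^ k)⁻¹ := by
        rw [← pow_sub _ hlt.le]
      have h3 : g * ((x ^ c) ^ k' * ((x ^ c) ^ k)⁻¹) * g⁻¹ =
          (g * (x ^ c) ^ k') * (g * (x ^ c) ^ k)⁻¹ := by group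
      rw [h2, h3, e, e, heq]; group
    rw [e1]
    exact D.L.mul_mem (hy _) (D.L.inv_mem (hy _))

theorem ht_of_Ell {x : D.G} (h : D.Ell x) : D.ht x = 0 := by
  obtain ⟨c, hc, hx⟩ := h
  have h1 := D.ht_L _ hx
  rw [D.ht_pow] at h1
  rcases mul_eq_zero.mp h1 with h2 | h2
  · have : (c : ℤ) = 0 := h2
    omega
  · exact h2

end WD

end Pool.Agent.HNNA
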