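import Pool.Agent.HNNA.Words
import Pool.Agent.HNNA.TBl

/-! MP_4b60bf_al.  MODULE LOOPCOMM (about 200 lines).

If a live state `s` has a nonempty loop `e` with value in `L`, then every loop `f` at `s` commutes
(as a word!) with some power of `e`.

PROOF.  Suppose `e^d f ≠ f e^d` for all `d ≥ 1`.  Let `m = D.n + 1`.  For `N ≥ 1` and
`a : Fin m → Fin (N+1)` the word `X_a = Π_i (e^(a_i) f e^(N - a_i))` is a loop at `s`.  By
`block_inj` these `(N+1)^m` words are distinct, so by `U.path_uniq'` their values `ev X_a` are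
distinct.  All values lie in the fixed set `P = (L f L)^m` (products of `m` elements of the set
`{x | ∃ l l' ∈ L, x = l * ev f * l'}`), which is `TB` (`TB.mul`, independent of `N`), because
`ev (e^a) = (ev e)^a ∈ L`.  Their norm: with `C_A` from `Bdd`,
`‖u (x y)‖ ≤ ‖u x‖ + C_A ‖u y‖`, so `‖u (block)‖ ≤ C (N+1)` with `C` independent of `N`
(`u ((ev e)^a) = a • u (ev e)`, `u_pow`), and `‖u (ev X_a)‖ ≤ Σ_i C_A ‖u block_i‖ ≤ C' (N+1)`
(`ht` arbitrary: `u (x y) = u x + A^(ht x) (u y)` and `Bdd`).  By `TB.count`: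
`(N+1)^(n+1) ≤ C'' (⌈C'(N+1)⌉ + 1)^n ≤ C''' (N+1)^n` for all `N`: contradiction for large `N`. -/

namespace Pool.Agent.HNNA

namespace LC

/-- products of `m` elements of `Q` -/
def PQ {G : Type} [Group G] (Q : Set G) : ℕ → Set G
  | 0 => {1}
  | m + 1 => {x | ∃ p ∈ Q, ∃ q ∈ PQ Q m, x = p * q}

theorem PQ_TB {D : WD} {Q : Set D.G} (h : D.TB Q) (m : ℕ) : D.TB (PQ Q m) := by
  induction m with
  | zero => exact WD.TB_of_finite (Set.finite_singleton 1)
  | succ m ih => exact WD.TB.mul h ih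

theorem prod_mem_PQ {G : Type} [Group G] {Q : Set G} (l : List G) (h : ∀ x ∈ l, x ∈ Q) :
    l.prod ∈ PQ Q l.length := by
  induction l with
  | nil => simp [PQ]
  | cons x l ih =>
    rw [List.prod_cons, List.length_cons]
    exact ⟨x, h x (by simp), l.prod, ih fun y hy => h y (by simp [hy]), rfl⟩

theorem norm_prod {D : WD} {C c : ℝ} (hC : ∀ (k : ℤ) (x : V D.n), ‖(D.A ^ k) x‖ ≤ C * ‖x‖)
    (hC0 : 0 < C) (l : List D.G) (h : ∀ x ∈ l, ‖D.u x‖ ≤ c) (k : ℤ) :
    ‖(D.A ^ k) (D.u l.prod)‖ ≤ l.length * (C * c) := by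
  induction l generalizing k with
  | nil => simp
  | cons x l ih =>
    rw [List.prod_cons, D.u_mul, map_add, ← D.Apow_add, List.length_cons]
    refine (norm_add_le _ _).trans ?_
    have h1 := ih (fun y hy => h y (by simp [hy])) (k + D.ht x)
    have h2 : ‖(D.A ^ k) (D.u x)‖ ≤ C * c :=
      (hC k _).trans (mul_le_mul_of_nonneg_left (h x (by simp)) hC0.le)
    push_cast
    linarith

theorem ev_flatten {D : WD} (U : UAS D) (l : List U.W) :
    U.ev l.flatten = (l.map U.ev).prod := by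
  induction l with
  | nil => simp
  | cons w l ih => rw [List.flatten_cons, UAS.ev_append, ih, List.map_cons, List.prod_cons]

theorem go_flatten {D : WD} (U : UAS D) {s : U.S} (l : List U.W) (h : ∀ w ∈ l, U.go s w = s) :
    U.go s l.flatten = s := by
  induction l with
  | nil => rfl
  | cons w l ih =>
    rw [List.flatten_cons, UAS.go_append, h w (by simp)]
    exact ih fun y hy => h y (by simp [hy])

theorem norm_block {D : WD} {C : ℝ} (hC : ∀ (k : ℤ) (x : V D.n), ‖(D.A ^ k) x‖ ≤ C * ‖x‖)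
    (hC0 : 0 < C) {a : D.G} (ha : D.ht a = 0) (b : D.G) {N j : ℕ} (hj : j ≤ N) :
    ‖D.u (a ^ j * b * a ^ (N - j))‖ ≤ (N + 1) * (‖D.u b‖ + (1 + C) * ‖D.u a‖) := by
  have h1 : D.ht (a ^ j) = 0 := by rw [D.ht_pow, ha, mul_zero]
  rw [mul_assoc, D.u_mul_zero h1, D.u_mul, D.u_pow ha, D.u_pow ha]
  have h2 : ‖((j : ℕ) : ℂ) • D.u a‖ ≤ N * ‖D.u a‖ := by
    rw [norm_smul, Complex.norm_natCast]
    exact mul_le_mul_of_nonneg_right (by exact_mod_cast hj) (norm_nonneg _)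
  have h3 : ‖(D.A ^ D.ht b) (((N - j : ℕ) : ℂ) • D.u a)‖ ≤ C * (N * ‖D.u a‖) := by
    refine (hC _ _).trans (mul_le_mul_of_nonneg_left ?_ hC0.le)
    rw [norm_smul, Complex.norm_natCast]
    exact mul_le_mul_of_nonneg_right (by exact_mod_cast Nat.sub_le N j) (norm_nonneg _)
  have h4 : ‖((j : ℕ) : ℂ) • D.u a + (D.u b + (D.A ^ D.ht b) (((N - j : ℕ) : ℂ) • D.u a))‖ ≤
      N * ‖D.u a‖ + (‖D.u b‖ + C * (N * ‖D.u a‖)) :=
    (norm_add_le _ _).trans (add_le_add h2 ((norm_add_le _ _).trans (add_le_add le_rfl h3)))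
  refine h4.trans ?_
  have hN : (0 : ℝ) ≤ N := Nat.cast_nonneg N
  have ha0 := norm_nonneg (D.u a)
  have hb0 := norm_nonneg (D.u b)
  have h5 : 0 ≤ (N : ℝ) * ‖D.u b‖ := by positivity
  have h6 : 0 ≤ C * ‖D.u a‖ := by positivity
  nlinarith

end LC

namespace UAS

variable {D : WD} (U : UAS D)

theorem loop_comm (hb : D.Bdd) {s : U.S} (hs : U.live s) {e f : U.W} (hne : e ≠ [])
    (heL : U.ev e ∈ D.L) (he : U.go s e = s) (hf : U.go s f = s) :
    ∃ d : ℕ, 1 ≤ d ∧ wpow e d ++ f = f ++ wpow e d := by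
  classical
  by_contra hcon
  push Not at hcon
  obtain ⟨CA, hCA0, hCA⟩ := hb
  set a := U.ev e with ha
  set b := U.ev f with hbdef
  have hta : D.ht a = 0 := D.ht_L a heL
  set Q : Set D.G := {x | ∃ p ∈ {x | ∃ p ∈ {x | x ∈ D.L}, ∃ q ∈ ({b} : Set D.G), x = p * q},
    ∃ q ∈ {x | x ∈ D.L}, x = p * q} with hQ
  have hQTB : D.TB Q := WD.TB.mul (WD.TB.mul WD.TB_L (WD.TB_of_finite (Set.finite_singleton b)))
    WD.TB_L
  obtain ⟨C, hC⟩ := WD.TB.count ⟨CA, hCA0, hCA⟩ (LC.PQ_TB hQTB (D.n + 1))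
  set c0 : ℝ := ‖D.u b‖ + (1 + CA) * ‖D.u a‖ with hc0
  obtain ⟨M, hM⟩ := exists_nat_ge (((D.n + 1 : ℕ) : ℝ) * (CA * c0))
  set N : ℕ := C * (M + 1) ^ D.n with hN
  set X : (Fin (D.n + 1) → Fin (N + 1)) → U.W := fun a =>
    (List.ofFn fun i => wpow e (a i) ++ f ++ wpow e (N - a i)).flatten with hX
  have hXinj : Function.Injective X := block_inj hcon N (D.n + 1)
  have hgo : ∀ v, U.go s (X v) = s := by
    intro v
    refine LC.go_flatten U _ fun w hw => ?_
    rw [List.mem_ofFn'] at hw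
    obtain ⟨i, rfl⟩ := hw
    simp only [go_append]
    rw [U.go_wpow he, hf, U.go_wpow he]
  have hevinj : Function.Injective fun v => U.ev (X v) := by
    intro v v' h
    exact hXinj (U.path_uniq' hs.1 hs.2 (hgo v) (hgo v') h)
  have hmem : ∀ v, U.ev (X v) ∈ {x | x ∈ LC.PQ Q (D.n + 1) ∧
      ‖D.u x‖ ≤ (((N + 1) * M : ℕ) : ℝ)} := by
    intro v
    rw [hX]
    simp only
    rw [LC.ev_flatten]
    set l : List D.G := (List.ofFn fun i => wpow e (v i) ++ f ++ wpow e (N - v i)).map U.ev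
      with hl
    have hlen : l.length = D.n + 1 := by rw [hl]; simp
    have hel : ∀ x ∈ l, ∃ j : ℕ, j ≤ N ∧ x = a ^ j * b * a ^ (N - j) := by
      intro x hx
      rw [hl, List.mem_map] at hx
      obtain ⟨w, hw, rfl⟩ := hx
      rw [List.mem_ofFn'] at hw
      obtain ⟨i, rfl⟩ := hw
      refine ⟨v i, Nat.lt_succ_iff.1 (v i).2, ?_⟩
      simp only [ev_append, ev_wpow]
      rfl
    constructor
    · rw [← hlen]
      refine LC.prod_mem_PQ l fun x hx => ?_
      obtain ⟨j, hj, rfl⟩ := hel x hx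
      exact ⟨a ^ j * b, ⟨a ^ j, D.L.pow_mem heL j, b, rfl, rfl⟩, a ^ (N - j),
        D.L.pow_mem heL _, rfl⟩
    · have h1 := LC.norm_prod hCA hCA0 l (c := (N + 1) * c0) (fun x hx => by
        obtain ⟨j, hj, rfl⟩ := hel x hx
        exact LC.norm_block hCA hCA0 hta b hj) 0
      rw [hlen] at h1
      have h2 : (D.A ^ (0 : ℤ)) (D.u l.prod) = D.u l.prod := by simp
      rw [h2] at h1
      refine h1.trans ?_
      push_cast at hM ⊢
      have hN0 : (0 : ℝ) ≤ (N : ℝ) + 1 := by positivity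
      calc ((D.n : ℝ) + 1) * (CA * (((N : ℝ) + 1) * c0)) =
          ((N : ℝ) + 1) * (((D.n : ℝ) + 1) * (CA * c0)) := by ring
        _ ≤ ((N : ℝ) + 1) * M := mul_le_mul_of_nonneg_left hM hN0
  obtain ⟨hfin, hcard⟩ := hC ((N + 1) * M)
  have h1 : (N + 1) ^ (D.n + 1) ≤ {x | x ∈ LC.PQ Q (D.n + 1) ∧
      ‖D.u x‖ ≤ (((N + 1) * M : ℕ) : ℝ)}.ncard := by
    have h2 : (Set.range fun v => U.ev (X v)).ncard = (N + 1) ^ (D.n + 1) := by
      rw [← Set.image_univ, Set.ncard_image_of_injective _ hevinj, Set.ncard_univ,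
        Nat.card_eq_fintype_card, Fintype.card_fun, Fintype.card_fin, Fintype.card_fin]
    rw [← h2]
    refine Set.ncard_le_ncard ?_ hfin
    rintro x ⟨v, rfl⟩
    exact hmem v
  have h3 : (N + 1) ^ (D.n + 1) ≤ N * (N + 1) ^ D.n := by
    refine (h1.trans hcard).trans ?_
    have h4 : (N + 1) * M + 1 ≤ (M + 1) * (N + 1) := by nlinarith
    calc C * ((N + 1) * M + 1) ^ D.n ≤ C * ((M + 1) * (N + 1)) ^ D.n :=
          Nat.mul_le_mul_left _ (Nat.pow_le_pow_left h4 _)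
      _ = N * (N + 1) ^ D.n := by rw [hN, mul_pow]; ring
  have h5 : 0 < (N + 1) ^ D.n := by positivity
  rw [pow_succ, mul_comm] at h3
  have h6 := Nat.le_of_mul_le_mul_right h3 h5
  omega

end UAS

end Pool.Agent.HNNA
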