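import Pool.Agent.HNNA.LoopComm

/-! MP_4b60bf_al.  MODULE LOOPVEL (about 150 lines).

Let `s1` be live with a nonempty elliptic loop `e`, and let `p : s1 → s2`, `p' : s2 → s1` and a
loop `f` at `s2` be given.  Then `f` is elliptic, `ht p + ht p' = 0`, and the velocity of `f`
transported to `s1` is the velocity of `e`.

PROOF.  `(ev e)^c ∈ L` with `c ≥ 1`; put `e1 = e^c` (loop at `s1`, value in `L`, nonempty).
For every loop `g` at `s1`, `loop_comm` gives `d ≥ 1` with `e1^d g = g e1^d` as words, and then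
`comm_wpow` gives `g^(|e1^d|) = (e1^d)^|g|`, i.e. `(ev g)^(d c |e|) = (ev e)^(c d |g|)` in `G`.
Taking `ht`: `d c |e| * ht g = c d |g| * ht e = 0` (`ht_of_Ell`), so `ht (ev g) = 0`; taking `u`
(`u_pow`): `|e| u(ev g) = |g| u(ev e)`.  (*)
Apply this to `f1 = p f p'` and `f0 = p p'`: `ht p + ht p' = 0`, `ht f = 0`, and
`u(ev f1) - u(ev f0) = A^(ht p) (u (ev f))` (because
`u (p f p') = u p + A^(ht p) (u f + u p')`, `u (p p') = u p + A^(ht p) (u p')`), so by (*)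
`|e| A^(ht p) (u f) = (|f1| - |f0|) u(ev e) = |f| u(ev e)`.
Ellipticity of `f`: by `loops_comm` the words `f1`, `f0` commute, so their values commute; with
`a` a common multiple of the exponents, `(ev f1)^a` and `(ev f0)^a` are powers of `(ev e)^c ∈ L`,
so `(ev f1 * (ev f0)⁻¹)^a = (ev f1)^a ((ev f0)^a)⁻¹ ∈ L`.  As `ev f1 * (ev f0)⁻¹ =
ev p * ev f * (ev p)⁻¹`, use `Ell_conj` with `(ev p)⁻¹`. -/

namespace Pool.Agent.HNNA

namespace UAS

variable {D : WD} (U : UAS D)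

/-- the key computation for loops at `s1` -/
lemma loop_key (hb : D.Bdd) {s : U.S} (hs : U.live s) {e : U.W} (hne : e ≠ []) {c : ℕ}
    (hc : 1 ≤ c) (hcL : U.ev e ^ c ∈ D.L) (he : U.go s e = s) (g : U.W) (hg : U.go s g = s) :
    (∃ d : ℕ, 1 ≤ d ∧ wpow (wpow e c) d ++ g = g ++ wpow (wpow e c) d) ∧
    (∃ k : ℕ, 1 ≤ k ∧ U.ev g ^ k ∈ D.L) ∧ D.ht (U.ev g) = 0 ∧
    (e.length : ℂ) • D.u (U.ev g) = (g.length : ℂ) • D.u (U.ev e) := by
  have hel : 0 < e.length := List.length_pos_iff.2 hne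
  have hne1 : wpow e c ≠ [] := by
    rw [← List.length_pos_iff, wpow_length]
    exact Nat.mul_pos hc hel
  obtain ⟨d, hd, hdg⟩ := U.loop_comm hb hs hne1 (by rw [ev_wpow]; exact hcL)
    (U.go_wpow he c) hg
  have hEll : D.Ell (U.ev e) := ⟨c, hc, hcL⟩
  have hht : D.ht (U.ev e) = 0 := WD.ht_of_Ell hEll
  have h1 := comm_wpow hdg
  have h2 := congrArg U.ev h1
  rw [ev_wpow, ev_wpow, ev_wpow, ev_wpow, wpow_length, wpow_length] at h2
  have hk : 1 ≤ d * (c * e.length) := Nat.mul_pos hd (Nat.mul_pos hc hel)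
  have h3 := congrArg D.ht h2
  rw [D.ht_pow, D.ht_pow, D.ht_pow, D.ht_pow, hht] at h3
  have hk0 : (((d * (c * e.length) : ℕ)) : ℤ) ≠ 0 := by exact_mod_cast (by omega : _ ≠ 0)
  have hg0 : D.ht (U.ev g) = 0 := by
    have h4 : (((d * (c * e.length) : ℕ)) : ℤ) * D.ht (U.ev g) = 0 := by
      rw [← h3]; ring
    exact (mul_eq_zero.1 h4).resolve_left hk0
  refine ⟨⟨d, hd, hdg⟩, ⟨d * (c * e.length), hk, ?_⟩, hg0, ?_⟩
  · rw [← h2]
    exact D.L.pow_mem (D.L.pow_mem hcL _) _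
  · have h5 := congrArg D.u h2
    rw [← pow_mul, ← pow_mul, D.u_pow hht, D.u_pow hg0] at h5
    have hdc : ((d : ℂ) * (c : ℂ)) ≠ 0 := by
      refine mul_ne_zero ?_ ?_
      · exact_mod_cast (by omega : d ≠ 0)
      · exact_mod_cast (by omega : c ≠ 0)
    apply smul_right_injective (V D.n) hdc
    simp only [smul_smul]
    have e1 : (d : ℂ) * (c : ℂ) * (e.length : ℂ) = ((d * (c * e.length) : ℕ) : ℂ) := by
      push_cast; ring
    have e2 : (d : ℂ) * (c : ℂ) * (g.length : ℂ) = ((c * (d * g.length) : ℕ) : ℂ) := by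
      push_cast; ring
    rw [e1, e2]
    exact h5.symm

theorem loop_vel (hb : D.Bdd) {s1 s2 : U.S} (h1 : U.live s1) {e p p' f : U.W} (hne : e ≠ [])
    (hE : D.Ell (U.ev e)) (he : U.go s1 e = s1) (hp : U.go s1 p = s2) (hp' : U.go s2 p' = s1)
    (hf : U.go s2 f = s2) :
    D.Ell (U.ev f) ∧ D.ht (U.ev p) + D.ht (U.ev p') = 0 ∧
    (e.length : ℂ) • (D.A ^ (D.ht (U.ev p))) (D.u (U.ev f)) = (f.length : ℂ) • D.u (U.ev e) := by
  obtain ⟨c, hc, hcL⟩ := hE
  have hel : 0 < e.length := List.length_pos_iff.2 hne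
  have hne1 : wpow e c ≠ [] := by
    rw [← List.length_pos_iff, wpow_length]
    exact Nat.mul_pos hc hel
  obtain ⟨⟨d1, hd1, hc1⟩, ⟨k1, hk1, hL1⟩, hh1, hv1⟩ := U.loop_key hb h1 hne hc hcL he
    (p ++ f ++ p') (by rw [go_append, go_append, hp, hf, hp'])
  obtain ⟨⟨d0, hd0, hc0⟩, ⟨k0, hk0, hL0⟩, hh0, hv0⟩ := U.loop_key hb h1 hne hc hcL he
    (p ++ p') (by rw [go_append, hp, hp'])
  have hcomm := congrArg U.ev (loops_comm hne1 hd1 hd0 hc1 hc0)
  rw [ev_append] at hcomm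
  rw [U.ev_append (p ++ p')] at hcomm
  rw [ev_append, D.ht_mul] at hh0
  rw [ev_append, ev_append, D.ht_mul, D.ht_mul] at hh1
  have hhf : D.ht (U.ev f) = 0 := by linarith
  refine ⟨?_, hh0, ?_⟩
  · have hcc : Commute (U.ev (p ++ f ++ p')) (U.ev (p ++ p'))⁻¹ := by
      exact (show Commute (U.ev (p ++ f ++ p')) (U.ev (p ++ p')) from hcomm).inv_right
    have hEll : D.Ell (U.ev (p ++ f ++ p') * (U.ev (p ++ p'))⁻¹) := by
      refine ⟨k1 * k0, Nat.mul_pos hk1 hk0, ?_⟩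
      rw [hcc.mul_pow]
      refine D.L.mul_mem ?_ ?_
      · rw [pow_mul]; exact D.L.pow_mem hL1 _
      · rw [inv_pow, mul_comm, pow_mul]; exact D.L.inv_mem (D.L.pow_mem hL0 _)
    have h3 := WD.Ell_conj hEll (U.ev p)⁻¹
    have h4 : (U.ev p)⁻¹ * (U.ev (p ++ f ++ p') * (U.ev (p ++ p'))⁻¹) * ((U.ev p)⁻¹)⁻¹ =
        U.ev f := by
      rw [ev_append, ev_append, ev_append]
      group
    rwa [h4] at h3
  · have h5 : D.u (U.ev (p ++ f ++ p')) - D.u (U.ev (p ++ p')) =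
        (D.A ^ (D.ht (U.ev p))) (D.u (U.ev f)) := by
      rw [ev_append, ev_append, ev_append, mul_assoc, D.u_mul, D.u_mul (U.ev p) (U.ev p'),
        D.u_mul_zero hhf, map_add]
      abel
    rw [← h5, smul_sub, hv1, hv0, ← sub_smul]
    congr 1
    simp only [List.length_append]
    push_cast
    ring

end UAS

end Pool.Agent.HNNA
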