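import Pool.Agent.HNNA.TBl

/-! MP_4b60bf_al.  MODULE XIBOUND (about 200 lines).

For a tame type the `ξ`-displacement of words staying in the branch and ending in a given
tree-bounded set is bounded.

PROOFS.
* `dist_le_of_values`: a sequence `φ 0, ..., φ M` in `ℂ` with consecutive distances at most `c` and at
  most `N` distinct values has `‖φ M - φ 0‖ ≤ N c` (induction on `N`: let `m` be the LAST time with
  `φ m = φ 0`; if `m = M` done; otherwise the values `φ (m+1), ..., φ M` are all different from `φ 0`,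
  so there are at most `N - 1` of them).
* `xi_bound`: let `P'` be the set of `Tame1` for `P`, `P' ⊆ F L` (`TB.cosets`).  For an admissible
  `x` let `φ m = ξ (u (r * pos x m))`, `m = 0..|x|`, and label `m` by
  `(go s (x.take m), f_m) ∈ S × F` with `r * pos x m ∈ f_m L`.  If `m < m'` have the same label, the
  piece `e` of `x` between them is a nonempty loop at `go s (x.take m)` with value in `L`, so by
  `Tame2`: `A^k (u e) = u e`, so `ξ (u e) = lam^k ξ (u e)` and `ξ (u e) = 0`; hence
  `φ m' - φ m = ξ (A^(ht ..) (u e)) = lam^(ht ..) ξ (u e) = 0`.  So `φ` is a function of the label and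
  takes at most `card S * F.ncard` values.  Consecutive values differ by
  `|lam^(ht ..)| |ξ (u (gen i))| ≤ c := max_i |ξ (u (gen i))|`.  Apply `dist_le_of_values`. -/

namespace Pool.Agent.HNNA

theorem dist_le_of_values (φ : ℕ → ℂ) (c : ℝ) (hc : 0 ≤ c) (M N : ℕ)
    (h1 : ∀ m < M, ‖φ (m + 1) - φ m‖ ≤ c)
    (h2 : (φ '' {m | m ≤ M}).ncard ≤ N) : ‖φ M - φ 0‖ ≤ N * c := by
  classical
  induction N generalizing φ M with
  | zero =>
    exfalso
    have hfin : (φ '' {m | m ≤ M}).Finite := (Set.finite_le_nat M).image _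
    have h3 : (φ '' {m | m ≤ M}) = ∅ := (Set.ncard_eq_zero hfin).mp (Nat.le_zero.mp h2)
    have h4 : φ 0 ∈ φ '' {m | m ≤ M} := ⟨0, Nat.zero_le _, rfl⟩
    rw [h3] at h4
    exact h4
  | succ N ih =>
    set m := Nat.findGreatest (fun j => φ j = φ 0) M with hm
    have hmM : m ≤ M := Nat.findGreatest_le M
    have hm0 : φ m = φ 0 := Nat.findGreatest_spec (P := fun j => φ j = φ 0) (Nat.zero_le M) rfl
    rcases Nat.lt_or_ge m M with hlt | hge
    · have hne : ∀ j, m < j → j ≤ M → φ j ≠ φ 0 := fun j hj hjM =>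
        Nat.findGreatest_is_greatest hj hjM
      have h3 : ‖φ M - φ (m + 1)‖ ≤ N * c := by
        have h4 := ih (fun j => φ (m + 1 + j)) (M - (m + 1)) (fun j hj => by
          have := h1 (m + 1 + j) (by omega)
          simpa [add_assoc] using this) (by
          have hfin : (φ '' {j | j ≤ M}).Finite := (Set.finite_le_nat M).image _
          have hsub : (fun j => φ (m + 1 + j)) '' {j | j ≤ M - (m + 1)} ⊆
              (φ '' {j | j ≤ M}) \ {φ 0} := by
            rintro v ⟨j, hj, rfl⟩
            have hj' : j ≤ M - (m + 1) := hj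
            refine ⟨⟨m + 1 + j, ?_, rfl⟩, ?_⟩
            · show m + 1 + j ≤ M
              omega
            · exact hne _ (by omega) (by omega)
          have h5 := Set.ncard_le_ncard hsub (hfin.subset Set.sdiff_subset)
          have h6 : φ 0 ∈ φ '' {j | j ≤ M} := ⟨0, Nat.zero_le _, rfl⟩
          have h7 := Set.ncard_sdiff_singleton_add_one h6 hfin
          omega)
        have h5 : m + 1 + (M - (m + 1)) = M := by omega
        simpa [h5] using h4
      calc ‖φ M - φ 0‖ = ‖(φ M - φ (m + 1)) + (φ (m + 1) - φ m)‖ := by rw [hm0]; congr 1; ring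
        _ ≤ ‖φ M - φ (m + 1)‖ + ‖φ (m + 1) - φ m‖ := norm_add_le _ _
        _ ≤ N * c + c := add_le_add h3 (h1 m hlt)
        _ = ((N + 1 : ℕ) : ℝ) * c := by push_cast; ring
    · have : m = M := le_antisymm hmM hge
      rw [← this, hm0, sub_self, norm_zero]
      positivity

namespace UAS

variable {D : WD} (U : UAS D)

/-- one step of `ξ (u ·)` -/
theorem xi_step {ξ : V D.n →ₗ[ℂ] ℂ} {lam : ℂ} (hξ : D.Eig ξ lam) (hlam : ‖lam‖ = 1) (g h : D.G) :
    ξ (D.u (g * h)) - ξ (D.u g) = lam ^ (D.ht g) * ξ (D.u h) := by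
  have hl : lam ≠ 0 := by
    intro h0
    rw [h0, norm_zero] at hlam
    exact zero_ne_one hlam
  rw [D.u_mul, map_add, WD.eig_zpow hξ hl]
  ring

theorem xi_bound {ξ : V D.n →ₗ[ℂ] ℂ} {lam : ℂ} (hξ : D.Eig ξ lam) (hlam : ‖lam‖ = 1)
    (hroot : ∀ k : ℕ, 1 ≤ k → lam ^ k ≠ 1) {s : U.S} {r : D.G} (h1 : U.Tame1 s r)
    (h2 : U.Tame2 s) (P : Set D.G) (hP : D.TB P) : ∃ C : ℝ, ∀ x : U.W, U.coacc (U.go s x) →
      U.Stay r x → r * U.ev x ∈ P → ‖ξ (D.u (r * U.ev x)) - ξ (D.u r)‖ ≤ C := by
  classical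
  have hl : lam ≠ 0 := by
    intro h0
    rw [h0, norm_zero] at hlam
    exact zero_ne_one hlam
  obtain ⟨P', hP', hT⟩ := h1 P hP
  obtain ⟨F, hF, hFc⟩ := hP'.cosets
  set c : ℝ := ∑ i, ‖ξ (D.u (U.gen i))‖ with hc
  have hc0 : 0 ≤ c := Finset.sum_nonneg fun _ _ => norm_nonneg _
  refine ⟨((Fintype.card U.S * F.ncard : ℕ) : ℝ) * c, fun x hx hst hxP => ?_⟩
  have hpos := hT x hx hst hxP
  -- labels
  have hlab : ∀ m : ℕ, ∃ f ∈ F, ∃ y ∈ D.L, r * U.pos x m = f * y := fun m => hFc _ (hpos m)
  choose f hf y hy hfy using hlab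
  have key : ∀ m m' : ℕ, m < m' → m' ≤ x.length → U.go s (x.take m) = U.go s (x.take m') →
      f m = f m' → ξ (D.u (r * U.pos x m)) = ξ (D.u (r * U.pos x m')) := by
    intro m m' hmm hm' hs hff
    set e : U.W := (x.take m').drop m with he
    have hev : U.ev e = (U.pos x m)⁻¹ * U.pos x m' := U.ev_piece x hmm.le
    have htake : x.take m' = x.take m ++ e := by
      have h3 : x.take m = (x.take m').take m := by simp [List.take_take, hmm.le]
      rw [h3, he, List.take_append_drop]
    have hgo : U.go (U.go s (x.take m)) e = U.go s (x.take m) := by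
      rw [← U.go_append, ← htake, hs]
    have hne : e ≠ [] := by
      intro h0
      have h3 := congrArg List.length htake
      rw [h0, List.append_nil, List.length_take, List.length_take] at h3
      omega
    have hcoacc : U.coacc (U.go s (x.take m)) := by
      have h3 : U.coacc (U.go (U.go s (x.take m)) (x.drop m)) := by
        rw [← U.go_append, List.take_append_drop]
        exact hx
      exact U.coacc_of_go h3
    have hL : U.ev e ∈ D.L := by
      have h3 : U.ev e = (y m)⁻¹ * y m' := by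
        calc U.ev e = (r * U.pos x m)⁻¹ * (r * U.pos x m') := by rw [hev]; group
          _ = (f m * y m)⁻¹ * (f m' * y m') := by rw [hfy, hfy]
          _ = (y m)⁻¹ * y m' := by rw [hff]; group
      rw [h3]
      exact D.L.mul_mem (D.L.inv_mem (hy m)) (hy m')
    obtain ⟨k, hk, hAk⟩ := h2 (x.take m) hcoacc e hne hgo hL
    have hz : ξ (D.u (U.ev e)) = 0 := by
      have h3 : ξ ((D.A ^ (k : ℤ)) (D.u (U.ev e))) = lam ^ (k : ℤ) * ξ (D.u (U.ev e)) :=
        WD.eig_zpow hξ hl k _
      rw [zpow_natCast, zpow_natCast, hAk] at h3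
      have h4 : (lam ^ k - 1) * ξ (D.u (U.ev e)) = 0 := by
        rw [sub_mul, one_mul, ← h3, sub_self]
      rcases mul_eq_zero.mp h4 with h5 | h5
      · exact absurd (sub_eq_zero.mp h5) (hroot k hk)
      · exact h5
    have h3 := xi_step hξ hlam (r * U.pos x m) (U.ev e)
    rw [hz, mul_zero, sub_eq_zero] at h3
    rw [← h3, hev]
    congr 2
    group
  have hmain := dist_le_of_values (fun m => ξ (D.u (r * U.pos x m))) c hc0 x.length
    (Fintype.card U.S * F.ncard) ?_ ?_
  · simpa using hmain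
  · intro m hm
    have h3 : r * U.pos x (m + 1) = r * U.pos x m * U.gen x[m] := by
      rw [U.pos_succ hm, mul_assoc]
    show ‖ξ (D.u (r * U.pos x (m + 1))) - ξ (D.u (r * U.pos x m))‖ ≤ c
    rw [h3, xi_step hξ hlam, norm_mul, norm_zpow, hlam, one_zpow, one_mul]
    exact Finset.single_le_sum (f := fun i => ‖ξ (D.u (U.gen i))‖) (fun _ _ => norm_nonneg _)
      (Finset.mem_univ _)
  · -- the values are determined by the labels
    set T : Set (U.S × D.G) := (Set.univ : Set U.S) ×ˢ F with hTdef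
    have hTfin : T.Finite := Set.finite_univ.prod hF
    have hTc : T.ncard = Fintype.card U.S * F.ncard := by
      rw [hTdef, Set.ncard_prod, Set.ncard_univ, Nat.card_eq_fintype_card]
    have hex : ∀ v ∈ (fun m => ξ (D.u (r * U.pos x m))) '' {m | m ≤ x.length},
        ∃ m, m ≤ x.length ∧ ξ (D.u (r * U.pos x m)) = v := by
      rintro v ⟨m, hm, rfl⟩
      exact ⟨m, hm, rfl⟩
    choose! μ hμ1 hμ2 using hex
    rw [← hTc]
    refine Set.ncard_le_ncard_of_injOn (fun v => (U.go s (x.take (μ v)), f (μ v))) ?_ ?_ hTfin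
    · intro v _
      exact ⟨Set.mem_univ _, hf _⟩
    · intro v hv v' hv' hvv
      have h3 : U.go s (x.take (μ v)) = U.go s (x.take (μ v')) := congrArg Prod.fst hvv
      have h4 : f (μ v) = f (μ v') := congrArg Prod.snd hvv
      rw [← hμ2 v hv, ← hμ2 v' hv']
      rcases lt_trichotomy (μ v) (μ v') with h5 | h5 | h5
      · exact key _ _ h5 (hμ1 v' hv') h3 h4
      · rw [h5]
      · exact (key _ _ h5 (hμ1 v hv) h3.symm h4.symm).symm

end UAS

end Pool.Agent.HNNA
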