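import Pool.Agent.HNNA.Entry
import Pool.Agent.HNNA.Goodbr
import Pool.Agent.HNNA.XiBound

/-! MP_4b60bf_al.  The hypotheses of the final argument in one structure. -/

namespace Pool.Agent.HNNA

/-- Everything that is fixed in the final argument: a good branch `γ`, the right multiplier `b`,
the finite entry set `R`, the finite set `Kb` of differences, the eigen-covector. -/
structure Cfg where
  D : WD
  U : UAS D
  hb : D.Bdd
  ξ : V D.n →ₗ[ℂ] ℂ
  lam : ℂ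
  hξ : D.Eig ξ lam
  hlam : ‖lam‖ = 1
  hroot : ∀ k : ℕ, 1 ≤ k → lam ^ k ≠ 1
  b : D.G
  hbL : b ∈ D.L
  R : Set D.G
  hR : U.EntrySet R
  Kb : Set D.G
  hKb : Kb.Finite
  ftb : ∀ (g : D.G) (m : ℕ), (U.pos (U.wd g) m)⁻¹ * U.pos (U.wd (g * b)) m ∈ Kb
  j0 : ℕ
  γ : D.G
  hγ : γ ∈ D.lv j0
  tame : ∀ s : U.S, ∀ r ∈ R, U.Real γ s r → U.Tame1 s r ∧ U.Tame2 s

namespace Cfg

variable (c : Cfg)

/-- the finite set of pair types -/
def PTs : Set c.U.PT := {Y | Y.2.2.1 ∈ c.Kb ∧ Y.2.2.2 ∈ c.R}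

/-- `Y` occurs as type of a cut at some level above `γ` -/
def Occ (Y : c.U.PT) : Prop := ∃ k, (c.U.Pre c.γ k Y).Nonempty

/-- the `ξ`-coordinate of the final entry position in the branch `γ·br` -/
noncomputable def F (g : c.D.G) : ℂ := c.ξ (c.D.u (c.γ⁻¹ * c.U.Ent c.γ (c.U.wd g)))

/-- the elements of level `l` above `γ` -/
def Lev (l : ℕ) : Set c.D.G := {g | c.γ⁻¹ * g ∈ c.D.lv l}

/-- weighted number of the elements of level `l` above `γ` -/
noncomputable def T (l : ℕ) (ρ : ℝ) : ℝ := ∑' g : c.Lev l, ρ ^ (c.U.wd (g : c.D.G)).length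

end Cfg

end Pool.Agent.HNNA
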