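import Pool.Agent.HNNA.ThetaB

/-! MP_4b60bf_al.  MODULE SUFREG (about 250 lines): the suffix sets are regular languages.

PROOF.  Let `Y = (s, s', d, r)` occur: `π ∈ Pre γ k Y`, `π'` (`tame_occ`: `Tame1 s r`).  By
Myhill-Nerode (`Language.isRegular_iff_finite_range_leftQuotient`) it is enough to show that
`𝓛 = {σ | σ ∈ Suf b Y j}` has finitely many left quotients.  Let `P'` be the `TB` set of `Tame1` for
`P = lv j` (`TB_lv`), contained in finitely many right cosets of `L`, hence (`B_fin`) in finitely many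
right cosets `B f`, `f ∈ F`.
For a word `x` consider the data
(1) `go s x`; (2) the set `{f ∈ F | r ev x ∈ B f}`;
(3) the set of all `(q, e) ∈ S × Kb` such that there is `x'` with `|x'| = |x|`, `go s' x' = q`,
    `e = (ev x)⁻¹ d ev x'`;
(4) the set of all `e ∈ Kb` such that there is `x'` with `|x'| < |x|`, `go s' x' ∈ accept`,
    `e = (ev x)⁻¹ d ev x'`;
(5) whether the left quotient of `𝓛` by `x` is empty.
These data take finitely many values.  CLAIM: they determine the left quotient.  If it is nonempty,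
then for some `σ`: `x ++ σ ∈ 𝓛`, so `r pos x m ∈ br` for all `m`, and `r ev x ∈ P'` (`Tame1`), so
`r ev x ∈ B f` for some `f ∈ F`.  For such `x`:
`x ++ σ ∈ 𝓛` iff `go (go s x) σ ∈ accept`, `∀ m, (r ev x) pos σ m ∈ br`, `(r ev x) ev σ ∈ lv j` (both
depend only on the class `B f`: `br_Binv`, `lv_B_left`), and (`*`) there is `ρ'` with
`go s' ρ' ∈ accept`, `ev x ev σ b = d ev ρ'`.
Given `ρ'` as in (`*`): the words `w = π ++ x ++ σ`, `w' = π' ++ ρ'` are accepted and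
`ev w' = ev w * b`, so by `ftb` (and `wd_ev`) the differences at time `|π| + |x|` lie in `Kb`:
if `|ρ'| ≥ |x|` with `ρ' = x' ++ σ'`: `e = (ev x)⁻¹ d ev x' ∈ Kb`, `(go s' x', e)` is in (3) and
`ev σ b = e ev σ'`; if `|ρ'| < |x|`: `e = (ev x)⁻¹ d ev ρ' = ev σ b ∈ Kb` is in (4).
Conversely, if `(q, e)` is in (3) and `σ'` satisfies `go q σ' ∈ accept`, `ev σ b = e ev σ'`, then
`ρ' = x' ++ σ'` works, and if `e = ev σ b` is in (4) then `ρ' = x'` works.  So (`*`) depends only on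
(3), (4) and `σ`. -/

namespace Pool.Agent.HNNA

namespace Cfg

variable (c : Cfg)

/-- membership in the suffix set, spelled out -/
theorem mem_suf {Y : c.U.PT} {j : ℕ} {σ : c.U.W} : σ ∈ c.U.Suf c.b Y j ↔
    c.U.go Y.1 σ ∈ c.U.M.accept ∧ c.U.Stay Y.2.2.2 σ ∧ Y.2.2.2 * c.U.ev σ ∈ c.D.lv j ∧
    ∃ σ' : c.U.W, c.U.go Y.2.1 σ' ∈ c.U.M.accept ∧ c.U.ev σ * c.b = Y.2.2.1 * c.U.ev σ' :=
  Iff.rfl

/-- the data of a word determining the left quotient -/
def sufData (Y : c.U.PT) (j : ℕ) (F : Set c.D.G) (x : c.U.W) :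
    c.U.S × Set F × Set (c.U.S × c.Kb) × Set c.Kb × Prop :=
  (c.U.go Y.1 x,
    {f | ∃ z ∈ c.D.B, Y.2.2.2 * c.U.ev x = z * f},
    {p | ∃ x' : c.U.W, x'.length = x.length ∧ c.U.go Y.2.1 x' = p.1 ∧
      c.U.ev x * p.2 = Y.2.2.1 * c.U.ev x'},
    {e | ∃ x' : c.U.W, x'.length < x.length ∧ c.U.go Y.2.1 x' ∈ c.U.M.accept ∧
      c.U.ev x * e = Y.2.2.1 * c.U.ev x'},
    ∃ σ, x ++ σ ∈ c.U.Suf c.b Y j)

theorem suf_diff {Y : c.U.PT} (hocc : c.Occ Y) {j : ℕ} {x σ : c.U.W}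
    (h : x ++ σ ∈ c.U.Suf c.b Y j) {ρ' : c.U.W} (h1 : c.U.go Y.2.1 ρ' ∈ c.U.M.accept)
    (h2 : c.U.ev (x ++ σ) * c.b = Y.2.2.1 * c.U.ev ρ') :
    (c.U.ev x)⁻¹ * (Y.2.2.1 * c.U.pos ρ' x.length) ∈ c.Kb := by
  obtain ⟨k, π, -, hπ, -, -, π', hl, hπ', hev⟩ := hocc
  have hw : π ++ (x ++ σ) ∈ c.U.M.accepts := by
    rw [UAS.mem_accepts_iff, UAS.go_append, hπ]; exact h.1
  have hw' : π' ++ ρ' ∈ c.U.M.accepts := by
    rw [UAS.mem_accepts_iff, UAS.go_append, hπ']; exact h1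
  have he : c.U.ev (π' ++ ρ') = c.U.ev (π ++ (x ++ σ)) * c.b := by
    rw [UAS.ev_append, UAS.ev_append, hev, mul_assoc, ← h2, mul_assoc]
  have hft := c.ftb (c.U.ev (π ++ (x ++ σ))) (π.length + x.length)
  rw [← he, c.U.wd_ev hw, c.U.wd_ev hw', UAS.pos_append_right, UAS.pos_append_left _ le_rfl,
    UAS.pos_length] at hft
  rw [← hl, UAS.pos_append_right, hev] at hft
  convert hft using 1
  group

theorem suf_step {Y : c.U.PT} (hocc : c.Occ Y) {j : ℕ} {F : Set c.D.G}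
    (hF : ∀ x σ : c.U.W, x ++ σ ∈ c.U.Suf c.b Y j →
      ∃ f ∈ F, ∃ z ∈ c.D.B, Y.2.2.2 * c.U.ev x = z * f)
    {x x2 : c.U.W} (hd : c.sufData Y j F x = c.sufData Y j F x2) {σ : c.U.W}
    (h : x ++ σ ∈ c.U.Suf c.b Y j) : x2 ++ σ ∈ c.U.Suf c.b Y j := by
  have d1 : c.U.go Y.1 x = c.U.go Y.1 x2 := congrArg (fun p => p.1) hd
  have d2 := congrArg (fun p => p.2.1) hd
  have d3 := congrArg (fun p => p.2.2.1) hd
  have d4 := congrArg (fun p => p.2.2.2.1) hd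
  have d5 := congrArg (fun p => p.2.2.2.2) hd
  simp only [sufData] at d2 d3 d4 d5
  obtain ⟨σ2, h2⟩ := d5.mp ⟨σ, h⟩
  obtain ⟨f, hf, z, hz, hzf⟩ := hF x σ h
  have hm : (⟨f, hf⟩ : F) ∈ {f : F | ∃ z ∈ c.D.B, Y.2.2.2 * c.U.ev x = z * f} := ⟨z, hz, hzf⟩
  rw [d2] at hm
  obtain ⟨z2, hz2, hzf2⟩ := hm
  simp only at hzf2
  have h' := h
  rw [mem_suf] at h h2 ⊢
  obtain ⟨a1, a2, a3, ρ', a4, a5⟩ := h
  rw [UAS.stay_append] at a2
  rw [UAS.stay_append]
  refine ⟨?_, ⟨((c.U.stay_append).1 h2.2.1).1, ?_⟩, ?_, ?_⟩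
  · rw [UAS.go_append] at a1 ⊢
    rwa [← d1]
  · intro m
    have := a2.2 m
    rw [hzf, mul_assoc, WD.br_Binv hz] at this
    rwa [hzf2, mul_assoc, WD.br_Binv hz2]
  · rw [UAS.ev_append, ← mul_assoc] at a3 ⊢
    rw [hzf, mul_assoc, WD.lv_B_left hz] at a3
    rwa [hzf2, mul_assoc, WD.lv_B_left hz2]
  · have hK := c.suf_diff hocc h' a4 a5
    rcases Nat.lt_or_ge ρ'.length x.length with hl | hl
    · rw [c.U.pos_of_le hl.le] at hK
      have hm : (⟨_, hK⟩ : c.Kb) ∈ {e : c.Kb | ∃ x' : c.U.W, x'.length < x.length ∧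
          c.U.go Y.2.1 x' ∈ c.U.M.accept ∧ c.U.ev x * e = Y.2.2.1 * c.U.ev x'} :=
        ⟨ρ', hl, a4, by rw [mul_inv_cancel_left]⟩
      rw [d4] at hm
      obtain ⟨x2', -, b1, b2⟩ := hm
      simp only at b2
      refine ⟨x2', b1, ?_⟩
      rw [← b2, ← a5]
      simp only [UAS.ev_append]
      group
    · have hK' := hK
      have hm : ((c.U.go Y.2.1 (ρ'.take x.length), ⟨_, hK⟩) : c.U.S × c.Kb) ∈
          {p : c.U.S × c.Kb | ∃ x' : c.U.W, x'.length = x.length ∧ c.U.go Y.2.1 x' = p.1 ∧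
          c.U.ev x * p.2 = Y.2.2.1 * c.U.ev x'} :=
        ⟨ρ'.take x.length, by rw [List.length_take]; omega, rfl, by
          rw [mul_inv_cancel_left]; rfl⟩
      rw [d3] at hm
      obtain ⟨x2', -, b1, b2⟩ := hm
      simp only at b1 b2
      refine ⟨x2' ++ ρ'.drop x.length, ?_, ?_⟩
      · rw [UAS.go_append, b1, ← UAS.go_append, List.take_append_drop]
        exact a4
      · rw [c.U.ev_append x2', ← mul_assoc Y.2.2.1, ← b2]
        have e1 : c.U.ev ρ' = c.U.pos ρ' x.length * c.U.ev (ρ'.drop x.length) := by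
          conv_lhs => rw [← List.take_append_drop x.length ρ']
          rw [UAS.ev_append]
          rfl
        rw [e1, UAS.ev_append] at a5
        have e2 : c.U.ev σ * c.b = (c.U.ev x)⁻¹ * (Y.2.2.1 *
            (c.U.pos ρ' x.length * c.U.ev (ρ'.drop x.length))) := by
          rw [← a5]; group
        rw [UAS.ev_append, mul_assoc, e2]
        group

/-- the suffix set as a language -/
def sufLang (Y : c.U.PT) (j : ℕ) : Language (Fin c.U.k) := {w | w ∈ c.U.Suf c.b Y j}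

theorem suf_regular {Y : c.U.PT} (hY : Y ∈ c.PTs) (hocc : c.Occ Y) (j : ℕ) :
    ∃ 𝓛 : Language (Fin c.U.k), 𝓛.IsRegular ∧ ∀ w : c.U.W, w ∈ 𝓛 ↔ w ∈ c.U.Suf c.b Y j := by
  obtain ⟨P', hP', hT⟩ := (c.tame_occ hocc hY).1 (c.D.lv j) (WD.TB_lv j)
  obtain ⟨F1, hF1, h1⟩ := hP'
  obtain ⟨F2, hF2, -, h2⟩ := c.D.B_fin
  have hFfin : (Set.image2 (· * ·) F2 F1).Finite := hF2.image2 _ hF1
  set F : Set c.D.G := Set.image2 (· * ·) F2 F1 with hFdef
  have hF : ∀ x σ : c.U.W, x ++ σ ∈ c.U.Suf c.b Y j →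
      ∃ f ∈ F, ∃ z ∈ c.D.B, Y.2.2.2 * c.U.ev x = z * f := by
    intro x σ h
    have h3 := hT (x ++ σ) ⟨[], by rw [UAS.go_nil]; exact h.1⟩ h.2.1 h.2.2.1 x.length
    rw [UAS.pos_append_left _ le_rfl, UAS.pos_length] at h3
    obtain ⟨y, hy, f, hf, he⟩ := h1 _ h3
    obtain ⟨f2, hf2, z, hz, he2⟩ := h2 y hy
    refine ⟨f2 * f, ⟨f2, hf2, f, hf, rfl⟩, z, hz, ?_⟩
    rw [he, he2, mul_assoc]
  refine ⟨c.sufLang Y j, ?_, fun w => Iff.rfl⟩
  rw [Language.isRegular_iff_finite_range_leftQuotient]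
  set 𝓛 : Language (Fin c.U.k) := c.sufLang Y j with h𝓛
  have hfac : Function.FactorsThrough 𝓛.leftQuotient (c.sufData Y j F) := by
    intro u u' h
    ext t
    rw [Language.mem_leftQuotient, Language.mem_leftQuotient]
    exact ⟨c.suf_step hocc hF h, c.suf_step hocc hF h.symm⟩
  have i1 : Finite F := hFfin
  have i2 : Finite c.Kb := c.hKb
  have hfin : Finite (c.U.S × Set F × Set (c.U.S × c.Kb) × Set c.Kb × Prop) := inferInstance
  have hext : 𝓛.leftQuotient =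
      Function.extend (c.sufData Y j F) 𝓛.leftQuotient (fun _ => 0) ∘ c.sufData Y j F := by
    funext u
    exact (hfac.extend_apply _ u).symm
  rw [hext]
  exact (Set.finite_range _).subset (Set.range_comp_subset_range _ _)

end Cfg

end Pool.Agent.HNNA
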