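import Pool.Agent.HNNA.Tree2
import Pool.Agent.HNNA.LenB

/-! MP_4b60bf_al.  MODULE TENTS (about 250 lines).

If the same type `(s, r)` is realised at two DIFFERENT branches `γ·br`, `γ'·br` of the SAME level,
then tents from `(s, r)` are bounded.

PROOF.  Let `ev π = γ z r`, `ev π' = γ' z' r`, both leading to `s`.  For every state `s1` with
`coacc s1` fix a word `ω_{s1}` to an accepting state.  Let `P` be `TB`.  Let `x` be a word with
`coacc (go s x)`, `Stay r x`, `r ev x ∈ P`; put `ω = ω_(go s x)`, `w = π ++ x ++ ω`,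
`w' = π' ++ x ++ ω`, both accepted.

(1) `d := (ev w)⁻¹ ev w'` lies in a finite set `E` independent of `x`: with
`q = r ev x ev ω ∈ P Ω` (`TB`, write `q = l f`, `l ∈ L`, `f ∈ F2` finite) and
`δ = z⁻¹ γ⁻¹ γ' z'` (height 0 because `γ, γ' ∈ lv j`), `d = q⁻¹ δ q = f⁻¹ (l⁻¹ δ l) f`.
`l⁻¹ δ l ∈ L δ L` (`TB`) and `u (l⁻¹ δ l) = -u l + u δ + u l = u δ` (all heights are 0), so
`l⁻¹ δ l` lies in the finite set `{g ∈ L δ L | ‖u g‖ ≤ ‖u δ‖}` (`TB.count`).

(2) By `ft_d` there is a finite set `K'` with `(pos w M)⁻¹ pos w' M ∈ K'` for all `M`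
(`w = wd (ev w)` by `wd_ev`).

(3) Let `m ≤ |x|`, `M = |π| + m`, `pos w M = γ z r pos x m`, `κ = (pos w M)⁻¹ pos w' M ∈ K'`.
Case A, `|π'| ≤ M ≤ |π'| + |x|`: `pos w' M = γ' z' r pos x m'`, so
`γ'⁻¹ pos w' M ∈ br` (`br_Binv`), hence `γ⁻¹ pos w' M ∉ br` (`lv_disj`: otherwise
`γ' = γ b`, excluded by `hne`), whereas `γ⁻¹ pos w M ∈ br`.  By `cross κ`,
`γ⁻¹ pos w M ∈ B E_κ`, so `r pos x m = z⁻¹ (γ⁻¹ pos w M) ∈ B E_κ`, a `TB` set.
Case B, `M < |π'|`: `pos w' M` lies in the finite set of positions of `π'`, so `pos w M` lies in a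
finite set, so `r pos x m = (γ z)⁻¹ pos w M` lies in a finite set.
Case C, `M > |π'| + |x|`: `pos w' M = γ' z' (r ev x) (pos ω i)` lies in the `TB` set
`γ' z' P Ω'` (`Ω'` = finite set of all positions of the words `ω_{s1}`), so `pos w M` and
`r pos x m` lie in a `TB` set (`TB.left`, `TB.mul`).
For `m > |x|` the position is `r ev x ∈ P`.  `P'` is the union of all these sets; it does not
depend on `x`. -/

namespace Pool.Agent.HNNA

namespace UAS

variable {D : WD} (U : UAS D)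

/-- the set of all positions of a word is finite -/
lemma finite_pos (w : U.W) : (Set.range (U.pos w)).Finite := by
  apply Set.Finite.subset ((Finset.range (w.length + 1)).finite_toSet.image (U.pos w))
  rintro _ ⟨m, rfl⟩
  rcases le_total m w.length with hm | hm
  · exact ⟨m, by simpa [Nat.lt_succ_iff] using hm, rfl⟩
  · exact ⟨w.length, by simp, by rw [U.pos_of_le hm, U.pos_length]⟩

/-- conjugates of an element of height zero by the elements of a tree-bounded set form a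
finite set. -/
lemma finite_conj (hb : D.Bdd) {δ : D.G} (hδ : D.ht δ = 0) {Q : Set D.G} (hQ : D.TB Q) :
    ∃ E : Set D.G, E.Finite ∧ ∀ q ∈ Q, q⁻¹ * δ * q ∈ E := by
  obtain ⟨F, hF, hQF⟩ := hQ
  have hX : D.TB {x | ∃ p ∈ {x | x ∈ D.L}, ∃ q ∈ {x | ∃ p ∈ ({δ} : Set D.G),
      ∃ q ∈ {x | x ∈ D.L}, x = p * q}, x = p * q} :=
    WD.TB.mul WD.TB_L (WD.TB.mul (WD.TB_of_finite (Set.finite_singleton δ)) WD.TB_L)
  obtain ⟨C, hC⟩ := WD.TB.count hb hX
  obtain ⟨R, hR⟩ := exists_nat_ge ‖D.u δ‖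
  have hfin := (hC R).1
  refine ⟨Set.image2 (fun f g => f⁻¹ * g * f) F _, hF.image2 _ hfin, ?_⟩
  intro q hq
  obtain ⟨l, hl, f, hf, rfl⟩ := hQF q hq
  refine ⟨f, hf, l⁻¹ * (δ * l), ⟨⟨l⁻¹, D.L.inv_mem hl, δ * l, ⟨δ, rfl, l, hl, rfl⟩, rfl⟩, ?_⟩, ?_⟩
  · have h1 : D.u (l⁻¹ * (δ * l)) = D.u δ := by
      have hl0 := D.ht_L l hl
      rw [D.u_mul_zero (by rw [D.ht_inv, hl0]; simp), D.u_mul_zero hδ, D.u_inv, hl0]
      simp
    rw [h1]; exact hR
  · group

theorem tents (hb : D.Bdd) {γ γ' : D.G} {j : ℕ} (hγ : γ ∈ D.lv j) (hγ' : γ' ∈ D.lv j)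
    (hne : γ⁻¹ * γ' ∉ D.B) {s : U.S} {r : D.G} (h : U.Real γ s r) (h' : U.Real γ' s r) :
    U.Tame1 s r := by
  classical
  obtain ⟨π, hπs, z, hz, hπ⟩ := h
  obtain ⟨π', hπs', z', hz', hπ'⟩ := h'
  intro P hP
  -- words to an accepting state
  have hom : ∀ s1 : U.S, ∃ ω : U.W, U.coacc s1 → U.go s1 ω ∈ U.M.accept := by
    intro s1
    by_cases hc : U.coacc s1
    · obtain ⟨ω, hω⟩ := hc
      exact ⟨ω, fun _ => hω⟩
    · exact ⟨[], fun hc' => absurd hc' hc⟩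
  choose om hom using hom
  set Om : Set D.G := ⋃ s1 : U.S, Set.range (U.pos (om s1)) with hOm
  have hOmfin : Om.Finite := Set.finite_iUnion fun s1 => U.finite_pos (om s1)
  have hQ : D.TB {x | ∃ p ∈ P, ∃ q ∈ Om, x = p * q} := WD.TB.mul hP (WD.TB_of_finite hOmfin)
  set δ : D.G := z⁻¹ * γ⁻¹ * γ' * z' with hδdef
  have hδ : D.ht δ = 0 := by
    rw [hδdef, D.ht_mul, D.ht_mul, D.ht_mul, D.ht_inv, D.ht_inv, WD.lv_ht hγ, WD.lv_ht hγ',
      WD.ht_of_mem_B hz, WD.ht_of_mem_B hz']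
    ring
  obtain ⟨E, hEfin, hE⟩ := finite_conj hb hδ hQ
  obtain ⟨K', hK'fin, hK'⟩ := U.ft_d E hEfin
  choose EC hECfin hEC using fun κ : D.G => WD.cross (D := D) κ
  -- the four parts of the bounded set
  have hTA : D.TB {x | ∃ y ∈ D.L, ∃ f ∈ ⋃ κ ∈ K', EC κ, x = y * f} :=
    ⟨⋃ κ ∈ K', EC κ, hK'fin.biUnion fun κ _ => hECfin κ, fun x hx => hx⟩
  have hTB : D.TB (Set.image2 (fun a κ => (γ * z)⁻¹ * a * κ⁻¹) (Set.range (U.pos π')) K') :=
    WD.TB_of_finite ((U.finite_pos π').image2 _ hK'fin)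
  have hTC : D.TB {x | ∃ p ∈ {x | ∃ p ∈ ({(γ * z)⁻¹ * (γ' * z')} : Set D.G), ∃ q ∈ P,
      x = p * q}, ∃ q ∈ Set.image2 (fun a κ => a * κ⁻¹) Om K', x = p * q} :=
    WD.TB.mul (WD.TB.mul (WD.TB_of_finite (Set.finite_singleton _)) hP)
      (WD.TB_of_finite (hOmfin.image2 _ hK'fin))
  refine ⟨_, ((hTA.union hTB).union hTC).union hP, ?_⟩
  intro x hx hstay hxP m
  rcases lt_or_ge x.length m with hm | hm
  · right
    rw [U.pos_of_le hm.le]; exact hxP
  set ω := om (U.go s x) with hω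
  have hwacc : π ++ (x ++ ω) ∈ U.M.accepts := by
    rw [mem_accepts_iff, go_append, go_append, hπs]; exact hom _ hx
  have hwacc' : π' ++ (x ++ ω) ∈ U.M.accepts := by
    rw [mem_accepts_iff, go_append, go_append, hπs']; exact hom _ hx
  have hq : r * U.ev x * U.ev ω ∈ {x | ∃ p ∈ P, ∃ q ∈ Om, x = p * q} := by
    refine ⟨r * U.ev x, hxP, U.ev ω, ?_, rfl⟩
    exact Set.mem_iUnion.mpr ⟨U.go s x, ω.length, U.pos_length _⟩
  have hd := hE _ hq
  have hevw : U.ev (π ++ (x ++ ω)) = γ * z * r * U.ev x * U.ev ω := by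
    rw [ev_append, ev_append, hπ]; group
  have hevw' : U.ev (π' ++ (x ++ ω)) = γ' * z' * r * U.ev x * U.ev ω := by
    rw [ev_append, ev_append, hπ']; group
  have hgd : U.ev (π ++ (x ++ ω)) * ((r * U.ev x * U.ev ω)⁻¹ * δ * (r * U.ev x * U.ev ω)) =
      U.ev (π' ++ (x ++ ω)) := by
    rw [hevw, hevw', hδdef]; group
  have hκ := hK' _ hd (U.ev (π ++ (x ++ ω))) (π.length + m)
  rw [hgd, U.wd_ev hwacc, U.wd_ev hwacc'] at hκ
  have hposw : U.pos (π ++ (x ++ ω)) (π.length + m) = γ * z * (r * U.pos x m) := by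
    rw [U.pos_append_right, U.pos_append_left hm, hπ]; group
  set κ := (U.pos (π ++ (x ++ ω)) (π.length + m))⁻¹ * U.pos (π' ++ (x ++ ω)) (π.length + m)
    with hκdef
  -- the position in terms of the second word
  have hback : r * U.pos x m = (γ * z)⁻¹ * U.pos (π' ++ (x ++ ω)) (π.length + m) * κ⁻¹ := by
    rw [hκdef, hposw]; group
  rcases lt_or_ge (π.length + m) π'.length with hB | hB
  · -- case B
    left; left; right
    refine ⟨U.pos π' (π.length + m), ⟨_, rfl⟩, κ, hκ, ?_⟩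
    rw [hback, U.pos_append_left hB.le]
  obtain ⟨m', hm'⟩ := Nat.exists_eq_add_of_le hB
  rcases le_or_gt m' x.length with hA | hC
  · -- case A
    left; left; left
    have hpos' : U.pos (π' ++ (x ++ ω)) (π.length + m) = γ' * z' * (r * U.pos x m') := by
      rw [hm', U.pos_append_right, U.pos_append_left hA, hπ']; group
    have h1 : γ'⁻¹ * U.pos (π' ++ (x ++ ω)) (π.length + m) ∈ D.br := by
      have : γ'⁻¹ * U.pos (π' ++ (x ++ ω)) (π.length + m) = z' * (r * U.pos x m') := by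
        rw [hpos']; group
      rw [this, WD.br_Binv hz']
      exact hstay m'
    have h2 : γ⁻¹ * U.pos (π' ++ (x ++ ω)) (π.length + m) ∉ D.br := by
      intro h2
      obtain ⟨b, hbB, hbe⟩ := WD.lv_disj hγ hγ' h2 h1
      apply hne
      rw [hbe]
      have : γ⁻¹ * (γ * b) = b := by group
      rw [this]; exact hbB
    have h3 : γ⁻¹ * U.pos (π ++ (x ++ ω)) (π.length + m) ∈ D.br := by
      have : γ⁻¹ * U.pos (π ++ (x ++ ω)) (π.length + m) = z * (r * U.pos x m) := by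
        rw [hposw]; group
      rw [this, WD.br_Binv hz]
      exact hstay m
    obtain ⟨b, hbB, e, he, hbe⟩ := hEC κ (γ⁻¹ * U.pos (π ++ (x ++ ω)) (π.length + m)) (by
      have : γ⁻¹ * U.pos (π ++ (x ++ ω)) (π.length + m) * κ =
          γ⁻¹ * U.pos (π' ++ (x ++ ω)) (π.length + m) := by
        rw [hκdef]; group
      rw [this]
      intro hiff
      exact h2 (hiff.mp h3))
    refine ⟨z⁻¹ * b, D.L.mul_mem (D.L.inv_mem (D.B_le hz)) (D.B_le hbB), e,
      Set.mem_biUnion hκ he, ?_⟩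
    rw [hposw] at hbe
    have : r * U.pos x m = z⁻¹ * (γ⁻¹ * (γ * z * (r * U.pos x m))) := by group
    rw [this, hbe]; group
  · -- case C
    left; right
    obtain ⟨i, hi⟩ := Nat.exists_eq_add_of_le hC.le
    have hpos' : U.pos (π' ++ (x ++ ω)) (π.length + m) =
        γ' * z' * (r * U.ev x) * U.pos ω i := by
      rw [hm', U.pos_append_right, hi, U.pos_append_right, hπ']; group
    refine ⟨(γ * z)⁻¹ * (γ' * z') * (r * U.ev x), ⟨_, rfl, _, hxP, rfl⟩, U.pos ω i * κ⁻¹,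
      ⟨U.pos ω i, Set.mem_iUnion.mpr ⟨U.go s x, i, rfl⟩, κ, hκ, rfl⟩, ?_⟩
    rw [hback, hpos']; group

end UAS

end Pool.Agent.HNNA
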