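import Pool.Agent.HNNA.Setup

/-! MP_4b60bf_al.  MODULE THETAA (about 250 lines).

`F g` is the `ξ`-coordinate of the final entry position of the normal form of `g` in `γ·br`
(relative to `γ`).

PROOFS.
* `final_cut`: let `w` be accepted, `γ⁻¹ * ev w ∈ br`.  `cut_entry` with `r = 1`, `y = γ` gives
  `w = π ++ σ`, `Stay (γ⁻¹ ev π) σ`; `π ≠ []` because `γ⁻¹ ∉ br` (`inv_not_br`); `entry_pos` with
  `g = γ⁻¹`: `γ⁻¹ ev π = z r`, `z ∈ B`, `r ∈ R`.  So `Real γ s r` with `s = go start π`, hence `(s, r)` is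
  tame (`c.tame`), and `Ent γ w = Ent γ π = ev π` (`Ent_append`, `Ent_entry`).  `Stay r σ` by `br_Binv`.
* `xi_unif`: there are finitely many pairs `(s, r) ∈ S × R`; take the maximum of the constants of
  `xi_bound` over those which are tame.
* `theta_H`: `l ≥ 1`, `γ⁻¹ g ∈ lv l ⊆ br` (`lv_succ_mem_br`).  `r ev σ = z⁻¹ γ⁻¹ g ∈ lv l`
  (`lv_B_left`), which is `TB` (`TB_lv`); `xi_unif` gives `‖ξ (u (r ev σ)) - ξ (u r)‖ ≤ C`, and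
  `u (z x) = u z + u x`, so this is `‖ξ (u (γ⁻¹ g)) - F g‖`.
* `theta_bdd` (the constant is uniform in `l`): `g` and `g * b` are both of level `l` (`lv_L_right`,
  `l ≥ 1`).  Let `w = wd g = π ++ σ`, `w' = wd (g b) = π' ++ σ'` be the two cuts, `τ = |π|`,
  `τ' = |π'|`.  Suppose `τ ≤ τ'` (the other case is symmetric, exchange the roles of `w` and `w'`).
  `pos w τ' = pos w' τ' * κ⁻¹` with `κ ∈ Kb` (`ftb`), and `pos w' τ' = ev π' = γ z' r'`.  The piece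
  `x = (w.take τ').drop τ` is a word from `s` with `Stay r x`, `coacc (go s x)` and
  `r ev x = z⁻¹ γ⁻¹ pos w τ' = z⁻¹ z' r' κ⁻¹` in the `TB` set `L R Kb⁻¹`; `xi_unif` gives
  `‖ξ (u (γ⁻¹ pos w τ')) - F g‖ ≤ C1`.  And
  `ξ (u (γ⁻¹ pos w' τ')) - ξ (u (γ⁻¹ pos w τ')) = ξ (A^(ht ..) (u κ))`, of absolute value
  `|ξ (u κ)| ≤ C2` (`eig_zpow`, `‖lam‖ = 1`, `Kb` finite).  In the symmetric case the base point is
  `w'`: `pos w τ = ev π = γ z r`, `pos w' τ = pos w τ * κ ∈ γ L R Kb`. -/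

namespace Pool.Agent.HNNA

namespace Cfg

variable (c : Cfg)

/-- `final_cut` for arbitrary words -/
theorem final_cut_any {w : c.U.W} (hend : c.γ⁻¹ * c.U.ev w ∈ c.D.br) :
    ∃ π σ : c.U.W, w = π ++ σ ∧ π ≠ [] ∧ c.γ⁻¹ * c.U.ev π.dropLast ∉ c.D.br ∧
      ∃ z ∈ c.D.B, ∃ r ∈ c.R, c.U.ev π = c.γ * z * r ∧ c.U.Stay r σ ∧
        c.U.Tame1 (c.U.go c.U.M.start π) r ∧ c.U.Tame2 (c.U.go c.U.M.start π) ∧
        c.U.Ent c.γ w = c.U.ev π ∧ c.U.Ent c.γ π = c.U.ev π := by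
  obtain ⟨π, σ, hπσ, hst, hor⟩ := c.U.cut_entry 1 c.γ w (by rwa [one_mul])
  rw [one_mul] at hst
  have h1 : c.γ⁻¹ * c.U.ev π ∈ c.D.br := hst.start
  have hπ : π ≠ [] := by
    rintro rfl
    rw [UAS.ev_nil, mul_one] at h1
    exact WD.inv_not_br c.hγ h1
  have h2 : c.γ⁻¹ * c.U.ev π.dropLast ∉ c.D.br := by
    rcases hor with h | h
    · exact absurd h hπ
    · rwa [one_mul] at h
  obtain ⟨z, hz, r, hr, hzr⟩ := c.U.entry_pos c.hR hπ h1 h2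
  have hev : c.U.ev π = c.γ * z * r := by
    rw [mul_assoc, ← hzr]
    group
  have hreal : c.U.Real c.γ (c.U.go c.U.M.start π) r := ⟨π, rfl, z, hz, hev⟩
  obtain ⟨ht1, ht2⟩ := c.tame _ r hr hreal
  have hE := c.U.Ent_entry hπ h1 h2
  refine ⟨π, σ, hπσ, hπ, h2, z, hz, r, hr, hev, ?_, ht1, ht2, ?_, hE⟩
  · intro m
    rw [← WD.br_Binv hz, ← mul_assoc, ← hzr]
    exact hst m
  · rw [hπσ, c.U.Ent_append hst, hE]

theorem final_cut {w : c.U.W} (_hw : w ∈ c.U.M.accepts) (hend : c.γ⁻¹ * c.U.ev w ∈ c.D.br) :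
    ∃ π σ : c.U.W, w = π ++ σ ∧ π ≠ [] ∧ c.γ⁻¹ * c.U.ev π.dropLast ∉ c.D.br ∧
      ∃ z ∈ c.D.B, ∃ r ∈ c.R, c.U.ev π = c.γ * z * r ∧ c.U.Stay r σ ∧
        c.U.Tame1 (c.U.go c.U.M.start π) r ∧ c.U.Tame2 (c.U.go c.U.M.start π) ∧
        c.U.Ent c.γ w = c.U.ev π ∧ c.U.Ent c.γ π = c.U.ev π :=
  c.final_cut_any hend

theorem xi_unif (P : Set c.D.G) (hP : c.D.TB P) : ∃ C : ℝ, ∀ s : c.U.S, ∀ r ∈ c.R,
    c.U.Tame1 s r → c.U.Tame2 s → ∀ x : c.U.W, c.U.coacc (c.U.go s x) → c.U.Stay r x →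
    r * c.U.ev x ∈ P → ‖c.ξ (c.D.u (r * c.U.ev x)) - c.ξ (c.D.u r)‖ ≤ C := by
  classical
  have h : ∀ q : c.U.S × c.D.G, ∃ C : ℝ, 0 ≤ C ∧ (c.U.Tame1 q.1 q.2 → c.U.Tame2 q.1 →
      ∀ x : c.U.W, c.U.coacc (c.U.go q.1 x) → c.U.Stay q.2 x →
      q.2 * c.U.ev x ∈ P → ‖c.ξ (c.D.u (q.2 * c.U.ev x)) - c.ξ (c.D.u q.2)‖ ≤ C) := by
    rintro ⟨s, r⟩
    by_cases h1 : c.U.Tame1 s r
    · by_cases h2 : c.U.Tame2 s
      · obtain ⟨C, hC⟩ := c.U.xi_bound c.hξ c.hlam c.hroot h1 h2 P hP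
        exact ⟨max C 0, le_max_right _ _, fun _ _ x h3 h4 h5 =>
          (hC x h3 h4 h5).trans (le_max_left _ _)⟩
      · exact ⟨0, le_rfl, fun _ h => absurd h h2⟩
    · exact ⟨0, le_rfl, fun h => absurd h h1⟩
  choose Cf hCf0 hCf using h
  refine ⟨∑ q ∈ (Finset.univ : Finset c.U.S) ×ˢ c.hR.fin.toFinset, Cf q, ?_⟩
  intro s r hr h1 h2 x h3 h4 h5
  refine (hCf (s, r) h1 h2 x h3 h4 h5).trans ?_
  exact Finset.single_le_sum (f := Cf) (fun q _ => hCf0 q)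
    (Finset.mem_product.2 ⟨Finset.mem_univ _, by simpa using hr⟩)

lemma u_B_mul {z : c.D.G} (hz : z ∈ c.D.B) (x : c.D.G) : c.D.u (z * x) = c.D.u z + c.D.u x :=
  c.D.u_mul_zero (WD.ht_of_mem_B hz) x

theorem theta_H (l : ℕ) (hl : 1 ≤ l) : ∃ C : ℝ, ∀ g ∈ c.Lev l,
    ‖c.ξ (c.D.u (c.γ⁻¹ * g)) - c.F g‖ ≤ C := by
  obtain ⟨j, rfl⟩ := Nat.exists_eq_add_of_le' hl
  obtain ⟨C, hC⟩ := c.xi_unif (c.D.lv (j + 1)) (WD.TB_lv (j + 1))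
  refine ⟨C, fun g hg => ?_⟩
  have hg' : c.γ⁻¹ * g ∈ c.D.lv (j + 1) := hg
  obtain ⟨π, σ, hπσ, -, -, z, hz, r, hr, hev, hst, h1, h2, hE, -⟩ :=
    c.final_cut (w := c.U.wd g) (c.U.wd_mem g)
      (by rw [UAS.ev_wd]; exact WD.lv_succ_mem_br hg')
  have hgev : g = c.U.ev π * c.U.ev σ := by
    rw [← UAS.ev_append, ← hπσ, UAS.ev_wd]
  have hzr : c.γ⁻¹ * g = z * (r * c.U.ev σ) := by
    rw [hgev, hev]
    group
  have hlv : r * c.U.ev σ ∈ c.D.lv (j + 1) := by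
    rw [← WD.lv_B_left hz, ← hzr]
    exact hg'
  have hco : c.U.coacc (c.U.go (c.U.go c.U.M.start π) σ) := by
    refine ⟨[], ?_⟩
    rw [UAS.go_nil, ← UAS.go_append, ← hπσ]
    exact c.U.wd_mem g
  have hb := hC _ r hr h1 h2 σ hco hst hlv
  have hF : c.F g = c.ξ (c.D.u (z * r)) := by
    unfold Cfg.F
    rw [hE, hev]
    congr 2
    group
  rw [hF, hzr, c.u_B_mul hz, c.u_B_mul hz, map_add, map_add]
  have : c.ξ (c.D.u z) + c.ξ (c.D.u (r * c.U.ev σ)) - (c.ξ (c.D.u z) + c.ξ (c.D.u r)) =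
      c.ξ (c.D.u (r * c.U.ev σ)) - c.ξ (c.D.u r) := by ring
  rw [this]
  exact hb

/-- the `ξ`-coordinate changes by a bounded amount under right multiplication by an element of a
finite set -/
theorem xi_step (K0 : Set c.D.G) (hK0 : K0.Finite) : ∃ C : ℝ, ∀ x : c.D.G, ∀ κ ∈ K0,
    ‖c.ξ (c.D.u (x * κ)) - c.ξ (c.D.u x)‖ ≤ C := by
  classical
  refine ⟨∑ κ ∈ hK0.toFinset, ‖c.ξ (c.D.u κ)‖, fun x κ hκ => ?_⟩
  have hl0 : c.lam ≠ 0 := by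
    intro h
    have := c.hlam
    rw [h, norm_zero] at this
    exact zero_ne_one this
  rw [c.D.u_mul, map_add, add_sub_cancel_left, WD.eig_zpow c.hξ hl0, norm_mul, norm_zpow,
    c.hlam, one_zpow, one_mul]
  exact Finset.single_le_sum (f := fun κ => ‖c.ξ (c.D.u κ)‖) (fun q _ => norm_nonneg _)
    (by simpa using hκ)

/-- the one-sided comparison of two final entries -/
theorem one_side (K0 : Set c.D.G) (hK0 : K0.Finite) : ∃ C : ℝ, ∀ π σ π' σ' : c.U.W,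
    π ++ σ ∈ c.U.M.accepts → π.length ≤ π'.length →
    (∀ m, (c.U.pos (π ++ σ) m)⁻¹ * c.U.pos (π' ++ σ') m ∈ K0) →
    ∀ z ∈ c.D.B, ∀ r ∈ c.R, c.U.ev π = c.γ * z * r → c.U.Stay r σ →
    c.U.Tame1 (c.U.go c.U.M.start π) r → c.U.Tame2 (c.U.go c.U.M.start π) →
    ∀ z' ∈ c.D.B, ∀ r' ∈ c.R, c.U.ev π' = c.γ * z' * r' →
    ‖c.ξ (c.D.u (c.γ⁻¹ * c.U.ev π')) - c.ξ (c.D.u (c.γ⁻¹ * c.U.ev π))‖ ≤ C := by
  have hfin : {q : c.D.G | ∃ r ∈ c.R, ∃ κ ∈ K0, q = r * κ⁻¹}.Finite := by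
    refine ((c.hR.fin.prod hK0).image (fun q => q.1 * q.2⁻¹)).subset ?_
    rintro q ⟨r, hr, κ, hκ, rfl⟩
    exact ⟨(r, κ), ⟨hr, hκ⟩, rfl⟩
  obtain ⟨C1, hC1⟩ := c.xi_unif _ (WD.TB_L.mul (WD.TB_of_finite hfin))
  obtain ⟨C2, hC2⟩ := c.xi_step K0 hK0
  refine ⟨C1 + C2, ?_⟩
  intro π σ π' σ' hw hlen hK z hz r hr hev hst h1 h2 z' hz' r' hr' hev'
  obtain ⟨k, hk⟩ := Nat.exists_eq_add_of_le hlen
  set x : c.U.W := σ.take k with hx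
  have hσ : σ = x ++ σ.drop k := (List.take_append_drop k σ).symm
  have hpos : c.U.pos (π ++ σ) π'.length = c.U.ev π * c.U.ev x := by
    rw [hk, UAS.pos_append_right]
    rfl
  have hpos' : c.U.pos (π' ++ σ') π'.length = c.U.ev π' := by
    rw [c.U.pos_append_left le_rfl, UAS.pos_length]
  have hκ := hK π'.length
  rw [hpos, hpos'] at hκ
  set κ : c.D.G := (c.U.ev π * c.U.ev x)⁻¹ * c.U.ev π' with hκdef
  have hxv : r * c.U.ev x = (z⁻¹ * z') * (r' * κ⁻¹) := by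
    rw [hκdef, hev, hev']
    group
  have hP : r * c.U.ev x ∈ {x | ∃ p ∈ {x | x ∈ c.D.L}, ∃ q ∈ {q : c.D.G | ∃ r ∈ c.R, ∃ κ ∈ K0,
      q = r * κ⁻¹}, x = p * q} :=
    ⟨z⁻¹ * z', c.D.L.mul_mem (c.D.L.inv_mem (c.D.B_le hz)) (c.D.B_le hz'), _,
      ⟨r', hr', κ, hκ, rfl⟩, hxv⟩
  have hco : c.U.coacc (c.U.go (c.U.go c.U.M.start π) x) := by
    refine ⟨σ.drop k, ?_⟩
    rw [← UAS.go_append, ← hσ, ← UAS.go_append]
    exact hw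
  have hstx : c.U.Stay r x := by
    rw [hσ] at hst
    exact (c.U.stay_append.1 hst).1
  have hb := hC1 _ r hr h1 h2 x hco hstx hP
  have hb2 := hC2 (c.γ⁻¹ * (c.U.ev π * c.U.ev x)) κ hκ
  have e1 : c.γ⁻¹ * (c.U.ev π * c.U.ev x) * κ = c.γ⁻¹ * c.U.ev π' := by
    rw [hκdef]
    group
  have e2 : c.γ⁻¹ * (c.U.ev π * c.U.ev x) = z * (r * c.U.ev x) := by
    rw [hev]
    group
  have e3 : c.γ⁻¹ * c.U.ev π = z * r := by
    rw [hev]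
    group
  rw [e1, e2, c.u_B_mul hz, map_add] at hb2
  rw [e3, c.u_B_mul hz, map_add]
  calc ‖c.ξ (c.D.u (c.γ⁻¹ * c.U.ev π')) - (c.ξ (c.D.u z) + c.ξ (c.D.u r))‖
      = ‖(c.ξ (c.D.u (r * c.U.ev x)) - c.ξ (c.D.u r)) +
        (c.ξ (c.D.u (c.γ⁻¹ * c.U.ev π')) - (c.ξ (c.D.u z) + c.ξ (c.D.u (r * c.U.ev x))))‖ := by
        congr 1; ring
    _ ≤ _ := norm_add_le _ _
    _ ≤ C1 + C2 := add_le_add hb hb2

theorem theta_bdd : ∃ C : ℝ, ∀ l, 1 ≤ l → ∀ g ∈ c.Lev l, ‖c.F (g * c.b) - c.F g‖ ≤ C := by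
  obtain ⟨C1, hC1⟩ := c.one_side c.Kb c.hKb
  obtain ⟨C2, hC2⟩ := c.one_side {x | x⁻¹ ∈ c.Kb} (by
    refine (c.hKb.image (fun x => x⁻¹)).subset ?_
    intro x hx
    exact ⟨x⁻¹, hx, inv_inv x⟩)
  refine ⟨max C1 C2, fun l hl g hg => ?_⟩
  obtain ⟨j, rfl⟩ := Nat.exists_eq_add_of_le' hl
  have hg' : c.γ⁻¹ * g ∈ c.D.lv (j + 1) := hg
  have hgb : c.γ⁻¹ * (g * c.b) ∈ c.D.lv (j + 1) := by
    rw [← mul_assoc]
    exact (WD.lv_L_right c.hbL _).2 hg'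
  obtain ⟨π, σ, hπσ, -, -, z, hz, r, hr, hev, hst, h1, h2, hE, -⟩ :=
    c.final_cut (w := c.U.wd g) (c.U.wd_mem g)
      (by rw [UAS.ev_wd]; exact WD.lv_succ_mem_br hg')
  obtain ⟨π', σ', hπσ', -, -, z', hz', r', hr', hev', hst', h1', h2', hE', -⟩ :=
    c.final_cut (w := c.U.wd (g * c.b)) (c.U.wd_mem _)
      (by rw [UAS.ev_wd]; exact WD.lv_succ_mem_br hgb)
  have hF : c.F g = c.ξ (c.D.u (c.γ⁻¹ * c.U.ev π)) := by
    unfold Cfg.F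
    rw [hE]
  have hF' : c.F (g * c.b) = c.ξ (c.D.u (c.γ⁻¹ * c.U.ev π')) := by
    unfold Cfg.F
    rw [hE']
  have hK : ∀ m, (c.U.pos (π ++ σ) m)⁻¹ * c.U.pos (π' ++ σ') m ∈ c.Kb := by
    intro m
    rw [← hπσ, ← hπσ']
    exact c.ftb g m
  have hw : π ++ σ ∈ c.U.M.accepts := hπσ ▸ c.U.wd_mem g
  have hw' : π' ++ σ' ∈ c.U.M.accepts := hπσ' ▸ c.U.wd_mem (g * c.b)
  rw [hF, hF']
  rcases le_total π.length π'.length with hlen | hlen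
  · exact (hC1 π σ π' σ' hw hlen hK z hz r hr hev hst h1 h2 z' hz' r' hr' hev').trans
      (le_max_left _ _)
  · rw [norm_sub_rev]
    refine (hC2 π' σ' π σ hw' hlen (fun m => ?_) z' hz' r' hr' hev' hst' h1' h2' z hz r hr
      hev).trans (le_max_right _ _)
    change ((c.U.pos (π' ++ σ') m)⁻¹ * c.U.pos (π ++ σ) m)⁻¹ ∈ c.Kb
    rw [mul_inv_rev, inv_inv]
    exact hK m

end Cfg

end Pool.Agent.HNNA
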