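import Pool.Agent.HNNA.ThetaA

/-! MP_4b60bf_al.  MODULE THETAB (about 200 lines).

PROOFS.
* `theta_local`: Let `E` be the union of the finite sets of `cross κ`, `κ ∈ Kb`, and `k0` the bound
  of `lv_avoid` for the `TB` set `B E`.  Let `k ≥ k0`, `π ∈ Pre γ k Y` with `y ∈ lv k`,
  `ev π = γ y r`, `π'` as in `Pre`; `σ ∈ Suf b Y j` with `σ'`.  Then `w = π ++ σ`, `w' = π' ++ σ'` are
  accepted and `ev w' = ev π' ev σ' = ev π d ev σ' = ev w * b`; so `w = wd g`, `w' = wd (g b)`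
  (`wd_ev`), `g = ev w`.  For all `m`: `γ⁻¹ pos w (|π| + m) = y (r pos σ m)`, in `br` (`lv_br`), so
  `Ent γ w = Ent γ π` (`Ent_append`).  If `γ⁻¹ pos w' (|π| + m) = (γ⁻¹ pos w (|π|+m)) κ ∉ br`, then
  `y (r pos σ m) ∈ B E` by `cross`, contradiction to `lv_avoid`.  So `Ent γ w' = Ent γ π'` (the
  positions of `σ'` read from `γ⁻¹ ev π'` stay in `br`; `|π'| = |π|`).  Hence
  `F (g b) - F g = ξ (u (γ⁻¹ Ent γ π')) - ξ (u (γ⁻¹ Ent γ π))`.  `π'` is unique given `π, Y`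
  (`path_uniq`, `Y.2.1` is coaccessible because of `σ'`), so define `Θ π` with a chosen `π'`.
* `tame_occ`: a pair type `Y` occurring above `γ` is tame.  Let `π ∈ Pre γ k Y`, `ev π = γ y r`.
  Cut `π` at the final entry in `γ·br` (`cut_entry`; `γ⁻¹ ev π = y r ∈ br` by `lv_br`, as `r ∈ br` is
  part of `Pre`): `π = π0 ++ x`, `γ⁻¹ ev π0 = z r0`, `r0 ∈ R`, `(s0, r0)` tame, `go s0 x = Y.1`,
  `Stay r0 x`, `r0 ev x = z⁻¹ y r`.  (`final_cut` is for accepted words; here redo it for `π`, or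
  prove `tame_occ` for `π` directly.)
  `Tame2 Y.1`: prepend `x`.  `Tame1 Y.1 r`: for `P` `TB` and `x1` from `Y.1` with `Stay r x1`,
  `r ev x1 ∈ P`: `x ++ x1` is a word from `s0` with `Stay r0 (x ++ x1)` (`stay_append`, `lv_br`,
  `br_Binv`), ending in the `TB` set `z⁻¹ y P`; its positions lie in a `TB` set `P'`, and
  `r pos x1 m = y⁻¹ z (r0 pos (x ++ x1) (|x| + m))`, use `TB.left`. -/

namespace Pool.Agent.HNNA

namespace Cfg

variable (c : Cfg)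

theorem theta_local : ∃ k0 : ℕ, ∀ k, k0 ≤ k → ∀ Y ∈ c.PTs, ∃ Θ : c.U.W → ℂ,
    ∀ π ∈ c.U.Pre c.γ k Y, ∀ j, ∀ σ ∈ c.U.Suf c.b Y j,
      c.F (c.U.ev (π ++ σ) * c.b) - c.F (c.U.ev (π ++ σ)) = Θ π := by
  classical
  choose E hEfin hE using fun d : c.D.G => WD.cross (D := c.D) d
  have hEf : (⋃ κ ∈ c.Kb, E κ).Finite := c.hKb.biUnion (fun κ _ => hEfin κ)
  obtain ⟨k0, hk0⟩ := WD.lv_avoid (WD.TB_L.mul (WD.TB_of_finite (D := c.D) hEf))
  refine ⟨k0, fun k hk Y _ => ?_⟩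
  let Q : c.U.W → c.U.W → Prop := fun π π' =>
    π'.length = π.length ∧ c.U.go c.U.M.start π' = Y.2.1 ∧ c.U.ev π' = c.U.ev π * Y.2.2.1
  refine ⟨fun π => if h : ∃ π', Q π π' then
    c.ξ (c.D.u (c.γ⁻¹ * c.U.Ent c.γ h.choose)) - c.ξ (c.D.u (c.γ⁻¹ * c.U.Ent c.γ π)) else 0, ?_⟩
  intro π hπ j σ hσ
  obtain ⟨-, hgo, hbr, ⟨y, hy, hev, -⟩, π', hlen, hgo', hev'⟩ := hπ
  obtain ⟨hacc, hst, -, σ', hacc', hb⟩ := hσ
  have hex : ∃ π', Q π π' := ⟨π', hlen, hgo', hev'⟩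
  simp only
  rw [dif_pos hex]
  obtain ⟨-, hq2, hq3⟩ := hex.choose_spec
  have huniq : hex.choose = π' := by
    refine c.U.path_uniq (s := Y.2.1) ⟨σ', hacc'⟩ hq2 hgo' ?_
    rw [hq3, hev']
  rw [huniq]
  -- the two accepted words
  have hw : π ++ σ ∈ c.U.M.accepts := by
    rw [UAS.mem_accepts_iff, UAS.go_append, hgo]
    exact hacc
  have hw' : π' ++ σ' ∈ c.U.M.accepts := by
    rw [UAS.mem_accepts_iff, UAS.go_append, hgo']
    exact hacc'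
  have hval : c.U.ev (π' ++ σ') = c.U.ev (π ++ σ) * c.b := by
    rw [UAS.ev_append, UAS.ev_append, hev', mul_assoc, ← hb, mul_assoc]
  have hwd : c.U.wd (c.U.ev (π ++ σ)) = π ++ σ := c.U.wd_ev hw
  have hwd' : c.U.wd (c.U.ev (π ++ σ) * c.b) = π' ++ σ' := by
    rw [← hval]
    exact c.U.wd_ev hw'
  -- positions of `σ`
  have hposσ : ∀ m, c.γ⁻¹ * c.U.ev π * c.U.pos σ m = y * (Y.2.2.2 * c.U.pos σ m) := by
    intro m
    rw [hev]
    group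
  have hstay : c.U.Stay (c.γ⁻¹ * c.U.ev π) σ := by
    intro m
    rw [hposσ]
    exact WD.lv_br hy (hst m)
  have hstay' : c.U.Stay (c.γ⁻¹ * c.U.ev π') σ' := by
    intro m
    by_contra hcon
    have hκ := c.ftb (c.U.ev (π ++ σ)) (π.length + m)
    rw [hwd, hwd', UAS.pos_append_right] at hκ
    have h1 : c.U.pos (π' ++ σ') (π.length + m) = c.U.ev π' * c.U.pos σ' m := by
      rw [← hlen, UAS.pos_append_right]
    rw [h1] at hκ
    set κ := (c.U.ev π * c.U.pos σ m)⁻¹ * (c.U.ev π' * c.U.pos σ' m) with hκd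
    have h2 : c.γ⁻¹ * c.U.ev π' * c.U.pos σ' m = (c.γ⁻¹ * c.U.ev π * c.U.pos σ m) * κ := by
      rw [hκd]
      group
    rw [h2] at hcon
    obtain ⟨b', hb', e, he, hx⟩ := hE κ (c.γ⁻¹ * c.U.ev π * c.U.pos σ m)
      (fun h => hcon (h.1 (hstay m)))
    refine hk0 k hk y hy (Y.2.2.2 * c.U.pos σ m) (hst m) ?_
    rw [← hposσ, hx]
    exact ⟨b', c.D.B_le hb', e, Set.mem_biUnion hκ he, rfl⟩
  have hF : c.F (c.U.ev (π ++ σ)) = c.ξ (c.D.u (c.γ⁻¹ * c.U.Ent c.γ π)) := by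
    unfold Cfg.F
    rw [hwd, c.U.Ent_append hstay]
  have hF' : c.F (c.U.ev (π ++ σ) * c.b) = c.ξ (c.D.u (c.γ⁻¹ * c.U.Ent c.γ π')) := by
    unfold Cfg.F
    rw [hwd', c.U.Ent_append hstay']
  rw [hF, hF']

theorem tame_occ {Y : c.U.PT} (hY : c.Occ Y) (_hY' : Y ∈ c.PTs) :
    c.U.Tame1 Y.1 Y.2.2.2 ∧ c.U.Tame2 Y.1 := by
  obtain ⟨k, π, -, hgo, hbr, ⟨y, hy, hev, -⟩, -⟩ := hY
  have hyr : c.γ⁻¹ * c.U.ev π = y * Y.2.2.2 := by
    rw [hev]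
    group
  obtain ⟨π0, x, hπ, -, -, z, hz, r0, hr0, hev0, hst0, h1, h2, -, -⟩ :=
    c.final_cut_any (w := π) (by rw [hyr]; exact WD.lv_br hy hbr)
  have hgox : c.U.go (c.U.go c.U.M.start π0) x = Y.1 := by
    rw [← UAS.go_append, ← hπ, hgo]
  have hrx : r0 * c.U.ev x = z⁻¹ * y * Y.2.2.2 := by
    have h3 : c.U.ev π = c.U.ev π0 * c.U.ev x := by rw [← UAS.ev_append, ← hπ]
    have h4 : c.γ * z * r0 * c.U.ev x = c.γ * y * Y.2.2.2 := by rw [← hev0, ← h3, hev]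
    have h5 := congrArg (fun v => (c.γ * z)⁻¹ * v) h4
    calc r0 * c.U.ev x = (c.γ * z)⁻¹ * (c.γ * z * r0 * c.U.ev x) := by group
      _ = (c.γ * z)⁻¹ * (c.γ * y * Y.2.2.2) := h5
      _ = _ := by group
  constructor
  · intro P hP
    obtain ⟨P1, hP1, hP1'⟩ := h1 _ (hP.left (z⁻¹ * y)⁻¹)
    refine ⟨_, hP1.left (z⁻¹ * y), ?_⟩
    intro x1 hco hst hend m
    change z⁻¹ * y * (Y.2.2.2 * c.U.pos x1 m) ∈ P1
    have h6 := hP1' (x ++ x1) (by rw [UAS.go_append, hgox]; exact hco) ?_ ?_ (x.length + m)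
    · rw [UAS.pos_append_right, ← mul_assoc, hrx, mul_assoc] at h6
      exact h6
    · rw [UAS.stay_append]
      refine ⟨hst0, fun m' => ?_⟩
      rw [hrx, mul_assoc, mul_assoc, WD.br_Binv (c.D.B.inv_mem hz)]
      exact WD.lv_br hy (hst m')
    · change (z⁻¹ * y)⁻¹ * (r0 * c.U.ev (x ++ x1)) ∈ P
      rw [UAS.ev_append, ← mul_assoc r0, hrx]
      have h7 : (z⁻¹ * y)⁻¹ * (z⁻¹ * y * Y.2.2.2 * c.U.ev x1) = Y.2.2.2 * c.U.ev x1 := by group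
      rw [h7]
      exact hend
  · intro y1 hco e he hloop hL
    have h8 := h2 (x ++ y1) (by rw [UAS.go_append, hgox]; exact hco) e he
      (by rw [UAS.go_append, hgox]; exact hloop) hL
    exact h8

end Cfg

end Pool.Agent.HNNA
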