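import Pool.Agent.HNNA.TBl

/-! MP_4b60bf_al.  MODULE TREE (about 250 lines): the branch `br` and its translates.

Everything follows from `br_L`, `br_t`, `br_B` and the induction principle `D.ind`
(every `x` is reached from `1` by steps `x -> x y` (`y ∈ L`), `x -> x t`, `x -> x t⁻¹`;
for the last step use `br_t`/`br_B` for `x t⁻¹`, whose product with `t` is `x`).
Note that membership in `B` forces `ht = 0` (`ht_L`), which excludes most crossings.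

PROOFS.
* `not_br_of_L`: `1 ∈ B` so `1 ∉ br`; `br_L`.
* `br_Binv`: `F(x) := (b * x ∈ br ↔ x ∈ br)` by induction on `x`; `b x ∈ B ↔ x ∈ B`.
* `cross` (crossing lemma): the set of `d` with the property contains `L` (`E = ∅`),
  `t` (`E = {1}`), `t⁻¹` (`E = {t}`), and is closed under products:
  `E_{d d'} = E_d ∪ E_{d'} d⁻¹`.
* `disj`: for `l ∈ L`, `l ∉ B`: `p(x) := ¬ (x ∈ br ∧ l⁻¹ x ∈ br)` by induction on `x`.  Step `x t`:
  if `x ∈ B` then `l⁻¹ x ∈ L \ B`, so `l⁻¹ x t ∉ br` (`br_t`, `not_br_of_L`); if `l⁻¹ x ∈ B` then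
  `x ∈ L \ B`, so `x t ∉ br`; otherwise both memberships are unchanged.  Step to `y = x t⁻¹`
  (`y t = x`): if `y ∈ B` then `y ∉ br`; if `l⁻¹ y ∈ B` then `l⁻¹ y ∉ br`; otherwise unchanged.
* `tl_mem_br`: `br_B 1`, `br_L`.
* `nest`: `p(x) := (x ∈ br → t l x ∈ br)` for `l ∈ L`, by induction.
  Step `x t`: if `x ∈ B` then `t l x t ∈ br` because `t l x ∈ t L ⊆ br` and `t l x ∉ B` (height 1);
  if `x ∉ B`, `x t ∈ br` gives `x ∈ br`, so `t l x ∈ br`, so `t l x ∉ B` (`br_B`), so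
  `t l x t ∈ br`.  Step to `y = x t⁻¹` (so `y t = x`): `y ∈ br` gives `y ∉ B` (`br_B`), so
  `x = y t ∈ br`, so `t l x = t l y t ∈ br`; if `t l y ∉ B` then `t l y ∈ br`; if `t l y ∈ B`, then
  `y ∈ l⁻¹ t⁻¹ B`, and such elements are not in `br`: `l⁻¹ t⁻¹ b`, with `l⁻¹ t⁻¹ ∉ br` (height -1,
  `l⁻¹ t⁻¹ t = l⁻¹ ∉ br`): contradiction.
* `lv_br`: iterate `nest` (and `br_Binv` for level 0).
* `inv_not_br`: `y ∈ lv j → y⁻¹ ∉ br`, induction on `j`: `(t l y')⁻¹ = y'⁻¹ l⁻¹ t⁻¹`, height `-(j+1)`,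
  so it is not in `B`, and it is in `br` iff `y'⁻¹ l⁻¹ ∈ br` iff `y'⁻¹ ∈ br`.
* `lv_B_left`: `b t l = t (t⁻¹ b t) l`.
* `lv_disj`: induction on `j` as follows.  `y = t l y1`, `y' = t l' y1'`, `y⁻¹ x ∈ br`, `y'⁻¹ x ∈ br`.
  Put `x2 = l⁻¹ t⁻¹ x`; `x2 = y1 (y⁻¹ x) ∈ br` (`lv_br`), and `(l⁻¹ l')⁻¹ x2 = y1' (y'⁻¹ x) ∈ br`,
  so `l⁻¹ l' = b ∈ B` by `disj`.  Then `y' = t l (b y1')`, `b y1' ∈ lv j`, and the induction
  hypothesis applies to `y1`, `b y1'` and the point `x2`. -/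

namespace Pool.Agent.HNNA

namespace WD

variable {D : WD}

lemma ht_of_mem_B {x : D.G} (h : x ∈ D.B) : D.ht x = 0 := D.ht_L x (D.B_le h)

lemma not_br_of_L {x : D.G} (h : x ∈ D.L) : x ∉ D.br := by
  have h1 : (1 : D.G) ∉ D.br := (D.br_B 1 D.B.one_mem).1
  intro h2
  apply h1
  rw [← D.br_L 1 x h, one_mul]
  exact h2

lemma br_tinv {x : D.G} (h : x * D.t⁻¹ ∉ D.B) : x * D.t⁻¹ ∈ D.br ↔ x ∈ D.br := by
  have := D.br_t (x * D.t⁻¹) h
  rw [inv_mul_cancel_right] at this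
  exact this.symm

lemma br_Binv {b : D.G} (hb : b ∈ D.B) (x : D.G) : b * x ∈ D.br ↔ x ∈ D.br := by
  have hB : ∀ y : D.G, b * y ∈ D.B ↔ y ∈ D.B := fun y => D.B.mul_mem_cancel_left hb
  refine D.ind (fun x => b * x ∈ D.br ↔ x ∈ D.br) ?_ ?_ ?_ ?_ x
  · rw [mul_one]
    exact ⟨fun h => absurd h (D.br_B b hb).1, fun h => absurd h (D.br_B 1 D.B.one_mem).1⟩
  · intro x y hy h
    rw [← mul_assoc, D.br_L _ y hy, D.br_L _ y hy]; exact h
  · intro x h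
    rw [← mul_assoc]
    by_cases hx : x ∈ D.B
    · exact ⟨fun _ => (D.br_B x hx).2, fun _ => (D.br_B _ ((hB x).mpr hx)).2⟩
    · rw [D.br_t _ hx, D.br_t _ (fun h' => hx ((hB x).mp h'))]; exact h
  · intro x h
    rw [← mul_assoc]
    by_cases hx : x * D.t⁻¹ ∈ D.B
    · have hx' : b * x * D.t⁻¹ ∈ D.B := by rw [mul_assoc]; exact (hB _).mpr hx
      exact ⟨fun h' => absurd h' (D.br_B _ hx').1, fun h' => absurd h' (D.br_B _ hx).1⟩
    · have hx' : b * x * D.t⁻¹ ∉ D.B := by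
        rw [mul_assoc]; exact fun h' => hx ((hB _).mp h')
      rw [br_tinv hx, br_tinv hx']; exact h

theorem cross (d : D.G) : ∃ E : Set D.G, E.Finite ∧
    ∀ x, ¬ (x ∈ D.br ↔ x * d ∈ D.br) → ∃ b ∈ D.B, ∃ e ∈ E, x = b * e := by
  refine D.ind (fun d => ∃ E : Set D.G, E.Finite ∧
    ∀ x, ¬ (x ∈ D.br ↔ x * d ∈ D.br) → ∃ b ∈ D.B, ∃ e ∈ E, x = b * e) ?_ ?_ ?_ ?_ d
  · refine ⟨∅, Set.finite_empty, fun x hx => absurd ?_ hx⟩
    rw [mul_one]
  · rintro d y hy ⟨E, hE, h⟩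
    refine ⟨E, hE, fun x hx => h x ?_⟩
    rwa [← mul_assoc, D.br_L _ y hy] at hx
  · rintro d ⟨E, hE, h⟩
    refine ⟨E ∪ {d⁻¹}, hE.union (Set.finite_singleton _), fun x hx => ?_⟩
    by_cases hd : x * d ∈ D.B
    · exact ⟨x * d, hd, d⁻¹, Or.inr rfl, by group⟩
    · rw [← mul_assoc, D.br_t _ hd] at hx
      obtain ⟨b, hb, e, he, h'⟩ := h x hx
      exact ⟨b, hb, e, Or.inl he, h'⟩
  · rintro d ⟨E, hE, h⟩
    refine ⟨E ∪ {(d * D.t⁻¹)⁻¹}, hE.union (Set.finite_singleton _), fun x hx => ?_⟩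
    by_cases hd : x * d * D.t⁻¹ ∈ D.B
    · exact ⟨x * d * D.t⁻¹, hd, (d * D.t⁻¹)⁻¹, Or.inr rfl, by group⟩
    · rw [← mul_assoc, br_tinv hd] at hx
      obtain ⟨b, hb, e, he, h'⟩ := h x hx
      exact ⟨b, hb, e, Or.inl he, h'⟩

theorem disj {l : D.G} (hl : l ∈ D.L) (hlB : l ∉ D.B) (x : D.G) :
    ¬ (x ∈ D.br ∧ l⁻¹ * x ∈ D.br) := by
  refine D.ind (fun x => ¬ (x ∈ D.br ∧ l⁻¹ * x ∈ D.br)) ?_ ?_ ?_ ?_ x
  · exact fun h => not_br_of_L D.L.one_mem h.1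
  · intro x y hy h
    rw [← mul_assoc, D.br_L _ y hy, D.br_L _ y hy]; exact h
  · intro x h
    rw [← mul_assoc]
    by_cases hx : x ∈ D.B
    · have h1 : l⁻¹ * x ∉ D.B := by
        intro h'
        apply hlB
        have := D.B.mul_mem hx (D.B.inv_mem h')
        have e : x * (l⁻¹ * x)⁻¹ = l := by group
        rwa [e] at this
      rw [D.br_t _ h1]
      exact fun h' => not_br_of_L (D.L.mul_mem (D.L.inv_mem hl) (D.B_le hx)) h'.2
    · by_cases hx' : l⁻¹ * x ∈ D.B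
      · have h1 : x ∈ D.L := by
          have := D.L.mul_mem hl (D.B_le hx')
          rwa [mul_inv_cancel_left] at this
        rw [D.br_t _ hx]
        exact fun h' => not_br_of_L h1 h'.1
      · rw [D.br_t _ hx, D.br_t _ hx']; exact h
  · intro x h
    rw [← mul_assoc]
    by_cases hx : x * D.t⁻¹ ∈ D.B
    · exact fun h' => (D.br_B _ hx).1 h'.1
    · by_cases hx' : l⁻¹ * x * D.t⁻¹ ∈ D.B
      · exact fun h' => (D.br_B _ hx').1 h'.2
      · rw [br_tinv hx, br_tinv hx']; exact h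

lemma t_mem_br : D.t ∈ D.br := by
  have := (D.br_B 1 D.B.one_mem).2
  rwa [one_mul] at this

lemma tl_mem_br {l : D.G} (hl : l ∈ D.L) : D.t * l ∈ D.br := by
  rw [D.br_L _ l hl]; exact t_mem_br

theorem nest {l : D.G} (hl : l ∈ D.L) {x : D.G} (hx : x ∈ D.br) : D.t * l * x ∈ D.br := by
  revert hx
  refine D.ind (fun x => x ∈ D.br → D.t * l * x ∈ D.br) ?_ ?_ ?_ ?_ x
  · exact fun h => absurd h (not_br_of_L D.L.one_mem)
  · intro x y hy h
    rw [← mul_assoc, D.br_L _ y hy, D.br_L _ y hy]; exact h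
  · intro x h hxt
    rw [← mul_assoc]
    by_cases hx : x ∈ D.B
    · have h1 : D.t * (l * x) ∈ D.br := tl_mem_br (D.L.mul_mem hl (D.B_le hx))
      rw [← mul_assoc] at h1
      rw [D.br_t _ (fun h' => (D.br_B _ h').1 h1)]; exact h1
    · rw [D.br_t _ hx] at hxt
      have h1 := h hxt
      rw [D.br_t _ (fun h' => (D.br_B _ h').1 h1)]; exact h1
  · intro x h hy
    have hyB : x * D.t⁻¹ ∉ D.B := fun h' => (D.br_B _ h').1 hy
    have hx : x ∈ D.br := (br_tinv hyB).mp hy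
    rw [← mul_assoc]
    by_cases hB : D.t * l * x * D.t⁻¹ ∈ D.B
    · exfalso
      set b := D.t * l * x * D.t⁻¹ with hb
      have e : x * D.t⁻¹ = l⁻¹ * D.t⁻¹ * b := by rw [hb]; group
      rw [e, D.br_L _ b (D.B_le hB)] at hy
      have h2 : l⁻¹ * D.t⁻¹ ∉ D.B := fun h' => (D.br_B _ h').1 hy
      rw [br_tinv h2] at hy
      exact not_br_of_L (D.L.inv_mem hl) hy
    · rw [br_tinv hB]; exact h hx

lemma lv_ht {j : ℕ} {y : D.G} (hy : y ∈ D.lv j) : D.ht y = j := by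
  induction j generalizing y with
  | zero => simpa using ht_of_mem_B hy
  | succ j ih =>
    obtain ⟨l, hl, y', hy', rfl⟩ := hy
    rw [D.ht_mul, D.ht_mul, D.ht_t, D.ht_L l hl, ih hy']
    push_cast; ring

theorem lv_br {j : ℕ} {y : D.G} (hy : y ∈ D.lv j) {x : D.G} (hx : x ∈ D.br) :
    y * x ∈ D.br := by
  induction j generalizing y with
  | zero => exact (br_Binv hy x).mpr hx
  | succ j ih =>
    obtain ⟨l, hl, y', hy', rfl⟩ := hy
    rw [mul_assoc]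
    exact nest hl (ih hy')

lemma lv_succ_mem_br {j : ℕ} {y : D.G} (hy : y ∈ D.lv (j + 1)) : y ∈ D.br := by
  induction j generalizing y with
  | zero =>
    obtain ⟨l, hl, y', hy', rfl⟩ := hy
    rw [mul_assoc]
    exact tl_mem_br (D.L.mul_mem hl (D.B_le hy'))
  | succ j ih =>
    obtain ⟨l, hl, y', hy', rfl⟩ := hy
    exact nest hl (ih hy')

lemma inv_not_br {j : ℕ} {y : D.G} (hy : y ∈ D.lv j) : y⁻¹ ∉ D.br := by
  induction j generalizing y with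
  | zero => exact (D.br_B _ (D.B.inv_mem hy)).1
  | succ j ih =>
    obtain ⟨l, hl, y', hy', rfl⟩ := hy
    intro h
    have e : (D.t * l * y')⁻¹ = y'⁻¹ * l⁻¹ * D.t⁻¹ := by group
    rw [e] at h
    have h2 : y'⁻¹ * l⁻¹ * D.t⁻¹ ∉ D.B := fun h' => (D.br_B _ h').1 h
    rw [br_tinv h2, D.br_L _ _ (D.L.inv_mem hl)] at h
    exact ih hy' h

lemma lv_B_left' {j : ℕ} {b : D.G} (hb : b ∈ D.B) {y : D.G} (hy : y ∈ D.lv j) :
    b * y ∈ D.lv j := by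
  cases j with
  | zero => exact D.B.mul_mem hb hy
  | succ j =>
    obtain ⟨l, hl, y', hy', rfl⟩ := hy
    exact ⟨D.t⁻¹ * b * D.t * l, D.L.mul_mem (D.P_le (D.conj_B b hb)) hl, y', hy', by group⟩

lemma lv_B_left {j : ℕ} {b : D.G} (hb : b ∈ D.B) (y : D.G) :
    b * y ∈ D.lv j ↔ y ∈ D.lv j := by
  refine ⟨fun h => ?_, lv_B_left' hb⟩
  have := lv_B_left' (D.B.inv_mem hb) h
  rwa [inv_mul_cancel_left] at this

lemma lv_B_right' {j : ℕ} {b : D.G} (hb : b ∈ D.B) {y : D.G} (hy : y ∈ D.lv j) :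
    y * b ∈ D.lv j := by
  induction j generalizing y with
  | zero => exact D.B.mul_mem hy hb
  | succ j ih =>
    obtain ⟨l, hl, y', hy', rfl⟩ := hy
    exact ⟨l, hl, y' * b, ih hy', by group⟩

lemma lv_B_right {j : ℕ} {b : D.G} (hb : b ∈ D.B) (y : D.G) :
    y * b ∈ D.lv j ↔ y ∈ D.lv j := by
  refine ⟨fun h => ?_, lv_B_right' hb⟩
  have := lv_B_right' (D.B.inv_mem hb) h
  rwa [mul_inv_cancel_right] at this

lemma lv_L_right' {j : ℕ} {l : D.G} (hl : l ∈ D.L) {y : D.G} (hy : y ∈ D.lv (j + 1)) :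
    y * l ∈ D.lv (j + 1) := by
  induction j generalizing y with
  | zero =>
    obtain ⟨l', hl', y', hy', rfl⟩ := hy
    refine ⟨l' * y' * l, D.L.mul_mem (D.L.mul_mem hl' (D.B_le hy')) hl, 1, D.B.one_mem, ?_⟩
    group
  | succ j ih =>
    obtain ⟨l', hl', y', hy', rfl⟩ := hy
    exact ⟨l', hl', y' * l, ih hy', by group⟩

lemma lv_L_right {j : ℕ} {l : D.G} (hl : l ∈ D.L) (y : D.G) :
    y * l ∈ D.lv (j + 1) ↔ y ∈ D.lv (j + 1) := by
  refine ⟨fun h => ?_, lv_L_right' hl⟩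
  have := lv_L_right' (D.L.inv_mem hl) h
  rwa [mul_inv_cancel_right] at this

lemma lv_mul {i j : ℕ} {y y' : D.G} (hy : y ∈ D.lv i) (hy' : y' ∈ D.lv j) :
    y * y' ∈ D.lv (i + j) := by
  induction i generalizing y with
  | zero => rw [zero_add]; exact lv_B_left' hy hy'
  | succ i ih =>
    obtain ⟨l, hl, y1, hy1, rfl⟩ := hy
    have e : i + 1 + j = (i + j) + 1 := by omega
    rw [e]
    exact ⟨l, hl, y1 * y', ih hy1, by group⟩

lemma lv_split {i j : ℕ} {x : D.G} (hx : x ∈ D.lv (i + j)) :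
    ∃ y ∈ D.lv i, ∃ y' ∈ D.lv j, x = y * y' := by
  induction i generalizing x with
  | zero => exact ⟨1, D.B.one_mem, x, by simpa using hx, by simp⟩
  | succ i ih =>
    have e : i + 1 + j = (i + j) + 1 := by omega
    rw [e] at hx
    obtain ⟨l, hl, x1, hx1, rfl⟩ := hx
    obtain ⟨y, hy, y', hy', rfl⟩ := ih hx1
    exact ⟨D.t * l * y, ⟨l, hl, y, hy, rfl⟩, y', hy', by group⟩

lemma lv_mul_tl {j : ℕ} {y l : D.G} (hy : y ∈ D.lv j) (hl : l ∈ D.L) :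
    y * (D.t * l) ∈ D.lv (j + 1) :=
  lv_mul (j := 1) hy ⟨l, hl, 1, D.B.one_mem, by simp⟩

lemma lv_nonempty (j : ℕ) : (D.lv j).Nonempty := by
  induction j with
  | zero => exact ⟨1, D.B.one_mem⟩
  | succ j ih =>
    obtain ⟨y, hy⟩ := ih
    exact ⟨D.t * 1 * y, 1, D.L.one_mem, y, hy, rfl⟩

theorem lv_disj {j : ℕ} {y y' x : D.G} (hy : y ∈ D.lv j) (hy' : y' ∈ D.lv j)
    (h : y⁻¹ * x ∈ D.br) (h' : y'⁻¹ * x ∈ D.br) : ∃ b ∈ D.B, y' = y * b := by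
  induction j generalizing y y' x with
  | zero => exact ⟨y⁻¹ * y', D.B.mul_mem (D.B.inv_mem hy) hy', by group⟩
  | succ j ih =>
    obtain ⟨l, hl, y1, hy1, rfl⟩ := hy
    obtain ⟨l', hl', y1', hy1', rfl⟩ := hy'
    set x2 := l⁻¹ * D.t⁻¹ * x with hx2
    have e1 : y1 * ((D.t * l * y1)⁻¹ * x) = x2 := by rw [hx2]; group
    have h1 : x2 ∈ D.br := by rw [← e1]; exact lv_br hy1 h
    have e2 : y1' * ((D.t * l' * y1')⁻¹ * x) = (l⁻¹ * l')⁻¹ * x2 := by rw [hx2]; group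
    have h2 : (l⁻¹ * l')⁻¹ * x2 ∈ D.br := by rw [← e2]; exact lv_br hy1' h'
    have hb : l⁻¹ * l' ∈ D.B := by
      by_contra hb
      exact disj (D.L.mul_mem (D.L.inv_mem hl) hl') hb x2 ⟨h1, h2⟩
    have h3 : y1⁻¹ * x2 ∈ D.br := by
      have : y1⁻¹ * x2 = (D.t * l * y1)⁻¹ * x := by rw [hx2]; group
      rw [this]; exact h
    have h4 : (l⁻¹ * l' * y1')⁻¹ * x2 ∈ D.br := by
      have : (l⁻¹ * l' * y1')⁻¹ * x2 = (D.t * l' * y1')⁻¹ * x := by rw [hx2]; group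
      rw [this]; exact h'
    obtain ⟨b, hbB, e⟩ := ih hy1 (lv_B_left' hb hy1') h3 h4
    refine ⟨b, hbB, ?_⟩
    have : y1' = l'⁻¹ * l * (y1 * b) := by rw [← e]; group
    rw [this]; group

end WD

end Pool.Agent.HNNA
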