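import Pool.Agent.HNNA.Tree

/-! MP_4b60bf_al.  MODULE TREE2 (about 150 lines): more on the levels `lv j`.

PROOFS.
* `TB_lv`: `lv (j+1) = {t} · L · lv j`, products of `TB` sets (`TB.mul`, `TB_L`, `TB_of_finite`);
  `lv 0 = B ⊆ L`.
* `lv_avoid` (for `P` tree-bounded, the branches of level `k ≥ k0` avoid `P`): first prove by
  induction on `g` (`D.ind`): `∃ m, ∀ k ≥ m, ∀ y ∈ lv k, ∀ l ∈ L, y⁻¹ * (l * g) ∉ br`.  `g = 1`:
  `inv_not_br`, `br_L`.  Step `g y'`, `y' ∈ L`: `br_L`.  Step `g t`: `y⁻¹ l g t ∈ br` iff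
  `y⁻¹ l g ∈ br` unless `y⁻¹ l g ∈ B`, which forces `k = ht g` (heights); so take
  `max m (ht g + 1)`.  Step `g t⁻¹`: with `x = y⁻¹ l g t⁻¹`, `x t = y⁻¹ l g ∉ br`, so `x ∉ br` (`br_t`, or
  `br_B` if `x ∈ B`); same `m`.  Then `y x = l f ∈ P` gives `x = y⁻¹ (l f) ∉ br`.
* `lv_inj`: `x = y t c = y' t c'` has `y⁻¹ x = t c ∈ br`, `y'⁻¹ x = t c' ∈ br`; `lv_disj`.
* `lv_many`: with `l0 ∈ L \ B`, level `j` contains `2^j` elements `t ε_1 t ε_2 ... t ε_j`
  (`ε_i ∈ {1, l0}`), pairwise different mod `B` on the right: by induction; if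
  `(t ε s)⁻¹ (t ε' s') = b ∈ B` then `ε' s' t = ε s b t`, so `s' t ∈ br` (`lv_br`, `t ∈ br`) and
  `(ε'⁻¹ ε)⁻¹ (s' t) = ε⁻¹ ε' s' t = s b t ∈ br`, so `ε'⁻¹ ε ∈ B` by `disj`, so `ε = ε'`, and then
  `s⁻¹ s' = b`. -/

namespace Pool.Agent.HNNA

namespace WD

variable {D : WD}

theorem TB_lv (j : ℕ) : D.TB (D.lv j) := by
  induction j with
  | zero => exact TB_L.mono fun x hx => D.B_le hx
  | succ j ih =>
    have h := TB.mul (TB.mul (TB_of_finite (D := D) (Set.finite_singleton D.t)) TB_L) ih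
    refine h.mono ?_
    rintro x ⟨l, hl, y, hy, rfl⟩
    exact ⟨D.t * l, ⟨D.t, rfl, l, hl, rfl⟩, y, hy, rfl⟩

/-- far up, the points `L g` are outside of the branches -/
lemma lv_avoid_one (g : D.G) : ∃ m : ℕ, ∀ k, m ≤ k → ∀ y ∈ D.lv k, ∀ l ∈ D.L,
    y⁻¹ * (l * g) ∉ D.br := by
  refine D.ind (fun g => ∃ m : ℕ, ∀ k, m ≤ k → ∀ y ∈ D.lv k, ∀ l ∈ D.L,
    y⁻¹ * (l * g) ∉ D.br) ?_ ?_ ?_ ?_ g
  · refine ⟨0, fun k _ y hy l hl => ?_⟩
    rw [mul_one, D.br_L _ l hl]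
    exact inv_not_br hy
  · rintro g y' hy' ⟨m, hm⟩
    refine ⟨m, fun k hk y hy l hl => ?_⟩
    rw [← mul_assoc, ← mul_assoc, D.br_L _ y' hy', mul_assoc]
    exact hm k hk y hy l hl
  · rintro g ⟨m, hm⟩
    refine ⟨max m ((D.ht g).toNat + 1), fun k hk y hy l hl => ?_⟩
    have h1 := hm k ((le_max_left _ _).trans hk) y hy l hl
    rw [← mul_assoc, ← mul_assoc, D.br_t, mul_assoc]
    · exact h1
    · intro hB
      have h2 := ht_of_mem_B hB
      rw [D.ht_mul, D.ht_mul, D.ht_inv, lv_ht hy, D.ht_L l hl] at h2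
      have h3 : (D.ht g).toNat + 1 ≤ k := (le_max_right _ _).trans hk
      omega
  · rintro g ⟨m, hm⟩
    refine ⟨m, fun k hk y hy l hl => ?_⟩
    have h1 := hm k hk y hy l hl
    intro h
    rw [← mul_assoc, ← mul_assoc] at h
    have h2 : y⁻¹ * l * g * D.t⁻¹ ∉ D.B := fun h' => (D.br_B _ h').1 h
    rw [br_tinv h2, mul_assoc] at h
    exact h1 h

theorem lv_avoid {P : Set D.G} (hP : D.TB P) : ∃ k0 : ℕ, ∀ k, k0 ≤ k → ∀ y ∈ D.lv k,
    ∀ x ∈ D.br, y * x ∉ P := by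
  obtain ⟨F, hF, h⟩ := hP
  choose m hm using lv_avoid_one (D := D)
  obtain ⟨k0, hk0⟩ := (hF.image m).bddAbove
  refine ⟨k0, fun k hk y hy x hx hyx => ?_⟩
  obtain ⟨l, hl, f, hf, e⟩ := h _ hyx
  apply hm f k ((hk0 ⟨f, hf, rfl⟩).trans hk) y hy l hl
  rw [← e, inv_mul_cancel_left]
  exact hx

theorem lv_inj {j : ℕ} {y y' c c' : D.G} (hy : y ∈ D.lv j) (hy' : y' ∈ D.lv j)
    (hc : c ∈ D.L) (hc' : c' ∈ D.L) (h : y * D.t * c = y' * D.t * c') :
    ∃ b ∈ D.B, y' = y * b := by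
  apply lv_disj (x := y * D.t * c) hy hy'
  · have : y⁻¹ * (y * D.t * c) = D.t * c := by group
    rw [this]; exact tl_mem_br hc
  · have : y'⁻¹ * (y * D.t * c) = D.t * c' := by rw [h]; group
    rw [this]; exact tl_mem_br hc'

/-- the level elements `t ε_1 t ε_2 ... t ε_j` -/
def wl (l0 : D.G) : List Bool → D.G
  | [] => 1
  | ε :: q => D.t * (if ε then l0 else 1) * wl l0 q

lemma wl_lv {l0 : D.G} (hl0 : l0 ∈ D.L) (q : List Bool) : wl l0 q ∈ D.lv q.length := by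
  induction q with
  | nil => exact D.B.one_mem
  | cons ε q ih =>
    refine ⟨if ε then l0 else 1, ?_, _, ih, rfl⟩
    split
    · exact hl0
    · exact D.L.one_mem

lemma wl_inj {l0 : D.G} (hl0 : l0 ∈ D.L) (hl0B : l0 ∉ D.B) (q : List Bool) :
    ∀ q' : List Bool, q.length = q'.length → (wl l0 q)⁻¹ * wl l0 q' ∈ D.B → q = q' := by
  induction q with
  | nil =>
    intro q' h _
    simp only [List.length_nil] at h
    exact (List.length_eq_zero_iff.mp h.symm).symm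
  | cons ε q ih =>
    intro q' h hb
    cases q' with
    | nil => simp at h
    | cons ε' q' =>
      have hlen : q.length = q'.length := by simpa using h
      set x : D.G := if ε then l0 else 1 with hx
      set x' : D.G := if ε' then l0 else 1 with hx'
      have hxL : x ∈ D.L := by
        rw [hx]; split
        · exact hl0
        · exact D.L.one_mem
      have hxL' : x' ∈ D.L := by
        rw [hx']; split
        · exact hl0
        · exact D.L.one_mem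
      have e0 : (wl l0 (ε :: q))⁻¹ * wl l0 (ε' :: q') =
          (wl l0 q)⁻¹ * x⁻¹ * x' * wl l0 q' := by
        simp only [wl, ← hx, ← hx']; group
      rw [e0] at hb
      set b := (wl l0 q)⁻¹ * x⁻¹ * x' * wl l0 q' with hbdef
      have h1 : wl l0 q' * D.t ∈ D.br := lv_br (wl_lv hl0 q') t_mem_br
      have h2 : (x'⁻¹ * x)⁻¹ * (wl l0 q' * D.t) ∈ D.br := by
        have e1 : (x'⁻¹ * x)⁻¹ * (wl l0 q' * D.t) = wl l0 q * (b * D.t) := by
          rw [hbdef]; group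
        rw [e1]
        exact lv_br (wl_lv hl0 q) (D.br_B b hb).2
      have h3 : x'⁻¹ * x ∈ D.B := by
        by_contra h3
        exact disj (D.L.mul_mem (D.L.inv_mem hxL') hxL) h3 _ ⟨h1, h2⟩
      have h4 : ε = ε' := by
        cases ε <;> cases ε' <;> simp_all
      have h5 : x = x' := by rw [hx, hx', h4]
      have h6 : (wl l0 q)⁻¹ * wl l0 q' ∈ D.B := by
        have : (wl l0 q)⁻¹ * wl l0 q' = b := by rw [hbdef, h5]; group
        rw [this]; exact hb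
      rw [h4, ih q' hlen h6]

theorem lv_many (hB : ∃ l ∈ D.L, l ∉ D.B) (N : ℕ) : ∃ j0 : ℕ, ∀ j, j0 ≤ j →
    ∃ s : Fin N → D.G, (∀ i, s i ∈ D.lv j) ∧ ∀ i i', i ≠ i' → (s i)⁻¹ * s i' ∉ D.B := by
  obtain ⟨l0, hl0, hl0B⟩ := hB
  refine ⟨N, fun j hj => ?_⟩
  refine ⟨fun i => wl l0 (List.ofFn fun k : Fin j => decide (k.val = i.val)), ?_, ?_⟩
  · intro i
    have := wl_lv hl0 (List.ofFn fun k : Fin j => decide (k.val = i.val))
    rwa [List.length_ofFn] at this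
  · intro i i' hne h
    have h1 := wl_inj hl0 hl0B _ _ (by simp) h
    have h2 := List.ofFn_injective h1
    have h3 := congrFun h2 ⟨i.val, i.isLt.trans_le hj⟩
    simp only [decide_true] at h3
    have h4 : i.val = i'.val := by simpa using h3.symm
    exact hne (Fin.ext h4)

end WD

end Pool.Agent.HNNA
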