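import Pool.Agent.HNNA.LoopVel

/-! MP_4b60bf_al.  MODULE WINDOW (about 200 lines).

`Good w a b β`: the word `w` has, between the times `a` and `b`, an elliptic loop with absolute
velocity `β` (translation per letter).

`window`: if `w` has such a loop in the window `[a, b]`, stays in one strongly connected component
during the window, the window is long, and `w'` is close to `w` during the window, then `w'` has
such a loop as well, with the SAME velocity.

PROOF of `window`.  By pigeonhole on `m ∈ [a, b]` (there are `b + 1 - a` times, and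
`(st w m, st w' m, (pos w m)⁻¹ * pos w' m)` takes at most `card S * card S * K.ncard` values) there
are `a ≤ m1 < m2 ≤ b` with equal data; put `κ = (pos w m1)⁻¹ pos w' m1 = (pos w m2)⁻¹ pos w' m2`,
`f = ` piece of `w` between `m1` and `m2` (`go_piece`, `ev_piece`), `f' = ` piece of `w'`; then
`ev f' = κ⁻¹ * ev f * κ`.  Let `[n1, n2]` be the loop of `Good w a b β`, with state
`s1 = st w n1 = st w n2`, `e` the piece (nonempty, elliptic, `A^(ht (pos w n1)) (u (ev e)) =
u (pos w n2) - u (pos w n1) = (n2 - n1) β`).  All states of `w` in the window are mutually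
reachable (`hr` and `go_piece`).
Case `n1 ≤ m1`: `p = ` piece of `w` from `n1` to `m1`, `p'` any path back to `s1`; `loop_vel` gives
`|e| A^(ht p) (u f) = |f| u e`; apply `A^(ht (pos w n1))`, use `pos w m1 = pos w n1 * ev p`:
`|e| A^(ht (pos w m1)) (u f) = |f| |e| β`, so `u (pos w m2) - u (pos w m1) = |f| β`.
Case `m1 < n1`: `p' = ` piece from `m1` to `n1`, `p` any path from `s1` to `st w m1`; now
`ht (pos w n1) = ht (pos w m1) + ht p'` and `ht p + ht p' = 0`, so again
`A^(ht (pos w n1)) A^(ht p) = A^(ht (pos w m1))`, same conclusion.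
So `f` is elliptic, `ht f = 0`, hence `f'` is elliptic (`Ell_conj`) and
`u (pos w' m2) - u (pos w' m1) = u (pos w m2 * κ) - u (pos w m1 * κ) =
u (pos w m2) - u (pos w m1)` because `ht (pos w m1) = ht (pos w m2)`. -/

namespace Pool.Agent.HNNA

namespace UAS

variable {D : WD} (U : UAS D)

/-- an elliptic loop of absolute velocity `β` between the times `a` and `b` -/
def Good (w : U.W) (a b : ℕ) (β : V D.n) : Prop :=
  ∃ m1 m2 : ℕ, a ≤ m1 ∧ m1 < m2 ∧ m2 ≤ b ∧ m2 ≤ w.length ∧ U.st w m1 = U.st w m2 ∧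
    D.Ell ((U.pos w m1)⁻¹ * U.pos w m2) ∧
    D.u (U.pos w m2) - D.u (U.pos w m1) = ((m2 : ℂ) - (m1 : ℂ)) • β

lemma window_pigeon {w w' : U.W} {a b : ℕ}
    (hcard : Fintype.card U.S * Fintype.card U.S * U.K.ncard < b + 1 - a)
    (hK : ∀ m, a ≤ m → m ≤ b → (U.pos w m)⁻¹ * U.pos w' m ∈ U.K) :
    ∃ m1 m2 : ℕ, a ≤ m1 ∧ m1 < m2 ∧ m2 ≤ b ∧ U.st w m1 = U.st w m2 ∧ U.st w' m1 = U.st w' m2 ∧
      (U.pos w m1)⁻¹ * U.pos w' m1 = (U.pos w m2)⁻¹ * U.pos w' m2 := by
  classical
  have hc : ((Finset.univ : Finset U.S) ×ˢ ((Finset.univ : Finset U.S) ×ˢ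
      U.K_fin.toFinset)).card < (Finset.Icc a b).card := by
    rw [Finset.card_product, Finset.card_product, Finset.card_univ,
      ← Set.ncard_eq_toFinset_card _ U.K_fin, Nat.card_Icc, ← mul_assoc]
    exact hcard
  obtain ⟨x, hx, y, hy, hxy, heq⟩ := Finset.exists_ne_map_eq_of_card_lt_of_maps_to
    (f := fun m => (U.st w m, U.st w' m, (U.pos w m)⁻¹ * U.pos w' m)) hc (by
      intro m hm
      rw [Finset.mem_coe, Finset.mem_Icc] at hm
      simp only [Finset.coe_product, Finset.coe_univ, Set.mem_prod, Set.mem_univ, true_and,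
        Set.Finite.coe_toFinset]
      exact hK m hm.1 hm.2)
  rw [Finset.mem_Icc] at hx hy
  simp only [Prod.mk.injEq] at heq
  obtain ⟨h1, h2, h3⟩ := heq
  rcases lt_or_gt_of_ne hxy with h | h
  · exact ⟨x, y, hx.1, h, hy.2, h1, h2, h3⟩
  · exact ⟨y, x, hy.1, h, hx.2, h1.symm, h2.symm, h3.symm⟩

lemma u_pos_sub (w : U.W) {a b : ℕ} :
    D.u (U.pos w b) - D.u (U.pos w a) =
      (D.A ^ D.ht (U.pos w a)) (D.u ((U.pos w a)⁻¹ * U.pos w b)) := by
  have h : U.pos w b = U.pos w a * ((U.pos w a)⁻¹ * U.pos w b) := by group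
  conv_lhs => rw [h, D.u_mul]
  abel

theorem window (hb : D.Bdd) {w w' : U.W} (hw : w ∈ U.M.accepts) (hw' : w' ∈ U.M.accepts)
    {a b : ℕ} (hab : a ≤ b) (hbw : b ≤ w.length) (hbw' : b ≤ w'.length)
    (hcard : Fintype.card U.S * Fintype.card U.S * U.K.ncard < b + 1 - a)
    (hK : ∀ m, a ≤ m → m ≤ b → (U.pos w m)⁻¹ * U.pos w' m ∈ U.K)
    (hr : ∃ x : U.W, U.go (U.st w b) x = U.st w a) {β : V D.n} (hg : U.Good w a b β) :
    U.Good w' a b β := by
  obtain ⟨m1, m2, ham, hmm, hmb, hst, hst', hκ⟩ := U.window_pigeon hcard hK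
  obtain ⟨n1, n2, han, hnn, hnb, hnw, hsn, hEll, hβ⟩ := hg
  obtain ⟨x, hx⟩ := hr
  -- reachability inside the window
  have hreach : ∀ m m' : ℕ, a ≤ m' → m ≤ b → ∃ y : U.W, U.go (U.st w m) y = U.st w m' := by
    intro m m' hm' hm
    refine ⟨(w.take b).drop m ++ (x ++ (w.take m').drop a), ?_⟩
    rw [go_append, go_append, U.go_piece w hm, hx, U.go_piece w hm']
  set e := (w.take n2).drop n1 with he
  set f := (w.take m2).drop m1 with hf
  have hel : e.length = n2 - n1 := by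
    rw [he, List.length_drop, List.length_take, min_eq_left hnw]
  have hfl : f.length = m2 - m1 := by
    rw [hf, List.length_drop, List.length_take, min_eq_left (hmb.trans hbw)]
  have hev : U.ev e = (U.pos w n1)⁻¹ * U.pos w n2 := U.ev_piece w hnn.le
  have hevf : U.ev f = (U.pos w m1)⁻¹ * U.pos w m2 := U.ev_piece w hmm.le
  have hge : U.go (U.st w n1) e = U.st w n1 := by rw [U.go_piece w hnn.le, hsn]
  have hgf : U.go (U.st w m1) f = U.st w m1 := by rw [U.go_piece w hmm.le, hst]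
  have hne : e ≠ [] := by
    intro h0
    rw [h0] at hel
    simp only [List.length_nil] at hel
    omega
  -- the two connecting paths
  obtain ⟨p, p', hp, hp', hht⟩ : ∃ p p' : U.W, U.go (U.st w n1) p = U.st w m1 ∧
      U.go (U.st w m1) p' = U.st w n1 ∧
      (D.ht (U.ev p) + D.ht (U.ev p') = 0 →
        D.ht (U.pos w n1) + D.ht (U.ev p) = D.ht (U.pos w m1)) := by
    rcases le_total n1 m1 with h | h
    · obtain ⟨p', hp'⟩ := hreach m1 n1 han (hmm.le.trans hmb)
      refine ⟨(w.take m1).drop n1, p', U.go_piece w h, hp', fun _ => ?_⟩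
      rw [U.ev_piece w h, D.ht_mul, D.ht_inv]; ring
    · obtain ⟨p, hp⟩ := hreach n1 m1 ham (hnn.le.trans hnb)
      refine ⟨p, (w.take n1).drop m1, hp, U.go_piece w h, fun h0 => ?_⟩
      rw [U.ev_piece w h, D.ht_mul, D.ht_inv] at h0
      linarith
  obtain ⟨hEf, hh0, hvel⟩ := U.loop_vel hb (U.st_live hw n1) hne (by rw [hev]; exact hEll) hge
    hp hp' hgf
  have hht' := hht hh0
  -- velocity of `f`
  have hc : (e.length : ℂ) ≠ 0 := by
    have : 0 < e.length := List.length_pos_iff.mpr hne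
    exact_mod_cast this.ne'
  have hue : D.u (U.pos w n2) - D.u (U.pos w n1) = (D.A ^ D.ht (U.pos w n1)) (D.u (U.ev e)) := by
    rw [hev]; exact U.u_pos_sub w
  have huf : D.u (U.pos w m2) - D.u (U.pos w m1) = (D.A ^ D.ht (U.pos w m1)) (D.u (U.ev f)) := by
    rw [hevf]; exact U.u_pos_sub w
  have hel' : (e.length : ℂ) = (n2 : ℂ) - n1 := by
    rw [hel, Nat.cast_sub hnn.le]
  have hfl' : (f.length : ℂ) = (m2 : ℂ) - m1 := by
    rw [hfl, Nat.cast_sub hmm.le]
  have h1 : (e.length : ℂ) • (D.u (U.pos w m2) - D.u (U.pos w m1)) =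
      (e.length : ℂ) • ((f.length : ℂ) • β) := by
    have h2 := congrArg (D.A ^ D.ht (U.pos w n1)) hvel
    rw [map_smul, map_smul, ← D.Apow_add, hht', ← huf, ← hue, hβ, ← hel'] at h2
    rw [h2, smul_comm]
  have h3 : D.u (U.pos w m2) - D.u (U.pos w m1) = (f.length : ℂ) • β :=
    smul_right_injective _ hc h1
  -- transport to `w'`
  have hhf : D.ht (U.pos w m2) = D.ht (U.pos w m1) := by
    have := WD.ht_of_Ell hEf
    rw [hevf, D.ht_mul, D.ht_inv] at this
    linarith
  set κ := (U.pos w m1)⁻¹ * U.pos w' m1 with hκdef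
  have hp1 : U.pos w' m1 = U.pos w m1 * κ := by rw [hκdef]; group
  have hp2 : U.pos w' m2 = U.pos w m2 * κ := by rw [hκ]; group
  clear_value κ
  refine ⟨m1, m2, ham, hmm, hmb, hmb.trans hbw', hst', ?_, ?_⟩
  · have h4 : (U.pos w' m1)⁻¹ * U.pos w' m2 = κ⁻¹ * U.ev f * (κ⁻¹)⁻¹ := by
      rw [hp1, hp2, hevf]; group
    rw [h4]
    exact WD.Ell_conj hEf κ⁻¹
  · rw [hp1, hp2, D.u_mul, D.u_mul, hhf, add_sub_add_right_eq_sub, h3, hfl']

end UAS

end Pool.Agent.HNNA
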