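import Pool.Agent.HNNA.Basic

/-! MP_4b60bf_al.  MODULE WORDS (about 150 lines): combinatorics of words.

PROOFS.
* `comm_wpow`: from `x ++ y = y ++ x` the words `x^a ++ y^b = y^b ++ x^a` for all `a, b`; take
  `a = |y|`, `b = |x|`; both sides start with words of equal length `|x||y|`, hence they agree.
* `block_ne`: let `a < b`; cancel the common prefix `e^a` and the common suffix `e^(N-b)`:
  `f ++ e^(b-a) = e^(b-a) ++ f`, contradicting `h (b - a)`.
* `block_inj`: all blocks `e^a f e^(N-a)` have the same length, so equal concatenations have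
  equal blocks; use `block_ne`.
* `loops_comm`: `f` commutes with `E = e^(d d')`, so does `g`.  `f ++ g` and `g ++ f` commute
  with `E`, hence with all powers of `E`; a word `z` commuting with `E^m` and of length at most
  `m |E|` is a prefix of `E^m` (compare `z ++ E^m = E^m ++ z`).  `f ++ g` and `g ++ f` have the
  same length and are both prefixes of a large power of `E`, hence equal. -/

namespace Pool.Agent.HNNA

variable {α : Type}

@[simp] lemma wpow_length (w : List α) (m : ℕ) : (wpow w m).length = m * w.length := by
  induction m with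
  | zero => simp [wpow]
  | succ m ih =>
    rw [wpow, List.length_append, ih]
    ring

lemma wpow_add (w : List α) (a b : ℕ) : wpow w (a + b) = wpow w a ++ wpow w b := by
  induction a with
  | zero => simp [wpow]
  | succ a ih =>
    rw [show a + 1 + b = (a + b) + 1 by omega, wpow, ih, wpow, List.append_assoc]

@[simp] lemma wpow_one (w : List α) : wpow w 1 = w := by
  simp [wpow]

lemma wpow_succ' (w : List α) (m : ℕ) : wpow w (m + 1) = wpow w m ++ w := by
  rw [wpow_add, wpow_one]

lemma wpow_wpow (w : List α) (a b : ℕ) : wpow (wpow w a) b = wpow w (a * b) := by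
  induction b with
  | zero => simp [wpow]
  | succ b ih =>
    rw [wpow, ih, ← wpow_add]
    congr 1
    ring

lemma comm_wpow_left {x y : List α} (h : x ++ y = y ++ x) (a : ℕ) :
    wpow x a ++ y = y ++ wpow x a := by
  induction a with
  | zero => simp [wpow]
  | succ a ih =>
    rw [wpow, List.append_assoc, ih, ← List.append_assoc, h, List.append_assoc]

theorem comm_wpow {x y : List α} (h : x ++ y = y ++ x) :
    wpow x y.length = wpow y x.length := by
  have h1 := comm_wpow_left h y.length
  have h2 := comm_wpow_left h1.symm x.length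
  refine (List.append_inj h2 ?_).1.symm
  rw [wpow_length, wpow_length, mul_comm]

lemma block_aux {e f : List α} (h : ∀ d : ℕ, 1 ≤ d → wpow e d ++ f ≠ f ++ wpow e d)
    {N a b : ℕ} (hb : b ≤ N) (hab' : a < b)
    (hab : wpow e a ++ f ++ wpow e (N - a) = wpow e b ++ f ++ wpow e (N - b)) : False := by
  have e1 : wpow e b = wpow e a ++ wpow e (b - a) := by
    rw [← wpow_add]
    congr 1
    omega
  have e2 : wpow e (N - a) = wpow e (b - a) ++ wpow e (N - b) := by
    rw [← wpow_add]
    congr 1
    omega
  rw [e1, e2] at hab
  simp only [List.append_assoc] at hab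
  have h1 := List.append_cancel_left hab
  rw [← List.append_assoc, ← List.append_assoc] at h1
  exact h (b - a) (by omega) (List.append_cancel_right h1).symm

theorem block_ne {e f : List α} (h : ∀ d : ℕ, 1 ≤ d → wpow e d ++ f ≠ f ++ wpow e d)
    {N a b : ℕ} (ha : a ≤ N) (hb : b ≤ N)
    (hab : wpow e a ++ f ++ wpow e (N - a) = wpow e b ++ f ++ wpow e (N - b)) : a = b := by
  rcases lt_trichotomy a b with h1 | h1 | h1
  · exact (block_aux h hb h1 hab).elim
  · exact h1
  · exact (block_aux h ha h1 hab.symm).elim

lemma flatten_inj (c : ℕ) : ∀ l l' : List (List α), l.length = l'.length →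
    (∀ x ∈ l, x.length = c) → (∀ x ∈ l', x.length = c) → l.flatten = l'.flatten → l = l' := by
  intro l
  induction l with
  | nil =>
    intro l' hl _ _ _
    exact (List.length_eq_zero_iff.1 hl.symm).symm
  | cons x l ih =>
    intro l' hl h1 h2 h3
    cases l' with
    | nil => simp at hl
    | cons y l' =>
      rw [List.flatten_cons, List.flatten_cons] at h3
      have hx : x.length = c := h1 x (by simp)
      have hy : y.length = c := h2 y (by simp)
      obtain ⟨h4, h5⟩ := List.append_inj h3 (by rw [hx, hy])
      rw [h4, ih l' (by simpa using hl) (fun z hz => h1 z (List.mem_cons_of_mem _ hz))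
        (fun z hz => h2 z (List.mem_cons_of_mem _ hz)) h5]

theorem block_inj {e f : List α} (h : ∀ d : ℕ, 1 ≤ d → wpow e d ++ f ≠ f ++ wpow e d)
    (N m : ℕ) : Function.Injective (fun a : Fin m → Fin (N + 1) =>
      (List.ofFn fun i => wpow e (a i) ++ f ++ wpow e (N - a i)).flatten) := by
  intro a a' haa
  have hlen : ∀ (a : Fin m → Fin (N + 1)), ∀ x ∈ (List.ofFn fun i =>
      wpow e (a i) ++ f ++ wpow e (N - a i)), x.length = N * e.length + f.length := by
    intro a x hx
    rw [List.mem_ofFn'] at hx
    obtain ⟨i, rfl⟩ := hx
    simp only [List.length_append, wpow_length]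
    have h1 : (a i : ℕ) ≤ N := by
      have := (a i).2
      omega
    have h2 : N * e.length = (a i : ℕ) * e.length + (N - a i) * e.length := by
      rw [← add_mul]
      congr 1
      omega
    rw [h2]
    ring
  have h1 := flatten_inj (N * e.length + f.length) _ _ (by simp) (hlen a) (hlen a') haa
  have h2 := List.ofFn_injective h1
  funext i
  apply Fin.ext
  have h3 := (a i).2
  have h4 := (a' i).2
  exact block_ne h (by omega) (by omega) (congrFun h2 i)

theorem loops_comm {e f g : List α} (he : e ≠ []) {d d' : ℕ} (hd : 1 ≤ d) (hd' : 1 ≤ d')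
    (hf : wpow e d ++ f = f ++ wpow e d) (hg : wpow e d' ++ g = g ++ wpow e d') :
    f ++ g = g ++ f := by
  set E := wpow e (d * d') with hE
  have hfE : E ++ f = f ++ E := by
    rw [hE, ← wpow_wpow]
    exact comm_wpow_left hf d'
  have hgE : E ++ g = g ++ E := by
    rw [hE, mul_comm, ← wpow_wpow]
    exact comm_wpow_left hg d
  have hElen : 1 ≤ E.length := by
    rw [hE, wpow_length]
    have h1 : 1 ≤ e.length := List.length_pos_iff.2 he
    exact Nat.mul_pos (Nat.mul_pos hd hd') h1
  have key : ∀ z : List α, E ++ z = z ++ E → ∀ m : ℕ, z.length ≤ m →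
      z = (wpow E m).take z.length := by
    intro z hz m hm
    have h1 := comm_wpow_left hz m
    have h2 := congrArg (List.take z.length) h1
    rw [List.take_append_of_le_length, List.take_left] at h2
    · exact h2.symm
    · rw [wpow_length]
      exact hm.trans (Nat.le_mul_of_pos_right m hElen)
  have h1 : E ++ (f ++ g) = (f ++ g) ++ E := by
    rw [← List.append_assoc, hfE, List.append_assoc, hgE, List.append_assoc]
  have h2 : E ++ (g ++ f) = (g ++ f) ++ E := by
    rw [← List.append_assoc, hgE, List.append_assoc, hfE, List.append_assoc]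
  have hlen : (f ++ g).length = (g ++ f).length := by
    simp [List.length_append, add_comm]
  rw [key _ h1 _ le_rfl]
  conv_rhs => rw [key _ h2 (f ++ g).length hlen.symm.le]
  rw [hlen]

namespace UAS

variable {D : WD} (U : UAS D)

@[simp] lemma ev_wpow (w : U.W) (m : ℕ) : U.ev (wpow w m) = U.ev w ^ m := by
  induction m with
  | zero => simp [wpow]
  | succ m ih => rw [wpow, ev_append, ih, pow_succ']

lemma go_wpow {s : U.S} {e : U.W} (h : U.go s e = s) (m : ℕ) : U.go s (wpow e m) = s := by
  induction m with
  | zero => rfl
  | succ m ih => rw [wpow, go_append, h, ih]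

end UAS

end Pool.Agent.HNNA
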